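import Pool.Agent.Lib.TWRS.Asm1
import Pool.Agent.Lib.TWEX.BaseS

/-!
# TANK W, row (Rt): the input of the windows, and the row

* `exists_G`: the homogeneous element of a rational radius;
* `rtIn_of_winIn`: the input record;
* `mobQ0_rt`: the critical step for a strict first floor of any radius.
-/

set_option autoImplicit false

open Polynomial Finset

namespace Pool.Agent.TWRS

open Pool.Agent.H15JM (RVal)
open Pool.Agent.LU1 (VPos adj)
open Pool.Agent.D2 (Ctx0)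
open Pool.Agent.D2P (hen clI mem_clI)
open Pool.Agent.TWM
open Pool.Agent.TWII (PG LP Nr)
open Pool.Agent.TWLM (HSd Oi Arc)
open Pool.Agent.TWN1 (Set0)
open Pool.Agent.TWEX (SFl Adn STr WinIn SRow srow_dich exists_hit adn_dense adn_stable
  exists_set0_dense FinSh STw mobQ0_wi cadj_eq_of_le)
open Pool.Agent.TWS7 (STow PDiv Irr Unhit FGc MotE alt_of mobQ0_of_mot)
open Pool.Agent.TW (Ctx Full BD HRone LU Mot kr)

universe u u'

section G

variable {k Ω : Type u} [Field k] [Field Ω] [Algebra k Ω] {v : RVal Ω}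

/-- The homogeneous element of a rational radius. -/
theorem exists_G {p : ℕ} (hp : p.Prime) {C : IntermediateField k Ω} {σ : ℝ}
    {R : Type*} [SetLike R Ω] {A : R}
    (hd : ∀ x ∈ C, ∀ b : ℝ, ∃ g ∈ A, v.Ge b (x - g))
    (hrat : ∃ n : ℕ, n ≠ 0 ∧ ∃ x ∈ C, x ≠ 0 ∧ v x = n * σ) (hdiv : PDiv p v C) :
    ∃ (G : Ω) (m : ℕ), 0 < m ∧ ¬ p ∣ m ∧ G ∈ A ∧ G ≠ 0 ∧ v G = -(m * σ) ∧
      ∀ n : ℕ, ∀ x ∈ C, x ≠ 0 → v x = n * σ → m ∣ n := by
  classical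
  obtain ⟨x₀, hx₀, hx₀0, hxv⟩ := (Nat.find_spec hrat).2
  have hm0 : Nat.find hrat ≠ 0 := (Nat.find_spec hrat).1
  set m := Nat.find hrat with hm
  have hmin : ∀ n : ℕ, n ≠ 0 → ∀ x ∈ C, x ≠ 0 → v x = n * σ → m ≤ n := fun n hn x hx hx0 h1 =>
    Nat.find_min' hrat ⟨hn, x, hx, hx0, h1⟩
  -- the element
  have hi0 : x₀⁻¹ ≠ 0 := inv_ne_zero hx₀0
  have hiv : v x₀⁻¹ = -(m * σ) := by rw [v.map_inv hx₀0, hxv]
  obtain ⟨G, hG, h1⟩ := hd x₀⁻¹ (inv_mem hx₀) (v x₀⁻¹ + 1)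
  obtain ⟨hG0, hGv⟩ := Gt.val_eq hi0 (Gt.of_ge h1 (by linarith))
  refine ⟨G, m, Nat.pos_of_ne_zero hm0, ?_, hG, hG0, by rw [hGv, hiv], ?_⟩
  · rintro ⟨m₁, h2⟩
    obtain ⟨g, hg, hg0, h3⟩ := hdiv x₀ hx₀ hx₀0
    have hp0 : (0 : ℝ) < p := by exact_mod_cast hp.pos
    have h4 : v g = m₁ * σ := by
      rw [hxv, h2] at h3
      push_cast at h3
      have h5 : (p : ℝ) * (m₁ * σ - v g) = 0 := by linarith
      rcases mul_eq_zero.1 h5 with h6 | h6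
      · exact absurd h6 hp0.ne'
      · linarith
    have hm₁ : m₁ ≠ 0 := by
      rintro rfl
      exact hm0 (by rw [h2, mul_zero])
    have h5 := hmin m₁ hm₁ g hg hg0 h4
    have h6 : 2 * m₁ ≤ p * m₁ := Nat.mul_le_mul_right _ hp.two_le
    omega
  · intro n x hx hx0 h2
    by_contra h3
    have h4 : n % m ≠ 0 := fun h5 => h3 (Nat.dvd_of_mod_eq_zero h5)
    have h5 : v (x * (x₀⁻¹) ^ (n / m)) = (n % m : ℕ) * σ := by
      rw [v.map_mul hx0 (pow_ne_zero _ hi0), v.map_pow hi0, h2, hiv]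
      have h6 : ((m * (n / m) + n % m : ℕ) : ℝ) = n := by rw [Nat.div_add_mod]
      push_cast at h6
      rw [← h6]
      ring
    have h6 := hmin _ h4 _ (mul_mem hx (pow_mem (inv_mem hx₀) _))
      (mul_ne_zero hx0 (pow_ne_zero _ hi0)) h5
    have h7 := Nat.mod_lt n (Nat.pos_of_ne_zero hm0)
    omega

/-- Finite shape, on the jets. -/
theorem fin_of_finSh {C : IntermediateField k Ω} {D : ℕ → Ω → Ω} {u : Ω} {U : PowerSeries Ω}
    {κ : ℕ → ℝ} {r σ : ℝ} (hS : Set0 v C D u U κ r σ) (h : FinSh v C σ r D u) :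
    ∃ L : ℕ, ∀ n : ℕ, L < n → v.Ge (r - n * σ) (PowerSeries.coeff n U) := by
  obtain ⟨L, hL⟩ := h
  refine ⟨L, fun n hn => ?_⟩
  obtain ⟨δ, hδ, h1⟩ := hL n hn
  have hκ := hS.kpos n
  obtain ⟨c, hc, h2⟩ := hS.tl.lim (min δ (κ n / 2)) (lt_min hδ (half_pos hκ))
  have h3 := h1 c hc (h2.mono (by linarith [min_le_left δ (κ n / 2)]))
  have h4 := hS.near n (by omega) c hc _ h2
  have e : PowerSeries.coeff n U = (PowerSeries.coeff n U - D n c) + D n c := by ring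
  rw [e]
  refine (h4.mono ?_).add h3
  have h5 := min_le_right δ (κ n / 2)
  have h6 : r ≤ min (r - min δ (κ n / 2) + κ n) (r + κ n / 2) := le_min (by linarith) (by linarith)
  linarith

end G

section row

variable {k Ω Ω' : Type u'} [Field k] [Field Ω] [Algebra k Ω] [Field Ω'] [Algebra k Ω']
  {v : RVal Ω} {w : RVal Ω'} {ι : Ω →ₐ[k] Ω'}

/-- The input record, rational radius. -/
theorem rtIn_of_winIn [IsAlgClosed Ω'] (p : ℕ) [hp : Fact p.Prime] [CharP Ω' p]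
    (h' : Ctx k w 1) {N L : IntermediateField k Ω'} {x y u z a : Ω'}
    {σ ρ s ν : ℝ} {D : ℕ → Ω' → Ω'} (h : WinIn p w N x y σ D u ρ z s L ν a)
    (hrat : ¬ Irr w L σ) :
    ∃ (U : PowerSeries Ω') (κ : ℕ → ℝ) (L₁ : ℕ) (G : Ω') (m : ℕ) (f : Polynomial Ω'),
      RtIn p w N L x y σ D u ρ z s ν a U κ L₁ G m f := by
  classical
  have hfl := h.row.sfl
  have htu := h.row.tu
  have htw := h.row.tw
  have hN₀ : IntermediateField.adjoin k {x} ≤ N := by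
    rw [IntermediateField.adjoin_simple_le_iff]
    exact h.xN
  have hNC : N ≤ cadj w N y := le_cadj w N y
  have hyC : y ∈ cadj w N y := self_mem_cadj w N y
  have hd1 : ∀ a ∈ cadj w N y, ∀ b : ℝ,
      ∃ g ∈ Adn (IntermediateField.adjoin k {x}) ({y} : Set Ω'), w.Ge b (a - g) :=
    fun a ha b => adn_dense h' h.x0 h.xv a (h.den ha) b
  have hs1 := adn_stable hfl.hsd (hN₀.trans hNC) (fun x hx n hn => hfl.const (hN₀ hx) hn)
    (S := {y}) (fun x hx => by rw [Set.mem_singleton_iff.1 hx]; exact hyC) (fun x hx n hn => by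
      rw [Set.mem_singleton_iff.1 hx]
      by_cases hn1 : n = 1
      · rw [hn1, hfl.coord_one]
        exact one_mem _
      · rw [hfl.coord_two (by omega)]
        exact zero_mem _)
  obtain ⟨U, κ, hU, hUp⟩ := exists_set0_dense hfl.hsd hfl.oi hfl.str htu
    (R := Adn (IntermediateField.adjoin k {x}) ({y} : Set Ω')) (fun x hx => (hs1 x hx).1) hd1
    (fun x hx => (hs1 x hx).2)
  obtain ⟨L₁, hL₁⟩ := fin_of_finSh hU h.fin
  -- the value group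
  have hdL := h.div
  rw [h.row.eq] at hdL
  have hdC : PDiv p w (cadj w N y) := TWEX.PDiv.of_cadj htu (TWEX.PDiv.of_cadj htw hdL)
  have hratC : ∃ n : ℕ, n ≠ 0 ∧ ∃ x ∈ cadj w N y, x ≠ 0 ∧ w x = n * σ := by
    unfold Irr at hrat
    push Not at hrat
    obtain ⟨n, hn, g, hg, hg0, hgv⟩ := hrat
    rw [h.row.eq] at hg
    obtain ⟨a₁, ha₁, h1⟩ := htw.imm.imm g hg hg0
    obtain ⟨h2, h3⟩ := Gt.val_eq hg0 h1
    obtain ⟨a₂, ha₂, h4⟩ := htu.imm.imm a₁ ha₁ h2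
    obtain ⟨h5, h6⟩ := Gt.val_eq h2 h4
    exact ⟨n, hn, a₂, ha₂, h5, by rw [h6, h3, hgv]⟩
  obtain ⟨G, m, hm0, hpm, hG, hG0, hGv, hm⟩ := exists_G hp.out hd1 hratC hdC
  obtain ⟨f, hf, -, hlim, hhit⟩ := exists_hit htw h.row.eq h.mem h.lim h.hit
  exact ⟨U, κ, L₁, G, m, f,
    { xN := h.xN
      x0 := h.x0
      xv := h.xv
      cN := h.row.cN
      fl := hfl
      den := hd1
      set0 := hU
      uR := hUp
      fin := hL₁
      tz := htw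
      eq := h.row.eq
      m0 := hm0
      pm := hpm
      gR := hG
      g0 := hG0
      gv := hGv
      mdv := hm
      pf := hf
      lim := hlim
      hit := hhit
      mem := h.mem
      la := h.lim }⟩

/-- **The windows**: motions of small effect. -/
theorem motE_of_winIn [IsAlgClosed k] [IsAlgClosed Ω] [IsAlgClosed Ω'] (p : ℕ)
    [hp : Fact p.Prime] [CharP k p] [CharP Ω p] (h : Ctx k v 1) (hcw : CompleteV w)
    (hd : Dense v w ι) {K₀ : IntermediateField k Ω} (hK : K₀.FG) (hΩ : ∀ g : Ω, IsAlgebraic K₀ g)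
    (htr : Algebra.trdeg k K₀ = (4 : ℕ)) (hBD : BD p v K₀) {N : IntermediateField k Ω'}
    {x y u z : Ω'} {σ ρ s ν : ℝ} {D : ℕ → Ω' → Ω'} {a : Ω}
    (hrat : ¬ Irr w (clI w (K₀.map ι)) σ)
    (hW : WinIn p w N x y σ D u ρ z s (clI w (K₀.map ι)) ν (ι a)) (ha : a ∈ K₀) :
    MotE p v K₀ ν a := by
  have : CharP Ω' p := Dense.charP ι p
  have h' : Ctx k w 1 := Dense.ctx hd h
  obtain ⟨U, κ, L₁, G, m, f, hR⟩ := rtIn_of_winIn p h' hW hrat
  obtain ⟨Θ, T₀, c₀, hWin, hnull⟩ := exists_win p hcw h'.toCtx0 hR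
  exact motE_of_win p h hcw hd hK hΩ htr hBD hWin (cl_of_tower hW.xN hW.den hW.row.eq) ha hnull

/-- **Row (Rt)**: leaf (II), first floor strict over a closed field `N`, of any radius. -/
theorem mobQ0_rt [IsAlgClosed k] [IsAlgClosed Ω] (p : ℕ) [Fact p.Prime] [CharP k p]
    [CharP Ω p] (h : Ctx k v 1) {K₀ : IntermediateField k Ω} (hK : K₀.FG)
    (hΩ : ∀ g : Ω, IsAlgebraic K₀ g) (htr : Algebra.trdeg k K₀ = (4 : ℕ)) (hBDK : BD p v K₀)
    (hgr : PDiv p v K₀) {g : Ω} (hg : g ∉ K₀) (hgp : g ^ p ∈ K₀) (hBD : BD p v (adj K₀ g))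
    (hst : STr p v K₀) :
    HRone v (adj K₀ g) ∨
      ∃ (φ : ℕ → (Ω ≃ₐ[k] Ω)) (δ : ℕ → Ω) (ρ : ℝ), Mot v K₀ φ δ ρ ∧
        ∀ i, ∃ c ∈ hen v K₀, ∃ b ∈ hen v K₀, c ≠ 0 ∧ φ i (g ^ p) = c ^ p * g ^ p + b ^ p := by
  obtain ⟨Ω', iF, iA, ι, w, iC, hcw, hd, N, x, y, σ, D, u, ρ, z, s, hx0, hxv, hx, hC, hS⟩ := hst
  by_cases hirr : Irr w (clI w (K₀.map ι)) σ
  · exact mobQ0_wi p h hK hΩ htr hBDK hgr hg hgp hBD ⟨Ω', iF, iA, ι, w, iC, hcw, hd, N, x, y, σ,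
      D, u, ρ, z, s, hx0, hxv, hx, hC, ⟨hS.cN, hS.val, hS.sfl, hS.fg, hirr, hS.tu, hS.tw, hS.eq⟩⟩
  have hcp : CharP Ω' p := Dense.charP ι p
  have ham : ι (g ^ p) ∈ clI w (K₀.map ι) := le_clI _ (Dense.apply_mem_map.2 hgp)
  rcases alt_of p h hcw hd hK (TWM.full_of_all hΩ) htr hBDK hg hgp hBD (fun ν h1 h2 => by
    rcases srow_dich hcw hS ham h1 with h3 | ⟨u', z', ρ', s', hS', hu, hz⟩
    · exact Or.inl h3
    · exact Or.inr (motE_of_winIn p h hcw hd hK hΩ htr hBDK hirr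
        ⟨hx0, hxv, hx, hC, hS', hu, hz, ham, h1, h2, TWEX.pdiv_clI p hd hgr⟩ hgp)) with h1 | ⟨ν, h1, -, h3⟩
  · exact Or.inl h1
  · exact Or.inr (mobQ0_of_mot p h hK hΩ hBDK hgr hgp h1 h3)

end row

end Pool.Agent.TWRS
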