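import Pool.Agent.Lib.TWRS.Defs
import Pool.Agent.Lib.TWEX.BaseT

/-!
# TANK W, row (Rt): composition of parameters

* `cmp_cmp`: the composed arc of a composed arc;
* `Had.subst`, `Had.subst_ne`: homogeneous additive polynomials compose;
* `had_alpQ`, `Had.eq_alp`: `alp` and `Had`;
* `cmp_y`, `cmp_ser`, `cmp_u`: jets of `y` and `u`;
* `adn_stab`: the ring generated by elements whose jets lie in it is stable.
-/

set_option autoImplicit false

open Polynomial Finset

namespace Pool.Agent.TWRS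

open Pool.Agent.H15JM (RVal)
open Pool.Agent.D2 (Ctx0)
open Pool.Agent.TWM
open Pool.Agent.TWLM (HSd Oi Arc)
open Pool.Agent.TWN1 (ser coeff_ser Sn)
open Pool.Agent.TWEX (cmp alp cmp_eq coeff_subst_eq const_alp coeff_alp alp_pow coeff_pow_lt Adn)

universe u

variable {k Ω : Type u} [Field k] [Field Ω] [Algebra k Ω] {v : RVal Ω}

section cmp

variable {Φ : ℕ → Ω → Ω} {α β : PowerSeries Ω}

omit [Algebra k Ω] in
theorem ser_cmp (f : Ω) : ser (cmp Φ α) f = (ser Φ f).subst α := by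
  ext n
  rw [coeff_ser, TWEX.cmp]

/-- The composed arc of a composed arc. -/
theorem cmp_cmp (hα : PowerSeries.constantCoeff α = 0) (hβ : PowerSeries.constantCoeff β = 0)
    (n : ℕ) (f : Ω) : cmp (cmp Φ α) β n f = cmp Φ (α.subst β) n f := by
  rw [TWEX.cmp, ser_cmp, PowerSeries.subst_comp_subst_apply
    (PowerSeries.HasSubst.of_constantCoeff_zero' hα)
    (PowerSeries.HasSubst.of_constantCoeff_zero' hβ), TWEX.cmp]

theorem const_subst (hα : PowerSeries.constantCoeff α = 0)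
    (hβ : PowerSeries.constantCoeff β = 0) : PowerSeries.constantCoeff (α.subst β) = 0 := by
  rw [← PowerSeries.coeff_zero_eq_constantCoeff_apply, coeff_subst_eq hβ, sum_range_one,
    PowerSeries.coeff_zero_eq_constantCoeff_apply, hα, zero_mul]

/-- Jets given by a series, along `β`. -/
theorem cmp_ser (hβ : PowerSeries.constantCoeff β = 0) {S : PowerSeries Ω} {u : Ω}
    (hS : ∀ n : ℕ, n ≠ 0 → Φ n u = PowerSeries.coeff n S) {n : ℕ} (hn : n ≠ 0) :
    cmp Φ β n u = PowerSeries.coeff n (S.subst β) := by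
  rw [cmp_eq hβ, coeff_subst_eq hβ]
  refine sum_congr rfl fun i _ => ?_
  rcases eq_or_ne i 0 with rfl | hi
  · rw [pow_zero, PowerSeries.coeff_one, if_neg hn, mul_zero, mul_zero]
  · rw [hS i hi]

/-- Jets of the coordinate. -/
theorem cmp_y (hβ : PowerSeries.constantCoeff β = 0) {y : Ω}
    (hy : ∀ n : ℕ, n ≠ 0 → Φ n y = if n = 1 then 1 else 0) {n : ℕ} (hn : n ≠ 0) :
    cmp Φ β n y = PowerSeries.coeff n β := by
  rw [cmp_ser (S := PowerSeries.X) hβ (fun i hi => by rw [hy i hi, PowerSeries.coeff_X]) hn,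
    PowerSeries.subst_X (PowerSeries.HasSubst.of_constantCoeff_zero' hβ)]

/-- Jets of `u` in the family, along a further parameter. -/
theorem cmp_u {α' : PowerSeries Ω} (hα : PowerSeries.constantCoeff α = 0)
    (hα' : PowerSeries.constantCoeff α' = 0) {U : PowerSeries Ω} {b u : Ω}
    (hS : ∀ n : ℕ, n ≠ 0 → Φ n u = PowerSeries.coeff n (U.subst α) +
      b * PowerSeries.coeff n β) {n : ℕ} (hn : n ≠ 0) :
    cmp Φ α' n u = PowerSeries.coeff n (U.subst (α.subst α')) +
      b * PowerSeries.coeff n (β.subst α') := by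
  have hs := PowerSeries.HasSubst.of_constantCoeff_zero' hα
  have hs' := PowerSeries.HasSubst.of_constantCoeff_zero' hα'
  rw [cmp_eq hα', ← PowerSeries.subst_comp_subst_apply hs hs', coeff_subst_eq hα',
    coeff_subst_eq hα', mul_sum, ← sum_add_distrib]
  refine sum_congr rfl fun i _ => ?_
  rcases eq_or_ne i 0 with rfl | hi
  · rw [pow_zero, PowerSeries.coeff_one, if_neg hn]
    ring
  · rw [hS i hi]
    ring

end cmp

section had

variable {p : ℕ} {G : Ω} {m w w' n Q Q' : ℕ} {α β : PowerSeries Ω}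

theorem _root_.Pool.Agent.TWRS.Hm.cancel {a : Ω} {e : ℕ} (h : Hm k G m (w + e) (n + e) a) :
    Hm k G m w n a := by
  rcases h with rfl | ⟨l, N, h1, h2⟩
  · exact .zero
  · exact Or.inr ⟨l, N, by omega, h2⟩

theorem Had.monoQ (h : Had k p G m w Q α) (hQ : Q ≤ Q') : Had k p G m w Q' α :=
  ⟨h.hm, h.add, fun n hn => h.deg n (by omega)⟩

theorem Had.const [hp : Fact p.Prime] (h : Had k p G m w Q α) :
    PowerSeries.constantCoeff α = 0 := by
  by_contra h1
  rw [← PowerSeries.coeff_zero_eq_constantCoeff_apply] at h1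
  obtain ⟨t, ht⟩ := h.add 0 h1
  exact absurd ht (pow_pos hp.out.pos t).ne

theorem Had.eq_alp [hp : Fact p.Prime] (h : Had k p G m w Q α) :
    α = alp p (range (Q + 1)) fun t => PowerSeries.coeff (p ^ t) α := by
  ext n
  rw [coeff_alp]
  by_cases hn : PowerSeries.coeff n α = 0
  · rw [hn]
    refine (sum_eq_zero fun t _ => ?_).symm
    split_ifs with h1
    · rw [← h1, hn]
    · rfl
  · obtain ⟨t, rfl⟩ := h.add n hn
    have h1 : p ^ t ≤ Q := by
      by_contra h2
      exact hn (h.deg _ (by omega))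
    have h3 : t < p ^ t := Nat.lt_pow_self hp.out.one_lt
    rw [sum_eq_single t]
    · rw [if_pos rfl]
    · intro s _ hs
      rw [if_neg]
      intro h4
      exact hs (Nat.pow_right_injective hp.out.two_le h4).symm
    · intro h4
      exact absurd (mem_range.2 (by omega)) h4

theorem had_alpQ [Fact p.Prime] (hm : 0 < m) {T : Finset ℕ} {c : ℕ → Ω}
    (hc : ∀ t ∈ T, Hm k G m w (p ^ t) (c t)) (hT : ∀ t ∈ T, p ^ t ≤ Q) :
    Had k p G m w Q (alp p T c) where
  hm n := by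
    rw [coeff_alp]
    refine Hm.sum hm _ _ fun t ht => ?_
    split_ifs with h1
    · rw [h1]
      exact hc t ht
    · exact .zero
  add n hn := by
    by_contra h1
    push Not at h1
    rw [coeff_alp] at hn
    exact hn (sum_eq_zero fun t _ => if_neg (h1 t))
  deg n hn := by
    rw [coeff_alp]
    refine sum_eq_zero fun t ht => if_neg ?_
    intro h1
    have := hT t ht
    omega

theorem Had.pow_coeff [hp : Fact p.Prime] [CharP Ω p] (h : Had k p G m w Q α) (s t : ℕ) :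
    PowerSeries.coeff (p ^ (s + t)) (α ^ p ^ s) = PowerSeries.coeff (p ^ t) α ^ p ^ s := by
  by_cases h0 : PowerSeries.coeff (p ^ t) α = 0
  · rw [h0, zero_pow (pow_pos hp.out.pos s).ne']
    conv_lhs => rw [h.eq_alp]
    rw [alp_pow]
    refine sum_eq_zero fun t' _ => ?_
    split_ifs with h1
    · have h2 := Nat.pow_right_injective hp.out.two_le h1
      have h3 : t' = t := by
        change s + t = t' + s at h2
        omega
      rw [h3, h0, zero_pow (pow_pos hp.out.pos s).ne']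
    · rfl
  · have h1 : p ^ t ≤ Q := by
      by_contra h2
      exact h0 (h.deg _ (by omega))
    have h3 : t < p ^ t := Nat.lt_pow_self hp.out.one_lt
    conv_lhs => rw [h.eq_alp]
    rw [alp_pow, sum_eq_single t]
    · rw [if_pos (by rw [add_comm])]
    · intro t' _ ht'
      rw [if_neg]
      intro h4
      have h5 := Nat.pow_right_injective hp.out.two_le h4
      change s + t = t' + s at h5
      omega
    · intro h4
      exact absurd (mem_range.2 (by omega)) h4

theorem Had.pow_ne [hp : Fact p.Prime] [CharP Ω p] (h : Had k p G m w Q α) (s : ℕ) {n : ℕ}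
    (hn : PowerSeries.coeff n (α ^ p ^ s) ≠ 0) :
    ∃ t : ℕ, n = p ^ (s + t) ∧ PowerSeries.coeff (p ^ t) α ≠ 0 := by
  have h1 := hn
  rw [h.eq_alp, alp_pow] at h1
  obtain ⟨t, -, ht⟩ := exists_ne_zero_of_sum_ne_zero h1
  have h2 : n = p ^ (t + s) := by
    by_contra h3
    exact ht (if_neg h3)
  have h3 : n = p ^ (s + t) := by rw [h2, add_comm]
  refine ⟨t, h3, fun h4 => hn ?_⟩
  rw [h3, h.pow_coeff, h4, zero_pow (pow_pos hp.out.pos s).ne']

/-- The coefficients of a composite. -/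
theorem Had.subst_coeff [hp : Fact p.Prime] [CharP Ω p] (h : Had k p G m w Q β)
    (h' : Had k p G m w' Q' α) (N : ℕ) :
    PowerSeries.coeff (p ^ N) (β.subst α) = ∑ s ∈ range (N + 1),
      PowerSeries.coeff (p ^ s) β * PowerSeries.coeff (p ^ (N - s)) α ^ p ^ s := by
  classical
  have hp1 := hp.out.one_lt
  rw [coeff_subst_eq h'.const]
  have hinj : Set.InjOn (fun s : ℕ => p ^ s) (range (N + 1) : Set ℕ) := fun a _ b _ hab =>
    Nat.pow_right_injective hp.out.two_le hab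
  have h1 : ∑ s ∈ range (N + 1),
      PowerSeries.coeff (p ^ s) β * PowerSeries.coeff (p ^ (N - s)) α ^ p ^ s =
      ∑ i ∈ (range (N + 1)).image fun s => p ^ s,
        PowerSeries.coeff i β * PowerSeries.coeff (p ^ N) (α ^ i) := by
    rw [sum_image hinj]
    refine sum_congr rfl fun s hs => ?_
    have hs' : s ≤ N := Nat.lt_succ_iff.1 (mem_range.1 hs)
    rw [← h'.pow_coeff s (N - s), Nat.add_sub_cancel' hs']
  rw [h1]
  symm
  refine sum_subset ?_ ?_
  · intro i hi
    obtain ⟨s, hs, rfl⟩ := mem_image.1 hi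
    have hs' : s ≤ N := Nat.lt_succ_iff.1 (mem_range.1 hs)
    have h2 : p ^ s ≤ p ^ N := Nat.pow_le_pow_right hp.out.pos hs'
    exact mem_range.2 (by omega)
  · intro i _ hi
    by_contra h2
    obtain ⟨s, rfl⟩ := h.add i (left_ne_zero_of_mul h2)
    obtain ⟨t, h3, -⟩ := h'.pow_ne s (right_ne_zero_of_mul h2)
    have h4 := Nat.pow_right_injective hp.out.two_le h3
    change N = s + t at h4
    exact hi (mem_image.2 ⟨s, mem_range.2 (by omega), rfl⟩)

/-- Homogeneous additive polynomials compose. -/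
theorem Had.subst [hp : Fact p.Prime] [CharP Ω p] (hm : 0 < m) (h : Had k p G m w Q β)
    (h' : Had k p G m 1 Q' α) : Had k p G m w (Q * Q') (β.subst α) := by
  have hne : ∀ n, PowerSeries.coeff n (β.subst α) ≠ 0 → ∃ s t : ℕ, n = p ^ (s + t) ∧
      PowerSeries.coeff (p ^ s) β ≠ 0 ∧ PowerSeries.coeff (p ^ t) α ≠ 0 := by
    intro n hn
    rw [coeff_subst_eq h'.const] at hn
    obtain ⟨i, -, hi⟩ := exists_ne_zero_of_sum_ne_zero hn
    obtain ⟨s, rfl⟩ := h.add i (left_ne_zero_of_mul hi)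
    obtain ⟨t, h3, h4⟩ := h'.pow_ne s (right_ne_zero_of_mul hi)
    exact ⟨s, t, h3, left_ne_zero_of_mul hi, h4⟩
  refine
    { hm := fun n => ?_
      add := fun n hn => ?_
      deg := fun n hn => ?_ }
  · by_cases h0 : PowerSeries.coeff n (β.subst α) = 0
    · rw [h0]
      exact .zero
    · obtain ⟨s, t, rfl, -, -⟩ := hne n h0
      rw [h.subst_coeff h']
      refine Hm.sum hm _ _ fun i hi => ?_
      have hi' : i ≤ s + t := Nat.lt_succ_iff.1 (mem_range.1 hi)
      have h1 := (h.hm (p ^ i)).mul ((h'.hm (p ^ (s + t - i))).pow (p ^ i))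
      rw [mul_one, ← pow_add, Nat.add_sub_cancel' hi', add_comm (p ^ i) (p ^ (s + t))] at h1
      exact h1.cancel
  · obtain ⟨s, t, h1, -, -⟩ := hne n hn
    exact ⟨s + t, h1⟩
  · by_contra h0
    obtain ⟨s, t, rfl, h1, h2⟩ := hne n h0
    have h3 : p ^ s ≤ Q := by
      by_contra h4
      exact h1 (h.deg _ (by omega))
    have h4 : p ^ t ≤ Q' := by
      by_contra h4
      exact h2 (h'.deg _ (by omega))
    have h5 := Nat.mul_le_mul h3 h4
    rw [← pow_add] at h5
    omega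

/-- The composite is not zero. -/
theorem Had.subst_ne [hp : Fact p.Prime] [CharP Ω p] (h : Had k p G m w Q β)
    (h' : Had k p G m w' Q' α) (h1 : ∃ n, PowerSeries.coeff n β ≠ 0)
    (h2 : ∃ n, PowerSeries.coeff n α ≠ 0) : ∃ N, PowerSeries.coeff (p ^ N) (β.subst α) ≠ 0 := by
  classical
  have h3 : ∃ s, PowerSeries.coeff (p ^ s) β ≠ 0 := by
    obtain ⟨n, hn⟩ := h1
    obtain ⟨s, rfl⟩ := h.add n hn
    exact ⟨s, hn⟩
  have h4 : ∃ s, PowerSeries.coeff (p ^ s) α ≠ 0 := by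
    obtain ⟨n, hn⟩ := h2
    obtain ⟨s, rfl⟩ := h'.add n hn
    exact ⟨s, hn⟩
  refine ⟨Nat.find h3 + Nat.find h4, ?_⟩
  rw [h.subst_coeff h', sum_eq_single (Nat.find h3)]
  · rw [Nat.add_sub_cancel_left]
    exact mul_ne_zero (Nat.find_spec h3) (pow_ne_zero _ (Nat.find_spec h4))
  · intro s hs hs'
    rcases lt_or_gt_of_ne hs' with h5 | h5
    · rw [not_not.1 (Nat.find_min h3 h5), zero_mul]
    · have h6 : Nat.find h3 + Nat.find h4 - s < Nat.find h4 := by
        have := mem_range.1 hs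
        omega
      rw [not_not.1 (Nat.find_min h4 h6), zero_pow (pow_pos hp.out.pos s).ne', mul_zero]
  · intro h5
    exact absurd (mem_range.2 (by omega)) h5

/-- A composite as an additive polynomial `alp`. -/
theorem exists_alp_subst [hp : Fact p.Prime] [CharP Ω p] (hm : 0 < m) {T T' : Finset ℕ}
    {c c' : ℕ → Ω} (hc : ∀ t ∈ T, Hm k G m 1 (p ^ t) (c t))
    (hc' : ∀ t ∈ T', Hm k G m 1 (p ^ t) (c' t)) (h1 : ∃ t ∈ T, c t ≠ 0) (h2 : ∃ t ∈ T', c' t ≠ 0) :
    ∃ (T₀ : Finset ℕ) (c₀ : ℕ → Ω), (alp p T c).subst (alp p T' c') = alp p T₀ c₀ ∧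
      (∀ t ∈ T₀, Hm k G m 1 (p ^ t) (c₀ t)) ∧ ∃ t ∈ T₀, c₀ t ≠ 0 := by
  classical
  have hne : ∀ {T : Finset ℕ} {c : ℕ → Ω}, (∃ t ∈ T, c t ≠ 0) →
      ∃ n, PowerSeries.coeff n (alp p T c) ≠ 0 := by
    rintro T c ⟨t, ht, h3⟩
    refine ⟨p ^ t, ?_⟩
    rw [coeff_alp, sum_eq_single t]
    · rwa [if_pos rfl]
    · intro s _ hs
      rw [if_neg]
      intro h4
      exact hs (Nat.pow_right_injective hp.out.two_le h4).symm
    · exact fun h4 => absurd ht h4
  have hbd : ∀ T : Finset ℕ, ∃ Q, ∀ t ∈ T, p ^ t ≤ Q := fun T =>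
    ⟨T.sup fun t => p ^ t, fun t ht => le_sup (f := fun t => p ^ t) ht⟩
  obtain ⟨Q, hQ⟩ := hbd T
  obtain ⟨Q', hQ'⟩ := hbd T'
  have hA := had_alpQ hm hc hQ
  have hA' := had_alpQ hm hc' hQ'
  have hB := hA.subst hm hA'
  obtain ⟨N, hN⟩ := hA.subst_ne hA' (hne h1) (hne h2)
  refine ⟨_, _, hB.eq_alp, fun t _ => hB.hm _, N, ?_, hN⟩
  have h3 : p ^ N ≤ Q * Q' := by
    by_contra h4
    exact hN (hB.deg _ (by omega))
  have h4 : N < p ^ N := Nat.lt_pow_self hp.out.one_lt
  exact mem_range.2 (by omega)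

end had

section adn

variable {N₀ K F : IntermediateField k Ω} {Ψ : ℕ → Ω → Ω} {S : Set Ω}

/-- The ring generated by elements whose jets lie in it is stable. -/
theorem adn_stab (hΨ : HSd K Ψ) (hle : N₀ ≤ K) (hS : ∀ s ∈ S, s ∈ K)
    (hcon : ∀ a ∈ N₀, ∀ l : ℕ, l ≠ 0 → Ψ l a = 0)
    (hj : ∀ s ∈ S, ∀ l : ℕ, l ≠ 0 → Ψ l s ∈ Adn N₀ S) :
    ∀ x ∈ Adn N₀ S, x ∈ K ∧ ∀ l : ℕ, Ψ l x ∈ Adn N₀ S := by
  intro x hx
  induction hx using Algebra.adjoin_induction with
  | mem a ha =>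
    refine ⟨hS a ha, fun l => ?_⟩
    by_cases hl : l = 0
    · rw [hl, hΨ.c0 a (hS a ha)]
      exact Algebra.subset_adjoin ha
    · exact hj a ha l hl
  | algebraMap c =>
    refine ⟨hle c.2, fun l => ?_⟩
    change Ψ l (c : Ω) ∈ _
    by_cases hl : l = 0
    · rw [hl, hΨ.c0 _ (hle c.2)]
      exact Subalgebra.algebraMap_mem _ c
    · rw [hcon _ c.2 l hl]
      exact zero_mem _
  | add a b _ _ ha hb =>
    refine ⟨add_mem ha.1 hb.1, fun l => ?_⟩
    rw [hΨ.add l a ha.1 b hb.1]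
    exact add_mem (ha.2 l) (hb.2 l)
  | mul a b _ _ ha hb =>
    refine ⟨mul_mem ha.1 hb.1, fun l => ?_⟩
    rw [hΨ.mul l a ha.1 b hb.1]
    exact sum_mem fun i _ => mul_mem (ha.2 _) (hb.2 _)

/-- One more floor: the ring generated is dense. -/
theorem adn_dense_step [IsAlgClosed Ω] {z : Ω} {s : ℝ} (hz : TL v F z s)
    (hd : ∀ x ∈ F, ∀ b : ℝ, ∃ c ∈ Adn N₀ S, v.Ge b (x - c)) :
    ∀ x ∈ cadj v F z, ∀ b : ℝ, ∃ c ∈ Adn N₀ (insert z S), v.Ge b (x - c) := by
  intro x hx b
  obtain ⟨f, hf, h1⟩ := hz.dense hx b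
  obtain ⟨g, hg, h2⟩ := TWEX.approx_poly hd z hf b
  refine ⟨g.eval z, TWEX.eval_mem_adn (Set.mem_insert z S) fun i =>
    Algebra.adjoin_mono (Set.subset_insert z S) (hg i), ?_⟩
  have e : x - g.eval z = (x - f.eval z) + (f.eval z - g.eval z) := by ring
  rw [e]
  exact h1.add h2

/-- Homogeneous coefficients are in the ring. -/
theorem Hm.mem_adn {G a : Ω} {m w n : ℕ} (h : Hm k G m w n a) (hG : G ∈ Adn N₀ S) :
    a ∈ Adn N₀ S := by
  rcases h with rfl | ⟨l, N, -, rfl⟩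
  · exact zero_mem _
  · refine mul_mem ?_ (pow_mem hG N)
    rw [IsScalarTower.algebraMap_apply k N₀ Ω]
    exact Subalgebra.algebraMap_mem _ _

/-- Coefficients of powers in a subring. -/
theorem coeff_pow_adn {α : PowerSeries Ω} (h : ∀ n, PowerSeries.coeff n α ∈ Adn N₀ S) (l n : ℕ) :
    PowerSeries.coeff n (α ^ l) ∈ Adn N₀ S := by
  induction l generalizing n with
  | zero =>
    rw [pow_zero, PowerSeries.coeff_one]
    split_ifs
    exacts [one_mem _, zero_mem _]
  | succ l ih =>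
    rw [pow_succ, PowerSeries.coeff_mul]
    exact sum_mem fun i _ => mul_mem (ih _) (h _)

/-- A composite with coefficients in the ring. -/
theorem coeff_subst_adn {U α : PowerSeries Ω} (hα : PowerSeries.constantCoeff α = 0)
    (hU : ∀ n, PowerSeries.coeff n U ∈ Adn N₀ S) (h : ∀ n, PowerSeries.coeff n α ∈ Adn N₀ S)
    (n : ℕ) : PowerSeries.coeff n (U.subst α) ∈ Adn N₀ S := by
  rw [coeff_subst_eq hα]
  exact sum_mem fun i _ => mul_mem (hU i) (coeff_pow_adn h i n)

end adn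

end Pool.Agent.TWRS
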