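import Pool.Agent.Lib.TWRS.WinA
import Pool.Agent.Lib.TWRS.Cmp

/-!
# TANK W, row (Rt): the record `Win` from the family and the top floor

* `rt_jets`: the composed parameters, jets on `C` and of `u`;
* `win_of_rt`: the record `Win`.
-/

set_option autoImplicit false

open Polynomial Finset

namespace Pool.Agent.TWRS

open Pool.Agent.H15JM (RVal)
open Pool.Agent.D2 (Ctx0)
open Pool.Agent.D2P (clI)
open Pool.Agent.TWM
open Pool.Agent.TWLM (HSd Oi Arc)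
open Pool.Agent.TWN1 (ser coeff_ser Sn)
open Pool.Agent.TWEX (cmp alp cmp_eq coeff_subst_eq const_alp coeff_alp coeff_pow_gt SFl Adn
  mem_adn_of_mem)

universe u

variable {k Ω : Type u} [Field k] [Field Ω] [Algebra k Ω] {v : RVal Ω}

/-- The composed parameters. -/
theorem rt_jets (p : ℕ) [hp : Fact p.Prime] [CharP Ω p] {C F : IntermediateField k Ω}
    {D Ψ Θ : ℕ → Ω → Ω} {G u b : Ω} {m w Q : ℕ} {S β : PowerSeries Ω} {T T' : Finset ℕ}
    {c c' : ℕ → Ω} (hm : 0 < m) (hCF : C ≤ F) (huF : u ∈ F)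
    (hT : ∀ t ∈ T, Hm k G m 1 (p ^ t) (c t)) (hT0 : ∃ t ∈ T, c t ≠ 0)
    (hβ : Had k p G m w Q β) (hT' : ∀ t ∈ T', Hm k G m 1 (p ^ t) (c' t))
    (hT0' : ∃ t ∈ T', c' t ≠ 0)
    (hΨC : ∀ n, ∀ x ∈ C, Ψ n x = cmp D (alp p T c) n x)
    (hΨu : ∀ n, n ≠ 0 → Ψ n u = PowerSeries.coeff n (S.subst (alp p T c)) +
      b * PowerSeries.coeff n β)
    (hΘ : ∀ n, ∀ x ∈ F, Θ n x = cmp Ψ (alp p T' c') n x) :
    ∃ (T₀ : Finset ℕ) (c₀ : ℕ → Ω) (Q₀ : ℕ) (β₀ : PowerSeries Ω),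
      (∀ t ∈ T₀, Hm k G m 1 (p ^ t) (c₀ t)) ∧ (∃ t ∈ T₀, c₀ t ≠ 0) ∧
      Had k p G m 1 Q₀ (alp p T₀ c₀) ∧ Had k p G m w Q₀ β₀ ∧
      (∀ n, ∀ x ∈ C, Θ n x = cmp D (alp p T₀ c₀) n x) ∧
      ∀ n, n ≠ 0 → Θ n u = PowerSeries.coeff n (S.subst (alp p T₀ c₀)) +
        b * PowerSeries.coeff n β₀ := by
  classical
  obtain ⟨T₀, c₀, h1, h2, h3⟩ := exists_alp_subst hm hT hT' hT0 hT0'
  have hbd : ∀ T : Finset ℕ, ∃ Q, ∀ t ∈ T, p ^ t ≤ Q := fun T =>
    ⟨T.sup fun t => p ^ t, fun t ht => le_sup (f := fun t => p ^ t) ht⟩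
  obtain ⟨Q₁, hQ₁⟩ := hbd T₀
  obtain ⟨Q₂, hQ₂⟩ := hbd T'
  refine ⟨T₀, c₀, max Q₁ (Q * Q₂), β.subst (alp p T' c'), h2, h3,
    (had_alpQ hm h2 hQ₁).monoQ (le_max_left _ _),
    (hβ.subst hm (had_alpQ hm hT' hQ₂)).monoQ (le_max_right _ _), fun n x hx => ?_, fun n hn => ?_⟩
  · rw [hΘ n x (hCF hx), ← h1, ← cmp_cmp const_alp const_alp, cmp_eq const_alp, cmp_eq const_alp]
    exact sum_congr rfl fun i _ => by rw [hΨC i x hx]
  · rw [hΘ n u huF, cmp_u const_alp const_alp hΨu hn, h1]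

/-- Coefficients of `Sn`. -/
theorem coeff_Sn (U : PowerSeries Ω) (n₀ n : ℕ) :
    PowerSeries.coeff n (Sn U n₀) = if n < n₀ then PowerSeries.coeff n U else 0 :=
  PowerSeries.coeff_mk n _

/-- **The record `Win`**, from the jets. -/
theorem win_of_jets [IsAlgClosed Ω] (p : ℕ) [hp : Fact p.Prime] [CharP Ω p] (h0 : Ctx0 k v)
    {N : IntermediateField k Ω} {D Θ : ℕ → Ω → Ω} {x y u z G b : Ω} {σ r s : ℝ} {m w Q₀ n₀ : ℕ}
    {U β₀ : PowerSeries Ω} {T₀ : Finset ℕ} {c₀ : ℕ → Ω} {L : IntermediateField k Ω}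
    (hx : x ∈ N) (hx0 : x ≠ 0) (hxv : v x ≠ 0) (hcN : Cld v N) (hfl : SFl p v N y σ D)
    (hden : ∀ a ∈ cadj v N y, ∀ b : ℝ, ∃ g ∈ Adn (IntermediateField.adjoin k {x}) {y},
      v.Ge b (a - g))
    (hu : TL v (cadj v N y) u r) (hz : TL v (cadj v (cadj v N y) u) z s)
    (hL : L = cadj v (cadj v (cadj v N y) u) z) (harc : PwArc v L σ Θ)
    (hG : G ∈ Adn (IntermediateField.adjoin k {x}) {y}) (hG0 : G ≠ 0) (hGv : v G = -(m * σ))
    (hU : ∀ n, PowerSeries.coeff n U ∈ Adn (IntermediateField.adjoin k {x}) {y})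
    (hb : b ∈ Adn (IntermediateField.adjoin k {x}) {y})
    (hT : ∀ t ∈ T₀, Hm k G m 1 (p ^ t) (c₀ t)) (hT0 : ∃ t ∈ T₀, c₀ t ≠ 0)
    (hβ : Had k p G m w Q₀ β₀)
    (hC : ∀ n, ∀ x ∈ cadj v N y, Θ n x = cmp D (alp p T₀ c₀) n x)
    (hju : ∀ n, n ≠ 0 → Θ n u = PowerSeries.coeff n ((Sn U n₀).subst (alp p T₀ c₀)) +
      b * PowerSeries.coeff n β₀)
    (hjz : ∀ n, n ≠ 0 → Θ n z ∈ Adn (IntermediateField.adjoin k {x}) {y, u}) {n₁ : ℕ}
    (hfz : ∀ n, n ≠ 0 → n₁ ≤ n → Θ n z = 0)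
    (hnear : ∃ W ∈ L, ∃ R μ : ℝ, 0 < μ ∧ (∀ l : ℕ, l ≠ 0 → v.Ge (R - l * σ + μ) (Θ l W)) ∧
      ∀ θ : Ω, IsAlgebraic N θ → W ≠ θ ∧ v (W - θ) ≤ R) :
    Win p v (IntermediateField.adjoin k {x}) N L x y u z σ D Θ T₀ c₀ := by
  classical
  have hN₀ : IntermediateField.adjoin k {x} ≤ N := by
    rw [IntermediateField.adjoin_simple_le_iff]
    exact hx
  have hCL : cadj v N y ≤ L := by
    rw [hL]
    exact (le_cadj v _ u).trans (le_cadj v _ z)
  have hcoef : ∀ n, PowerSeries.coeff n (alp p T₀ c₀) ∈ Adn (IntermediateField.adjoin k {x}) {y} := by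
    intro n
    rw [coeff_alp]
    refine sum_mem fun t ht => ?_
    split_ifs
    · exact (hT t ht).mem_adn hG
    · exact zero_mem _
  have hyC : y ∈ cadj v N y := self_mem_cadj v N y
  have hDy : ∀ n : ℕ, n ≠ 0 → D n y = if n = 1 then 1 else 0 := by
    intro n hn
    have h1 := hfl.poly n X X_mem_PI
    rw [eval_X] at h1
    rw [h1]
    split_ifs with h2
    · rw [h2, hasseDeriv_one', derivative_X, eval_one]
    · rw [hasseDeriv_X n (by omega), eval_zero]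
  refine
    { n0 := rfl
      x0 := hx0
      xv := hxv
      le0 := hN₀
      cN := hcN
      fl := hfl
      denR := hden
      cle := hCL
      cld := by rw [hL]; exact cld_cadj v _ z
      arc := harc
      con := fun a ha l hl => ?_
      jy := fun l hl => ?_
      cR := fun t ht => (hT t ht).mem_adn hG
      cv := fun t ht => ?_
      cx := ?_
      umem := by
        rw [hL]
        exact le_cadj v _ z (self_mem_cadj v _ u)
      zmem := by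
        rw [hL]
        exact self_mem_cadj v _ z
      ju := fun l hl => ?_
      fin_u := ?_
      jz := hjz
      fin_z := ⟨n₁, fun l hl => hfz l (by omega) hl.le⟩
      den := fun a ha b => ?_
      near := hnear }
  · rw [hC l a (le_cadj v N y ha), cmp_eq const_alp, sum_eq_zero]
    intro i _
    rcases eq_or_ne i 0 with rfl | hi
    · rw [pow_zero, PowerSeries.coeff_one, if_neg hl, mul_zero]
    · rw [hfl.const ha hi, zero_mul]
  · rw [hC l y hyC, cmp_y const_alp hDy hl, coeff_alp]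
  · have h1 := (hT t ht).ge h0 hG0 hGv
    push_cast at h1
    rwa [one_mul] at h1
  · obtain ⟨t, ht, h1⟩ := hT0
    refine ⟨t, ht, h1, ?_⟩
    have h2 := (hT t ht).val h0 hG0 hGv h1
    push_cast at h2
    rw [h2, one_mul]
  · rw [hju l hl]
    refine add_mem (coeff_subst_adn const_alp (fun n => ?_) hcoef l) (mul_mem hb ?_)
    · rw [coeff_Sn]
      split_ifs
      · exact hU n
      · exact zero_mem _
    · exact (hβ.hm l).mem_adn hG
  · obtain ⟨T₁, hT₁⟩ : ∃ T₁, ∀ t ∈ T₀, t ≤ T₁ := ⟨T₀.sup id, fun t ht => le_sup (f := id) ht⟩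
    refine ⟨max (n₀ * p ^ T₁) Q₀, fun l hl => ?_⟩
    have h1 : n₀ * p ^ T₁ < l := (le_max_left _ _).trans_lt hl
    have h2 : Q₀ < l := (le_max_right _ _).trans_lt hl
    rw [hju l (by omega), hβ.deg l h2, mul_zero, add_zero, coeff_subst_eq const_alp]
    refine sum_eq_zero fun i _ => ?_
    rw [coeff_Sn]
    split_ifs with h3
    · rw [coeff_pow_gt hT₁ i ((Nat.mul_le_mul_right _ h3.le).trans_lt h1), mul_zero]
    · rw [zero_mul]
  · rw [hL] at ha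
    obtain ⟨g, hg, h1⟩ := adn_dense_step hz (adn_dense_step hu hden) a ha b
    refine ⟨g, ?_, h1⟩
    have e : (insert z (insert u {y}) : Set Ω) = {y, u, z} := by
      ext t
      simp only [Set.mem_insert_iff, Set.mem_singleton_iff]
      tauto
    rwa [e] at hg

end Pool.Agent.TWRS
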