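import Pool.Agent.Lib.TWRS.Defs
import Pool.Agent.Lib.TWN1.Base

/-!
# TANK W, row (Rt), (V5): consequences of `Fam`

* `Fam.thr`, `Fam.thr2`: uniform thresholds at the scale `q M`;
* `Fam.null_ge`: a margin, uniform in `M` and `n`, for each fixed element;
* `Fam.null_pc`: a margin, uniform in `M` and `0 < n < P M`, for the jets of an element of level `τ`.
-/

set_option autoImplicit false

open Polynomial Finset

namespace Pool.Agent.TWRS

open Pool.Agent.H15JM (RVal)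
open Pool.Agent.D2 (Ctx0)
open Pool.Agent.TWM
open Pool.Agent.TWII (PG LP Nr)
open Pool.Agent.TWLM (HSd Oi Arc exists_ge_of_gt)
open Pool.Agent.TWN1 (PC)

/-- Uniform margins on finite-dimensional subspaces. -/
theorem exists_margin {k M : Type*} [Field k] [AddCommGroup M] [Module k M]
    (W : ℝ → Submodule k M) (hW : ∀ a b : ℝ, a ≤ b → W b ≤ W a) {E : Submodule k M} (hE : E.FG)
    (c : ℝ) : ∃ μ : ℝ, 0 < μ ∧ ∀ x ∈ E, (∃ η : ℝ, 0 < η ∧ x ∈ W (c + η)) → x ∈ W (c + μ) := by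
  classical
  let U : Submodule k M :=
    { carrier := {x | ∃ η : ℝ, 0 < η ∧ x ∈ W (c + η)}
      add_mem' := by
        rintro x y ⟨a, ha, h1⟩ ⟨b, hb, h2⟩
        refine ⟨min a b, lt_min ha hb, add_mem (hW _ _ ?_ h1) (hW _ _ ?_ h2)⟩
        · linarith [min_le_left a b]
        · linarith [min_le_right a b]
      zero_mem' := ⟨1, one_pos, zero_mem _⟩
      smul_mem' := by
        rintro d x ⟨a, ha, h1⟩
        exact ⟨a, ha, Submodule.smul_mem _ d h1⟩ }
  obtain ⟨T, hT⟩ := Submodule.FG.of_le hE (inf_le_left : E ⊓ U ≤ E)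
  have key : ∀ T : Finset M, (∀ x ∈ T, x ∈ U) → ∃ μ : ℝ, 0 < μ ∧ ∀ x ∈ T, x ∈ W (c + μ) := by
    intro T
    induction T using Finset.induction_on with
    | empty => exact fun _ => ⟨1, one_pos, fun x hx => absurd hx (notMem_empty x)⟩
    | insert a T _ ih =>
      intro h
      obtain ⟨μ, hμ, h1⟩ := ih fun x hx => h x (mem_insert_of_mem hx)
      obtain ⟨η, hη, h2⟩ := h a (mem_insert_self a T)
      refine ⟨min μ η, lt_min hμ hη, fun x hx => ?_⟩
      rcases mem_insert.1 hx with rfl | hx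
      · exact hW _ _ (by linarith [min_le_right μ η]) h2
      · exact hW _ _ (by linarith [min_le_left μ η]) (h1 x hx)
  obtain ⟨μ, hμ, h1⟩ := key T fun x hx => by
    have h2 : x ∈ E ⊓ U := by
      rw [← hT]
      exact Submodule.subset_span hx
    exact h2.2
  refine ⟨μ, hμ, fun x hx hx' => ?_⟩
  have h2 : x ∈ Submodule.span k (T : Set M) := by
    rw [hT]
    exact ⟨hx, hx'⟩
  exact Submodule.span_le.2 (fun y hy => h1 y hy) h2

universe u

variable {k Ω : Type u} [Field k] [Field Ω] [Algebra k Ω] {v : RVal Ω}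

/-- `O(≥ c)`. -/
def geS (h : Ctx0 k v) (c : ℝ) : Submodule k Ω where
  carrier := {x | v.Ge c x}
  add_mem' hx hy := RVal.Ge.add hx hy
  zero_mem' := RVal.Ge.zero
  smul_mem' a x hx := by
    have h1 := (h.ge a).mul hx
    rw [zero_add, ← Algebra.smul_def] at h1
    exact h1

/-- `F ^ p + O(≥ c)`. -/
def pcS (p : ℕ) [hp : Fact p.Prime] [CharP Ω p] [CharP k p] [PerfectRing k p] (h : Ctx0 k v)
    (F : IntermediateField k Ω) (c : ℝ) : Submodule k Ω where
  carrier := {x | PC p v F c x}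
  add_mem' hx hy := PC.add hx hy
  zero_mem' := PC.of_ge RVal.Ge.zero
  smul_mem' := by
    rintro a x ⟨g, hg, h1⟩
    obtain ⟨d, rfl⟩ := surjective_frobenius k p a
    refine ⟨algebraMap k Ω d * g, mul_mem (F.algebraMap_mem d) hg, ?_⟩
    have e : frobenius k p d • x - (algebraMap k Ω d * g) ^ p = frobenius k p d • (x - g ^ p) := by
      rw [frobenius_def, Algebra.smul_def, Algebra.smul_def, map_pow]
      ring
    rw [e]
    exact (geS h c).smul_mem _ h1

variable {F : IntermediateField k Ω} {σ : ℝ} {G : Ω} {m : ℕ} {q P : ℕ → ℕ} {Ψ : ℕ → ℕ → Ω → Ω}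

/-- **Threshold.** -/
theorem Fam.thr (h : Fam v F σ G m q P Ψ) {f : Ω} (hf : f ∈ F) (B : ℝ) :
    ∃ L : ℕ, ∀ M n : ℕ, L * q M ≤ n → v.Ge (B - n * σ) (Ψ M n f) := by
  obtain ⟨S, x, w, L, hx, h1⟩ := h.te f hf B
  refine ⟨L, fun M n hn => ?_⟩
  obtain ⟨c, -, h2, h3⟩ := h1 M n
  have h4 : ∑ s ∈ S, c s * x s = 0 := sum_eq_zero fun s hs => by rw [h2 hn s hs, zero_mul]
  rwa [h4, sub_zero] at h3

/-- The jets are, up to a high precision, `e`-th powers of `G` times elements of finitely many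
finite-dimensional subspaces. -/
theorem Fam.exists_sub (h : Fam v F σ G m q P Ψ) (e : ℕ) {f : Ω} (hf : f ∈ F)
    (B : ℝ) : ∃ E : ℕ → Submodule k Ω, (∀ r, (E r).FG) ∧
      ∀ M n : ℕ, ∃ Y ∈ E (n % (e * m)), v.Ge (B - n * σ)
        (Ψ M n f - (G ^ (n / (e * m))) ^ e * Y) := by
  classical
  obtain ⟨S, x, w, L, hx, h1⟩ := h.te f hf B
  refine ⟨fun r => Submodule.span k ((S.image fun s => G ^ (((r : ℤ) - w s) / m) * x s : Finset Ω) :
    Set Ω), fun r => Submodule.fg_span (Finset.finite_toSet _), fun M n => ?_⟩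
  obtain ⟨c, h2, -, h3⟩ := h1 M n
  have hm0 : (m : ℤ) ≠ 0 := by exact_mod_cast h.mpos.ne'
  have key : ∀ s ∈ S, ∃ lam : k, c s * x s = (G ^ (n / (e * m))) ^ e *
      (lam • (G ^ ((((n % (e * m) : ℕ) : ℤ) - w s) / m) * x s)) := by
    intro s hs
    rcases h2 s hs with h4 | ⟨lam, N, h4, h5⟩
    · exact ⟨0, by rw [h4, zero_mul, zero_smul, mul_zero]⟩
    · refine ⟨lam, ?_⟩
      have h6 : (((n % (e * m) : ℕ) : ℤ) - w s) / m = (N : ℤ) - (e * (n / (e * m)) : ℕ) := by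
        have h7 : ((n % (e * m) : ℕ) : ℤ) - w s = m * ((N : ℤ) - (e * (n / (e * m)) : ℕ)) := by
          have h8 := Nat.mod_add_div n (e * m)
          have h9 : ((n % (e * m) : ℕ) : ℤ) + (e * m : ℕ) * (n / (e * m) : ℕ) = n := by
            exact_mod_cast h8
          have h10 : (n : ℤ) = w s + m * N := by exact_mod_cast h4
          push_cast at h9 ⊢
          linear_combination h9 + h10
        rw [h7, Int.mul_ediv_cancel_left _ hm0]
      have h11 : (G ^ (n / (e * m))) ^ e * G ^ ((N : ℤ) - (e * (n / (e * m)) : ℕ)) = G ^ N := by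
        rw [← pow_mul, mul_comm (n / (e * m)) e, ← zpow_natCast, ← zpow_add₀ h.gne, ← zpow_natCast]
        congr 1
        ring
      rw [h6, h5, Algebra.smul_def, ← h11]
      ring
  choose! lam hlam using key
  refine ⟨∑ s ∈ S, lam s • (G ^ ((((n % (e * m) : ℕ) : ℤ) - w s) / m) * x s), ?_, ?_⟩
  · refine sum_mem fun s hs => Submodule.smul_mem _ _ (Submodule.subset_span ?_)
    exact mem_coe.2 (mem_image_of_mem _ hs)
  · rw [mul_sum, ← sum_congr rfl hlam]
    exact h3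

/-- The value of the powers of `G`. -/
theorem Fam.val_pow (h : Fam v F σ G m q P Ψ) (N : ℕ) : v (G ^ N) = -(N * m * σ) := by
  rw [v.map_pow h.gne, h.gval]
  ring

theorem Fam.val_pow_e (h : Fam v F σ G m q P Ψ) (e n : ℕ) :
    v ((G ^ (n / (e * m))) ^ e) = (n % (e * m) : ℕ) * σ - n * σ := by
  rw [v.map_pow (pow_ne_zero _ h.gne), h.val_pow]
  have h8 := Nat.mod_add_div n (e * m)
  have h9 : ((n % (e * m) : ℕ) : ℝ) + (e * m) * (n / (e * m) : ℕ) = n := by
    exact_mod_cast h8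
  linear_combination (-σ) * h9

/-- A margin for finitely many subspaces. -/
theorem exists_margin_range {k M : Type*} [Field k] [AddCommGroup M] [Module k M]
    (W : ℝ → Submodule k M) (hW : ∀ a b : ℝ, a ≤ b → W b ≤ W a) {E : ℕ → Submodule k M}
    (hE : ∀ r, (E r).FG) (c : ℕ → ℝ) (N : ℕ) : ∃ μ : ℝ, 0 < μ ∧ ∀ r < N, ∀ x ∈ E r,
      (∃ η : ℝ, 0 < η ∧ x ∈ W (c r + η)) → x ∈ W (c r + μ) := by
  induction N with
  | zero => exact ⟨1, one_pos, fun r hr => absurd hr (Nat.not_lt_zero r)⟩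
  | succ N ih =>
    obtain ⟨μ, hμ, h1⟩ := ih
    obtain ⟨η, hη, h2⟩ := exists_margin W hW (hE N) (c N)
    refine ⟨min μ η, lt_min hμ hη, fun r hr x hx hx' => ?_⟩
    rcases Nat.lt_succ_iff_lt_or_eq.1 hr with h3 | rfl
    · exact hW _ _ (by linarith [min_le_left μ η]) (h1 r h3 x hx hx')
    · exact hW _ _ (by linarith [min_le_right μ η]) (h2 x hx hx')

/-- **Margin for a fixed element.** -/
theorem Fam.null_ge (h0 : Ctx0 k v) (h : Fam v F σ G m q P Ψ) {x : Ω} (hx : x ∈ F) {t : ℝ}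
    (ht : v.Ge t x) : ∃ μ : ℝ, 0 < μ ∧ ∀ M n : ℕ, n ≠ 0 → v.Ge (t + μ - n * σ) (Ψ M n x) := by
  obtain ⟨E, hE, h1⟩ := h.exists_sub 1 hx (t + 1)
  obtain ⟨μ, hμ, h2⟩ := exists_margin_range (geS h0) (fun a b hab x hx => RVal.Ge.mono hab hx) hE
    (fun r => t - r * σ) (1 * m)
  refine ⟨min μ 1, lt_min hμ one_pos, fun M n hn => ?_⟩
  obtain ⟨Y, hY, h3⟩ := h1 M n
  have hg0 : (G ^ (n / (1 * m))) ^ 1 ≠ 0 := pow_ne_zero _ (pow_ne_zero _ h.gne)
  have hv := h.val_pow_e 1 n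
  set g := (G ^ (n / (1 * m))) ^ 1 with hg
  have h4 : Gt v (t - n * σ) (g * Y) := by
    have e : g * Y = Ψ M n x - (Ψ M n x - g * Y) := by ring
    rw [e]
    exact ((h.arc M).pst n hn x hx t ht).sub (Gt.of_ge h3 (by linarith))
  have h5 : Gt v (t - (n % (1 * m) : ℕ) * σ) Y := by
    intro hY0
    have h6 := h4 (mul_ne_zero hg0 hY0)
    rw [v.map_mul hg0 hY0, hv] at h6
    linarith
  obtain ⟨η, hη, h6⟩ := exists_ge_of_gt h5
  have h7 : v.Ge (t - (n % (1 * m) : ℕ) * σ + μ) Y :=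
    h2 _ (Nat.mod_lt _ (by rw [one_mul]; exact h.mpos)) Y hY ⟨η, hη, h6⟩
  have h8 : v.Ge (t + μ - n * σ) (g * Y) := by
    intro h9
    have hY0 : Y ≠ 0 := right_ne_zero_of_mul h9
    rw [v.map_mul hg0 hY0, hv]
    have := h7 hY0
    linarith
  have e : Ψ M n x = g * Y + (Ψ M n x - g * Y) := by ring
  rw [e]
  refine (h8.mono ?_).add (h3.mono ?_)
  · linarith [min_le_left μ 1]
  · linarith [min_le_right μ 1]

/-- Null jets, in the strict orders. -/
theorem PArc.pg {p : ℕ} [hp : Fact p.Prime] [CharP Ω p] {Φ : ℕ → Ω → Ω} {Q : ℕ}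
    (hΦ : PArc v F σ Q Φ) {x : Ω} (hx : x ∈ F) {τ : ℝ} (h : LP p v F τ x) {n : ℕ} (hn : n ≠ 0)
    (hnQ : n < Q) : PG p v F (τ - n * σ) (Φ n x) := by
  obtain ⟨η, hη, h1⟩ := hΦ.str n hn hnQ
  obtain ⟨w, hw, h2⟩ := h (η / 2) (by linarith)
  have h3 : Gt v (τ - n * σ) (Φ n x - Φ n (w ^ p)) := by
    rw [← hΦ.sub n hx (pow_mem hw p)]
    exact Gt.of_ge (h1 _ (sub_mem hx (pow_mem hw p)) _ h2) (by linarith)
  by_cases h4 : p ^ 1 ∣ n
  · obtain ⟨m, rfl⟩ := h4
    have h5 := hΦ.pow_mul p hw 1 m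
    rw [pow_one] at h5 h3 ⊢
    rw [h5] at h3
    exact ⟨Φ m w, hΦ.mem _ _ hw, h3⟩
  · have h5 := hΦ.pow_zero p hw 1 n h4
    rw [pow_one] at h5
    rw [h5] at h3
    exact ⟨0, F.zero_mem, by rwa [zero_pow hp.out.ne_zero]⟩

/-- **Margin for the jets of an element of level `τ`**, in the strict orders. -/
theorem Fam.null_pc {p : ℕ} [hp : Fact p.Prime] [CharP Ω p] [CharP k p] [PerfectRing k p]
    (h0 : Ctx0 k v) (h : Fam v F σ G m q P Ψ) {A : Ω} (hA : A ∈ F) {τ : ℝ} (hτ : LP p v F τ A) :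
    ∃ μ : ℝ, 0 < μ ∧ ∀ M n : ℕ, n ≠ 0 → n < P M → PC p v F (τ - n * σ + μ) (Ψ M n A) := by
  obtain ⟨E, hE, h1⟩ := h.exists_sub p hA (τ + 1)
  obtain ⟨μ, hμ, h2⟩ := exists_margin_range (pcS p h0 F) (fun a b hab x hx => PC.mono hx hab) hE
    (fun r => τ - r * σ) (p * m)
  refine ⟨min μ 1, lt_min hμ one_pos, fun M n hn hnP => ?_⟩
  obtain ⟨Y, hY, h3⟩ := h1 M n
  have hg0 : G ^ (n / (p * m)) ≠ 0 := pow_ne_zero _ h.gne
  have hv := h.val_pow_e p n
  have hgF : G ^ (n / (p * m)) ∈ F := pow_mem h.gmem _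
  set g := G ^ (n / (p * m)) with hg
  have h4 : PG p v F (τ - n * σ) (g ^ p * Y) := by
    have e : g ^ p * Y = Ψ M n A - (Ψ M n A - g ^ p * Y) := by ring
    rw [e]
    exact PG.sub ((h.arc M).pg hA hτ hn hnP) (PG.of_gt (Gt.of_ge h3 (by linarith)))
  obtain ⟨η, hη, h5⟩ := h4.exists_pc
  have h6 : PC p v F (τ - (n % (p * m) : ℕ) * σ + η) Y := by
    have h7 : v.Ge (n * σ - (n % (p * m) : ℕ) * σ) (g⁻¹ ^ p) := by
      intro _
      rw [inv_pow, v.map_inv (pow_ne_zero _ hg0), hv]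
      linarith
    have h8 := h5.mul_pow (inv_mem hgF) h7
    have e : g ^ p * Y * g⁻¹ ^ p = Y := by
      rw [inv_pow]
      field_simp
    rw [e] at h8
    exact h8.mono (by linarith)
  have h7 : PC p v F (τ - (n % (p * m) : ℕ) * σ + μ) Y :=
    h2 _ (Nat.mod_lt _ (Nat.mul_pos hp.out.pos h.mpos)) Y hY ⟨η, hη, h6⟩
  have h8 : PC p v F (τ - n * σ + μ) (g ^ p * Y) := by
    have h9 : v.Ge ((n % (p * m) : ℕ) * σ - n * σ) (g ^ p) := fun _ => hv.ge
    have h10 := h7.mul_pow hgF h9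
    rw [mul_comm Y] at h10
    exact h10.mono (by linarith)
  have e : Ψ M n A = g ^ p * Y + (Ψ M n A - g ^ p * Y) := by ring
  rw [e]
  refine PC.add (h8.mono ?_) (PC.of_ge (h3.mono ?_))
  · linarith [min_le_left μ 1]
  · linarith [min_le_right μ 1]

/-- Gain for the powers of `G`. -/
theorem Fam.pow_gain (h0 : Ctx0 k v) (h : Fam v F σ G m q P Ψ) {C : ℝ} (hC : 0 ≤ C) :
    ∃ L : ℕ, ∀ M N i : ℕ, L * q M ≤ i → v.Ge (N * v G + C - i * σ) (Ψ M i (G ^ N)) := by
  obtain ⟨μ, hμ, h1⟩ := h.null_ge h0 h.gmem (RVal.ge_self (v := v) G)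
  obtain ⟨K, h2⟩ := h.thr h.gmem (v G + C)
  have hK : (0 : ℝ) < K + 1 := by positivity
  refine ⟨⌈C * (K + 1) / μ⌉₊, fun M N i hi => ?_⟩
  have hq : (0 : ℝ) < q M := by exact_mod_cast h.qpos M
  obtain ⟨θ, hθd⟩ : ∃ θ : ℝ, θ = μ / ((K + 1) * q M) := ⟨_, rfl⟩
  have hθ : 0 < θ := by rw [hθd]; positivity
  have hθK : θ * ((K + 1) * q M) = μ := by
    rw [hθd]
    field_simp
  have key : ∀ N i : ℕ, v.Ge (N * v G + min C (θ * i) - i * σ) (Ψ M i (G ^ N)) := by
    intro N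
    induction N with
    | zero =>
      intro i
      rw [pow_zero]
      by_cases hi : i = 0
      · rw [hi, (h.arc M).c0 1 (one_mem F)]
        intro _
        rw [v.map_one]
        simp [hC]
      · rw [(h.arc M).toHSd.one i hi]
        exact RVal.Ge.zero
    | succ N ih =>
      intro i
      rw [pow_succ, (h.arc M).mul i _ (pow_mem h.gmem N) _ h.gmem]
      refine RVal.Ge.sum _ _ fun ab hab => ?_
      have hab' : ab.1 + ab.2 = i := by simpa using hab
      have h3 := ih ab.1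
      have h4 : v.Ge (v G + min C (θ * ab.2) - ab.2 * σ) (Ψ M ab.2 G) := by
        rcases lt_or_ge ab.2 (K * q M) with h5 | h5
        · by_cases h6 : ab.2 = 0
          · rw [h6, (h.arc M).c0 G h.gmem]
            intro _
            simp [hC]
          · refine (h1 M ab.2 h6).mono ?_
            have h7 : θ * ab.2 ≤ μ := by
              rw [← hθK]
              refine mul_le_mul_of_nonneg_left ?_ hθ.le
              have h8 : (ab.2 : ℝ) ≤ K * q M := by exact_mod_cast h5.le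
              nlinarith
            linarith [min_le_right C (θ * ab.2)]
        · refine (h2 M ab.2 h5).mono ?_
          linarith [min_le_left C (θ * ab.2)]
      refine (h3.mul h4).mono ?_
      have h9 : (i : ℝ) = ab.1 + ab.2 := by exact_mod_cast hab'.symm
      have h10 : min C (θ * i) ≤ min C (θ * ab.1) + min C (θ * ab.2) := by
        have ha : 0 ≤ θ * (ab.1 : ℝ) := by positivity
        have hb : 0 ≤ θ * (ab.2 : ℝ) := by positivity
        rw [h9]
        rcases le_total C (θ * ab.1) with h11 | h11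
        · rw [min_eq_left h11]
          have := le_min hC hb
          linarith [min_le_left C (θ * (ab.1 + ab.2))]
        · rw [min_eq_right h11]
          rcases le_total C (θ * ab.2) with h12 | h12
          · rw [min_eq_left h12]
            linarith [min_le_left C (θ * (ab.1 + ab.2))]
          · rw [min_eq_right h12]
            linarith [min_le_right C (θ * (ab.1 + ab.2))]
      push_cast
      rw [h9] at h10 ⊢
      linarith
  refine (key N i).mono ?_
  have h3 : C ≤ θ * i := by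
    have h4 : C * (K + 1) / μ ≤ (⌈C * (K + 1) / μ⌉₊ : ℝ) := Nat.le_ceil _
    have h5 : (⌈C * (K + 1) / μ⌉₊ : ℝ) * q M ≤ i := by exact_mod_cast hi
    have h6 : C * (K + 1) / μ * q M ≤ i := by
      refine le_trans ?_ h5
      exact mul_le_mul_of_nonneg_right h4 hq.le
    have h7 : θ * (C * (K + 1) / μ * q M) = C := by
      rw [← hθK]
      field_simp
    calc C = θ * (C * (K + 1) / μ * q M) := h7.symm
      _ ≤ θ * i := mul_le_mul_of_nonneg_left h6 hθ.le
  rw [min_eq_left h3]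

/-- Threshold for `G ^ N x`, uniform in `N`. -/
theorem Fam.mul_gain (h0 : Ctx0 k v) (h : Fam v F σ G m q P Ψ) {x : Ω} (hx : x ∈ F) (C : ℝ) :
    ∃ L : ℕ, ∀ M N i : ℕ, L * q M ≤ i → v.Ge (N * v G + C - i * σ) (Ψ M i (G ^ N * x)) := by
  obtain ⟨L1, h1⟩ := h.pow_gain h0 (le_max_left 0 (C - v x))
  obtain ⟨L2, h2⟩ := h.thr hx C
  refine ⟨L1 + L2, fun M N i hi => ?_⟩
  rw [(h.arc M).mul i _ (pow_mem h.gmem N) _ hx]
  refine RVal.Ge.sum _ _ fun ab hab => ?_
  have hab' : ab.1 + ab.2 = i := by simpa using hab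
  have h9 : (i : ℝ) = ab.1 + ab.2 := by exact_mod_cast hab'.symm
  have hG : v.Ge (N * v G) (G ^ N) := fun _ => (v.map_pow h.gne N).ge
  rcases le_or_gt (L2 * q M) ab.2 with h3 | h3
  · refine (((h.arc M).norm ab.1 (pow_mem h.gmem N) hG).mul (h2 M ab.2 h3)).mono ?_
    rw [h9]
    linarith
  · have h4 : L1 * q M ≤ ab.1 := by
      rw [Nat.add_mul] at hi
      omega
    refine ((h1 M N ab.1 h4).mul ((h.arc M).norm ab.2 hx (RVal.ge_self (v := v) x))).mono ?_
    rw [h9]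
    linarith [le_max_right 0 (C - v x)]

/-- **Threshold for the second iterates.** -/
theorem Fam.thr2 (h0 : Ctx0 k v) (h : Fam v F σ G m q P Ψ) {f : Ω} (hf : f ∈ F) (B : ℝ) :
    ∃ L : ℕ, ∀ M i j : ℕ, L * q M ≤ i + j →
      v.Ge (B - (i + j : ℕ) * σ) (Ψ M i (Ψ M j f)) := by
  obtain ⟨S, x, w, L, hx, h1⟩ := h.te f hf B
  have h2 : ∀ s : ℕ, ∃ L' : ℕ, s ∈ S → ∀ M N i : ℕ, L' * q M ≤ i →
      v.Ge (N * v G + (B - w s * σ) - i * σ) (Ψ M i (G ^ N * x s)) := by
    intro s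
    by_cases hs : s ∈ S
    · obtain ⟨L', h3⟩ := h.mul_gain h0 (hx s hs) (B - w s * σ)
      exact ⟨L', fun _ => h3⟩
    · exact ⟨0, fun h3 => absurd h3 hs⟩
  choose L' hL' using h2
  refine ⟨L + ∑ s ∈ S, L' s, fun M i j hij => ?_⟩
  obtain ⟨c, h3, h4, h5⟩ := h1 M j
  have hc : ∀ s ∈ S, c s ∈ F := fun s hs => (h3 s hs).mem h.gmem
  have hsum : ∑ s ∈ S, c s * x s ∈ F := sum_mem fun s hs => mul_mem (hc s hs) (hx s hs)
  have hf' : Ψ M j f ∈ F := (h.arc M).mem j f hf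
  have e : Ψ M i (Ψ M j f) = Ψ M i (∑ s ∈ S, c s * x s) +
      Ψ M i (Ψ M j f - ∑ s ∈ S, c s * x s) := by
    rw [(h.arc M).toHSd.sub i hf' hsum]
    ring
  rw [e]
  refine RVal.Ge.add ?_ ?_
  · rw [(h.arc M).toHSd.sum i S _ fun s hs => mul_mem (hc s hs) (hx s hs)]
    refine RVal.Ge.sum _ _ fun s hs => ?_
    rcases h3 s hs with h6 | ⟨lam, N, h6, h7⟩
    · rw [h6, zero_mul, (h.arc M).toHSd.zero]
      exact RVal.Ge.zero
    · by_cases h8 : L * q M ≤ j
      · rw [h4 h8 s hs, zero_mul, (h.arc M).toHSd.zero]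
        exact RVal.Ge.zero
      push Not at h8
      have h9 : L' s * q M ≤ i := by
        have h10 : L' s ≤ ∑ s ∈ S, L' s := single_le_sum (fun _ _ => Nat.zero_le _) hs
        have h11 : L' s * q M ≤ (∑ s ∈ S, L' s) * q M := Nat.mul_le_mul_right _ h10
        rw [Nat.add_mul] at hij
        omega
      have h12 := hL' s hs M N i h9
      rw [h7, mul_assoc, (h.arc M).mul i _ (F.algebraMap_mem lam) _
        (mul_mem (pow_mem h.gmem N) (hx s hs))]
      refine RVal.Ge.sum _ _ fun ab hab => ?_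
      have hab' : ab.1 + ab.2 = i := by simpa using hab
      by_cases h13 : ab.1 = 0
      · have h14 : ab.2 = i := by omega
        rw [h13, h14, (h.arc M).c0 _ (F.algebraMap_mem lam)]
        refine ((h0.ge lam).mul h12).mono ?_
        rw [h.gval]
        have h15 : (j : ℝ) = w s + m * N := by exact_mod_cast h6
        push_cast
        rw [h15]
        linarith
      · rw [(h.arc M).con ab.1 h13, zero_mul]
        exact RVal.Ge.zero
  · refine ((h.arc M).norm i (sub_mem hf' hsum) h5).mono ?_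
    push_cast
    linarith

end Pool.Agent.TWRS
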