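import Pool.Agent.Lib.TWRS.V6
import Pool.Agent.Lib.TWRS.Cons

/-!
# TANK W, windows: Proposition H for a family of arcs
-/

set_option autoImplicit false

open Finset

namespace Pool.Agent.TWRS

open Pool.Agent.H15JM (RVal)
open Pool.Agent.D2 (Ctx0)
open Pool.Agent.TWM (TL Lim Gt)
open Pool.Agent.TWII (PG LP Nr Wn)
open Pool.Agent.TWLM (HSd Oi)
open Pool.Agent.TWN1 (PC)

universe u

variable {k Ω : Type u} [Field k] [Field Ω] [Algebra k Ω] {v : RVal Ω}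

/-- Proposition H for a family of arcs, the consequences of `Fam` being given. -/
theorem Fam.fin_of (p : ℕ) [Fact p.Prime] [CharP Ω p]
    {F : IntermediateField k Ω} {σ s ν : ℝ} {G : Ω} {m : ℕ} {q P : ℕ → ℕ} {Ψ : ℕ → ℕ → Ω → Ω}
    (hF : Fam v F σ G m q P Ψ) (hT : Thr v F σ q Ψ)
    (hN : ∀ f ∈ F, ∀ t : ℝ, v.Ge t f → ∃ μ : ℝ, 0 < μ ∧ ∀ M n : ℕ, n ≠ 0 →
      v.Ge (t + μ - n * σ) (Ψ M n f))
    (hP : ∀ A ∈ F, ∀ τ : ℝ, LP p v F τ A → ∃ μ : ℝ, 0 < μ ∧ ∀ M n : ℕ, n ≠ 0 → n < P M →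
      PC p v F (τ - n * σ + μ) (Ψ M n A))
    {z : Ω} (hz : TL v F z s) {e a₀ : Ω} {A : ℕ → Ω} {S : ℕ}
    (he : e ∈ F) (ha₀ : a₀ ∈ F) (hA : ∀ i, A i ∈ F) (hge : v.Ge (ν - s) e)
    (hA0 : ∀ i, LP p v F (ν - (p ^ (i + 1) : ℕ) * s) (A i))
    (htop : ¬ PG p v F (ν - (p ^ (S + 1) : ℕ) * s) (A S))
    (hB : ∀ ε : ℝ, 0 < ε → ∃ δ : ℝ, 0 < δ ∧ ∀ θ ∈ F, v.Ge (s - δ) (z - θ) → ∃ g ∈ F,
      v.Ge (ν - ε) (a₀ + e * θ + ∑ i ∈ range (S + 1), A i * θ ^ p ^ (i + 1) - g ^ p)) :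
    ∃ C' : ℕ, ∀ M : ℕ, C' * q M ≤ P M → ∀ l : ℕ, C' * q M ≤ l → ∀ ε : ℝ, 0 < ε →
      Nr v F s z fun θ => v.Ge (s - l * σ - ε) (Ψ M l θ) := by
  obtain ⟨C, hC⟩ := propHS_u (P := P) (ν := ν) p (fun M => (hF.arc M).toHSd)
    (fun M l f hf b hb => (hF.arc M).toPwArc.norm l hf hb) (fun M => (hF.arc M).oi) hT hF.qpos
    hz.lim S he ha₀ A (fun i _ => hA i) hge (fun i _ => hA0 i) (by
      obtain ⟨μ, hμ, h1⟩ := hN e he _ hge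
      exact ⟨μ, hμ, fun M n hn _ => (h1 M n hn).mono (by linarith)⟩)
    (fun i _ => hP (A i) (hA i) _ (hA0 i)) htop hB
  refine ⟨C + 1, fun M hM l hl ε hε => hC M ?_ l ?_ ε hε⟩
  · exact (Nat.mul_le_mul_right _ (Nat.le_succ C)).trans hM
  · have h1 := hF.qpos M
    rw [add_mul, one_mul] at hl
    omega

/-- **(V6)** -/
theorem Fam.fin [IsAlgClosed k] [IsAlgClosed Ω] (p : ℕ) [hp : Fact p.Prime] [CharP Ω p]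
    (h0 : Ctx0 k v)
    {F : IntermediateField k Ω} {σ s ν : ℝ} {G : Ω} {m : ℕ} {q P : ℕ → ℕ} {Ψ : ℕ → ℕ → Ω → Ω}
    (hF : Fam v F σ G m q P Ψ) {z : Ω} (hz : TL v F z s) {e a₀ : Ω} {A : ℕ → Ω} {S : ℕ}
    (he : e ∈ F) (ha₀ : a₀ ∈ F) (hA : ∀ i, A i ∈ F) (hge : v.Ge (ν - s) e)
    (hA0 : ∀ i, LP p v F (ν - (p ^ (i + 1) : ℕ) * s) (A i))
    (htop : ¬ PG p v F (ν - (p ^ (S + 1) : ℕ) * s) (A S))
    (hB : ∀ ε : ℝ, 0 < ε → ∃ δ : ℝ, 0 < δ ∧ ∀ θ ∈ F, v.Ge (s - δ) (z - θ) → ∃ g ∈ F,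
      v.Ge (ν - ε) (a₀ + e * θ + ∑ i ∈ range (S + 1), A i * θ ^ p ^ (i + 1) - g ^ p)) :
    ∃ C' : ℕ, ∀ M : ℕ, C' * q M ≤ P M → ∀ l : ℕ, C' * q M ≤ l → ∀ ε : ℝ, 0 < ε →
      Nr v F s z fun θ => v.Ge (s - l * σ - ε) (Ψ M l θ) := by
  have hk : CharP k p := RingHom.charP (algebraMap k Ω) (algebraMap k Ω).injective p
  have he1 : ExpChar k p := ExpChar.prime hp.out
  have hpf : PerfectRing k p := inferInstance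
  exact hF.fin_of p (fun f hf B => hF.thr hf B) (fun f hf t ht => hF.null_ge h0 hf ht)
    (fun A hA τ hl => hF.null_pc h0 hA hl) hz he ha₀ hA hge hA0 htop hB

end Pool.Agent.TWRS
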