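import Pool.Agent.Lib.TWRS.Top3
import Pool.Agent.Lib.TWRS.V6F

/-!
# TANK W, row (Rt), the top floor, 4: the arc of the closure of `F(z)`

`exists_top`: from a family of arcs of `F` and a hit of the element `f(z)` at an order divisible by
`p`, an overconvergent arc of the closure of `F(z)`, pointwise strict, `z` has finitely many jets, and
all the jets of a limit of `p`-th powers are null.
-/

set_option autoImplicit false

open Polynomial Finset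

namespace Pool.Agent.TWRS

open Pool.Agent.H15JM (RVal)
open Pool.Agent.LU1 (VPos)
open Pool.Agent.D2 (Ctx0)
open Pool.Agent.TWM
open Pool.Agent.TWII (PG LP Nr)
open Pool.Agent.TWEX (cmp alp)

universe u

variable {k Ω : Type u} [Field k] [Field Ω] [Algebra k Ω] {v : RVal Ω}

/-- **(V7) The top floor.** -/
theorem exists_top [IsAlgClosed k] [IsAlgClosed Ω] (p : ℕ) [Fact p.Prime] [CharP Ω p]
    (hΩ : CompleteV v) (h0 : Ctx0 k v) {F : IntermediateField k Ω} {σ s ν : ℝ} {G : Ω} {m : ℕ}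
    {q P : ℕ → ℕ} {Ψ : ℕ → ℕ → Ω → Ω} (hF : Fam v F σ G m q P Ψ) (hpm : ¬ p ∣ m) {z : Ω}
    (hz : TL v F z s) {f : Polynomial Ω} (hf : f ∈ PI F)
    (hlim : LP p v (cadj v F z) ν (f.eval z))
    (hhit : ∃ l : ℕ, p ∣ l ∧ l ≠ 0 ∧
      ¬ PG p v (cadj v F z) (ν - l * s) ((taylor z f).coeff l))
    {R : Type*} [SetLike R Ω] [SubringClass R Ω] {A : R} (hAF : ∀ x ∈ A, x ∈ F)
    (hkA : ∀ c : k, algebraMap k Ω c ∈ A) (hGA : G ∈ A)
    (hAd : ∀ x ∈ F, ∀ b : ℝ, ∃ c ∈ A, v.Ge b (x - c))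
    {a : Ω} (ha : a ∈ cadj v F z) (hla : LP p v (cadj v F z) ν a) :
    ∃ (M : ℕ) (T : Finset ℕ) (c : ℕ → Ω) (Θ : ℕ → Ω → Ω) (n₀ : ℕ),
      (∀ t ∈ T, Hm k G m 1 (p ^ t) (c t)) ∧ (∃ t ∈ T, c t ≠ 0) ∧
      PwArc v (cadj v F z) σ Θ ∧ (∀ n, ∀ x ∈ F, Θ n x = cmp (Ψ M) (alp p T c) n x) ∧
      (∀ n, n ≠ 0 → Θ n z ∈ A) ∧ (∀ n, n ≠ 0 → n₀ ≤ n → Θ n z = 0) ∧
      ∀ n : ℕ, n ≠ 0 → PG p v (cadj v F z) (ν - n * σ) (Θ n a) := by
  obtain ⟨m', S, e, a₀, A', -, he, ha₀, hA', hge, hA0, htop, -, hB⟩ :=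
    TWII.soc p hz hf hlim hhit
  obtain ⟨C, hC⟩ := hF.fin p h0 hz he ha₀ hA' hge hA0
    (fun h => htop (h.of_le (le_cadj v F z))) hB
  exact exists_top_of hΩ h0 hF hpm (fun f hf B => hF.thr hf B) (fun f hf B => hF.thr2 h0 hf B) hz
    ⟨C, fun M hM l hl ε hε => hC M hM l hl.le ε hε⟩ hAF hkA hGA hAd ha hla

end Pool.Agent.TWRS
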