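import Pool.Agent.Lib.TWRS.Defs

/-!
# TANK W, row (Rt), (V3): the system along `(α, β)`

* `Had.c0`, `Had.hm_mul`, `Had.coeff_lt`, `Had.coeff_gt`: the coefficients of `α ^ l * β ^ b`;
* `fam_eq`: the sum over a larger range; `fam_mul`: the product formula;
* `fam_term`: the size of one term, `fam_oi`;
* `fam_pw`: `fam D α β` is a `PwArc`.
-/

set_option autoImplicit false

open Finset

namespace Pool.Agent.TWRS

open Pool.Agent.H15JM (RVal)
open Pool.Agent.D2 (Ctx0)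
open Pool.Agent.TWM
open Pool.Agent.TWII (PG LP Nr)
open Pool.Agent.TWLM (HSd Oi Arc)

universe u

variable {k Ω : Type u} [Field k] [Field Ω] [Algebra k Ω] {v : RVal Ω}
  {F : IntermediateField k Ω} {σ : ℝ} {q m p Q : ℕ} {D : ℕ → ℕ → Ω → Ω} {G : Ω}
  {α β : PowerSeries Ω} {f : Ω}

/-! ### The coefficients -/

theorem Had.c0 {w : ℕ} (hp : p ≠ 0) (h : Had k p G m w Q α) : PowerSeries.coeff 0 α = 0 := by
  by_contra h0
  obtain ⟨t, ht⟩ := h.add 0 h0
  exact (pow_ne_zero t hp) ht.symm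

/-- The weight of a product. -/
theorem hm_coeff_mul (hm : 0 < m) {w w' : ℕ} {a b : PowerSeries Ω}
    (ha : ∀ n, Hm k G m w n (PowerSeries.coeff n a))
    (hb : ∀ n, Hm k G m w' n (PowerSeries.coeff n b)) (n : ℕ) :
    Hm k G m (w + w') n (PowerSeries.coeff n (a * b)) := by
  rw [PowerSeries.coeff_mul]
  refine Hm.sum hm _ _ fun i hi => ?_
  have h1 := (ha i.1).mul (hb i.2)
  rwa [mem_antidiagonal.1 hi] at h1

theorem hm_coeff_pow (hm : 0 < m) {w : ℕ} {a : PowerSeries Ω}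
    (ha : ∀ n, Hm k G m w n (PowerSeries.coeff n a)) (l n : ℕ) :
    Hm k G m (l * w) n (PowerSeries.coeff n (a ^ l)) := by
  induction l generalizing n with
  | zero =>
    rw [pow_zero, zero_mul, PowerSeries.coeff_one]
    split_ifs with h
    · rw [h]
      exact Hm.one
    · exact Hm.zero
  | succ l ih =>
    rw [pow_succ, Nat.succ_mul]
    exact hm_coeff_mul hm ih ha n

/-- The weight of `α ^ l * β ^ b`. -/
theorem Had.hm_mul (hm : 0 < m) (hα : Had k p G m 1 Q α) (hβ : Had k p G m q Q β) (l b n : ℕ) :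
    Hm k G m (l + q * b) n (PowerSeries.coeff n (α ^ l * β ^ b)) := by
  have h1 := hm_coeff_mul hm (hm_coeff_pow hm hα.hm l) (hm_coeff_pow hm hβ.hm b) n
  rwa [mul_one, mul_comm b q] at h1

/-- The order of `α ^ l * β ^ b`. -/
theorem coeff_lt (hα : PowerSeries.coeff 0 α = 0) (hβ : PowerSeries.coeff 0 β = 0) {l b n : ℕ}
    (hn : n < l + b) : PowerSeries.coeff n (α ^ l * β ^ b) = 0 := by
  have h1 : (PowerSeries.X : PowerSeries Ω) ∣ α := by
    rw [PowerSeries.X_dvd_iff, ← PowerSeries.coeff_zero_eq_constantCoeff_apply]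
    exact hα
  have h2 : (PowerSeries.X : PowerSeries Ω) ∣ β := by
    rw [PowerSeries.X_dvd_iff, ← PowerSeries.coeff_zero_eq_constantCoeff_apply]
    exact hβ
  have h3 : (PowerSeries.X : PowerSeries Ω) ^ (l + b) ∣ α ^ l * β ^ b := by
    rw [pow_add]
    exact mul_dvd_mul (pow_dvd_pow_of_dvd h1 l) (pow_dvd_pow_of_dvd h2 b)
  exact (PowerSeries.X_pow_dvd_iff.1 h3) n hn

theorem deg_mul {a b : PowerSeries Ω} {d e : ℕ} (ha : ∀ n, d < n → PowerSeries.coeff n a = 0)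
    (hb : ∀ n, e < n → PowerSeries.coeff n b = 0) (n : ℕ) (hn : d + e < n) :
    PowerSeries.coeff n (a * b) = 0 := by
  rw [PowerSeries.coeff_mul]
  refine sum_eq_zero fun i hi => ?_
  have h1 := mem_antidiagonal.1 hi
  by_cases h2 : d < i.1
  · rw [ha _ h2, zero_mul]
  · rw [hb _ (by omega), mul_zero]

theorem deg_pow {a : PowerSeries Ω} {d : ℕ} (ha : ∀ n, d < n → PowerSeries.coeff n a = 0)
    (l : ℕ) : ∀ n, d * l < n → PowerSeries.coeff n (a ^ l) = 0 := by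
  induction l with
  | zero =>
    intro n hn
    rw [pow_zero, PowerSeries.coeff_one, if_neg (by omega)]
  | succ l ih =>
    intro n hn
    rw [pow_succ]
    refine deg_mul ih ha n ?_
    rw [Nat.mul_succ] at hn
    exact hn

/-- The degree of `α ^ l * β ^ b`. -/
theorem Had.coeff_gt {w w' : ℕ} (hα : Had k p G m w Q α) (hβ : Had k p G m w' Q β) {l b n : ℕ}
    (hn : Q * (l + b) < n) : PowerSeries.coeff n (α ^ l * β ^ b) = 0 :=
  deg_mul (deg_pow hα.deg l) (deg_pow hβ.deg b) n (by rwa [← Nat.mul_add])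

/-! ### The sum -/

/-- The sum over a larger range. -/
theorem fam_eq (hα : PowerSeries.coeff 0 α = 0) (hβ : PowerSeries.coeff 0 β = 0) {n N : ℕ}
    (hN : n < N) : fam D α β n f =
      ∑ l ∈ range N, ∑ b ∈ range N, D l b f * PowerSeries.coeff n (α ^ l * β ^ b) := by
  have hsub : range (n + 1) ⊆ range N := range_subset_range.2 (by omega)
  rw [fam]
  refine (sum_congr rfl fun l _ => ?_).trans (sum_subset hsub fun l hl hl' => ?_)
  · refine sum_subset hsub fun b hb hb' => ?_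
    rw [coeff_lt hα hβ (by rw [mem_range] at hb'; omega), mul_zero]
  · refine sum_eq_zero fun b _ => ?_
    rw [coeff_lt hα hβ (by rw [mem_range] at hl'; omega), mul_zero]

/-- Reindexing. -/
theorem sum_anti {M : Type*} [AddCommMonoid M] {N : ℕ} {h : ℕ → ℕ → M}
    (h0 : ∀ i j, N ≤ i + j → h i j = 0) :
    ∑ L ∈ range N, ∑ i ∈ antidiagonal L, h i.1 i.2 = ∑ i ∈ range N, ∑ j ∈ range N, h i j := by
  rw [← sum_product', sum_sigma' (range N) (fun L => antidiagonal L) fun _ i => h i.1 i.2]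
  have h1 : ∑ x ∈ range N ×ˢ range N, h x.1 x.2 =
      ∑ x ∈ (range N ×ˢ range N).filter (fun x => x.1 + x.2 < N), h x.1 x.2 := by
    symm
    refine sum_subset (filter_subset _ _) fun x hx hx' => h0 _ _ ?_
    by_contra h2
    exact hx' (mem_filter.2 ⟨hx, by omega⟩)
  rw [h1]
  refine sum_bij' (fun x _ => x.2) (fun x _ => ⟨x.1 + x.2, x⟩) ?_ ?_ ?_ ?_ ?_
  · rintro ⟨L, i⟩ hx
    obtain ⟨h2, h3⟩ := mem_sigma.1 hx
    have h4 := mem_antidiagonal.1 h3
    have h5 := mem_range.1 h2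
    simp only at h4 h5 ⊢
    refine mem_filter.2 ⟨mem_product.2 ⟨mem_range.2 ?_, mem_range.2 ?_⟩, ?_⟩ <;> omega
  · rintro ⟨i, j⟩ hx
    obtain ⟨-, h3⟩ := mem_filter.1 hx
    exact mem_sigma.2 ⟨mem_range.2 h3, mem_antidiagonal.2 rfl⟩
  · rintro ⟨L, i⟩ hx
    obtain ⟨-, h3⟩ := mem_sigma.1 hx
    have h4 := mem_antidiagonal.1 h3
    simp only at h4 ⊢
    subst h4
    rfl
  · rintro ⟨i, j⟩ _
    rfl
  · rintro ⟨L, i⟩ _
    rfl

/-- **The product formula.** -/
theorem fam_mul (hD : HS2 v F σ q D) (hα : PowerSeries.coeff 0 α = 0)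
    (hβ : PowerSeries.coeff 0 β = 0) (n : ℕ) {f g : Ω} (hf : f ∈ F) (hg : g ∈ F) :
    fam D α β n (f * g) = ∑ c ∈ antidiagonal n, fam D α β c.1 f * fam D α β c.2 g := by
  classical
  obtain ⟨N, hN⟩ : ∃ N, N = n + 1 := ⟨_, rfl⟩
  obtain ⟨E, hE⟩ : ∃ E : ℕ → ℕ → Ω, E = fun l b => PowerSeries.coeff n (α ^ l * β ^ b) := ⟨_, rfl⟩
  have hE0 : ∀ l b, N ≤ l ∨ N ≤ b → E l b = 0 := fun l b h => by
    rw [hE]
    exact coeff_lt hα hβ (by omega)
  -- the power series
  obtain ⟨S, hS⟩ : ∃ S : Ω → PowerSeries Ω, S = fun x =>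
      ∑ l ∈ range N, ∑ b ∈ range N, PowerSeries.C (D l b x) * (α ^ l * β ^ b) := ⟨_, rfl⟩
  have hSc : ∀ c, c ≤ n → ∀ x, PowerSeries.coeff c (S x) = fam D α β c x := by
    intro c hc x
    rw [hS, fam_eq hα hβ (show c < N by omega)]
    simp only [map_sum, PowerSeries.coeff_C_mul]
  have h1 : ∑ c ∈ antidiagonal n, fam D α β c.1 f * fam D α β c.2 g =
      PowerSeries.coeff n (S f * S g) := by
    rw [PowerSeries.coeff_mul]
    refine sum_congr rfl fun c hc => ?_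
    have h2 := mem_antidiagonal.1 hc
    rw [hSc c.1 (by omega), hSc c.2 (by omega)]
  have h2 : PowerSeries.coeff n (S f * S g) = ∑ i ∈ range N, ∑ j ∈ range N, ∑ i' ∈ range N,
      ∑ j' ∈ range N, D i j f * D i' j' g * E (i + i') (j + j') := by
    rw [hS, sum_mul, map_sum]
    refine sum_congr rfl fun i _ => ?_
    rw [sum_mul, map_sum]
    refine sum_congr rfl fun j _ => ?_
    rw [mul_sum, map_sum]
    refine sum_congr rfl fun i' _ => ?_
    rw [mul_sum, map_sum]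
    refine sum_congr rfl fun j' _ => ?_
    have e : PowerSeries.C (D i j f) * (α ^ i * β ^ j) *
        (PowerSeries.C (D i' j' g) * (α ^ i' * β ^ j')) =
        PowerSeries.C (D i j f * D i' j' g) * (α ^ (i + i') * β ^ (j + j')) := by
      rw [map_mul, pow_add, pow_add]
      ring
    rw [e, PowerSeries.coeff_C_mul, hE]
  rw [h1, h2, fam_eq hα hβ (show n < N by omega)]
  have h3 : ∀ L B : ℕ, D L B (f * g) * PowerSeries.coeff n (α ^ L * β ^ B) =
      ∑ i ∈ antidiagonal L, ∑ j ∈ antidiagonal B,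
        D i.1 j.1 f * D i.2 j.2 g * E (i.1 + i.2) (j.1 + j.2) := by
    intro L B
    rw [hD.mul L B f hf g hg, sum_mul]
    refine sum_congr rfl fun i hi => ?_
    rw [sum_mul]
    refine sum_congr rfl fun j hj => ?_
    rw [mem_antidiagonal.1 hi, mem_antidiagonal.1 hj, hE]
  calc ∑ L ∈ range N, ∑ B ∈ range N, D L B (f * g) * PowerSeries.coeff n (α ^ L * β ^ B)
      = ∑ L ∈ range N, ∑ i ∈ antidiagonal L, ∑ B ∈ range N, ∑ j ∈ antidiagonal B,
          D i.1 j.1 f * D i.2 j.2 g * E (i.1 + i.2) (j.1 + j.2) := by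
        refine sum_congr rfl fun L _ => ?_
        rw [sum_comm]
        exact sum_congr rfl fun B _ => h3 L B
    _ = ∑ L ∈ range N, ∑ i ∈ antidiagonal L, ∑ j ∈ range N, ∑ j' ∈ range N,
          D i.1 j f * D i.2 j' g * E (i.1 + i.2) (j + j') := by
        refine sum_congr rfl fun L _ => sum_congr rfl fun i _ => ?_
        exact sum_anti (h := fun j j' => D i.1 j f * D i.2 j' g * E (i.1 + i.2) (j + j'))
          fun j j' h => by rw [hE0 _ _ (Or.inr h), mul_zero]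
    _ = ∑ i ∈ range N, ∑ i' ∈ range N, ∑ j ∈ range N, ∑ j' ∈ range N,
          D i j f * D i' j' g * E (i + i') (j + j') :=
        sum_anti (h := fun i i' => ∑ j ∈ range N, ∑ j' ∈ range N,
          D i j f * D i' j' g * E (i + i') (j + j')) fun i i' h =>
            sum_eq_zero fun j _ => sum_eq_zero fun j' _ => by rw [hE0 _ _ (Or.inl h), mul_zero]
    _ = _ := by
        refine sum_congr rfl fun i _ => ?_
        rw [sum_comm]

/-! ### The sizes -/

/-- One term. -/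
theorem fam_term (h0 : Ctx0 k v) (hm : 0 < m) (hG0 : G ≠ 0) (hGv : v G = -(m * σ))
    (hα : Had k p G m 1 Q α) (hβ : Had k p G m q Q β) {l b : ℕ} {t : ℝ} {x : Ω}
    (hx : v.Ge (t - (l + q * b : ℕ) * σ) x) (n : ℕ) :
    v.Ge (t - n * σ) (x * PowerSeries.coeff n (α ^ l * β ^ b)) := by
  refine (hx.mul ((hα.hm_mul hm hβ l b n).ge h0 hG0 hGv)).mono (le_of_eq ?_)
  ring

theorem fam_term_gt (h0 : Ctx0 k v) (hm : 0 < m) (hG0 : G ≠ 0) (hGv : v G = -(m * σ))
    (hα : Had k p G m 1 Q α) (hβ : Had k p G m q Q β) {l b : ℕ} {t : ℝ} {x : Ω}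
    (hx : Gt v (t - (l + q * b : ℕ) * σ) x) (n : ℕ) :
    Gt v (t - n * σ) (x * PowerSeries.coeff n (α ^ l * β ^ b)) := by
  intro h1
  have hx0 : x ≠ 0 := left_ne_zero_of_mul h1
  have hc0 := right_ne_zero_of_mul h1
  rw [v.map_mul hx0 hc0, (hα.hm_mul hm hβ l b n).val h0 hG0 hGv hc0]
  have := hx hx0
  linarith

/-- Uniform threshold, all terms but finitely many. -/
theorem fam_oi (h0 : Ctx0 k v) (hm : 0 < m) (hG0 : G ≠ 0) (hGv : v G = -(m * σ))
    (hα : Had k p G m 1 Q α) (hβ : Had k p G m q Q β) (hq : 0 < q) {B : ℝ} {L : ℕ}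
    (hL : ∀ l b : ℕ, L ≤ l + q * b → v.Ge (B - (l + q * b : ℕ) * σ) (D l b f)) {n : ℕ}
    (hn : L * Q ≤ n) (hQ : 0 < Q) : v.Ge (B - n * σ) (fam D α β n f) := by
  rw [fam]
  refine RVal.Ge.sum _ _ fun l _ => RVal.Ge.sum _ _ fun b _ => ?_
  by_cases h1 : L ≤ l + q * b
  · exact fam_term h0 hm hG0 hGv hα hβ (hL l b h1) n
  · have h2 : Q * (l + b) < n := by
      have h3 : b ≤ q * b := Nat.le_mul_of_pos_left b hq
      have h4 : l + b < L := by omega
      calc Q * (l + b) < Q * L := Nat.mul_lt_mul_of_pos_left h4 hQ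
        _ = L * Q := mul_comm _ _
        _ ≤ n := hn
    rw [hα.coeff_gt hβ h2, mul_zero]
    exact RVal.Ge.zero

theorem Had.mono {w Q' : ℕ} (h : Had k p G m w Q α) (hQ : Q ≤ Q') : Had k p G m w Q' α :=
  ⟨h.hm, h.add, fun n hn => h.deg n (by omega)⟩

theorem gt_sum {ι : Type*} {c : ℝ} (S : Finset ι) (f : ι → Ω) (h : ∀ i ∈ S, Gt v c (f i)) :
    Gt v c (∑ i ∈ S, f i) := by
  classical
  induction S using Finset.induction_on with
  | empty =>
    rw [sum_empty]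
    exact Gt.zero
  | insert i S hi ih =>
    rw [sum_insert hi]
    exact (h i (mem_insert_self i S)).add (ih fun j hj => h j (mem_insert_of_mem hj))

/-- **(V3)** -/
theorem fam_pw (p : ℕ) [Fact p.Prime] [CharP Ω p] (h0 : Ctx0 k v) {F : IntermediateField k Ω}
    {σ : ℝ} {q : ℕ} {D : ℕ → ℕ → Ω → Ω} (hD : HS2 v F σ q D) (hq : 0 < q) {G : Ω} {m : ℕ}
    (hm : 0 < m) (hG : G ∈ F) (hG0 : G ≠ 0) (hGv : v G = -(m * σ)) {α β : PowerSeries Ω} {Q : ℕ}
    (hα : Had k p G m 1 Q α) (hβ : Had k p G m q Q β) : PwArc v F σ (fam D α β) := by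
  have hp0 : p ≠ 0 := (Fact.out : p.Prime).ne_zero
  have hα0 := hα.c0 hp0
  have hβ0 := hβ.c0 hp0
  refine
    { mem := fun n f hf => ?_
      c0 := fun f hf => ?_
      add := fun n f hf g hg => ?_
      mul := fun n f hf g hg => fam_mul hD hα0 hβ0 n hf hg
      con := fun n hn c => ?_
      pst := fun n hn x hx t ht => ?_
      oi := fun f hf B => ?_ }
  · exact sum_mem fun l _ => sum_mem fun b _ =>
      mul_mem (hD.mem l b f hf) ((hα.hm_mul hm hβ l b n).mem hG)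
  · rw [fam]
    simp only [zero_add, range_one, sum_singleton, pow_zero, mul_one, PowerSeries.coeff_one,
      if_true, hD.c0 f hf]
  · rw [fam, fam, fam, ← sum_add_distrib]
    refine sum_congr rfl fun l _ => ?_
    rw [← sum_add_distrib]
    refine sum_congr rfl fun b _ => ?_
    rw [hD.add l b f hf g hg, add_mul]
  · rw [fam]
    refine sum_eq_zero fun l _ => sum_eq_zero fun b _ => ?_
    by_cases h1 : l ≠ 0 ∨ b ≠ 0
    · rw [hD.con l b h1 c, zero_mul]
    · push Not at h1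
      rw [h1.1, h1.2, pow_zero, pow_zero, mul_one, PowerSeries.coeff_one, if_neg hn, mul_zero]
  · rw [fam]
    refine gt_sum _ _ fun l _ => gt_sum _ _ fun b _ => ?_
    by_cases h1 : l ≠ 0 ∨ b ≠ 0
    · exact fam_term_gt h0 hm hG0 hGv hα hβ (hD.pst l b h1 x hx t ht) n
    · push Not at h1
      rw [h1.1, h1.2, pow_zero, pow_zero, mul_one, PowerSeries.coeff_one, if_neg hn, mul_zero]
      exact Gt.zero
  · obtain ⟨L, hL⟩ := hD.oi f hf B
    exact ⟨(L + 1) * (Q + 1), fun n hn => fam_oi h0 hm hG0 hGv (hα.mono (Nat.le_succ Q))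
      (hβ.mono (Nat.le_succ Q)) hq (fun l b h => hL l b (by omega)) hn
      (Nat.succ_pos Q)⟩

/-- **(V3)**, the test elements. -/
theorem fam_te (p : ℕ) [Fact p.Prime] [CharP Ω p] (h0 : Ctx0 k v) {F : IntermediateField k Ω}
    {σ : ℝ} {q : ℕ} {D : ℕ → ℕ → Ω → Ω} (hD : HS2 v F σ q D) (hq : 0 < q) {G : Ω} {m : ℕ}
    (hm : 0 < m) (hG : G ∈ F) (hG0 : G ≠ 0) (hGv : v G = -(m * σ)) {f : Ω} (hf : f ∈ F) (B : ℝ) :
    ∃ (S : Finset ℕ) (x : ℕ → Ω) (w : ℕ → ℕ) (L : ℕ), (∀ s ∈ S, x s ∈ F) ∧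
      ∀ (α β : PowerSeries Ω) (Q : ℕ), 0 < Q → Had k p G m 1 Q α → Had k p G m q Q β →
      ∀ n : ℕ, ∃ c : ℕ → Ω, (∀ s ∈ S, Hm k G m (w s) n (c s)) ∧
        (L * Q ≤ n → ∀ s ∈ S, c s = 0) ∧
        v.Ge (B - n * σ) (fam D α β n f - ∑ s ∈ S, c s * x s) := by
  classical
  have hp0 : p ≠ 0 := (Fact.out : p.Prime).ne_zero
  obtain ⟨L₀, hL₀⟩ := hD.oi f hf B
  obtain ⟨L, hLdef⟩ : ∃ L, L = L₀ + 1 := ⟨_, rfl⟩
  have hL : ∀ l b : ℕ, L ≤ l + q * b → v.Ge (B - (l + q * b : ℕ) * σ) (D l b f) :=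
    fun l b h => hL₀ l b (by omega)
  obtain ⟨P, hP⟩ : ∃ P : Finset (ℕ × ℕ), P = (range L ×ˢ range L).filter
      fun x => x.1 + q * x.2 < L := ⟨_, rfl⟩
  have hPmem : ∀ x : ℕ × ℕ, x ∈ P ↔ x.1 + q * x.2 < L := by
    intro x
    rw [hP, mem_filter, mem_product, mem_range, mem_range]
    constructor
    · exact fun h => h.2
    · intro h
      have h3 : x.2 ≤ q * x.2 := Nat.le_mul_of_pos_left _ hq
      exact ⟨⟨by omega, by omega⟩, h⟩
  have hinj : Set.InjOn (fun x : ℕ × ℕ => Nat.pair x.1 x.2) (P : Set (ℕ × ℕ)) := by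
    intro x _ y _ h
    have h1 := congrArg Nat.unpair h
    simpa using h1
  refine ⟨P.image fun x => Nat.pair x.1 x.2, fun s => D s.unpair.1 s.unpair.2 f,
    fun s => s.unpair.1 + q * s.unpair.2, L, fun s _ => hD.mem _ _ f hf,
    fun α β Q hQ hα hβ n => ⟨fun s => PowerSeries.coeff n (α ^ s.unpair.1 * β ^ s.unpair.2),
      fun s _ => hα.hm_mul hm hβ _ _ n, fun hn s hs => ?_, ?_⟩⟩
  · obtain ⟨x, hx, rfl⟩ := mem_image.1 hs
    rw [hPmem] at hx
    simp only [Nat.unpair_pair]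
    refine hα.coeff_gt hβ ?_
    have h3 : x.2 ≤ q * x.2 := Nat.le_mul_of_pos_left _ hq
    calc Q * (x.1 + x.2) < Q * L := Nat.mul_lt_mul_of_pos_left (by omega) hQ
      _ = L * Q := mul_comm _ _
      _ ≤ n := hn
  · rw [sum_image hinj]
    simp only [Nat.unpair_pair]
    obtain ⟨N, hN⟩ : ∃ N, N = n + L + 1 := ⟨_, rfl⟩
    rw [fam_eq (hα.c0 hp0) (hβ.c0 hp0) (show n < N by omega), ← sum_product']
    have hsub : P ⊆ range N ×ˢ range N := by
      intro x hx
      rw [hPmem] at hx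
      have h3 : x.2 ≤ q * x.2 := Nat.le_mul_of_pos_left _ hq
      exact mem_product.2 ⟨mem_range.2 (by omega), mem_range.2 (by omega)⟩
    rw [← sum_sdiff hsub, add_sub_assoc]
    have h1 : ∑ x ∈ P, D x.1 x.2 f * PowerSeries.coeff n (α ^ x.1 * β ^ x.2) -
        ∑ x ∈ P, PowerSeries.coeff n (α ^ x.1 * β ^ x.2) * D x.1 x.2 f = 0 := by
      rw [sub_eq_zero]
      exact sum_congr rfl fun x _ => mul_comm _ _
    rw [h1, add_zero]
    refine RVal.Ge.sum _ _ fun x hx => ?_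
    have h2 := (mem_sdiff.1 hx).2
    rw [hPmem] at h2
    exact fam_term h0 hm hG0 hGv hα hβ (hL x.1 x.2 (by omega)) n

end Pool.Agent.TWRS
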