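import Pool.Agent.Lib.TWLM.Fib

/-!
# TANK W, windows: two-index systems, 1: comparison

* `M2`: two-index additive and multiplicative systems; `WG`: weights of double power series;
* `cmp2`: two systems on the closure of `C(u)` which agree on `C` and are near at `u` are near;
* `vdm`, `M2.diag`: the system `choose (i + j) i * Θ (i + j)`.
-/

set_option autoImplicit false

open Polynomial Finset

namespace Pool.Agent.TWRS

open Pool.Agent.H15JM (RVal)
open Pool.Agent.TWM
open Pool.Agent.TWLM (HSd Oi poly_norm hasseDeriv_mem_PI eval_mem_cadj)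

universe u

variable {k Ω : Type u} [Field k] [Field Ω] [Algebra k Ω] {v : RVal Ω}
  {C F : IntermediateField k Ω} {A B : ℕ → ℕ → Ω → Ω} {w : Ω} {r σ τ t δ : ℝ}

/-- A two-index system which is additive and multiplicative on `F`. -/
structure M2 (F : IntermediateField k Ω) (A : ℕ → ℕ → Ω → Ω) : Prop where
  add : ∀ i j, ∀ x ∈ F, ∀ y ∈ F, A i j (x + y) = A i j x + A i j y
  mul : ∀ i j, ∀ x ∈ F, ∀ y ∈ F, A i j (x * y) =
    ∑ a ∈ Finset.HasAntidiagonal.antidiagonal i, ∑ b ∈ Finset.HasAntidiagonal.antidiagonal j,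
      A a.1 b.1 x * A a.2 b.2 y
  one : ∀ i j, A i j 1 = if i = 0 ∧ j = 0 then 1 else 0

/-- The double power series. -/
noncomputable def ser2 (A : ℕ → ℕ → Ω → Ω) (x : Ω) : PowerSeries (PowerSeries Ω) :=
  PowerSeries.mk fun i => PowerSeries.mk fun j => A i j x

omit [Algebra k Ω] [Field k] in
theorem coeff_ser2 (i j : ℕ) (x : Ω) :
    PowerSeries.coeff j (PowerSeries.coeff i (ser2 A x)) = A i j x := by
  rw [ser2, PowerSeries.coeff_mk, PowerSeries.coeff_mk]

omit [Algebra k Ω] [Field k] in
theorem ext2 {P Q : PowerSeries (PowerSeries Ω)}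
    (h : ∀ i j, PowerSeries.coeff j (PowerSeries.coeff i P) =
      PowerSeries.coeff j (PowerSeries.coeff i Q)) : P = Q :=
  PowerSeries.ext fun i => PowerSeries.ext fun j => h i j

omit [Algebra k Ω] [Field k] in
theorem coeff2_mul (P Q : PowerSeries (PowerSeries Ω)) (i j : ℕ) :
    PowerSeries.coeff j (PowerSeries.coeff i (P * Q)) =
      ∑ a ∈ Finset.HasAntidiagonal.antidiagonal i, ∑ b ∈ Finset.HasAntidiagonal.antidiagonal j,
        PowerSeries.coeff b.1 (PowerSeries.coeff a.1 P) *
          PowerSeries.coeff b.2 (PowerSeries.coeff a.2 Q) := by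
  rw [PowerSeries.coeff_mul, map_sum]
  exact sum_congr rfl fun a _ => PowerSeries.coeff_mul _ _ _

/-- The ring homomorphism. -/
noncomputable def M2.hom (h : M2 F A) : F →+* PowerSeries (PowerSeries Ω) where
  toFun x := ser2 A x
  map_one' := ext2 fun i j => by
    rw [coeff_ser2, IntermediateField.coe_one, h.one, PowerSeries.coeff_one]
    by_cases hi : i = 0
    · rw [if_pos hi, PowerSeries.coeff_one]
      by_cases hj : j = 0
      · rw [if_pos hj, if_pos ⟨hi, hj⟩]
      · rw [if_neg hj, if_neg fun h1 => hj h1.2]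
    · rw [if_neg hi, map_zero, if_neg fun h1 => hi h1.1]
  map_mul' x y := ext2 fun i j => by
    rw [coeff_ser2, IntermediateField.coe_mul, h.mul i j x x.2 y y.2, coeff2_mul]
    exact sum_congr rfl fun a _ => sum_congr rfl fun b _ => by rw [coeff_ser2, coeff_ser2]
  map_zero' := ext2 fun i j => by
    have h1 := h.add i j 0 F.zero_mem 0 F.zero_mem
    rw [add_zero] at h1
    rw [coeff_ser2, IntermediateField.coe_zero, map_zero, map_zero]
    exact left_eq_add.1 h1
  map_add' x y := ext2 fun i j => by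
    rw [coeff_ser2, IntermediateField.coe_add, h.add i j x x.2 y y.2, map_add, map_add,
      coeff_ser2, coeff_ser2]

theorem M2.coeff_hom (h : M2 F A) (i j : ℕ) (x : F) :
    PowerSeries.coeff j (PowerSeries.coeff i (h.hom x)) = A i j x := coeff_ser2 i j _

/-- Weights. -/
def WG (v : RVal Ω) (σ τ t : ℝ) (P : PowerSeries (PowerSeries Ω)) : Prop :=
  ∀ i j : ℕ, v.Ge (t - i * σ - j * τ) (PowerSeries.coeff j (PowerSeries.coeff i P))

namespace WG

variable {P Q : PowerSeries (PowerSeries Ω)} {t' : ℝ}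

omit [Algebra k Ω] [Field k] in
theorem mono (h : WG v σ τ t P) (ht : t' ≤ t) : WG v σ τ t' P :=
  fun i j => (h i j).mono (by linarith)

omit [Algebra k Ω] [Field k] in
theorem sum {ι : Type} {s : Finset ι} {P : ι → PowerSeries (PowerSeries Ω)}
    (h : ∀ i ∈ s, WG v σ τ t (P i)) : WG v σ τ t (∑ i ∈ s, P i) := fun i j => by
  rw [map_sum, map_sum]
  exact RVal.Ge.sum _ _ fun a ha => h a ha i j

omit [Algebra k Ω] [Field k] in
theorem mul (h : WG v σ τ t P) (h' : WG v σ τ t' Q) : WG v σ τ (t + t') (P * Q) := fun i j => by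
  rw [coeff2_mul]
  refine RVal.Ge.sum _ _ fun a ha => RVal.Ge.sum _ _ fun b hb => ?_
  have ha' : (a.1 : ℝ) + a.2 = i := by
    rw [← Finset.HasAntidiagonal.mem_antidiagonal.1 ha]
    push_cast
    ring
  have hb' : (b.1 : ℝ) + b.2 = j := by
    rw [← Finset.HasAntidiagonal.mem_antidiagonal.1 hb]
    push_cast
    ring
  refine ((h a.1 b.1).mul (h' a.2 b.2)).mono (le_of_eq ?_)
  rw [← ha', ← hb']
  ring

omit [Algebra k Ω] [Field k] in
theorem one : WG v σ τ 0 (1 : PowerSeries (PowerSeries Ω)) := fun i j => by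
  rw [PowerSeries.coeff_one]
  split_ifs with hi
  · rw [PowerSeries.coeff_one]
    split_ifs with hj
    · rw [hi, hj]
      intro _
      rw [v.map_one]
      simp
    · exact RVal.Ge.zero
  · rw [map_zero]
    exact RVal.Ge.zero

omit [Algebra k Ω] [Field k] in
theorem pow (h : WG v σ τ t P) (n : ℕ) : WG v σ τ (n * t) (P ^ n) := by
  induction n with
  | zero =>
    rw [pow_zero]
    exact one.mono (by simp)
  | succ n ih =>
    rw [pow_succ]
    refine (ih.mul h).mono (le_of_eq ?_)
    push_cast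
    ring

end WG

omit [Algebra k Ω] [Field k] in
/-- Taylor's formula for the image of a polynomial. -/
theorem taylor_sum {R : Type*} [CommRing R] {C : Type*} [Field C] (φ : C →+* R)
    (f : Polynomial C) (S D : R) {d : ℕ} (hd : f.natDegree ≤ d) :
    (f.map φ).eval (S + D) =
      ∑ a ∈ range (d + 1), ((hasseDeriv a f).map φ).eval S * D ^ a := by
  rw [add_comm, ← taylor_eval, eval_eq_sum_range' (n := d + 1)]
  · refine sum_congr rfl fun a _ => ?_
    rw [taylor_coeff]
    congr 2
    ext n
    rw [coeff_map, hasseDeriv_coeff, hasseDeriv_coeff, coeff_map, map_mul, map_natCast]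
  · rw [natDegree_taylor]
    exact Nat.lt_succ_of_le ((natDegree_map_le).trans hd)

/-- **Comparison.** -/
theorem cmp2 [IsAlgClosed Ω] (hu : TL v C w r) (hA : M2 (cadj v C w) A)
    (hB : M2 (cadj v C w) B) (hC : ∀ i j, ∀ c ∈ C, A i j c = B i j c)
    (nA : ∀ i j : ℕ, ∀ x ∈ cadj v C w, ∀ t, v.Ge t x → v.Ge (t - i * σ - j * τ) (A i j x))
    (nB : ∀ i j : ℕ, ∀ x ∈ cadj v C w, ∀ t, v.Ge t x → v.Ge (t - i * σ - j * τ) (B i j x))
    (hδ : 0 ≤ δ) (hD : ∀ i j : ℕ, v.Ge (r + δ - i * σ - j * τ) (A i j w - B i j w)) (i j : ℕ)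
    {x : Ω} (hx : x ∈ cadj v C w) (hxt : v.Ge t x) :
    v.Ge (t + δ - i * σ - j * τ) (A i j x - B i j x) := by
  classical
  have hle := le_cadj v C w
  have hwm := self_mem_cadj v C w
  -- polynomials
  have key : ∀ f ∈ PI C, v.Ge t (f.eval w) →
      v.Ge (t + δ - i * σ - j * τ) (A i j (f.eval w) - B i j (f.eval w)) := by
    intro f hf hft
    obtain ⟨f₀, hf₀⟩ : ∃ f₀ : Polynomial C, f₀.map (algebraMap C Ω) = f := by
      have h1 : f ∈ Polynomial.lifts (algebraMap C Ω) :=
        (Polynomial.lifts_iff_coeff_lifts f).2 fun n => ⟨⟨f.coeff n, hf n⟩, rfl⟩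
      exact (Polynomial.mem_lifts f).1 h1
    set wF : cadj v C w := ⟨w, hwm⟩ with hwF
    set inc : C →+* cadj v C w := (IntermediateField.inclusion hle).toRingHom with hinc
    set φ : C →+* PowerSeries (PowerSeries Ω) := hB.hom.comp inc with hφ
    have hφA : hA.hom.comp inc = φ := by
      refine RingHom.ext fun c => ext2 fun i j => ?_
      change PowerSeries.coeff j (PowerSeries.coeff i (hA.hom (inc c))) =
        PowerSeries.coeff j (PowerSeries.coeff i (hB.hom (inc c)))
      rw [hA.coeff_hom, hB.coeff_hom]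
      exact hC i j c c.2
    -- the image of `g(w)`
    have hval : ∀ (g : Polynomial C), (((g.map inc).eval wF : cadj v C w) : Ω) =
        (g.map (algebraMap C Ω)).eval w := by
      intro g
      rw [eval_map, eval_map, eval₂_eq_sum, eval₂_eq_sum, Polynomial.sum, Polynomial.sum]
      push_cast
      rfl
    have himA : ∀ g : Polynomial C, hA.hom ((g.map inc).eval wF) =
        (g.map φ).eval (hA.hom wF) := by
      intro g
      rw [← Polynomial.eval₂_at_apply, ← Polynomial.eval_map, Polynomial.map_map, hφA]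
    have himB : ∀ g : Polynomial C, hB.hom ((g.map inc).eval wF) =
        (g.map φ).eval (hB.hom wF) := by
      intro g
      rw [← Polynomial.eval₂_at_apply, ← Polynomial.eval_map, Polynomial.map_map]
    set D : PowerSeries (PowerSeries Ω) := hA.hom wF - hB.hom wF with hDdef
    have hDW : WG v σ τ (r + δ) D := fun i j => by
      rw [hDdef, map_sub, map_sub, hA.coeff_hom, hB.coeff_hom]
      exact hD i j
    have e1 : hA.hom ((f₀.map inc).eval wF) - hB.hom ((f₀.map inc).eval wF) =
        ∑ a ∈ range f₀.natDegree, hB.hom (((hasseDeriv (a + 1) f₀).map inc).eval wF) *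
          D ^ (a + 1) := by
      rw [himA, himB, ← sub_add_cancel (hA.hom wF) (hB.hom wF), ← hDdef, add_comm D,
        taylor_sum φ f₀ _ _ le_rfl, sum_range_succ', pow_zero, mul_one, hasseDeriv_zero',
        add_sub_cancel_right]
      exact sum_congr rfl fun a _ => by rw [himB]
    have e2 : A i j (f.eval w) - B i j (f.eval w) = PowerSeries.coeff j (PowerSeries.coeff i
        (hA.hom ((f₀.map inc).eval wF) - hB.hom ((f₀.map inc).eval wF))) := by
      rw [map_sub, map_sub, hA.coeff_hom, hB.coeff_hom, hval, hf₀]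
    rw [e2, e1]
    refine (WG.sum (t := t + δ) fun a _ => ?_) i j
    have h1 : v.Ge (t - (a + 1 : ℕ) * r) ((hasseDeriv (a + 1) f).eval w) := poly_norm hu hf _ hft
    have h2 : ((((hasseDeriv (a + 1) f₀).map inc).eval wF : cadj v C w) : Ω) =
        (hasseDeriv (a + 1) f).eval w := by
      rw [hval, ← hf₀]
      congr 1
      ext n
      rw [coeff_map, hasseDeriv_coeff, hasseDeriv_coeff, coeff_map, map_mul, map_natCast]
    have h3 : WG v σ τ (t - (a + 1 : ℕ) * r)
        (hB.hom (((hasseDeriv (a + 1) f₀).map inc).eval wF)) := fun i j => by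
      rw [hB.coeff_hom]
      refine nB i j _ (Subtype.property _) _ ?_
      rw [h2]
      exact h1
    refine (h3.mul (hDW.pow (a + 1))).mono ?_
    push_cast
    nlinarith [Nat.cast_nonneg (α := ℝ) a]
  -- limits
  obtain ⟨f, hf, h1⟩ := hu.dense hx (t + δ)
  have h2 : v.Ge t (f.eval w) := by
    have e : f.eval w = x - (x - f.eval w) := by ring
    rw [e]
    exact hxt.sub (h1.mono (by linarith))
  have hfm : f.eval w ∈ cadj v C w := eval_mem_cadj hf
  have h3 := nA i j _ (sub_mem hx hfm) _ h1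
  have h4 := nB i j _ (sub_mem hx hfm) _ h1
  have h5 := key f hf h2
  have eA := hA.add i j _ (sub_mem hx hfm) _ hfm
  have eB := hB.add i j _ (sub_mem hx hfm) _ hfm
  rw [sub_add_cancel] at eA eB
  rw [eA, eB]
  have e : A i j (x - f.eval w) + A i j (f.eval w) - (B i j (x - f.eval w) + B i j (f.eval w)) =
      A i j (x - f.eval w) - B i j (x - f.eval w) +
        (A i j (f.eval w) - B i j (f.eval w)) := by ring
  rw [e]
  exact (h3.sub h4).add h5

/-! ### The diagonal system -/

/-- Vandermonde. -/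
theorem vdm {R : Type*} [CommRing R] (f g : ℕ → R) (i j : ℕ) :
    ((i + j).choose i : R) * ∑ s ∈ Finset.HasAntidiagonal.antidiagonal (i + j), f s.1 * g s.2 =
      ∑ a ∈ Finset.HasAntidiagonal.antidiagonal i, ∑ b ∈ Finset.HasAntidiagonal.antidiagonal j,
        ((a.1 + b.1).choose a.1 * f (a.1 + b.1)) * ((a.2 + b.2).choose a.2 * g (a.2 + b.2)) := by
  classical
  have h1 : ∀ a ∈ Finset.HasAntidiagonal.antidiagonal i,
      ∑ b ∈ Finset.HasAntidiagonal.antidiagonal j,
        (((a.1 + b.1).choose a.1 : R) * f (a.1 + b.1)) *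
          ((a.2 + b.2).choose a.2 * g (a.2 + b.2)) =
      ∑ s ∈ Finset.HasAntidiagonal.antidiagonal (i + j),
        ((s.1.choose a.1 : R) * f s.1) * (s.2.choose a.2 * g s.2) := by
    intro a ha
    have ha' := Finset.HasAntidiagonal.mem_antidiagonal.1 ha
    refine sum_bij_ne_zero (fun b _ _ => (a.1 + b.1, a.2 + b.2)) ?_ ?_ ?_ ?_
    · intro b hb _
      have hb' := Finset.HasAntidiagonal.mem_antidiagonal.1 hb
      rw [Finset.HasAntidiagonal.mem_antidiagonal]
      dsimp only
      omega
    · intro b₁ h11 _ b₂ h21 _ h3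
      have h4 := (Prod.mk.injEq _ _ _ _).mp h3
      exact Prod.ext (by omega) (by omega)
    · intro s hs hne
      have hs' := Finset.HasAntidiagonal.mem_antidiagonal.1 hs
      have h5 : a.1 ≤ s.1 := by
        by_contra h6
        exact hne (by rw [Nat.choose_eq_zero_of_lt (not_le.1 h6), Nat.cast_zero, zero_mul,
          zero_mul])
      have h6 : a.2 ≤ s.2 := by
        by_contra h7
        exact hne (by rw [Nat.choose_eq_zero_of_lt (not_le.1 h7), Nat.cast_zero, zero_mul,
          mul_zero])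
      have e1 : a.1 + (s.1 - a.1) = s.1 := by omega
      have e2 : a.2 + (s.2 - a.2) = s.2 := by omega
      refine ⟨(s.1 - a.1, s.2 - a.2), Finset.HasAntidiagonal.mem_antidiagonal.2 (by dsimp only; omega), ?_, ?_⟩
      · dsimp only
        rw [e1, e2]
        exact hne
      · dsimp only
        rw [e1, e2]
    · intro b _ _
      rfl
  rw [sum_congr rfl h1, sum_comm, mul_sum]
  refine sum_congr rfl fun s hs => ?_
  have hs' := Finset.HasAntidiagonal.mem_antidiagonal.1 hs
  rw [← hs', Nat.add_choose_eq, Nat.cast_sum, sum_mul]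
  refine sum_congr rfl fun a _ => ?_
  push_cast
  ring

/-- The system `choose (i + j) i * Θ (i + j)`. -/
theorem M2.diag {Θ : ℕ → Ω → Ω} (h : HSd F Θ) :
    M2 F fun i j x => ((i + j).choose i : Ω) * Θ (i + j) x where
  add i j x hx y hy := by
    rw [h.add _ x hx y hy, mul_add]
  mul i j x hx y hy := by
    rw [h.mul _ x hx y hy]
    exact vdm (fun n => Θ n x) (fun n => Θ n y) i j
  one i j := by
    by_cases h1 : i = 0 ∧ j = 0
    · rw [if_pos h1, h1.1, h1.2, h.c0 1 F.one_mem]
      simp
    · rw [if_neg h1]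
      have h2 := h.con (i + j) (by omega) 1
      rw [map_one] at h2
      rw [h2, mul_zero]

/-- Composition of two Hasse-Schmidt derivations. -/
theorem M2.comp {Θ Ξ : ℕ → Ω → Ω} (h : HSd F Θ) (h' : HSd F Ξ) :
    M2 F fun i j x => Θ i (Ξ j x) where
  add i j x hx y hy := by
    rw [h'.add j x hx y hy, h.add i _ (h'.mem j x hx) _ (h'.mem j y hy)]
  mul i j x hx y hy := by
    rw [h'.mul j x hx y hy, h.sum, sum_comm]
    · refine sum_congr rfl fun b _ => ?_
      rw [h.mul i _ (h'.mem _ x hx) _ (h'.mem _ y hy)]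
    · exact fun b _ => mul_mem (h'.mem _ x hx) (h'.mem _ y hy)
  one i j := by
    by_cases hj : j = 0
    · rw [hj, h'.c0 1 F.one_mem]
      by_cases hi : i = 0
      · rw [hi, h.c0 1 F.one_mem, if_pos ⟨rfl, rfl⟩]
      · have h2 := h.con i hi 1
        rw [map_one] at h2
        rw [h2, if_neg fun h3 => hi h3.1]
    · have h2 := h'.con j hj 1
      rw [map_one] at h2
      rw [h2, h.zero, if_neg fun h3 => hj h3.2]

/-- The other order. -/
theorem M2.swap (h : M2 F A) : M2 F fun i j => A j i where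
  add i j := h.add j i
  mul i j x hx y hy := by
    rw [h.mul j i x hx y hy, sum_comm]
  one i j := by
    rw [h.one]
    by_cases h1 : i = 0 ∧ j = 0
    · rw [if_pos h1, if_pos h1.symm]
    · rw [if_neg h1, if_neg fun h2 => h1 h2.symm]

end Pool.Agent.TWRS
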