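import Pool.Agent.Lib.TWRS.Defs
import Pool.Agent.Lib.TWRS.HsA

/-!
# TANK W, windows: the composition defect of a family (V3, `fam_dft`)

* `ps_hm`: the coefficients of `α ^ l * β ^ b` are homogeneous;
* `dlt`: `f(X) ↦ f(X + X')`; `add_id`: the additivity identity for `α ^ l * β ^ b`;
* `gpow`: the jets of `lam * G ^ N` have a uniform margin;
* `fam_dft`.
-/

set_option autoImplicit false
set_option linter.unusedVariables false

open Polynomial Finset

namespace Pool.Agent.TWRS

open Pool.Agent.H15JM (RVal)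
open Pool.Agent.D2 (Ctx0)
open Pool.Agent.TWM
open Pool.Agent.TWLM (HSd Oi Arc)
open Pool.Agent.TWEX (exists_margin)

universe u

section Coeff

variable {k Ω : Type u} [Field k] [Field Ω] [Algebra k Ω] {G : Ω} {m w w' q Q n : ℕ}
  {α β P S : PowerSeries Ω} {p : ℕ}

theorem ps_hm_mul (hm : 0 < m) (hP : ∀ n, Hm k G m w n (PowerSeries.coeff n P))
    (hS : ∀ n, Hm k G m w' n (PowerSeries.coeff n S)) (n : ℕ) :
    Hm k G m (w + w') n (PowerSeries.coeff n (P * S)) := by
  rw [PowerSeries.coeff_mul]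
  refine Hm.sum hm _ _ fun a ha => ?_
  rw [← Finset.HasAntidiagonal.mem_antidiagonal.1 ha]
  exact (hP a.1).mul (hS a.2)

theorem ps_hm_pow (hm : 0 < m) (hP : ∀ n, Hm k G m w n (PowerSeries.coeff n P)) (l n : ℕ) :
    Hm k G m (l * w) n (PowerSeries.coeff n (P ^ l)) := by
  induction l generalizing n with
  | zero =>
    rw [pow_zero, PowerSeries.coeff_one, zero_mul]
    split_ifs with h1
    · rw [h1]
      exact Hm.one
    · exact Hm.zero
  | succ l ih =>
    rw [pow_succ, Nat.succ_mul]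
    exact ps_hm_mul hm ih hP n

/-- The coefficients of `α ^ l * β ^ b`. -/
theorem ps_hm (hm : 0 < m) (hα : Had k p G m 1 Q α) (hβ : Had k p G m q Q β) (l b n : ℕ) :
    Hm k G m (l + q * b) n (PowerSeries.coeff n (α ^ l * β ^ b)) := by
  have h1 := ps_hm_mul hm (ps_hm_pow hm hα.hm l) (ps_hm_pow hm hβ.hm b) n
  rwa [mul_one, mul_comm b q] at h1

/-- Coefficients of low order. -/
theorem ps_low (hm : 0 < m) (hα : Had k p G m 1 Q α) (hβ : Had k p G m q Q β) {l b n : ℕ}
    (h : n < l + q * b) : PowerSeries.coeff n (α ^ l * β ^ b) = 0 := by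
  by_contra h1
  have h2 := (ps_hm hm hα hβ l b n).le h1
  omega

end Coeff

section Additive

variable {Ω : Type u} [Field Ω]

/-- `f(X) ↦ f(X + X')`. -/
noncomputable def dlt : PowerSeries Ω →+* PowerSeries (PowerSeries Ω) where
  toFun f := PowerSeries.mk fun i => PowerSeries.mk fun j =>
    ((i + j).choose i : Ω) * PowerSeries.coeff (i + j) f
  map_one' := ext2 fun i j => by
    rw [PowerSeries.coeff_mk, PowerSeries.coeff_mk, PowerSeries.coeff_one, PowerSeries.coeff_one]
    by_cases hi : i = 0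
    · rw [if_pos hi, PowerSeries.coeff_one]
      by_cases hj : j = 0
      · rw [if_pos hj, if_pos (by omega), hi, hj]
        simp
      · rw [if_neg hj, if_neg (by omega), mul_zero]
    · rw [if_neg hi, if_neg (by omega), mul_zero, map_zero]
  map_mul' f g := ext2 fun i j => by
    rw [coeff2_mul, PowerSeries.coeff_mk, PowerSeries.coeff_mk, PowerSeries.coeff_mul,
      vdm (fun n => PowerSeries.coeff n f) (fun n => PowerSeries.coeff n g) i j]
    exact sum_congr rfl fun a _ => sum_congr rfl fun b _ => by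
      rw [PowerSeries.coeff_mk, PowerSeries.coeff_mk, PowerSeries.coeff_mk, PowerSeries.coeff_mk]
  map_zero' := ext2 fun i j => by
    rw [PowerSeries.coeff_mk, PowerSeries.coeff_mk, map_zero, mul_zero, map_zero, map_zero]
  map_add' f g := ext2 fun i j => by
    rw [map_add, map_add, PowerSeries.coeff_mk, PowerSeries.coeff_mk, PowerSeries.coeff_mk,
      PowerSeries.coeff_mk, PowerSeries.coeff_mk, PowerSeries.coeff_mk, map_add, mul_add]

theorem coeff_dlt (f : PowerSeries Ω) (i j : ℕ) :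
    PowerSeries.coeff j (PowerSeries.coeff i (dlt f)) =
      ((i + j).choose i : Ω) * PowerSeries.coeff (i + j) f := by
  change PowerSeries.coeff j (PowerSeries.coeff i (PowerSeries.mk fun i => PowerSeries.mk fun j =>
    ((i + j).choose i : Ω) * PowerSeries.coeff (i + j) f)) = _
  rw [PowerSeries.coeff_mk, PowerSeries.coeff_mk]

/-- `f(X)`. -/
noncomputable def pfst : PowerSeries Ω →+* PowerSeries (PowerSeries Ω) :=
  PowerSeries.map (PowerSeries.C (R := Ω))

/-- `f(X')`. -/
noncomputable def psnd : PowerSeries Ω →+* PowerSeries (PowerSeries Ω) := PowerSeries.C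

theorem coeff_pfst (f : PowerSeries Ω) (i : ℕ) :
    PowerSeries.coeff i (pfst f) = PowerSeries.C (PowerSeries.coeff i f) :=
  PowerSeries.coeff_map _ _ _

theorem coeff_pfst_psnd (f g : PowerSeries Ω) (i j : ℕ) :
    PowerSeries.coeff j (PowerSeries.coeff i (pfst f * psnd g)) =
      PowerSeries.coeff i f * PowerSeries.coeff j g := by
  rw [psnd, PowerSeries.coeff_mul_C, coeff_pfst, PowerSeries.coeff_C_mul]

/-- Additive series. -/
theorem dlt_add {k : Type u} [Field k] [Algebra k Ω] {p : ℕ} [hp : Fact p.Prime] [CharP Ω p]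
    {G : Ω} {m w Q : ℕ} {α : PowerSeries Ω} (h : Had k p G m w Q α)
    (h0 : PowerSeries.coeff 0 α = 0) : dlt α = pfst α + psnd α := by
  refine ext2 fun i j => ?_
  rw [coeff_dlt, map_add, map_add, coeff_pfst, psnd, PowerSeries.coeff_C, PowerSeries.coeff_C]
  by_cases hj : j = 0
  · rw [if_pos hj, hj, add_zero, Nat.choose_self, Nat.cast_one, one_mul]
    by_cases hi : i = 0
    · rw [if_pos hi, hi, h0, zero_add]
    · rw [if_neg hi, map_zero, add_zero]
  · rw [if_neg hj, zero_add]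
    by_cases hi : i = 0
    · rw [if_pos hi, hi, zero_add, Nat.choose_zero_right, Nat.cast_one, one_mul]
    · rw [if_neg hi, map_zero]
      by_contra h1
      obtain ⟨t, ht⟩ := h.add (i + j) (right_ne_zero_of_mul h1)
      have h2 : p ∣ (i + j).choose i := by
        rw [ht]
        exact hp.out.dvd_choose_pow hi (by omega)
      rw [(CharP.cast_eq_zero_iff Ω p _).2 h2, zero_mul] at h1
      exact h1 rfl

/-- **The additivity identity.** -/
theorem add_id {k : Type u} [Field k] [Algebra k Ω] {p : ℕ} [hp : Fact p.Prime] [CharP Ω p]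
    {G : Ω} {m w w' Q Q' : ℕ} {α β : PowerSeries Ω} (hα : Had k p G m w Q α)
    (hα0 : PowerSeries.coeff 0 α = 0) (hβ : Had k p G m w' Q' β)
    (hβ0 : PowerSeries.coeff 0 β = 0) (l b i j : ℕ) :
    ∑ a ∈ Finset.HasAntidiagonal.antidiagonal l, ∑ c ∈ Finset.HasAntidiagonal.antidiagonal b,
      ((l.choose a.1 * b.choose c.1 : ℕ) : Ω) * (PowerSeries.coeff i (α ^ a.1 * β ^ c.1) *
        PowerSeries.coeff j (α ^ a.2 * β ^ c.2)) =
    ((i + j).choose i : Ω) * PowerSeries.coeff (i + j) (α ^ l * β ^ b) := by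
  rw [← coeff_dlt, map_mul, map_pow, map_pow, dlt_add hα hα0, dlt_add hβ hβ0,
    (Commute.all (pfst α) (psnd α)).add_pow', (Commute.all (pfst β) (psnd β)).add_pow', sum_mul,
    map_sum, map_sum]
  refine sum_congr rfl fun a _ => ?_
  rw [mul_sum, map_sum, map_sum]
  refine sum_congr rfl fun c _ => ?_
  have e : l.choose a.1 • (pfst α ^ a.1 * psnd α ^ a.2) * b.choose c.1 • (pfst β ^ c.1 * psnd β ^ c.2) =
      (l.choose a.1 * b.choose c.1) • (pfst (α ^ a.1 * β ^ c.1) * psnd (α ^ a.2 * β ^ c.2)) := by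
    rw [map_mul, map_mul, map_pow, map_pow, map_pow, map_pow, nsmul_eq_mul, nsmul_eq_mul,
      nsmul_eq_mul]
    push_cast
    ring
  rw [e, map_nsmul, map_nsmul, coeff_pfst_psnd, nsmul_eq_mul]

end Additive

/-! ### Sums -/

theorem sum_box {R : Type*} [AddCommMonoid R] (g : ℕ → ℕ → R) (i j : ℕ)
    (h : ∀ l l' : ℕ, i < l ∨ j < l' → g l l' = 0) :
    ∑ l ∈ range (i + 1), ∑ l' ∈ range (j + 1), g l l' =
      ∑ s ∈ range (i + j + 1), ∑ a ∈ Finset.HasAntidiagonal.antidiagonal s, g a.1 a.2 := by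
  classical
  rw [← Finset.sum_product' (s := range (i + 1)) (t := range (j + 1)) (f := g),
    ← Finset.sum_fiberwise_of_maps_to (s := range (i + 1) ×ˢ range (j + 1))
      (t := range (i + j + 1)) (g := fun x => x.1 + x.2) (fun x hx => by
        rw [mem_product, mem_range, mem_range] at hx
        rw [mem_range]
        omega)]
  refine sum_congr rfl fun s hs => ?_
  refine sum_subset (fun x hx => ?_) fun x hx hx' => ?_
  · rw [mem_filter] at hx
    exact Finset.HasAntidiagonal.mem_antidiagonal.2 hx.2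
  · refine h x.1 x.2 ?_
    by_contra h1
    push Not at h1
    exact hx' (mem_filter.2 ⟨mem_product.2 ⟨mem_range.2 (by omega), mem_range.2 (by omega)⟩,
      Finset.HasAntidiagonal.mem_antidiagonal.1 hx⟩)

section Main

variable {k Ω : Type u} [Field k] [Field Ω] [Algebra k Ω] {v : RVal Ω}
  {F : IntermediateField k Ω} {σ t : ℝ} {q m : ℕ} {D : ℕ → ℕ → Ω → Ω} {G x : Ω}

/-- The norm. -/
theorem HS2.norm (hD : HS2 v F σ q D) (l b : ℕ) (hx : x ∈ F) (ht : v.Ge t x) :
    v.Ge (t - (l + q * b : ℕ) * σ) (D l b x) := by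
  by_cases h1 : l ≠ 0 ∨ b ≠ 0
  · exact (hD.pst l b h1 x hx t ht).ge
  · push Not at h1
    rw [h1.1, h1.2, hD.c0 x hx]
    exact ht.mono (by simp)

/-- A uniform margin for one element. -/
theorem HS2.unif (hD : HS2 v F σ q D) (hq : 0 < q) (hx : x ∈ F) (ht : v.Ge t x) :
    ∃ μ : ℝ, 0 < μ ∧ ∀ l b : ℕ, l ≠ 0 ∨ b ≠ 0 → v.Ge (t - (l + q * b : ℕ) * σ + μ) (D l b x) := by
  obtain ⟨N, hN⟩ := hD.oi x hx (t + 1)
  obtain ⟨μ, hμ, h1⟩ := exists_margin (range N ×ˢ range N)
    (fun a μ => a.1 ≠ 0 ∨ a.2 ≠ 0 → v.Ge (t - (a.1 + q * a.2 : ℕ) * σ + μ) (D a.1 a.2 x))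
    (fun a _ => by
      by_cases h1 : a.1 ≠ 0 ∨ a.2 ≠ 0
      · obtain ⟨e, he, h2⟩ := TWLM.exists_ge_of_gt (hD.pst a.1 a.2 h1 x hx t ht)
        exact ⟨e, he, fun _ => h2⟩
      · exact ⟨1, one_pos, fun h2 => absurd h2 h1⟩)
    (fun a _ μ μ' h2 h3 h4 => (h3 h4).mono (by linarith))
  refine ⟨min μ 1, lt_min hμ one_pos, fun l b hlb => ?_⟩
  by_cases h2 : N ≤ l + q * b
  · exact (hN l b h2).mono (by linarith [min_le_right μ 1])
  · have h3 : l < N := by omega
    have h4 : b < N := by nlinarith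
    exact (h1 (l, b) (mem_product.2 ⟨mem_range.2 h3, mem_range.2 h4⟩) hlb).mono
      (by linarith [min_le_left μ 1])

theorem HS2.sum (hD : HS2 v F σ q D) {ι : Type*} (S : Finset ι) (f : ι → Ω)
    (hf : ∀ i ∈ S, f i ∈ F) (l b : ℕ) : D l b (∑ i ∈ S, f i) = ∑ i ∈ S, D l b (f i) := by
  classical
  induction S using Finset.induction_on with
  | empty =>
    rw [sum_empty, sum_empty]
    have h1 := hD.add l b 0 F.zero_mem 0 F.zero_mem
    rw [add_zero] at h1
    exact left_eq_add.1 h1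
  | insert i S hi ih =>
    rw [sum_insert hi, sum_insert hi, hD.add l b _ (hf i (mem_insert_self i S)) _
      (sum_mem fun j hj => hf j (mem_insert_of_mem hj)), ih fun j hj => hf j (mem_insert_of_mem hj)]

/-- **The jets of `lam * G ^ N`**, with a uniform margin. -/
theorem HS2.gpow (h0 : Ctx0 k v) (hD : HS2 v F σ q D) (hq : 0 < q) (hG : G ∈ F) (hG0 : G ≠ 0)
    (hGv : v G = -(m * σ)) : ∃ μ : ℝ, 0 < μ ∧ ∀ (w n : ℕ) (a : Ω), Hm k G m w n a → ∀ l b : ℕ,
      l ≠ 0 ∨ b ≠ 0 → v.Ge (w * σ - n * σ - (l + q * b : ℕ) * σ + μ) (D l b a) := by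
  obtain ⟨μ, hμ, h1⟩ := hD.unif hq hG (t := -(m * σ)) (fun _ => hGv.ge)
  have hN : ∀ N : ℕ, ∀ l b : ℕ, l ≠ 0 ∨ b ≠ 0 →
      v.Ge (-(N * m * σ) - (l + q * b : ℕ) * σ + μ) (D l b (G ^ N)) := by
    intro N
    have hGe : ∀ N : ℕ, v.Ge (-(N * m * σ)) (G ^ N) := fun N _ => by
      rw [v.map_pow hG0, hGv]
      exact le_of_eq (by ring)
    induction N with
    | zero =>
      intro l b hlb
      have h2 := hD.con l b hlb 1
      rw [map_one] at h2
      rw [pow_zero, h2]
      exact RVal.Ge.zero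
    | succ N ih =>
      intro l b hlb
      rw [pow_succ, hD.mul l b _ (pow_mem hG N) _ hG]
      refine RVal.Ge.sum _ _ fun a ha => RVal.Ge.sum _ _ fun c hc => ?_
      have ha' := Finset.HasAntidiagonal.mem_antidiagonal.1 ha
      have hc' := Finset.HasAntidiagonal.mem_antidiagonal.1 hc
      have e1 : ((l + q * b : ℕ) : ℝ) = (a.1 + q * c.1 : ℕ) + (a.2 + q * c.2 : ℕ) := by
        rw [← ha', ← hc', ← Nat.cast_add]
        congr 1
        ring
      rw [e1]
      by_cases h2 : a.1 ≠ 0 ∨ c.1 ≠ 0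
      · refine ((ih a.1 c.1 h2).mul (hD.norm a.2 c.2 hG (fun _ => hGv.ge))).mono ?_
        push_cast
        linarith
      · have h3 : a.2 ≠ 0 ∨ c.2 ≠ 0 := by omega
        refine ((hD.norm a.1 c.1 (pow_mem hG N) (hGe N)).mul (h1 a.2 c.2 h3)).mono ?_
        push_cast
        linarith
  refine ⟨μ, hμ, fun w n a ha l b hlb => ?_⟩
  rcases ha with rfl | ⟨lam, N, h2, rfl⟩
  · have h3 := hD.con l b hlb 0
    rw [map_zero] at h3
    rw [h3]
    exact RVal.Ge.zero
  · have h3 : D l b (algebraMap k Ω lam * G ^ N) = algebraMap k Ω lam * D l b (G ^ N) := by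
      rw [hD.mul l b _ (F.algebraMap_mem lam) _ (pow_mem hG N),
        Finset.sum_eq_single ((0, l) : ℕ × ℕ), Finset.sum_eq_single ((0, b) : ℕ × ℕ)]
      · rw [hD.c0 _ (F.algebraMap_mem lam)]
      · intro c hc hne
        have hc' := Finset.HasAntidiagonal.mem_antidiagonal.1 hc
        have h4 : c.1 ≠ 0 := fun h5 => hne (Prod.ext h5 (by dsimp only; omega))
        rw [hD.con 0 c.1 (Or.inr h4) lam, zero_mul]
      · intro hne
        exact absurd (Finset.HasAntidiagonal.mem_antidiagonal.2 (by dsimp only; omega)) hne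
      · intro a ha hne
        have ha' := Finset.HasAntidiagonal.mem_antidiagonal.1 ha
        have h4 : a.1 ≠ 0 := fun h5 => hne (Prod.ext h5 (by dsimp only; omega))
        refine sum_eq_zero fun c _ => ?_
        rw [hD.con a.1 c.1 (Or.inl h4) lam, zero_mul]
      · intro hne
        exact absurd (Finset.HasAntidiagonal.mem_antidiagonal.2 (by dsimp only; omega)) hne
    rw [h3]
    have h4 : v.Ge 0 (algebraMap k Ω lam) := by
      intro h5
      rw [h0.triv lam fun h6 => h5 (by rw [h6, map_zero])]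
    refine (h4.mul (hN N l b hlb)).mono ?_
    rw [h2]
    push_cast
    linarith


/-- The family, with the terms as a sum over a box. -/
theorem fam_eqD {α β : PowerSeries Ω} (D : ℕ → ℕ → Ω → Ω) (n : ℕ) (x : Ω) :
    fam D α β n x = ∑ l ∈ range (n + 1), ∑ b ∈ range (n + 1),
      D l b x * PowerSeries.coeff n (α ^ l * β ^ b) := rfl

/-- **(V3) the composition defect.** -/
theorem fam_dft (p : ℕ) [Fact p.Prime] [CharP Ω p] (h0 : Ctx0 k v) {F : IntermediateField k Ω}
    {σ : ℝ} {q : ℕ} {D : ℕ → ℕ → Ω → Ω} (hD : HS2 v F σ q D) (hq : 0 < q) {G : Ω} {m : ℕ}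
    (hm : 0 < m) (hG : G ∈ F) (hG0 : G ≠ 0) (hGv : v G = -(m * σ)) :
    ∃ δ : ℝ, 0 < δ ∧ ∀ (α β : PowerSeries Ω) (Q : ℕ), Had k p G m 1 Q α → Had k p G m q Q β →
      ∀ i j : ℕ, ∀ x ∈ F, ∀ t : ℝ, v.Ge t x → v.Ge (t - (i + j : ℕ) * σ + δ)
        (fam D α β i (fam D α β j x) - (((i + j).choose i : ℕ) : Ω) * fam D α β (i + j) x) := by
  classical
  obtain ⟨μ, hμ, hg⟩ := hD.gpow h0 hq hG hG0 hGv
  obtain ⟨δ, hδ, hd⟩ := hD.dft
  refine ⟨min μ δ, lt_min hμ hδ, fun α β Q hα hβ i j x hx t ht => ?_⟩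
  -- the coefficients
  obtain ⟨γ, hγ⟩ : ∃ γ : ℕ → ℕ → ℕ → Ω, γ = fun n l b =>
      PowerSeries.coeff n (α ^ l * β ^ b) := ⟨_, rfl⟩
  have hγe : ∀ n l b, PowerSeries.coeff n (α ^ l * β ^ b) = γ n l b := fun n l b => by rw [hγ]
  have hγH : ∀ n l b, Hm k G m (l + q * b) n (γ n l b) := fun n l b => by
    rw [← hγe]
    exact ps_hm hm hα hβ l b n
  have hγF : ∀ n l b, γ n l b ∈ F := fun n l b => (hγH n l b).mem hG
  have hγv : ∀ n l b : ℕ, v.Ge ((l + q * b : ℕ) * σ - n * σ) (γ n l b) := fun n l b =>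
    (hγH n l b).ge h0 hG0 hGv
  have hγ0 : ∀ n l b, n < l + q * b → γ n l b = 0 := fun n l b h1 => by
    rw [← hγe]
    exact ps_low hm hα hβ h1
  have hα0 : PowerSeries.coeff 0 α = 0 := by
    by_contra h1
    have h2 := (hα.hm 0).le h1
    omega
  have hβ0 : PowerSeries.coeff 0 β = 0 := by
    by_contra h1
    have h2 := (hβ.hm 0).le h1
    omega
  have hfam : ∀ n y, fam D α β n y = ∑ l ∈ range (n + 1), ∑ b ∈ range (n + 1),
      D l b y * γ n l b := fun n y => by
    rw [fam_eqD]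
    exact sum_congr rfl fun l _ => sum_congr rfl fun b _ => by rw [hγe]
  have hcast : ∀ a b : ℕ, ((a + b : ℕ) : ℝ) = a + b := fun a b => by push_cast; ring
  -- the product with a coefficient
  have hprod : ∀ l b l' b' : ℕ, v.Ge (t - (i + j : ℕ) * σ + min μ δ)
      (D l b (D l' b' x * γ j l' b') * γ i l b -
        D l b (D l' b' x) * γ j l' b' * γ i l b) := by
    intro l b l' b'
    have h1 := hD.norm l' b' hx ht
    have h2 : v.Ge (t - j * σ - (l + q * b : ℕ) * σ + μ)
        (D l b (D l' b' x * γ j l' b') - D l b (D l' b' x) * γ j l' b') := by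
      have hsum : D l b (D l' b' x * γ j l' b') - D l b (D l' b' x) * γ j l' b' =
          ∑ a ∈ (Finset.HasAntidiagonal.antidiagonal l ×ˢ
            Finset.HasAntidiagonal.antidiagonal b).erase ((l, 0), (b, 0)),
            D a.1.1 a.2.1 (D l' b' x) * D a.1.2 a.2.2 (γ j l' b') := by
        have h3 : (((l, 0), (b, 0)) : (ℕ × ℕ) × (ℕ × ℕ)) ∈
            Finset.HasAntidiagonal.antidiagonal l ×ˢ Finset.HasAntidiagonal.antidiagonal b :=
          mem_product.2 ⟨Finset.HasAntidiagonal.mem_antidiagonal.2 (by dsimp only; omega),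
            Finset.HasAntidiagonal.mem_antidiagonal.2 (by dsimp only; omega)⟩
        rw [hD.mul l b _ (hD.mem l' b' x hx) _ (hγF j l' b'), ← sum_product',
          ← Finset.add_sum_erase _ _ h3, hD.c0 _ (hγF j l' b'), add_sub_cancel_left]
      rw [hsum]
      refine RVal.Ge.sum _ _ fun a ha => ?_
      obtain ⟨hne, ha⟩ := mem_erase.1 ha
      obtain ⟨ha1, ha2⟩ := mem_product.1 ha
      have ha1' := Finset.HasAntidiagonal.mem_antidiagonal.1 ha1
      have ha2' := Finset.HasAntidiagonal.mem_antidiagonal.1 ha2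
      have h4 : a.1.2 ≠ 0 ∨ a.2.2 ≠ 0 := by
        by_contra h5
        push Not at h5
        refine hne (Prod.ext (Prod.ext ?_ h5.1) (Prod.ext ?_ h5.2))
        · dsimp only
          omega
        · dsimp only
          omega
      have h5 := hg _ j _ (hγH j l' b') a.1.2 a.2.2 h4
      refine ((hD.norm a.1.1 a.2.1 (hD.mem l' b' x hx) h1).mul h5).mono ?_
      have e1 : ((l + q * b : ℕ) : ℝ) = (a.1.1 + q * a.2.1 : ℕ) + (a.1.2 + q * a.2.2 : ℕ) := by
        rw [← ha1', ← ha2', ← Nat.cast_add]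
        congr 1
        ring
      rw [e1]
      linarith
    rw [← sub_mul]
    refine (h2.mul (hγv i l b)).mono ?_
    rw [hcast i j]
    linarith [min_le_left μ δ]
  have hdef : ∀ l b l' b' : ℕ, v.Ge (t - (i + j : ℕ) * σ + min μ δ)
      (D l b (D l' b' x) * γ j l' b' * γ i l b -
        (((l + l').choose l * (b + b').choose b : ℕ) : Ω) * D (l + l') (b + b') x *
          (γ i l b * γ j l' b')) := by
    intro l b l' b'
    have h1 := hd l b l' b' x hx t ht
    have e : D l b (D l' b' x) * γ j l' b' * γ i l b -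
        (((l + l').choose l * (b + b').choose b : ℕ) : Ω) * D (l + l') (b + b') x *
          (γ i l b * γ j l' b') =
        (D l b (D l' b' x) - (((l + l').choose l * (b + b').choose b : ℕ) : Ω) *
          D (l + l') (b + b') x) * (γ i l b * γ j l' b') := by ring
    rw [e]
    refine (h1.mul ((hγv i l b).mul (hγv j l' b'))).mono ?_
    push_cast
    linarith [min_le_right μ δ]
  -- the main term
  have hmain : ∑ l ∈ range (i + 1), ∑ b ∈ range (i + 1), ∑ l' ∈ range (j + 1),
      ∑ b' ∈ range (j + 1), (((l + l').choose l * (b + b').choose b : ℕ) : Ω) *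
        D (l + l') (b + b') x * (γ i l b * γ j l' b') =
      (((i + j).choose i : ℕ) : Ω) * fam D α β (i + j) x := by
    have h1 : ∀ l l' : ℕ, ∑ b ∈ range (i + 1), ∑ b' ∈ range (j + 1),
        (((l + l').choose l * (b + b').choose b : ℕ) : Ω) *
          D (l + l') (b + b') x * (γ i l b * γ j l' b') =
        ∑ s ∈ range (i + j + 1), ∑ c ∈ Finset.HasAntidiagonal.antidiagonal s,
          (((l + l').choose l * (c.1 + c.2).choose c.1 : ℕ) : Ω) *
          D (l + l') (c.1 + c.2) x * (γ i l c.1 * γ j l' c.2) := fun l l' =>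
      sum_box (fun b b' => (((l + l').choose l * (b + b').choose b : ℕ) : Ω) *
          D (l + l') (b + b') x * (γ i l b * γ j l' b')) i j (fun b b' hb => by
        rcases hb with hb | hb
        · rw [hγ0 i l b (by nlinarith), zero_mul, mul_zero]
        · rw [hγ0 j l' b' (by nlinarith), mul_zero, mul_zero])
    have h2 : ∑ l ∈ range (i + 1), ∑ b ∈ range (i + 1), ∑ l' ∈ range (j + 1),
        ∑ b' ∈ range (j + 1), (((l + l').choose l * (b + b').choose b : ℕ) : Ω) *
          D (l + l') (b + b') x * (γ i l b * γ j l' b') =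
        ∑ l ∈ range (i + 1), ∑ l' ∈ range (j + 1), ∑ s ∈ range (i + j + 1),
          ∑ c ∈ Finset.HasAntidiagonal.antidiagonal s,
          (((l + l').choose l * (c.1 + c.2).choose c.1 : ℕ) : Ω) *
          D (l + l') (c.1 + c.2) x * (γ i l c.1 * γ j l' c.2) := by
      refine sum_congr rfl fun l _ => ?_
      rw [sum_comm]
      exact sum_congr rfl fun l' _ => h1 l l'
    rw [h2, sum_box (fun l l' => ∑ s ∈ range (i + j + 1),
          ∑ c ∈ Finset.HasAntidiagonal.antidiagonal s,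
          (((l + l').choose l * (c.1 + c.2).choose c.1 : ℕ) : Ω) *
          D (l + l') (c.1 + c.2) x * (γ i l c.1 * γ j l' c.2)) i j (fun l l' hl => by
        refine sum_eq_zero fun s _ => sum_eq_zero fun c _ => ?_
        rcases hl with hl | hl
        · rw [hγ0 i l c.1 (by nlinarith), zero_mul, mul_zero]
        · rw [hγ0 j l' c.2 (by nlinarith), mul_zero, mul_zero]), hfam, mul_sum]
    refine sum_congr rfl fun s _ => ?_
    rw [sum_comm, mul_sum]
    refine sum_congr rfl fun r _ => ?_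
    have h3 := add_id hα hα0 hβ hβ0 s r i j
    rw [hγe] at h3
    rw [mul_left_comm, ← h3, mul_sum]
    refine sum_congr rfl fun a ha => ?_
    rw [mul_sum]
    refine sum_congr rfl fun c hc => ?_
    rw [Finset.HasAntidiagonal.mem_antidiagonal.1 ha, Finset.HasAntidiagonal.mem_antidiagonal.1 hc,
      hγe, hγe]
    ring
  -- the sum
  have hDm : ∀ l' b', D l' b' x * γ j l' b' ∈ F := fun l' b' =>
    mul_mem (hD.mem l' b' x hx) (hγF j l' b')
  rw [← hmain, hfam i, hfam j]
  simp only [← sum_sub_distrib]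
  refine RVal.Ge.sum _ _ fun l _ => RVal.Ge.sum _ _ fun b _ => ?_
  rw [hD.sum _ _ (fun l' _ => sum_mem fun b' _ => hDm l' b'), sum_mul, ← sum_sub_distrib]
  refine RVal.Ge.sum _ _ fun l' _ => ?_
  rw [hD.sum _ _ (fun b' _ => hDm l' b'), sum_mul, ← sum_sub_distrib]
  refine RVal.Ge.sum _ _ fun b' _ => ?_
  have e := (hprod l b l' b').add (hdef l b l' b')
  rwa [sub_add_sub_cancel] at e

end Main

end Pool.Agent.TWRS
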