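import Pool.Agent.Lib.TWRS.HsB

/-!
# TANK W, windows: two-index systems, 3: (V2)

* `margin_theta`, `margin_com`: the defects, with a uniform margin;
* `exists_hs2`: the system `y ↦ y + X`, `u ↦ u + h(X) + b Y`.
-/

set_option autoImplicit false
set_option linter.unusedVariables false

open Polynomial Finset

namespace Pool.Agent.TWRS

open Pool.Agent.H15JM (RVal)
open Pool.Agent.TWM
open Pool.Agent.TWLM (HSd Oi Arc eval_mem_cadj exists_ge)
open Pool.Agent.TWN1 (Set0)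
open Pool.Agent.TWMF (Ptw)

universe u

variable {k Ω : Type u} [Field k] [Field Ω] [Algebra k Ω] {v : RVal Ω}
  {C F : IntermediateField k Ω} {Φ Θ Ξ : ℕ → Ω → Ω} {u b x : Ω} {U : PowerSeries Ω} {κ : ℕ → ℝ}
  {r σ τ t : ℝ} {L n₀ q : ℕ}

/-- **The defect of `Θ`.** -/
theorem margin_theta [IsAlgClosed Ω] (hΦ : Arc v C σ Φ) (ho : Oi v C σ Φ)
    (hcomp : ∀ i j : ℕ, ∀ x ∈ C, Φ i (Φ j x) = ((i + j).choose i : Ω) * Φ (i + j) x)
    (h : Set0 v C Φ u U κ r σ) (hn₀ : 2 * L < n₀)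
    (hL : ∀ n : ℕ, L < n → v.Ge (r - n * σ) (PowerSeries.coeff n U))
    (hΘ : HSd (cadj v C u) Θ) (hst : Ptw v (cadj v C u) σ Θ) (hC : ∀ n : ℕ, ∀ x ∈ C, Θ n x = Φ n x)
    (hu : ∀ n : ℕ, n ≠ 0 → Θ n u = PowerSeries.coeff n (hser U n₀)) :
    ∃ δ : ℝ, 0 < δ ∧ ∀ i j : ℕ, ∀ x ∈ cadj v C u, ∀ t : ℝ, v.Ge t x →
      v.Ge (t + δ - i * σ - j * σ)
        (Θ i (Θ j x) - ((i + j).choose i : Ω) * Θ (i + j) x) := by
  obtain ⟨μ, hμ, h1⟩ := exists_cocyc hΦ ho hcomp h hn₀ hL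
  have hum := self_mem_cadj v C u
  have hn : ∀ (l : ℕ) (x : Ω), x ∈ cadj v C u → ∀ t : ℝ, v.Ge t x → v.Ge (t - l * σ) (Θ l x) :=
    fun l x hx t ht => hst.norm hΘ l hx ht
  refine ⟨μ, hμ, fun i j x hx t ht => cmp2 (A := fun i j x => Θ i (Θ j x))
    (B := fun i j x => ((i + j).choose i : Ω) * Θ (i + j) x) h.tl (M2.comp hΘ hΘ) (M2.diag hΘ)
    (fun i j c hc => ?_) (fun i j x hx t ht => ?_) (fun i j x hx t ht => ?_) hμ.le (fun i j => ?_)
    i j hx ht⟩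
  · rw [hC j c hc, hC i _ (hΦ.mem j c hc), hC (i + j) c hc, hcomp i j c hc]
  · exact (hn i _ (hΘ.mem j x hx) _ (hn j x hx t ht)).mono (by linarith)
  · refine ((ge_natCast v _).mul (hn (i + j) x hx t ht)).mono ?_
    push_cast
    linarith
  · by_cases hi : i = 0
    · rw [hi, hΘ.c0 _ (hΘ.mem j u hum), zero_add, Nat.choose_zero_right, Nat.cast_one, one_mul,
        sub_self]
      exact RVal.Ge.zero
    by_cases hj : j = 0
    · rw [hj, hΘ.c0 u hum, add_zero, Nat.choose_self, Nat.cast_one, one_mul, sub_self]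
      exact RVal.Ge.zero
    have hm : PowerSeries.coeff j (hser U n₀) ∈ C := by
      rw [coeff_hser]
      split_ifs
      · exact h.zmem j
      · exact C.zero_mem
    rw [hu j hj, hC i _ hm, hu (i + j) (by omega)]
    exact h1 i j hi hj

/-- **The commutation of `Θ` and `Ξ`.** -/
theorem margin_com [IsAlgClosed Ω] (hΦ : Arc v C σ Φ) (ho : Oi v C σ Φ)
    (h : Set0 v C Φ u U κ r σ) (hb : b ∈ C) (hbv : v.Ge (r - τ) b)
    (hΘ : HSd (cadj v C u) Θ) (hst : Ptw v (cadj v C u) σ Θ) (hC : ∀ n : ℕ, ∀ x ∈ C, Θ n x = Φ n x)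
    (hu : ∀ n : ℕ, n ≠ 0 → Θ n u = PowerSeries.coeff n (hser U n₀))
    (hΞ : HSd (cadj v C u) Ξ) (hst' : Ptw v (cadj v C u) τ Ξ)
    (hC' : ∀ n : ℕ, n ≠ 0 → ∀ x ∈ C, Ξ n x = 0) (hu1 : Ξ 1 u = b)
    (hu2 : ∀ n : ℕ, 1 < n → Ξ n u = 0) :
    ∃ δ : ℝ, 0 < δ ∧ ∀ i j : ℕ, ∀ x ∈ cadj v C u, ∀ t : ℝ, v.Ge t x →
      v.Ge (t + δ - i * σ - j * τ) (Θ i (Ξ j x) - Ξ j (Θ i x)) := by
  obtain ⟨μ, hμ, h1⟩ := exists_unif hΦ ho hb hbv
  have hum := self_mem_cadj v C u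
  have hle := le_cadj v C u
  have hn : ∀ (l : ℕ) (x : Ω), x ∈ cadj v C u → ∀ t : ℝ, v.Ge t x → v.Ge (t - l * σ) (Θ l x) :=
    fun l x hx t ht => hst.norm hΘ l hx ht
  have hn' : ∀ (l : ℕ) (x : Ω), x ∈ cadj v C u → ∀ t : ℝ, v.Ge t x → v.Ge (t - l * τ) (Ξ l x) :=
    fun l x hx t ht => hst'.norm hΞ l hx ht
  refine ⟨μ, hμ, fun i j x hx t ht => cmp2 (A := fun i j x => Θ i (Ξ j x))
    (B := fun i j x => Ξ j (Θ i x)) h.tl (M2.comp hΘ hΞ) (M2.comp hΞ hΘ).swap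
    (fun i j c hc => ?_) (fun i j x hx t ht => ?_) (fun i j x hx t ht => ?_) hμ.le (fun i j => ?_)
    i j hx ht⟩
  · by_cases hj : j = 0
    · rw [hj, hΞ.c0 c (hle hc), hΞ.c0 _ (hΘ.mem i c (hle hc))]
    · rw [hC' j hj c hc, hΘ.zero, hC i c hc, hC' j hj _ (hΦ.mem i c hc)]
  · exact (hn i _ (hΞ.mem j x hx) _ (hn' j x hx t ht)).mono (by linarith)
  · exact (hn' j _ (hΘ.mem i x hx) _ (hn i x hx t ht)).mono (by linarith)
  · by_cases hi : i = 0
    · rw [hi, hΘ.c0 _ (hΞ.mem j u hum), hΘ.c0 u hum, sub_self]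
      exact RVal.Ge.zero
    by_cases hj : j = 0
    · rw [hj, hΞ.c0 u hum, hΞ.c0 _ (hΘ.mem i u hum), sub_self]
      exact RVal.Ge.zero
    have hm : PowerSeries.coeff i (hser U n₀) ∈ C := by
      rw [coeff_hser]
      split_ifs
      · exact h.zmem i
      · exact C.zero_mem
    rw [hu i hi, hC' j hj _ hm, sub_zero]
    by_cases hj1 : j = 1
    · rw [hj1, hu1, hC i b hb]
      refine (h1 i hi).mono (le_of_eq ?_)
      push_cast
      ring
    · rw [hu2 j (by omega), hΘ.zero]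
      exact RVal.Ge.zero

/-- **(V2) the two-index system.** -/
theorem exists_hs2 [IsAlgClosed Ω] (p : ℕ) [Fact p.Prime] [CharP Ω p] (hΩ : CompleteV v)
    {C : IntermediateField k Ω} {σ r : ℝ} {Φ : ℕ → Ω → Ω} {u : Ω} {U : PowerSeries Ω}
    {κ : ℕ → ℝ} (hΦ : Arc v C σ Φ) (ho : Oi v C σ Φ)
    (hcomp : ∀ i j : ℕ, ∀ x ∈ C, Φ i (Φ j x) = ((i + j).choose i : Ω) * Φ (i + j) x)
    (h : Set0 v C Φ u U κ r σ) {L n₀ : ℕ} (hn₀ : 2 * L < n₀)
    (hL : ∀ n : ℕ, L < n → v.Ge (r - n * σ) (PowerSeries.coeff n U))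
    {q : ℕ} (hq : 0 < q) {b : Ω} (hb : b ∈ C) (hbv : v.Ge (r - q * σ) b) :
    ∃ D : ℕ → ℕ → Ω → Ω, HS2 v (cadj v C u) σ q D ∧
      (∀ l b', ∀ x ∈ C, D l b' x = if b' = 0 then Φ l x else 0) ∧
      (∀ l, l ≠ 0 → D l 0 u = if l < n₀ then PowerSeries.coeff l U else 0) ∧
      D 0 1 u = b ∧ ∀ l b', b' ≠ 0 → (l, b') ≠ (0, 1) → D l b' u = 0 := by
  classical
  obtain ⟨Θ, hΘ, hst, hoi, hC, hu⟩ := exists_ext hΩ hΦ ho h (n₀ := n₀) (by omega) hL
  obtain ⟨Ξ, hΞ, hst', hoi', hC', hu1, hu2, hcc⟩ := exists_fib hΩ h.tl hb hbv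
  obtain ⟨δA, hδA, hA⟩ := margin_theta hΦ ho hcomp h hn₀ hL hΘ hst hC hu
  obtain ⟨δB, hδB, hB⟩ := margin_com hΦ ho h hb hbv hΘ hst hC hu hΞ hst' hC' hu1 hu2
  have hum := self_mem_cadj v C u
  have hle := le_cadj v C u
  have hn : ∀ (l : ℕ) (x : Ω), x ∈ cadj v C u → ∀ t : ℝ, v.Ge t x → v.Ge (t - l * σ) (Θ l x) :=
    fun l x hx t ht => hst.norm hΘ l hx ht
  have hn' : ∀ (l : ℕ) (x : Ω), x ∈ cadj v C u → ∀ t : ℝ, v.Ge t x →
      v.Ge (t - l * (q * σ)) (Ξ l x) := fun l x hx t ht => hst'.norm hΞ l hx ht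
  have hhC : ∀ l, l ≠ 0 → Θ l u ∈ C := fun l hl => by
    rw [hu l hl, coeff_hser]
    split_ifs
    · exact h.zmem l
    · exact C.zero_mem
  obtain ⟨D, hD⟩ : ∃ D : ℕ → ℕ → Ω → Ω, D = fun l b x => Ξ b (Θ l x) := ⟨_, rfl⟩
  have hDe : ∀ l b x, D l b x = Ξ b (Θ l x) := fun l b x => by rw [hD]
  have hDC : ∀ l b', ∀ x ∈ C, D l b' x = if b' = 0 then Φ l x else 0 := fun l b' x hx => by
    rw [hDe, hC l x hx]
    split_ifs with h1
    · rw [h1, hΞ.c0 _ (hle (hΦ.mem l x hx))]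
    · exact hC' b' h1 _ (hΦ.mem l x hx)
  have hDu : ∀ l b', b' ≠ 0 → (l, b') ≠ (0, 1) → D l b' u = 0 := fun l b' hb' hne => by
    rw [hDe]
    by_cases hl : l = 0
    · rw [hl, hΘ.c0 u hum]
      exact hu2 b' (by
        by_contra h1
        exact hne (Prod.ext hl (by dsimp only; omega)))
    · exact hC' b' hb' _ (hhC l hl)
  have hcast : ∀ l b : ℕ, ((l + q * b : ℕ) : ℝ) * σ = l * σ + b * (q * σ) := fun l b => by
    push_cast
    ring
  have hDn : ∀ l b, ∀ x ∈ cadj v C u, ∀ t : ℝ, v.Ge t x →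
      v.Ge (t - (l + q * b : ℕ) * σ) (D l b x) := fun l b x hx t ht => by
    rw [hDe, hcast]
    exact (hn' b _ (hΘ.mem l x hx) _ (hn l x hx t ht)).mono (by linarith)
  have hDmem : ∀ l b, ∀ x ∈ cadj v C u, D l b x ∈ cadj v C u := fun l b x hx => by
    rw [hDe]
    exact hΞ.mem b _ (hΘ.mem l x hx)
  have hDadd : ∀ l b : ℕ, ∀ x ∈ cadj v C u, ∀ y ∈ cadj v C u,
      D l b (x + y) = D l b x + D l b y := fun l b x hx y hy => by
    rw [hDe, hDe, hDe, hΘ.add l x hx y hy, hΞ.add b _ (hΘ.mem l x hx) _ (hΘ.mem l y hy)]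
  have hDmul : ∀ l b : ℕ, ∀ x ∈ cadj v C u, ∀ y ∈ cadj v C u, D l b (x * y) =
      ∑ i ∈ Finset.HasAntidiagonal.antidiagonal l, ∑ j ∈ Finset.HasAntidiagonal.antidiagonal b,
        D i.1 j.1 x * D i.2 j.2 y := fun l b x hx y hy => by
    rw [hD]
    exact (M2.comp hΞ hΘ).swap.mul l b x hx y hy
  -- overconvergence
  have hoiD : ∀ x ∈ cadj v C u, ∀ B : ℝ, ∃ L : ℕ, ∀ l b : ℕ, L ≤ l + q * b →
      v.Ge (B - (l + q * b : ℕ) * σ) (D l b x) := by
    set P : Ω → Prop := fun x => ∀ B : ℝ, ∃ L : ℕ, ∀ l b : ℕ, L ≤ l + q * b →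
      v.Ge (B - (l + q * b : ℕ) * σ) (D l b x) with hP
    have hPC : ∀ x ∈ C, P x := by
      intro x hx B
      obtain ⟨N, hN⟩ := ho x hx B
      refine ⟨N, fun l b hlb => ?_⟩
      rw [hDC l b x hx]
      split_ifs with h1
      · rw [h1, mul_zero, add_zero]
        exact hN l (by rw [h1] at hlb; omega)
      · exact RVal.Ge.zero
    have hPu : P u := by
      intro B
      refine ⟨n₀ + q + 1, fun l b hlb => ?_⟩
      by_cases h1 : b = 0
      · have h2 : n₀ ≤ l := by rw [h1] at hlb; omega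
        rw [h1, hDe, hΞ.c0 _ (hΘ.mem l u hum), hu l (by omega), coeff_hser,
          if_neg (not_lt.2 h2)]
        exact RVal.Ge.zero
      · rw [hDu l b h1 (fun h2 => by
          have h3 := (Prod.mk.injEq _ _ _ _).mp h2
          rw [h3.1, h3.2] at hlb
          omega)]
        exact RVal.Ge.zero
    have hPadd : ∀ x ∈ cadj v C u, ∀ y ∈ cadj v C u, P x → P y → P (x + y) := by
      intro x hx y hy h1 h2 B
      obtain ⟨N, hN⟩ := h1 B
      obtain ⟨N', hN'⟩ := h2 B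
      refine ⟨max N N', fun l b hlb => ?_⟩
      rw [hDadd l b x hx y hy]
      exact (hN l b ((le_max_left _ _).trans hlb)).add (hN' l b ((le_max_right _ _).trans hlb))
    have hPmul : ∀ x ∈ cadj v C u, ∀ y ∈ cadj v C u, P x → P y → P (x * y) := by
      intro x hx y hy h1 h2 B
      obtain ⟨c, hc⟩ := exists_ge v x
      obtain ⟨c', hc'⟩ := exists_ge v y
      obtain ⟨N, hN⟩ := h1 (B - c')
      obtain ⟨N', hN'⟩ := h2 (B - c)
      refine ⟨N + N', fun l b hlb => ?_⟩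
      rw [hDmul l b x hx y hy]
      refine RVal.Ge.sum _ _ fun i hi => RVal.Ge.sum _ _ fun j hj => ?_
      have hi' := Finset.HasAntidiagonal.mem_antidiagonal.1 hi
      have hj' := Finset.HasAntidiagonal.mem_antidiagonal.1 hj
      have e1 : l + q * b = (i.1 + q * j.1) + (i.2 + q * j.2) := by
        rw [← hi', ← hj']
        ring
      have e2 : ((l + q * b : ℕ) : ℝ) = (i.1 + q * j.1 : ℕ) + (i.2 + q * j.2 : ℕ) := by
        rw [e1, Nat.cast_add]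
      rw [e2]
      rcases le_total N (i.1 + q * j.1) with h3 | h3
      · exact ((hN _ _ h3).mul (hDn _ _ y hy _ hc')).mono (by linarith)
      · exact ((hDn _ _ x hx _ hc).mul (hN' _ _ (by omega))).mono (by linarith)
    have hPpow : ∀ n : ℕ, P (u ^ n) := by
      intro n
      induction n with
      | zero =>
        rw [pow_zero]
        exact hPC 1 C.one_mem
      | succ n ih =>
        rw [pow_succ]
        exact hPmul _ (pow_mem hum n) _ hum ih hPu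
    have hPf : ∀ f ∈ PI C, P (f.eval u) := by
      intro f hf
      rw [eval_eq_sum_range]
      have h1 := Finset.sum_induction (fun i => f.coeff i * u ^ i)
        (fun z => z ∈ cadj v C u ∧ P z) (s := range (f.natDegree + 1))
        (fun x y hx hy => ⟨add_mem hx.1 hy.1, hPadd x hx.1 y hy.1 hx.2 hy.2⟩)
        ⟨zero_mem _, hPC 0 C.zero_mem⟩
        (fun i _ => ⟨mul_mem (hle (hf i)) (pow_mem hum i),
          hPmul _ (hle (hf i)) _ (pow_mem hum i) (hPC _ (hf i)) (hPpow i)⟩)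
      exact h1.2
    intro x hx B
    obtain ⟨f, hf, h1⟩ := h.tl.dense hx B
    have hfm : f.eval u ∈ cadj v C u := eval_mem_cadj hf
    obtain ⟨N, hN⟩ := hPf f hf B
    refine ⟨N, fun l b hlb => ?_⟩
    have e := hDadd l b _ (sub_mem hx hfm) _ hfm
    rw [sub_add_cancel] at e
    rw [e]
    exact (hDn l b _ (sub_mem hx hfm) _ h1).add (hN l b hlb)
  refine ⟨D, ⟨hDmem, fun x hx => ?_, hDadd, hDmul, fun l b hlb c => ?_,
    fun l b hlb x hx t ht => ?_, hoiD, ?_⟩, hDC, fun l hl => ?_, ?_, hDu⟩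
  · rw [hDe, hΘ.c0 x hx, hΞ.c0 x hx]
  · rw [hDe]
    by_cases hl : l = 0
    · have hb0 : b ≠ 0 := hlb.resolve_left (not_not.2 hl)
      rw [hl, hΘ.c0 _ (algebraMap_mem _ c)]
      exact hΞ.con b hb0 c
    · rw [hΘ.con l hl c, hΞ.zero]
  · rw [hDe, hcast]
    by_cases hb0 : b = 0
    · have hl : l ≠ 0 := hlb.resolve_right (not_not.2 hb0)
      rw [hb0, hΞ.c0 _ (hΘ.mem l x hx), Nat.cast_zero, zero_mul, add_zero]
      exact hst l hl x hx t ht
    · have h1 := hst' b hb0 _ (hΘ.mem l x hx) _ (hn l x hx t ht)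
      have e : t - l * σ - b * (q * σ) = t - (l * σ + b * (q * σ)) := by ring
      rwa [e] at h1
  · refine ⟨min δA δB, lt_min hδA hδB, fun l b l' b' x hx t ht => ?_⟩
    have hy := hΘ.mem l' x hx
    have hyt := hn l' x hx t ht
    obtain ⟨e1, he1⟩ : ∃ e1, e1 = Θ l (Ξ b' (Θ l' x)) - Ξ b' (Θ l (Θ l' x)) := ⟨_, rfl⟩
    obtain ⟨e2, he2⟩ : ∃ e2, e2 = Θ l (Θ l' x) - ((l + l').choose l : Ω) * Θ (l + l') x :=
      ⟨_, rfl⟩
    have h1 := hB l b' _ hy _ hyt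
    rw [← he1] at h1
    have h2 := hA l l' x hx t ht
    rw [← he2] at h2
    have hm1 : e1 ∈ cadj v C u := by
      rw [he1]
      exact sub_mem (hΘ.mem l _ (hΞ.mem b' _ hy)) (hΞ.mem b' _ (hΘ.mem l _ hy))
    have hm3 : Θ (l + l') x ∈ cadj v C u := hΘ.mem _ x hx
    have hm2 : e2 ∈ cadj v C u := by
      rw [he2]
      exact sub_mem (hΘ.mem l _ hy) (mul_mem (natCast_mem _ _) hm3)
    have e3 : Θ l (Ξ b' (Θ l' x)) = Ξ b' (Θ l (Θ l' x)) + e1 := by rw [he1]; ring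
    have e4 : Θ l (Θ l' x) = ((l + l').choose l : Ω) * Θ (l + l') x + e2 := by rw [he2]; ring
    have e5 : D l b (D l' b' x) - (((l + l').choose l * (b + b').choose b : ℕ) : Ω) *
        D (l + l') (b + b') x = Ξ b e1 + ((b + b').choose b : Ω) * Ξ (b + b') e2 := by
      rw [hDe l b, hDe l' b', hDe (l + l'), e3, hΞ.add b _ (hΞ.mem b' _ (hΘ.mem l _ hy)) _ hm1,
        hcc b b' _ (hΘ.mem l _ hy), e4,
        hΞ.add (b + b') _ (mul_mem (natCast_mem _ _) hm3) _ hm2, HSd.natCast_mul' hΞ hm3]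
      push_cast
      ring
    rw [e5]
    refine ((hn' b e1 hm1 _ h1).mono ?_).add
      (((ge_natCast v _).mul (hn' (b + b') e2 hm2 _ h2)).mono ?_)
    · push_cast
      linarith [min_le_right δA δB]
    · push_cast
      linarith [min_le_left δA δB]
  · rw [hDe, hΞ.c0 _ (hΘ.mem l u hum), hu l hl, coeff_hser]
  · rw [hDe, hΘ.c0 u hum, hu1]

end Pool.Agent.TWRS
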