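import Pool.Agent.Lib.TWRS.VfB
import Pool.Agent.Lib.TWRS.HsC
import Pool.Agent.Lib.TWRS.FamA
import Pool.Agent.Lib.TWRS.FamD

/-!
# TANK W, row (Rt), V4, part C: the family of arcs of the second floor

`exists_fam`: `C` with a strict overconvergent arc `Φ` (exact composition law), `u` of transcendental
type over `C`, of finite shape (critical jets allowed): a family of arcs of the closure of `C(u)`,
with uniform thresholds at the scale `q M`, strict below `P M`, `P M / q M → ∞`.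
-/

set_option autoImplicit false

open Polynomial Finset

namespace Pool.Agent.TWRS

open Pool.Agent.H15JM (RVal)
open Pool.Agent.LU1 (VPos)
open Pool.Agent.D2 (Ctx0)
open Pool.Agent.TWM
open Pool.Agent.TWII (PG LP Nr)
open Pool.Agent.TWLM (HSd Oi Arc)
open Pool.Agent.TWN1 (Set0 Sn coeff_Sn)
open Pool.Agent.TWEX (cmp alp Dj exists_comb residue_pow coeff_alp alp_pow coeff_subst_eq const_alp
  coeff_alp_ge cmp_eq coeff_pow_gt cmp_set0)

universe u'

variable {k Ω : Type u'} [Field k] [Field Ω] [Algebra k Ω] {v : RVal Ω}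
  {C : IntermediateField k Ω} {Φ : ℕ → Ω → Ω} {u : Ω} {U : PowerSeries Ω} {κ : ℕ → ℝ}
  {r σ : ℝ} {p : ℕ} [hp : Fact p.Prime] [CharP Ω p] {G : Ω} {m : ℕ}

omit hp [CharP Ω p] in
theorem had_of_alp (hm0 : 0 < m) {w Q : ℕ} {T : Finset ℕ} {c : ℕ → Ω}
    (hc : ∀ t ∈ T, Hm k G m w (p ^ t) (c t)) (hT : ∀ t ∈ T, p ^ t ≤ Q) :
    Had k p G m w Q (alp p T c) where
  hm n := by
    rw [coeff_alp]
    refine Hm.sum hm0 _ _ fun t ht => ?_
    split_ifs with h1
    · rw [h1]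
      exact hc t ht
    · exact Hm.zero
  add n hn := by
    rw [coeff_alp] at hn
    obtain ⟨t, -, h1⟩ := exists_ne_zero_of_sum_ne_zero hn
    refine ⟨t, ?_⟩
    by_contra h2
    exact h1 (if_neg h2)
  deg n hn := by
    rw [coeff_alp]
    refine sum_eq_zero fun t ht => if_neg fun h1 => ?_
    have := hT t ht
    omega

omit [CharP Ω p] in
/-- The family on `C`. -/
theorem fam_C {D : ℕ → ℕ → Ω → Ω}
    (hDC : ∀ l b', ∀ x ∈ C, D l b' x = if b' = 0 then Φ l x else 0) {T : Finset ℕ} {c : ℕ → Ω}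
    (β : PowerSeries Ω) (n : ℕ) {x : Ω} (hx : x ∈ C) :
    fam D (alp p T c) β n x = cmp Φ (alp p T c) n x := by
  rw [cmp_eq const_alp, fam]
  refine sum_congr rfl fun l _ => ?_
  rw [sum_eq_single 0]
  · rw [hDC l 0 x hx, if_pos rfl, pow_zero, mul_one]
  · intro b' _ hb'
    rw [hDC l b' x hx, if_neg hb', zero_mul]
  · intro h1
    exact absurd (mem_range.2 (Nat.succ_pos n)) h1

omit [CharP Ω p] in
/-- The family at `u`. -/
theorem fam_u {D : ℕ → ℕ → Ω → Ω} {n₀ : ℕ} {b : Ω} (hU0 : PowerSeries.coeff 0 U = 0)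
    (hDu : ∀ l, l ≠ 0 → D l 0 u = if l < n₀ then PowerSeries.coeff l U else 0)
    (hDu1 : D 0 1 u = b) (hDu2 : ∀ l b', b' ≠ 0 → (l, b') ≠ (0, 1) → D l b' u = 0)
    {T : Finset ℕ} {c : ℕ → Ω} (β : PowerSeries Ω) {n : ℕ} (hn : n ≠ 0) :
    fam D (alp p T c) β n u = PowerSeries.coeff n ((Sn U n₀).subst (alp p T c)) +
      b * PowerSeries.coeff n β := by
  obtain ⟨n', rfl⟩ := Nat.exists_eq_succ_of_ne_zero hn
  have h1 : ∀ l ∈ range (n' + 1 + 1), ∑ b' ∈ range (n' + 1 + 1),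
      D l b' u * PowerSeries.coeff (n' + 1) (alp p T c ^ l * β ^ b') =
      PowerSeries.coeff l (Sn U n₀) * PowerSeries.coeff (n' + 1) (alp p T c ^ l) +
        if l = 0 then b * PowerSeries.coeff (n' + 1) β else 0 := by
    intro l _
    rw [sum_range_succ', pow_zero, mul_one, coeff_Sn]
    by_cases hl : l = 0
    · subst hl
      rw [if_pos rfl, pow_zero, PowerSeries.coeff_one, if_neg (Nat.succ_ne_zero n'), mul_zero,
        mul_zero, add_zero, zero_add, sum_eq_single 0]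
      · rw [zero_add, hDu1, pow_one, one_mul]
      · intro b' _ hb'
        rw [hDu2 0 (b' + 1) (Nat.succ_ne_zero b') (by
          intro h2
          rw [Prod.mk.injEq] at h2
          omega), zero_mul]
      · intro h2
        exact absurd (mem_range.2 (Nat.succ_pos n')) h2
    · rw [if_neg hl, add_zero, hDu l hl, sum_eq_zero, zero_add]
      intro b' _
      rw [hDu2 l (b' + 1) (Nat.succ_ne_zero b') (by
        intro h2
        rw [Prod.mk.injEq] at h2
        exact hl h2.1), zero_mul]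
  rw [fam, Nat.succ_eq_add_one, sum_congr rfl h1, sum_add_distrib, coeff_subst_eq const_alp]
  congr 1
  rw [sum_ite_eq', if_pos (mem_range.2 (Nat.succ_pos _))]

/-- **The family.** -/
theorem exists_fam [IsAlgClosed k] [IsAlgClosed Ω] (p : ℕ) [hp : Fact p.Prime] [CharP Ω p]
    (hΩ : CompleteV v) (h0 : Ctx0 k v)
    {C : IntermediateField k Ω} {σ r : ℝ} {Φ : ℕ → Ω → Ω} {u : Ω} {U : PowerSeries Ω}
    {κ : ℕ → ℝ} (hΦ : Arc v C σ Φ) (ho : Oi v C σ Φ)
    (hcomp : ∀ i j : ℕ, ∀ x ∈ C, Φ i (Φ j x) = ((i + j).choose i : Ω) * Φ (i + j) x)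
    (h : Set0 v C Φ u U κ r σ) {L : ℕ}
    (hL : ∀ n : ℕ, L < n → v.Ge (r - n * σ) (PowerSeries.coeff n U))
    {G : Ω} {m : ℕ} (hm0 : 0 < m) (hpm : ¬ p ∣ m) (hG : G ∈ C) (hG0 : G ≠ 0)
    (hGv : v G = -(m * σ)) (hm : ∀ n : ℕ, ∀ x ∈ C, x ≠ 0 → v x = n * σ → m ∣ n) :
    ∃ (n₀ js : ℕ) (b : Ω) (q P : ℕ → ℕ) (T : ℕ → Finset ℕ) (c : ℕ → ℕ → Ω) (β : ℕ → PowerSeries Ω)
      (Ψ : ℕ → ℕ → Ω → Ω), 2 * L < n₀ ∧
      (b = 0 ∨ b = PowerSeries.coeff (p ^ js) U ∧ b ≠ 0 ∧ v b = r - p ^ js * σ) ∧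
      Fam v (cadj v C u) σ G m q P Ψ ∧
      (∀ M, (∀ t ∈ T M, Hm k G m 1 (p ^ t) (c M t)) ∧ (∃ t ∈ T M, c M t ≠ 0) ∧
        (∀ t ∈ T M, p ^ t ≤ q M) ∧ Had k p G m (p ^ js) (q M) (β M)) ∧
      (∀ M n, ∀ x ∈ C, Ψ M n x = cmp Φ (alp p (T M) (c M)) n x) ∧
      (∀ M n, n ≠ 0 → Ψ M n u = PowerSeries.coeff n ((Sn U n₀).subst (alp p (T M) (c M))) +
        b * PowerSeries.coeff n (β M)) := by
  classical
  have hp1 := hp.out.one_lt
  have hp0 := hp.out.pos
  have hCF : C ≤ cadj v C u := le_cadj v C u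
  have hres : ∀ n : ℕ, 2 * L < n → (∀ i, n ≠ p ^ i) →
      Gt v (r - n * σ) (PowerSeries.coeff n U) := fun n hn hnp =>
    residue_pow hΦ h.zmem (hco_of_set0 hΦ h hcomp) hL hn hnp
  obtain ⟨j₁, hj₁⟩ : ∃ j₁, 2 * L < p ^ j₁ := ⟨2 * L, Nat.lt_pow_self hp1⟩
  have hR : ∀ j, j₁ ≤ j → v.Ge (r - p ^ j * σ) ((fun j => PowerSeries.coeff (p ^ j) U) j) := by
    intro j hj
    have h1 := Nat.pow_le_pow_right hp0 hj
    have h2 := hL (p ^ j) (by omega)
    push_cast at h2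
    exact h2
  obtain ⟨js, b, hjs, hb, hcr⟩ := exists_crit h0 hm0 hG hG0 hGv hm (fun j => h.zmem (p ^ j)) hR
  have hbC : b ∈ C := by
    rcases hb with rfl | ⟨rfl, -, -⟩
    exacts [C.zero_mem, h.zmem _]
  have hbv : v.Ge (r - (p ^ js : ℕ) * σ) b := by
    rcases hb with rfl | ⟨-, -, h1⟩
    · exact RVal.Ge.zero
    · intro _
      rw [h1]
      push_cast
      exact le_rfl
  have hqs : 0 < p ^ js := pow_pos hp0 js
  obtain ⟨D, hD, hDC, hDu, hDu1, hDu2⟩ := exists_hs2 p hΩ hΦ ho hcomp h hj₁ hL hqs hbC hbv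
  choose T₀ T c hT hc hcne hwin using fun M => exists_window (p := p) h0 hm0 hpm hG0 hGv hR M
  choose a ha using fun M => exists_beta h0 hm0 hG0 hGv hcr (hc M)
  have hTq : ∀ M, ∀ t ∈ T M, p ^ t ≤ p ^ (j₁ + T₀ M) := fun M t ht =>
    Nat.pow_le_pow_right hp0 (by have := hT M t ht; omega)
  have hα : ∀ M, Had k p G m 1 (p ^ (j₁ + T₀ M)) (alp p (T M) (c M)) := fun M =>
    had_of_alp hm0 (hc M) (hTq M)
  have hβ : ∀ M, Had k p G m (p ^ js) (p ^ (j₁ + T₀ M)) (alp p (range (j₁ + T₀ M)) (a M)) :=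
    fun M => had_of_alp hm0 (fun t _ => (ha M t).1) fun t ht =>
      Nat.pow_le_pow_right hp0 (mem_range.1 ht).le
  have hGF : G ∈ cadj v C u := hCF hG
  -- the arcs
  have hpw : ∀ M, PwArc v (cadj v C u) σ
      (fam D (alp p (T M) (c M)) (alp p (range (j₁ + T₀ M)) (a M))) := fun M =>
    fam_pw p h0 hD hqs hm0 hGF hG0 hGv (hα M) (hβ M)
  have hfC : ∀ M n, ∀ x ∈ C, fam D (alp p (T M) (c M)) (alp p (range (j₁ + T₀ M)) (a M)) n x =
      cmp Φ (alp p (T M) (c M)) n x := fun M n x hx => fam_C hDC _ n hx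
  have hfu : ∀ M n, n ≠ 0 → fam D (alp p (T M) (c M)) (alp p (range (j₁ + T₀ M)) (a M)) n u =
      PowerSeries.coeff n ((Sn U (p ^ j₁)).subst (alp p (T M) (c M))) +
        b * PowerSeries.coeff n (alp p (range (j₁ + T₀ M)) (a M)) := fun M n hn =>
    fam_u h.z0 hDu hDu1 hDu2 _ hn
  refine ⟨p ^ j₁, js, b, fun M => p ^ (j₁ + T₀ M), fun M => p ^ (j₁ + T₀ M + M), T, c,
    fun M => alp p (range (j₁ + T₀ M)) (a M),
    fun M => fam D (alp p (T M) (c M)) (alp p (range (j₁ + T₀ M)) (a M)), hj₁, hb, ?_,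
    fun M => ⟨hc M, hcne M, hTq M, hβ M⟩, hfC, hfu⟩
  refine
    { mpos := hm0
      gmem := hGF
      gne := hG0
      gval := hGv
      arc := fun M =>
        { toPwArc := hpw M
          str := ?_ }
      te := ?_
      dft := ?_
      qpos := fun M => pow_pos hp0 _
      ratio := ?_ }
  · -- strictness below the end of the window
    set α := alp p (T M) (c M) with hαd
    set β := alp p (range (j₁ + T₀ M)) (a M) with hβd
    set P := p ^ (j₁ + T₀ M + M) with hP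
    have hcv : ∀ t ∈ T M, v.Ge (σ - p ^ t * σ) (c M t) := by
      intro t ht
      have h1 := (hc M t ht).ge h0 hG0 hGv
      push_cast at h1
      rwa [one_mul] at h1
    have hαC : ∀ n, PowerSeries.coeff n α ∈ C := fun n => ((hα M).hm n).mem hG
    have hαv : ∀ n : ℕ, v.Ge (σ - n * σ) (PowerSeries.coeff n α) := coeff_alp_ge hcv
    have hα0 : PowerSeries.constantCoeff α = 0 := const_alp
    obtain ⟨κ₁, hs⟩ := cmp_set0 hΦ ho h hα0 hαC hαv (D := p ^ T₀ M)
      fun n l hl => coeff_pow_gt (hT M) n hl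
    -- the jets
    set V : ℕ → Ω := fun n => PowerSeries.coeff n ((Sn U (p ^ j₁)).subst α) +
      b * PowerSeries.coeff n β with hV
    have hVC : ∀ n, V n ∈ C := by
      intro n
      refine add_mem ?_ (mul_mem hbC (((hβ M).hm n).mem hG))
      rw [coeff_subst_eq hα0]
      refine sum_mem fun l _ => mul_mem ?_ (TWEX.coeff_pow_mem hαC l n)
      rw [coeff_Sn]
      split_ifs
      exacts [h.zmem l, C.zero_mem]
    obtain ⟨κ₂, hs2⟩ := set0_perturb (Z' := PowerSeries.mk fun n => if n = 0 then 0 else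
        if n < P then V n else PowerSeries.coeff n (U.subst α)) hs
      (by rw [PowerSeries.coeff_mk, if_pos rfl]) (fun n => by
        rw [PowerSeries.coeff_mk]
        split_ifs
        exacts [C.zero_mem, hVC n, hs.zmem n]) (fun n hn => by
        rw [PowerSeries.coeff_mk, if_neg hn]
        split_ifs with h1
        · exact comp_gt (fun n hn => hL n (by omega)) hres hj₁ (hT M) hcv (hwin M)
            (fun i => (ha M i).2) h1
        · rw [sub_self]
          exact Gt.zero)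
    obtain ⟨Ψ', hA, -, hΨC, hΨu, -⟩ := hs2.exists_arc hΩ
    have hag := agree_lt (P := P) h.tl (hpw M).toHSd hA.toHSd
      (fun n x hx b' hb' => (hpw M).norm n hx hb') (fun n x hx b' hb' => TWII.Wn.of_arc hA n x hx b' hb')
      (fun n _ x hx => by rw [hfC M n x hx, hΨC n x hx]) (fun n hn => by
        rw [hΨu n]
        split_ifs with h1
        · rw [h1, (hpw M).c0 u (self_mem_cadj v C u)]
        · rw [hfu M n h1, PowerSeries.coeff_mk, if_neg h1, if_pos hn])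
    intro l hl hlP
    obtain ⟨n, hn, h1⟩ := hA.str l hl
    refine ⟨l * σ - n, by linarith, fun x hx b' hb' => ?_⟩
    rw [hag l hlP x hx]
    exact (h1 x hx b' hb').mono (by linarith)
  · intro f hf B
    obtain ⟨S, x, w, L', hx, h1⟩ := fam_te p h0 hD hqs hm0 hGF hG0 hGv hf B
    exact ⟨S, x, w, L', hx, fun M n => h1 _ _ _ (pow_pos hp0 _) (hα M) (hβ M) n⟩
  · obtain ⟨δ, hδ, h1⟩ := fam_dft p h0 hD hqs hm0 hGF hG0 hGv
    exact ⟨δ, hδ, fun M i j x hx t ht => h1 _ _ _ (hα M) (hβ M) i j x hx t ht⟩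
  · intro C'
    refine ⟨C', fun M hM => ?_⟩
    have h1 : C' ≤ p ^ M := hM.trans (Nat.lt_pow_self hp1).le
    change C' * p ^ (j₁ + T₀ M) ≤ p ^ (j₁ + T₀ M + M)
    rw [pow_add p (j₁ + T₀ M) M, mul_comm]
    exact Nat.mul_le_mul_left _ h1

end Pool.Agent.TWRS
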