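import Pool.Agent.Lib.TWRS.WinA
import Pool.Agent.Lib.TWMF.E5
import Pool.Agent.Lib.TWEX.Wi4

/-!
# TANK W, row (Rt): the exit

`motE_of_win`: a `Win` on the completion whose arc has null jets at `ι a` gives motions of small effect.
-/

set_option autoImplicit false

open Polynomial Finset

namespace Pool.Agent.TWRS

open Pool.Agent.H15JM (RVal)
open Pool.Agent.LU1 (VPos adj)
open Pool.Agent.D2 (Ctx0)
open Pool.Agent.D2P (hen clI mem_clI)
open Pool.Agent.TWM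
open Pool.Agent.TWII (PG LP)
open Pool.Agent.TWLM (HSd Oi Arc)
open Pool.Agent.TWMF (motE_of_xb)
open Pool.Agent.TWS (IsoE)
open Pool.Agent.TWS7 (MotE PDiv)
open Pool.Agent.TWEX (cl_tower_mid exists_pull cadj_eq_of_le)
open Pool.Agent.TW (Ctx Full BD HRone LU Mot kr)

universe u'

variable {k Ω Ω' : Type u'} [Field k] [Field Ω] [Algebra k Ω] [Field Ω'] [Algebra k Ω']
  {v : RVal Ω} {w : RVal Ω'} {ι : Ω →ₐ[k] Ω'}

/-- **The exit of the windows.** -/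
theorem motE_of_win [IsAlgClosed k] [IsAlgClosed Ω] [IsAlgClosed Ω'] (p : ℕ)
    [hp : Fact p.Prime] [CharP k p] [CharP Ω p] (h : Ctx k v 1) (hcw : CompleteV w)
    (hd : Dense v w ι) {K₀ : IntermediateField k Ω} (hK : K₀.FG) (hΩ : ∀ g : Ω, IsAlgebraic K₀ g)
    (htr : Algebra.trdeg k K₀ = (4 : ℕ)) (hBD : BD p v K₀) {N₀ N : IntermediateField k Ω'}
    {x y u z : Ω'} {σ ν : ℝ} {D Ψ : ℕ → Ω' → Ω'} {T₀ : Finset ℕ} {c : ℕ → Ω'}
    (hW : Win p w N₀ N (clI w (K₀.map ι)) x y u z σ D Ψ T₀ c)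
    (hcl : clI w (K₀.map ι) = clI w (kr k (![x, y, u, z] : Fin 4 → Ω'))) {a : Ω} (ha : a ∈ K₀)
    (hnull : ∀ l : ℕ, l ≠ 0 → PG p w (clI w (K₀.map ι)) (ν - l * σ) (Ψ l (ι a))) :
    MotE p v K₀ ν a := by
  have : CharP Ω' p := Dense.charP ι p
  have h' : Ctx k w 1 := Dense.ctx hd h
  obtain ⟨-, -, -, -, hind, -⟩ := exists_pull h.toCtx0 hcw hd hK (by exact_mod_cast htr) hBD hcl 1
  obtain ⟨H, hH, hX⟩ := hW.exists_xb h'.toCtx0 hcw hind
  exact motE_of_xb h h'.toCtx0 hcw ⟨hd.val⟩ hK hΩ (by exact_mod_cast htr) hBD hcl hX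
    hW.arc.toHSd (fun l hl x hx b hb => hW.arc.pst l hl x hx b hb) hW.arc.oi hH (D2P.le_hen _ ha)
    hnull

/-- The closure of a tower over `k(x, y)`. -/
theorem cl_of_tower {N L : IntermediateField k Ω'} {x y u z : Ω'} (hx : x ∈ N)
    (hC : cadj w N y ≤ clI w (IntermediateField.adjoin k {x, y}))
    (hL : L = cadj w (cadj w (cadj w N y) u) z) :
    L = clI w (kr k (![x, y, u, z] : Fin 4 → Ω')) := by
  rw [← cl_tower_mid, ← cadj_eq_of_le hx hC]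
  exact hL

end Pool.Agent.TWRS
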