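import Pool.Agent.Lib.TWRS.Defs

/-!
# TANK W, row (Rt): the Ore pair

* `ore_lin`: left common multiples of two twisted polynomials over `k`;
* `exists_ore`: for homogeneous additive `α`, `β₀` there are `F i`, `A j` with
  `∑ F i (b β₀) ^ p ^ i = ∑ A j α ^ p ^ j`, of the right values, nearly constant.
-/

set_option autoImplicit false

open Polynomial Finset

namespace Pool.Agent.TWRS

open Pool.Agent.H15JM (RVal)
open Pool.Agent.D2 (Ctx0)
open Pool.Agent.TWM

universe u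

theorem ore_lin {k : Type*} [Field k] {P q : ℕ} (hP : 0 < P) (hq : 0 < q) {T B : ℕ} {γ ξ : ℕ → k}
    (hγ : ∀ t, T < t → γ t = 0) (hγ0 : ∃ t, γ t ≠ 0) (hξ : ∀ s, B < s → ξ s = 0) :
    ∃ ε a : ℕ → k, (∃ i, ε i ≠ 0) ∧ (∀ i, T < i → ε i = 0) ∧ (∀ j, B < j → a j = 0) ∧
      ∀ n, ∑ x ∈ antidiagonal n, ε x.1 * ξ x.2 ^ P ^ x.1 =
        ∑ x ∈ antidiagonal n, a x.1 * γ x.2 ^ (q * P ^ x.1) := by
  classical
  -- extension by zero
  let E : ∀ {n : ℕ}, (Fin n → k) → ℕ → k := fun {n} f i => if h : i < n then f ⟨i, h⟩ else 0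
  have hE : ∀ {n : ℕ} (f : Fin n → k) (i : ℕ) (h : i < n), E f i = f ⟨i, h⟩ := fun f i h => dif_pos h
  have hE0 : ∀ {n : ℕ} (f : Fin n → k) (i : ℕ), n ≤ i → E f i = 0 := fun f i h =>
    dif_neg (not_lt.2 h)
  have hEa : ∀ {n : ℕ} (f g : Fin n → k) (i : ℕ), E (f + g) i = E f i + E g i := by
    intro n f g i
    by_cases h : i < n
    · rw [hE _ i h, hE _ i h, hE _ i h, Pi.add_apply]
    · rw [hE0 _ i (not_lt.1 h), hE0 _ i (not_lt.1 h), hE0 _ i (not_lt.1 h), add_zero]
  have hEs : ∀ {n : ℕ} (c : k) (f : Fin n → k) (i : ℕ), E (c • f) i = c * E f i := by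
    intro n c f i
    by_cases h : i < n
    · rw [hE _ i h, hE _ i h, Pi.smul_apply, smul_eq_mul]
    · rw [hE0 _ i (not_lt.1 h), hE0 _ i (not_lt.1 h), mul_zero]
  let L : ((Fin (T + 1) → k) × (Fin (B + 1) → k)) →ₗ[k] (Fin (T + B + 1) → k) :=
    { toFun := fun f n => ∑ x ∈ antidiagonal (n : ℕ), E f.1 x.1 * ξ x.2 ^ P ^ x.1 -
        ∑ x ∈ antidiagonal (n : ℕ), E f.2 x.1 * γ x.2 ^ (q * P ^ x.1)
      map_add' := fun f g => by
        funext n
        simp only [Prod.fst_add, Prod.snd_add, Pi.add_apply, hEa, add_mul, sum_add_distrib]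
        ring
      map_smul' := fun c f => by
        funext n
        simp only [Prod.smul_fst, Prod.smul_snd, Pi.smul_apply, hEs, RingHom.id_apply, smul_eq_mul,
          mul_assoc, ← mul_sum, mul_sub] }
  have hker : LinearMap.ker L ≠ ⊥ := by
    refine LinearMap.ker_ne_bot_of_finrank_lt ?_
    rw [Module.finrank_prod, Module.finrank_fin_fun, Module.finrank_fin_fun, Module.finrank_fin_fun]
    omega
  obtain ⟨f, hf, hf0⟩ := (Submodule.ne_bot_iff _).1 hker
  have hsum : ∀ n, ∑ x ∈ antidiagonal n, E f.1 x.1 * ξ x.2 ^ P ^ x.1 =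
      ∑ x ∈ antidiagonal n, E f.2 x.1 * γ x.2 ^ (q * P ^ x.1) := by
    intro n
    by_cases hn : n < T + B + 1
    · have h1 := congrFun (LinearMap.mem_ker.1 hf) ⟨n, hn⟩
      exact sub_eq_zero.1 h1
    · have h1 : ∀ x ∈ antidiagonal n, E f.1 x.1 * ξ x.2 ^ P ^ x.1 = 0 := by
        intro x hx
        have hx' : x.1 + x.2 = n := by simpa using hx
        by_cases h2 : T < x.1
        · rw [hE0 _ _ (by omega), zero_mul]
        · rw [hξ _ (by omega), zero_pow (pow_pos hP _).ne', mul_zero]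
      have h2 : ∀ x ∈ antidiagonal n, E f.2 x.1 * γ x.2 ^ (q * P ^ x.1) = 0 := by
        intro x hx
        have hx' : x.1 + x.2 = n := by simpa using hx
        by_cases h2 : B < x.1
        · rw [hE0 _ _ (by omega), zero_mul]
        · rw [hγ _ (by omega), zero_pow (mul_pos hq (pow_pos hP _)).ne', mul_zero]
      rw [sum_eq_zero h1, sum_eq_zero h2]
  refine ⟨E f.1, E f.2, ?_, fun i hi => hE0 _ _ (by omega), fun j hj => hE0 _ _ (by omega), hsum⟩
  by_contra hcon
  push Not at hcon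
  -- then the second component is not zero
  have h2 : ∃ j, E f.2 j ≠ 0 := by
    by_contra h3
    push Not at h3
    refine hf0 (Prod.ext ?_ ?_)
    · funext i
      have := hcon i
      rwa [hE _ _ i.2] at this
    · funext i
      have := h3 i
      rwa [hE _ _ i.2] at this
  -- the top indices
  have hjb : ∀ j, E f.2 j ≠ 0 → j ≤ B := fun j hj => by
    by_contra h3
    exact hj (hE0 _ _ (by omega))
  have htb : ∀ t, γ t ≠ 0 → t ≤ T := fun t ht => by
    by_contra h3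
    exact ht (hγ _ (by omega))
  obtain ⟨j, hj, hjm⟩ : ∃ j, E f.2 j ≠ 0 ∧ ∀ j', E f.2 j' ≠ 0 → j' ≤ j := by
    obtain ⟨j₀, hj₀⟩ := h2
    have hfin : ((range (B + 1)).filter fun j => E f.2 j ≠ 0).Nonempty :=
      ⟨j₀, mem_filter.2 ⟨mem_range.2 (by have := hjb j₀ hj₀; omega), hj₀⟩⟩
    refine ⟨_, (mem_filter.1 (max'_mem _ hfin)).2, fun j' hj' => le_max' _ _ ?_⟩
    exact mem_filter.2 ⟨mem_range.2 (by have := hjb j' hj'; omega), hj'⟩
  obtain ⟨t, ht, htm⟩ : ∃ t, γ t ≠ 0 ∧ ∀ t', γ t' ≠ 0 → t' ≤ t := by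
    obtain ⟨t₀, ht₀⟩ := hγ0
    have hfin : ((range (T + 1)).filter fun t => γ t ≠ 0).Nonempty :=
      ⟨t₀, mem_filter.2 ⟨mem_range.2 (by have := htb t₀ ht₀; omega), ht₀⟩⟩
    refine ⟨_, (mem_filter.1 (max'_mem _ hfin)).2, fun t' ht' => le_max' _ _ ?_⟩
    exact mem_filter.2 ⟨mem_range.2 (by have := htb t' ht'; omega), ht'⟩
  have h4 := hsum (j + t)
  rw [sum_eq_zero fun x _ => by rw [hcon, zero_mul], sum_eq_single (j, t)] at h4
  · exact mul_ne_zero hj (pow_ne_zero _ ht) h4.symm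
  · intro x hx hne
    have hx' : x.1 + x.2 = j + t := by simpa using hx
    by_cases h5 : E f.2 x.1 = 0
    · rw [h5, zero_mul]
    · by_cases h6 : γ x.2 = 0
      · rw [h6, zero_pow (mul_pos hq (pow_pos hP _)).ne', mul_zero]
      · have h7 := hjm _ h5
        have h8 := htm _ h6
        exact absurd (Prod.ext (by omega) (by omega)) hne
  · intro h5
    exact absurd (show (j, t) ∈ antidiagonal (j + t) by simp) h5

/-- The exponents divisible by the order of `p`. -/
theorem ore_order {p m : ℕ} (hp : p.Prime) (hm : m ≠ 0) (hpm : ¬ p ∣ m) :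
    ∃ f : ℕ, 0 < f ∧ (∀ i, m ∣ p ^ (f * i) - 1) ∧ ∀ t, m ∣ p ^ t - 1 → f ∣ t := by
  have hco : Nat.Coprime p m := (Nat.Prime.coprime_iff_not_dvd hp).2 hpm
  have : NeZero m := ⟨hm⟩
  let u : (ZMod m)ˣ := ZMod.unitOfCoprime p hco
  have hu : ∀ t, u ^ t = 1 ↔ m ∣ p ^ t - 1 := by
    intro t
    have h1 : 1 ≤ p ^ t := Nat.one_le_pow _ _ hp.pos
    rw [Units.ext_iff, Units.val_pow_eq_pow_val, ZMod.coe_unitOfCoprime, Units.val_one,
      ← (ZMod.natCast_eq_zero_iff (p ^ t - 1) m), Nat.cast_sub h1, Nat.cast_pow, Nat.cast_one,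
      sub_eq_zero]
  refine ⟨orderOf u, orderOf_pos u, fun i => ?_, fun t ht => ?_⟩
  · rw [← hu, pow_mul, pow_orderOf_eq_one, one_pow]
  · exact orderOf_dvd_of_pow_eq_one ((hu t).2 ht)

variable {k Ω : Type u} [Field k] [Field Ω] [Algebra k Ω] {v : RVal Ω}

/-- Near constancy of a polynomial in `y`. -/
theorem ore_near {N : IntermediateField k Ω} {y : Ω} {σ : ℝ}
    (hjet : ∀ f ∈ PI N, ∀ b : ℝ, v.Ge b (f.eval y) → ∀ l : ℕ, 1 ≤ l →
      Gt v (b - l * σ) ((hasseDeriv l f).eval y))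
    {F : ℕ → Polynomial Ω} (hF : ∀ i, F i ∈ PI N) {b : ℕ → ℝ} (hb : ∀ i, v.Ge (b i) ((F i).eval y))
    (I : ℕ) : ∃ μ : ℝ, 0 < μ ∧ ∀ i ≤ I, ∀ l : ℕ, 1 ≤ l →
      v.Ge (b i - l * σ + μ) ((hasseDeriv l (F i)).eval y) := by
  have h1 : ∀ i L : ℕ, ∃ μ : ℝ, 0 < μ ∧ ∀ l : ℕ, 1 ≤ l → l ≤ L →
      v.Ge (b i - l * σ + μ) ((hasseDeriv l (F i)).eval y) := by
    intro i L
    induction L with
    | zero => exact ⟨1, one_pos, fun l h1 h2 => absurd h1 (by omega)⟩
    | succ L ih =>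
      obtain ⟨μ, hμ, h1⟩ := ih
      have h2 := hjet (F i) (hF i) (b i) (hb i) (L + 1) (by omega)
      obtain ⟨e, he, h3⟩ := TWLM.exists_ge_of_gt h2
      refine ⟨min μ e, lt_min hμ he, fun l hl hlN => ?_⟩
      by_cases h4 : l ≤ L
      · exact (h1 l hl h4).mono (by linarith [min_le_left μ e])
      · obtain rfl : l = L + 1 := by omega
        exact h3.mono (by linarith [min_le_right μ e])
  induction I with
  | zero =>
    obtain ⟨μ, hμ, h2⟩ := h1 0 (F 0).natDegree
    refine ⟨μ, hμ, fun i hi l hl => ?_⟩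
    obtain rfl : i = 0 := by omega
    by_cases h3 : l ≤ (F 0).natDegree
    · exact h2 l hl h3
    · rw [hasseDeriv_eq_zero_of_lt_natDegree _ _ (by omega), eval_zero]
      exact RVal.Ge.zero
  | succ I ih =>
    obtain ⟨μ, hμ, h2⟩ := ih
    obtain ⟨μ', hμ', h3⟩ := h1 (I + 1) (F (I + 1)).natDegree
    refine ⟨min μ μ', lt_min hμ hμ', fun i hi l hl => ?_⟩
    by_cases h4 : i ≤ I
    · exact (h2 i h4 l hl).mono (by linarith [min_le_left μ μ'])
    · obtain rfl : i = I + 1 := by omega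
      by_cases h5 : l ≤ (F (I + 1)).natDegree
      · exact (h3 l hl h5).mono (by linarith [min_le_right μ μ'])
      · rw [hasseDeriv_eq_zero_of_lt_natDegree _ _ (by omega), eval_zero]
        exact RVal.Ge.zero

theorem ore_sum {M : Type*} [AddCommMonoid M] {T B : ℕ} {h : ℕ → ℕ → M}
    (h1 : ∀ i s, T < i → h i s = 0) (h2 : ∀ i s, B < s → h i s = 0) :
    ∑ i ∈ range (T + 1), ∑ s ∈ range (B + 1), h i s =
      ∑ n ∈ range (T + B + 1), ∑ x ∈ antidiagonal n, h x.1 x.2 := by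
  classical
  rw [← sum_product' (range (T + 1)) (range (B + 1)) h,
    ← sum_fiberwise_of_maps_to (t := range (T + B + 1)) (g := fun x : ℕ × ℕ => x.1 + x.2)
      (fun x hx => by
        obtain ⟨h3, h4⟩ := mem_product.1 hx
        have h5 := mem_range.1 h3
        have h6 := mem_range.1 h4
        exact mem_range.2 (by omega))]
  refine sum_congr rfl fun n _ => sum_subset (fun x hx => ?_) fun x hx hx' => ?_
  · have h3 := (mem_filter.1 hx).2
    simpa using h3
  · have h3 : x.1 + x.2 = n := by simpa using hx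
    by_cases h4 : T < x.1
    · exact h1 _ _ h4
    · by_cases h5 : B < x.2
      · exact h2 _ _ h5
      · exact absurd (mem_filter.2 ⟨mem_product.2 ⟨mem_range.2 (by omega), mem_range.2 (by omega)⟩,
          h3⟩) hx'

/-- The coefficients of a homogeneous additive polynomial. -/
theorem ore_coeff {p : ℕ} (hp : p.Prime) {G : Ω} (hG0 : G ≠ 0) {m js f : ℕ} (hm : 0 < m)
    (hpm : ¬ p ∣ m) (hf : 0 < f) (hf1 : ∀ i, m ∣ p ^ (f * i) - 1) (hf2 : ∀ t, m ∣ p ^ t - 1 → f ∣ t)
    {α : Polynomial Ω} (h1 : ∀ n, Hm k G m (p ^ js) n (α.coeff n))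
    (h2 : ∀ n, α.coeff n ≠ 0 → ∃ t, n = p ^ t) :
    ∃ (γ : ℕ → k) (T : ℕ), (∀ t, T < t → γ t = 0) ∧
      α = ∑ i ∈ range (T + 1), Polynomial.C (algebraMap k Ω (γ i) *
        G ^ (p ^ js * ((p ^ (f * i) - 1) / m))) * X ^ (p ^ js * p ^ (f * i)) := by
  classical
  have hp1 := hp.one_lt
  have hg : ∀ i, m * ((p ^ (f * i) - 1) / m) = p ^ (f * i) - 1 := fun i =>
    Nat.mul_div_cancel' (hf1 i)
  have h3 : ∀ i, ∃ c : k, α.coeff (p ^ js * p ^ (f * i)) =
      algebraMap k Ω c * G ^ (p ^ js * ((p ^ (f * i) - 1) / m)) := by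
    intro i
    rcases h1 (p ^ js * p ^ (f * i)) with h4 | ⟨lam, N, h4, h5⟩
    · exact ⟨0, by rw [h4, map_zero, zero_mul]⟩
    · refine ⟨lam, ?_⟩
      rw [h5]
      congr 2
      have h6 := hg i
      have h7 : 1 ≤ p ^ (f * i) := Nat.one_le_pow _ _ hp.pos
      have h8 : m * N = m * (p ^ js * ((p ^ (f * i) - 1) / m)) := by
        rw [mul_left_comm, h6, Nat.mul_sub, mul_one]
        omega
      exact Nat.eq_of_mul_eq_mul_left hm h8
  choose γ hγ using h3
  refine ⟨γ, α.natDegree, fun t ht => ?_, ?_⟩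
  · have h4 : α.coeff (p ^ js * p ^ (f * t)) = 0 := by
      refine coeff_eq_zero_of_natDegree_lt ?_
      have h5 : t < p ^ t := Nat.lt_pow_self hp1
      have h6 : p ^ t ≤ p ^ (f * t) := Nat.pow_le_pow_right hp.pos (Nat.le_mul_of_pos_left t hf)
      have h7 : p ^ (f * t) ≤ p ^ js * p ^ (f * t) :=
        Nat.le_mul_of_pos_left _ (pow_pos hp.pos _)
      omega
    rw [hγ t] at h4
    rcases mul_eq_zero.1 h4 with h5 | h5
    · exact (map_eq_zero _).1 h5
    · exact absurd h5 (pow_ne_zero _ hG0)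
  · ext n
    rw [finsetSum_coeff]
    simp only [coeff_C_mul, coeff_X_pow]
    by_cases h4 : α.coeff n = 0
    · rw [h4]
      refine (sum_eq_zero fun i _ => ?_).symm
      by_cases h5 : n = p ^ js * p ^ (f * i)
      · rw [← hγ, ← h5, h4, zero_mul]
      · rw [if_neg h5, mul_zero]
    · obtain ⟨t, ht⟩ := h2 n h4
      rcases h1 n with h5 | ⟨lam, N, h5, -⟩
      · exact absurd h5 h4
      have h6 : js ≤ t := by
        by_contra h7
        have h8 : p ^ t < p ^ js := Nat.pow_lt_pow_right hp1 (by omega)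
        omega
      obtain ⟨t', rfl⟩ := Nat.exists_eq_add_of_le h6
      have h7 : m ∣ p ^ t' - 1 := by
        have h8 : m ∣ p ^ js * (p ^ t' - 1) := by
          refine ⟨N, ?_⟩
          rw [Nat.mul_sub, mul_one, ← pow_add]
          omega
        exact (Nat.Coprime.dvd_of_dvd_mul_left (Nat.Coprime.pow_right js
          ((Nat.Prime.coprime_iff_not_dvd hp).2 hpm).symm) h8)
      obtain ⟨i, rfl⟩ := hf2 t' h7
      have h8 : n = p ^ js * p ^ (f * i) := by rw [ht, pow_add]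
      have h9 : i ≤ α.natDegree := by
        have h10 := le_natDegree_of_ne_zero h4
        have h5 : i < p ^ i := Nat.lt_pow_self hp1
        have h6 : p ^ i ≤ p ^ (f * i) := Nat.pow_le_pow_right hp.pos (Nat.le_mul_of_pos_left i hf)
        have h7 : p ^ (f * i) ≤ p ^ js * p ^ (f * i) :=
          Nat.le_mul_of_pos_left _ (pow_pos hp.pos _)
        omega
      rw [sum_eq_single i, if_pos h8, mul_one, ← hγ, h8]
      · intro i' _ hne
        rw [if_neg, mul_zero]
        intro h11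
        rw [h8] at h11
        have h12 := Nat.eq_of_mul_eq_mul_left (pow_pos hp.pos js) h11
        have h13 := Nat.pow_right_injective hp1 h12
        exact hne (Nat.eq_of_mul_eq_mul_left hf h13).symm
      · intro h11
        exact absurd (mem_range.2 (by omega)) h11

theorem ore_arith {M : Type*} [AddCommMonoid M] {f js T : ℕ} (hf : 0 < f) {h : ℕ → M}
    (h0 : ∀ n, (∀ i, n ≠ js + f * i) → h n = 0) :
    ∑ n ∈ range (js + f * T + 1), h n = ∑ i ∈ range (T + 1), h (js + f * i) := by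
  classical
  rw [← sum_image (s := range (T + 1)) (g := fun i => js + f * i) (f := h)]
  · refine (sum_subset (fun n hn => ?_) fun n hn hn' => ?_).symm
    · obtain ⟨i, hi, rfl⟩ := mem_image.1 hn
      have h1 : i ≤ T := by
        have := mem_range.1 hi
        omega
      have h2 : f * i ≤ f * T := Nat.mul_le_mul_left f h1
      exact mem_range.2 (by omega)
    · refine h0 n fun i hi => hn' (mem_image.2 ⟨i, mem_range.2 ?_, hi.symm⟩)
      have h1 := mem_range.1 hn
      have h2 : f * i ≤ f * T := by omega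
      have h3 : i ≤ T := Nat.le_of_mul_le_mul_left h2 hf
      omega
  · intro i _ i' _ h1
    have h2 : f * i = f * i' := by
      have : js + f * i = js + f * i' := h1
      omega
    exact Nat.eq_of_mul_eq_mul_left hf h2

/-- Extension of a family indexed by an arithmetic progression. -/
noncomputable def ore_ext (js f : ℕ) (E : ℕ → Polynomial Ω) (n : ℕ) : Polynomial Ω :=
  if js ≤ n ∧ f ∣ n - js then E ((n - js) / f) else 0

omit [Algebra k Ω] in
theorem ore_ext_apply {js f : ℕ} (hf : 0 < f) (E : ℕ → Polynomial Ω) (i : ℕ) :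
    ore_ext js f E (js + f * i) = E i := by
  rw [ore_ext, if_pos ⟨by omega, by rw [Nat.add_sub_cancel_left]; exact dvd_mul_right f i⟩,
    Nat.add_sub_cancel_left, Nat.mul_div_cancel_left _ hf]

omit [Algebra k Ω] in
theorem ore_ext_zero {js f : ℕ} (E : ℕ → Polynomial Ω) {n : ℕ} (h : ∀ i, n ≠ js + f * i) :
    ore_ext js f E n = 0 := by
  rw [ore_ext, if_neg]
  rintro ⟨h1, i, h2⟩
  exact h i (by omega)

/-- **The Ore pair.** -/
theorem exists_ore {p : ℕ} [hp : Fact p.Prime] [CharP Ω p] (h0 : Ctx0 k v)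
    {N N0 : IntermediateField k Ω} (hN : N0 ≤ N) {y : Ω} {σ r : ℝ}
    (hjet : ∀ f ∈ PI N, ∀ b : ℝ, v.Ge b (f.eval y) → ∀ l : ℕ, 1 ≤ l →
      Gt v (b - l * σ) ((hasseDeriv l f).eval y)) {m js : ℕ}
    (hm : 0 < m) (hpm : ¬ p ∣ m) {Gp bp : Polynomial Ω} (hGp : Gp ∈ PI N0) (hbp : bp ∈ PI N0)
    (hG0 : Gp.eval y ≠ 0) (hG : v (Gp.eval y) = -(m * σ)) (hb0 : bp.eval y ≠ 0)
    (hb : v (bp.eval y) = r - (p : ℝ) ^ js * σ) {alp bet0 : Polynomial Ω}
    (ha : ∀ n, Hm k (Gp.eval y) m 1 n (alp.coeff n)) (ha' : ∀ n, alp.coeff n ≠ 0 → ∃ t, n = p ^ t)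
    (ha0 : alp ≠ 0) (hβ : ∀ n, Hm k (Gp.eval y) m (p ^ js) n (bet0.coeff n))
    (hβ' : ∀ n, bet0.coeff n ≠ 0 → ∃ t, n = p ^ t) :
    ∃ (F A : ℕ → Polynomial Ω) (I J : ℕ) (R0 μ : ℝ), 0 < μ ∧ (∀ i, F i ∈ PI N0) ∧
      (∀ j, A j ∈ PI N0) ∧
      ∑ i ∈ range (I + 1), Polynomial.C ((F i).eval y) *
          (Polynomial.C (bp.eval y) * bet0) ^ p ^ i =
        ∑ j ∈ range (J + 1), Polynomial.C ((A j).eval y) * alp ^ p ^ j ∧
      (∀ i, (F i).eval y = 0 ∨ v ((F i).eval y) = R0 - (p : ℝ) ^ i * r) ∧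
      (∃ i ≤ I, (F i).eval y ≠ 0) ∧ (∀ j, v.Ge (R0 - (p : ℝ) ^ j * σ) ((A j).eval y)) ∧
      (∀ i ≤ I, ∀ l : ℕ, 1 ≤ l →
        v.Ge (R0 - (p : ℝ) ^ i * r - l * σ + μ) ((hasseDeriv l (F i)).eval y)) ∧
      ∀ j ≤ J, ∀ l : ℕ, 1 ≤ l →
        v.Ge (R0 - (p : ℝ) ^ j * σ - l * σ + μ) ((hasseDeriv l (A j)).eval y) := by
  classical
  set G := Gp.eval y with hGdef
  set b := bp.eval y with hbdef
  have hp0 : 0 < p := hp.out.pos
  obtain ⟨f, hf, hf1, hf2⟩ := ore_order hp.out hm.ne' hpm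
  -- the coefficients
  obtain ⟨γ, T, hγT, hγ⟩ := ore_coeff (js := 0) hp.out hG0 hm hpm hf hf1 hf2
    (by simpa using ha) ha'
  obtain ⟨ξ, B, hξB, hξ⟩ := ore_coeff (js := js) hp.out hG0 hm hpm hf hf1 hf2 hβ hβ'
  have hγ0 : ∃ t, γ t ≠ 0 := by
    by_contra h1
    push Not at h1
    refine ha0 ?_
    rw [hγ]
    refine sum_eq_zero fun i _ => ?_
    rw [h1, map_zero, zero_mul, map_zero, zero_mul]
  obtain ⟨ε, a, hε0, hεT, haB, hrel⟩ := ore_lin (P := p ^ f) (q := p ^ js) (pow_pos hp0 f)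
    (pow_pos hp0 js) hγT hγ0 hξB
  set gg : ℕ → ℕ := fun i => (p ^ (f * i) - 1) / m with hgg
  have hgg1 : ∀ i, m * gg i + 1 = p ^ (f * i) := by
    intro i
    have h1 : m * gg i = p ^ (f * i) - 1 := Nat.mul_div_cancel' (hf1 i)
    have h2 : 1 ≤ p ^ (f * i) := Nat.one_le_pow _ _ hp0
    omega
  have hgga : ∀ i s, gg (i + s) = gg i + gg s * p ^ (f * i) := by
    intro i s
    refine Nat.eq_of_mul_eq_mul_left hm (Nat.add_right_cancel (m := 1) ?_)
    have h2 : m * (gg i + gg s * p ^ (f * i)) + 1 =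
        (m * gg i + 1) + p ^ (f * i) * (m * gg s) := by ring
    have h3 : p ^ (f * i) * p ^ (f * s) = p ^ (f * i) * (m * gg s) + p ^ (f * i) := by
      rw [← hgg1 s]
      ring
    rw [h2, hgg1, mul_add, pow_add, h3, hgg1]
    ring
  have hPi : ∀ i, (p ^ f) ^ i = p ^ (f * i) := fun i => (pow_mul p f i).symm
  -- the elements
  set Fe : ℕ → Polynomial Ω := fun i => Polynomial.C (algebraMap k Ω (ε i)) *
    (bp ^ (p ^ (f * T) - p ^ (f * i)) * Gp ^ (p ^ js * gg i)) with hFe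
  set Ae : ℕ → Polynomial Ω := fun j => Polynomial.C (algebraMap k Ω (a j)) *
    (bp ^ p ^ (f * T) * Gp ^ (p ^ js * gg j)) with hAe
  have hFe1 : ∀ i, (Fe i).eval y = algebraMap k Ω (ε i) *
      (b ^ (p ^ (f * T) - p ^ (f * i)) * G ^ (p ^ js * gg i)) := by
    intro i
    rw [hFe]
    simp only [eval_mul, eval_C, eval_pow]
    rfl
  have hAe1 : ∀ j, (Ae j).eval y = algebraMap k Ω (a j) *
      (b ^ p ^ (f * T) * G ^ (p ^ js * gg j)) := by
    intro j
    rw [hAe]
    simp only [eval_mul, eval_C, eval_pow]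
    rfl
  have hFm : ∀ i, Fe i ∈ PI N0 := fun i =>
    mul_mem (C_mem_PI (N0.algebraMap_mem _)) (mul_mem (pow_mem hbp _) (pow_mem hGp _))
  have hAm : ∀ j, Ae j ∈ PI N0 := fun j =>
    mul_mem (C_mem_PI (N0.algebraMap_mem _)) (mul_mem (pow_mem hbp _) (pow_mem hGp _))
  set R0 : ℝ := (p : ℝ) ^ (f * T) * (r - (p : ℝ) ^ js * σ) + (p : ℝ) ^ js * σ with hR0
  have hggr : ∀ i, (m : ℝ) * gg i = (p : ℝ) ^ (f * i) - 1 := by
    intro i
    have h1 : ((m * gg i + 1 : ℕ) : ℝ) = ((p ^ (f * i) : ℕ) : ℝ) := by rw [hgg1]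
    push_cast at h1
    linarith
  have hlam : ∀ c : k, c ≠ 0 → algebraMap k Ω c ≠ 0 ∧ v (algebraMap k Ω c) = 0 := fun c hc =>
    ⟨(_root_.map_ne_zero _).2 hc, h0.triv c hc⟩
  have hGv : ∀ i, v (G ^ (p ^ js * gg i)) = -((p : ℝ) ^ js * ((p : ℝ) ^ (f * i) - 1) * σ) := by
    intro i
    rw [v.map_pow hG0, hG, ← hggr i]
    push_cast
    ring
  have hFv : ∀ i, (Fe i).eval y = 0 ∨ v ((Fe i).eval y) = R0 - (p : ℝ) ^ (f * i) * r := by
    intro i
    rw [hFe1]
    by_cases h1 : ε i = 0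
    · left
      rw [h1, map_zero, zero_mul]
    · right
      have h2 : i ≤ T := by
        by_contra h3
        exact h1 (hεT i (by omega))
      have h3 : p ^ (f * i) ≤ p ^ (f * T) :=
        Nat.pow_le_pow_right hp0 (Nat.mul_le_mul_left f h2)
      rw [v.map_mul (hlam _ h1).1 (mul_ne_zero (pow_ne_zero _ hb0) (pow_ne_zero _ hG0)),
        (hlam _ h1).2, v.map_mul (pow_ne_zero _ hb0) (pow_ne_zero _ hG0), hGv, v.map_pow hb0, hb,
        Nat.cast_sub h3, hR0]
      push_cast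
      ring
  have hAv : ∀ j, v.Ge (R0 - (p : ℝ) ^ (js + f * j) * σ) ((Ae j).eval y) := by
    intro j
    rw [hAe1]
    by_cases h1 : a j = 0
    · rw [h1, map_zero, zero_mul]
      exact RVal.Ge.zero
    · refine RVal.Ge.of_le (le_of_eq ?_)
      rw [v.map_mul (hlam _ h1).1 (mul_ne_zero (pow_ne_zero _ hb0) (pow_ne_zero _ hG0)),
        (hlam _ h1).2, v.map_mul (pow_ne_zero _ hb0) (pow_ne_zero _ hG0), hGv, v.map_pow hb0, hb,
        hR0, pow_add]
      push_cast
      ring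
  -- the identity
  have hid : ∑ i ∈ range (T + 1), Polynomial.C ((Fe i).eval y) *
      (Polynomial.C b * bet0) ^ p ^ (f * i) =
      ∑ j ∈ range (B + 1), Polynomial.C ((Ae j).eval y) * alp ^ p ^ (js + f * j) := by
    have h1 : ∀ i ∈ range (T + 1), Polynomial.C ((Fe i).eval y) *
        (Polynomial.C b * bet0) ^ p ^ (f * i) = ∑ s ∈ range (B + 1),
          Polynomial.C (algebraMap k Ω (ε i * ξ s ^ (p ^ f) ^ i) *
            (b ^ p ^ (f * T) * G ^ (p ^ js * gg (i + s)))) * X ^ (p ^ js * p ^ (f * (i + s))) := by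
      intro i hi
      have hiT : i ≤ T := by
        have := mem_range.1 hi
        omega
      have h3 : p ^ (f * i) ≤ p ^ (f * T) :=
        Nat.pow_le_pow_right hp0 (Nat.mul_le_mul_left f hiT)
      conv_lhs => rw [hξ, mul_sum, sum_pow_char_pow, mul_sum]
      refine sum_congr rfl fun s _ => ?_
      have e1 : Polynomial.C b * (Polynomial.C (algebraMap k Ω (ξ s) *
          G ^ (p ^ js * ((p ^ (f * s) - 1) / m))) * X ^ (p ^ js * p ^ (f * s))) =
          Polynomial.C (b * (algebraMap k Ω (ξ s) * G ^ (p ^ js * gg s))) *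
            X ^ (p ^ js * p ^ (f * s)) := by
        rw [← mul_assoc, ← Polynomial.C_mul]
      rw [e1, mul_pow, ← Polynomial.C_pow, ← mul_assoc, ← Polynomial.C_mul, ← pow_mul X, hFe1, hPi]
      have e2 : p ^ js * p ^ (f * s) * p ^ (f * i) = p ^ js * p ^ (f * (i + s)) := by
        rw [mul_add, pow_add]
        ring
      have e3 : b ^ p ^ (f * T) = b ^ (p ^ (f * T) - p ^ (f * i)) * b ^ p ^ (f * i) := by
        rw [← pow_add, Nat.sub_add_cancel h3]
      have e4 : G ^ (p ^ js * gg (i + s)) = G ^ (p ^ js * gg i) * (G ^ (p ^ js * gg s)) ^ p ^ (f * i) := by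
        rw [← pow_mul, ← pow_add, hgga]
        congr 1
        ring
      rw [e2, e3, e4, map_mul (algebraMap k Ω), map_pow (algebraMap k Ω), mul_pow, mul_pow]
      congr 2
      ring
    have h2 : ∀ j ∈ range (B + 1), Polynomial.C ((Ae j).eval y) * alp ^ p ^ (js + f * j) =
        ∑ t ∈ range (T + 1),
          Polynomial.C (algebraMap k Ω (a j * γ t ^ (p ^ js * (p ^ f) ^ j)) *
            (b ^ p ^ (f * T) * G ^ (p ^ js * gg (j + t)))) * X ^ (p ^ js * p ^ (f * (j + t))) := by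
      intro j hj
      conv_lhs => rw [hγ, sum_pow_char_pow, mul_sum]
      refine sum_congr rfl fun t _ => ?_
      rw [mul_pow, ← Polynomial.C_pow, ← mul_assoc, ← Polynomial.C_mul, ← pow_mul X, hAe1, hPi,
        pow_zero, one_mul, one_mul]
      have e2 : p ^ (f * t) * p ^ (js + f * j) = p ^ js * p ^ (f * (j + t)) := by
        rw [mul_add, pow_add, pow_add]
        ring
      have e4 : G ^ (p ^ js * gg (j + t)) =
          G ^ (p ^ js * gg j) * (G ^ ((p ^ (f * t) - 1) / m)) ^ p ^ (js + f * j) := by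
        rw [← pow_mul, ← pow_add, hgga]
        congr 1
        rw [pow_add]
        change p ^ js * (gg j + gg t * p ^ (f * j)) = p ^ js * gg j + gg t * (p ^ js * p ^ (f * j))
        ring
      rw [e2, e4, map_mul (algebraMap k Ω), map_pow (algebraMap k Ω), mul_pow,
        ← pow_add p js (f * j)]
      congr 2
      ring
    rw [sum_congr rfl h1, sum_congr rfl h2,
      ore_sum (h := fun i s => Polynomial.C (algebraMap k Ω
        (ε i * ξ s ^ (p ^ f) ^ i) * (b ^ p ^ (f * T) * G ^ (p ^ js * gg (i + s)))) *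
          X ^ (p ^ js * p ^ (f * (i + s))))
        (fun i s hi => by
          rw [hεT i hi, zero_mul, map_zero, zero_mul, map_zero, zero_mul])
        (fun i s hs => by
          rw [hξB s hs, zero_pow (pow_pos (pow_pos hp0 f) i).ne', mul_zero, map_zero, zero_mul,
            map_zero, zero_mul]),
      ore_sum (h := fun j t => Polynomial.C (algebraMap k Ω
        (a j * γ t ^ (p ^ js * (p ^ f) ^ j)) * (b ^ p ^ (f * T) * G ^ (p ^ js * gg (j + t)))) *
          X ^ (p ^ js * p ^ (f * (j + t))))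
        (fun i s hi => by
          rw [haB i hi, zero_mul, map_zero, zero_mul, map_zero, zero_mul])
        (fun i s hs => by
          rw [hγT s hs, zero_pow (mul_pos (pow_pos hp0 js) (pow_pos (pow_pos hp0 f) i)).ne',
            mul_zero, map_zero, zero_mul, map_zero, zero_mul]), add_comm B T]
    refine sum_congr rfl fun n _ => ?_
    have h3 : ∀ c : ℕ → ℕ → k, ∑ x ∈ antidiagonal n, Polynomial.C (algebraMap k Ω (c x.1 x.2) *
        (b ^ p ^ (f * T) * G ^ (p ^ js * gg (x.1 + x.2)))) * X ^ (p ^ js * p ^ (f * (x.1 + x.2))) =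
        Polynomial.C (algebraMap k Ω (∑ x ∈ antidiagonal n, c x.1 x.2) *
          (b ^ p ^ (f * T) * G ^ (p ^ js * gg n))) * X ^ (p ^ js * p ^ (f * n)) := by
      intro c
      rw [map_sum, sum_mul, map_sum, sum_mul]
      refine sum_congr rfl fun x hx => ?_
      have h4 : x.1 + x.2 = n := by simpa using hx
      rw [h4]
    rw [h3 fun i s => ε i * ξ s ^ (p ^ f) ^ i, h3 fun j t => a j * γ t ^ (p ^ js * (p ^ f) ^ j), hrel]
  -- the margins
  obtain ⟨μ₁, hμ₁, hnc1⟩ := ore_near hjet (F := ore_ext 0 f Fe) (b := fun i => R0 - (p : ℝ) ^ i * r)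
    (fun i => by
      by_cases h1 : ∃ i', i = 0 + f * i'
      · obtain ⟨i', rfl⟩ := h1
        rw [ore_ext_apply hf]
        exact PI_mono hN (hFm i')
      · push Not at h1
        rw [ore_ext_zero _ h1]
        exact zero_mem _)
    (fun i => by
      by_cases h1 : ∃ i', i = 0 + f * i'
      · obtain ⟨i', rfl⟩ := h1
        rw [ore_ext_apply hf, zero_add]
        rcases hFv i' with h2 | h2
        · rw [h2]
          exact RVal.Ge.zero
        · exact RVal.Ge.of_le h2.ge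
      · push Not at h1
        rw [ore_ext_zero _ h1, eval_zero]
        exact RVal.Ge.zero) (0 + f * T)
  obtain ⟨μ₂, hμ₂, hnc2⟩ := ore_near hjet (F := ore_ext js f Ae) (b := fun j => R0 - (p : ℝ) ^ j * σ)
    (fun i => by
      by_cases h1 : ∃ i', i = js + f * i'
      · obtain ⟨i', rfl⟩ := h1
        rw [ore_ext_apply hf]
        exact PI_mono hN (hAm i')
      · push Not at h1
        rw [ore_ext_zero _ h1]
        exact zero_mem _)
    (fun i => by
      by_cases h1 : ∃ i', i = js + f * i'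
      · obtain ⟨i', rfl⟩ := h1
        rw [ore_ext_apply hf]
        exact hAv i'
      · push Not at h1
        rw [ore_ext_zero _ h1, eval_zero]
        exact RVal.Ge.zero) (js + f * B)
  refine ⟨ore_ext 0 f Fe, ore_ext js f Ae, 0 + f * T, js + f * B, R0, min μ₁ μ₂, lt_min hμ₁ hμ₂,
    fun i => ?_, fun j => ?_, ?_, fun i => ?_, ?_, fun j => ?_, fun i hi l hl => ?_,
    fun j hj l hl => ?_⟩
  · by_cases h1 : ∃ i', i = 0 + f * i'
    · obtain ⟨i', rfl⟩ := h1
      rw [ore_ext_apply hf]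
      exact hFm i'
    · push Not at h1
      rw [ore_ext_zero _ h1]
      exact zero_mem _
  · by_cases h1 : ∃ i', j = js + f * i'
    · obtain ⟨i', rfl⟩ := h1
      rw [ore_ext_apply hf]
      exact hAm i'
    · push Not at h1
      rw [ore_ext_zero _ h1]
      exact zero_mem _
  · rw [ore_arith hf (h := fun i => Polynomial.C ((ore_ext 0 f Fe i).eval y) *
        (Polynomial.C b * bet0) ^ p ^ i) (fun n hn => by
        rw [ore_ext_zero _ hn, eval_zero, map_zero, zero_mul]),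
      ore_arith hf (h := fun j => Polynomial.C ((ore_ext js f Ae j).eval y) * alp ^ p ^ j)
        (fun n hn => by
          rw [ore_ext_zero _ hn, eval_zero, map_zero, zero_mul])]
    simp only [ore_ext_apply hf]
    rw [← hid]
    refine sum_congr rfl fun i _ => ?_
    rw [zero_add]
  · by_cases h1 : ∃ i', i = 0 + f * i'
    · obtain ⟨i', rfl⟩ := h1
      rw [ore_ext_apply hf, zero_add]
      exact hFv i'
    · push Not at h1
      left
      rw [ore_ext_zero _ h1, eval_zero]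
  · obtain ⟨i, hi⟩ := hε0
    have h2 : i ≤ T := by
      by_contra h3
      exact hi (hεT i (by omega))
    refine ⟨0 + f * i, by rw [zero_add, zero_add]; exact Nat.mul_le_mul_left f h2, ?_⟩
    rw [ore_ext_apply hf, hFe1]
    exact mul_ne_zero (hlam _ hi).1 (mul_ne_zero (pow_ne_zero _ hb0) (pow_ne_zero _ hG0))
  · by_cases h1 : ∃ i', j = js + f * i'
    · obtain ⟨i', rfl⟩ := h1
      rw [ore_ext_apply hf]
      exact hAv i'
    · push Not at h1
      rw [ore_ext_zero _ h1, eval_zero]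
      exact RVal.Ge.zero
  · exact (hnc1 i hi l hl).mono (by linarith [min_le_left μ₁ μ₂])
  · exact (hnc2 j hj l hl).mono (by linarith [min_le_right μ₁ μ₂])

end Pool.Agent.TWRS
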