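import Pool.Agent.Lib.TWRS.WinU
import Pool.Agent.Lib.TWRS.WinO

/-!
# TANK W, row (Rt), the exit: the nearly constant element of the windows

`near_rt`: the field `near` of `Win`, from the outputs of the windows.
-/

set_option autoImplicit false

open Polynomial Finset

namespace Pool.Agent.TWRS

open Pool.Agent.H15JM (RVal)
open Pool.Agent.D2 (Ctx0)
open Pool.Agent.TWM
open Pool.Agent.TWEX
open Pool.Agent.TWLM (HSd Oi Arc)
open Pool.Agent.TWN1 (Set0 Sn)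

universe u'

variable {k Ω : Type u'} [Field k] [Field Ω] [Algebra k Ω] {v : RVal Ω}

section Co

variable {p : ℕ} {N : IntermediateField k Ω} {y u : Ω} {σ r : ℝ} {D : ℕ → Ω → Ω}

theorem _root_.Pool.Agent.TWEX.SFl.jet_gt (h : SFl p v N y σ D) (f : Polynomial Ω) (hf : f ∈ PI N)
    (b : ℝ) (hb : v.Ge b (f.eval y)) (l : ℕ) (hl : 1 ≤ l) :
    Gt v (b - l * σ) ((hasseDeriv l f).eval y) := by
  obtain ⟨η, hη, h1⟩ := h.str l (by omega)
  rw [← h.poly l f hf]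
  exact Gt.of_ge (h1 _ (TWLM.eval_mem_cadj hf) b hb) (by linarith)

/-- The cocycle of the truncated jets. -/
theorem cocycle_sn [hp : Fact p.Prime] [CharP Ω p] (h : SFl p v N y σ D) {U : PowerSeries Ω}
    {κ : ℕ → ℝ} (hU : Set0 v (cadj v N y) D u U κ r σ) {L n₀ : ℕ} (hn₀ : 2 * L < n₀)
    (hL : ∀ n : ℕ, L < n → v.Ge (r - n * σ) (PowerSeries.coeff n U))
    (hUp : ∀ n, ∃ f ∈ PI N, PowerSeries.coeff n U = f.eval y) :
    ∃ δ : ℝ, 0 < δ ∧ ∀ l m : ℕ, l ≠ 0 → l ≤ n₀ → m ≠ 0 → v.Ge (r - (l + m) * σ + δ)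
      (D m (PowerSeries.coeff l (Sn U n₀)) -
        (((l + m).choose m : ℕ) : Ω) * PowerSeries.coeff (l + m) (Sn U n₀)) := by
  classical
  have hSn : ∀ l, PowerSeries.coeff l (Sn U n₀) = if l < n₀ then PowerSeries.coeff l U else 0 :=
    fun l => by rw [Sn, PowerSeries.coeff_mk]
  have hco : ∀ l m : ℕ, l ≠ 0 → Gt v (r - (l + m) * σ) (D m (PowerSeries.coeff l U) -
      (((l + m).choose m : ℕ) : Ω) * PowerSeries.coeff (l + m) U) := by
    intro l m hl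
    have hk1 := hU.kpos l
    have hk2 := hU.kpos (l + m)
    have h0 : 0 < min (κ l / 2) (κ (l + m) / 2) := lt_min (by linarith) (by linarith)
    exact Gt.of_ge (h.cocycle hU (l := l) (m := m) hl) (by linarith)
  -- one pair
  have key : ∀ l m : ℕ, l ≠ 0 → m ≠ 0 → Gt v (r - (l + m) * σ)
      (D m (PowerSeries.coeff l (Sn U n₀)) -
        (((l + m).choose m : ℕ) : Ω) * PowerSeries.coeff (l + m) (Sn U n₀)) := by
    intro l m hl hm
    rw [hSn, hSn]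
    by_cases h1 : l < n₀
    · rw [if_pos h1]
      by_cases h2 : l + m < n₀
      · rw [if_pos h2]
        exact hco l m hl
      · rw [if_neg h2, mul_zero, sub_zero]
        have e : D m (PowerSeries.coeff l U) = (D m (PowerSeries.coeff l U) -
            (((l + m).choose m : ℕ) : Ω) * PowerSeries.coeff (l + m) U) +
            (((l + m).choose m : ℕ) : Ω) * PowerSeries.coeff (l + m) U := by ring
        rw [e]
        refine (hco l m hl).add ?_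
        by_cases h3 : ∃ i, l + m = p ^ i
        · obtain ⟨i, hi⟩ := h3
          have h4 : (((l + m).choose m : ℕ) : Ω) = 0 := by
            rw [CharP.cast_eq_zero_iff Ω p, hi]
            have hi0 : i ≠ 0 := by
              rintro rfl
              rw [pow_zero] at hi
              omega
            exact hp.out.dvd_choose_pow hm (by omega)
          rw [h4, zero_mul]
          exact Gt.zero
        · push Not at h3
          have harc : Arc v (cadj v N y) σ D := ⟨h.hsd, fun l hl => by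
            obtain ⟨η, hη, h1⟩ := h.str l hl
            exact ⟨l * σ - η, by linarith, fun f hf b hb => (h1 f hf b hb).mono (by linarith)⟩⟩
          have h4 := residue_pow harc hU.zmem hco hL (n := l + m) (by omega) h3
          have h5 := h4.mul_ge (ge_natCast v ((l + m).choose m))
          rw [mul_comm (PowerSeries.coeff (l + m) U), add_zero] at h5
          push_cast at h5
          exact h5
    · rw [if_neg h1, if_neg (by omega), h.hsd.zero, mul_zero, sub_zero]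
      exact Gt.zero
  -- the degree
  choose f hf hfU using hUp
  obtain ⟨M, hM⟩ : ∃ M : ℕ, ∀ l ≤ n₀, (f l).natDegree ≤ M :=
    ⟨∑ l ∈ range (n₀ + 1), (f l).natDegree, fun l hl =>
      single_le_sum (f := fun l => (f l).natDegree) (fun _ _ => Nat.zero_le _)
        (mem_range.2 (by omega))⟩
  obtain ⟨δ, hδ, h1⟩ := TWEX.exists_margin ((Icc 1 n₀) ×ˢ (Icc 1 (max n₀ M)))
    (fun x η => v.Ge (r - (x.1 + x.2) * σ + η) (D x.2 (PowerSeries.coeff x.1 (Sn U n₀)) -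
      (((x.1 + x.2).choose x.2 : ℕ) : Ω) * PowerSeries.coeff (x.1 + x.2) (Sn U n₀)))
    (fun x hx => by
      obtain ⟨h2, h3⟩ := mem_product.1 hx
      obtain ⟨h4, h5⟩ := mem_Icc.1 h2
      obtain ⟨h6, h7⟩ := mem_Icc.1 h3
      obtain ⟨η, hη, h8⟩ := TWLM.exists_ge_of_gt (key x.1 x.2 (by omega) (by omega))
      exact ⟨η, hη, h8⟩)
    (fun x _ η η' hη h2 => h2.mono (by linarith))
  refine ⟨δ, hδ, fun l m hl hl' hm => ?_⟩
  by_cases hmM : m ≤ max n₀ M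
  · exact h1 (l, m) (mem_product.2 ⟨mem_Icc.2 ⟨by omega, hl'⟩, mem_Icc.2 ⟨by omega, hmM⟩⟩)
  · have h2 : PowerSeries.coeff (l + m) (Sn U n₀) = 0 := by
      rw [hSn, if_neg (by omega)]
    rw [h2, mul_zero, sub_zero, hSn]
    split_ifs
    · rw [hfU, h.poly m _ (hf l), hasseDeriv_eq_zero_of_lt_natDegree _ _
        (lt_of_le_of_lt (hM l hl') (by omega)), eval_zero]
      exact RVal.Ge.zero
    · rw [h.hsd.zero]
      exact RVal.Ge.zero

end Co

/-- **The nearly constant element of the windows.** -/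
theorem near_rt₀ [IsAlgClosed Ω] {p : ℕ} [hp : Fact p.Prime] [CharP Ω p] (h0 : Ctx0 k v)
    {N₀ N K : IntermediateField k Ω} (hN₀ : N₀ ≤ N) {y u : Ω} {σ r : ℝ} {D Ψ : ℕ → Ω → Ω}
    (fl : SFl p v N y σ D) {U : PowerSeries Ω} {κ : ℕ → ℝ}
    (hU : Set0 v (cadj v N y) D u U κ r σ) (hUR : ∀ n, PowerSeries.coeff n U ∈ Adn N₀ {y})
    {L n₀ : ℕ} (hn₀ : 2 * L < n₀)
    (hL : ∀ n : ℕ, L < n → v.Ge (r - n * σ) (PowerSeries.coeff n U)) {G : Ω} {m js : ℕ}
    (hm : 0 < m) (hpm : ¬ p ∣ m) (hG : G ∈ Adn N₀ {y}) (hG0 : G ≠ 0) (hGv : v G = -(m * σ)) {b : Ω}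
    (hbR : b ∈ Adn N₀ {y}) (hb : b = 0 ∨ b ≠ 0 ∧ v b = r - p ^ js * σ) {al be : PowerSeries Ω}
    {Q Q' : ℕ} (hal : Had k p G m 1 Q al) (hal0 : al ≠ 0) (hbe : Had k p G m (p ^ js) Q' be)
    (hΨ : HSd K Ψ) (hCK : cadj v N y ≤ K) (huK : u ∈ K)
    (hcon : ∀ x ∈ N, ∀ l : ℕ, l ≠ 0 → Ψ l x = 0)
    (hΨy : ∀ n : ℕ, n ≠ 0 → Ψ n y = PowerSeries.coeff n al)
    (hΨu : ∀ n : ℕ, n ≠ 0 → Ψ n u =
      PowerSeries.coeff n ((Sn U n₀).subst al) + b * PowerSeries.coeff n be) :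
    ∃ U ∈ K, ∃ R μ : ℝ, 0 < μ ∧ (∀ l : ℕ, l ≠ 0 → v.Ge (R - l * σ + μ) (Ψ l U)) ∧
      ∀ θ : Ω, IsAlgebraic N θ → U ≠ θ ∧ v (U - θ) ≤ R := by
  classical
  have hNC : N ≤ cadj v N y := le_cadj v N y
  -- polynomials
  have hconst : ∀ {w Q : ℕ} {s : PowerSeries Ω}, Had k p G m w Q s → PowerSeries.coeff 0 s = 0 := by
    intro w Q s hs
    by_contra h1
    obtain ⟨t, ht⟩ := hs.add 0 h1
    exact absurd ht (pow_pos hp.out.pos t).ne
  have hpoly : ∀ {w Q : ℕ} {s : PowerSeries Ω}, Had k p G m w Q s →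
      ∃ P : Polynomial Ω, (P : PowerSeries Ω) = s := by
    intro w Q s hs
    refine ⟨PowerSeries.trunc (Q + 1) s, ?_⟩
    ext n
    rw [Polynomial.coeff_coe, PowerSeries.coeff_trunc]
    split_ifs with h1
    · rfl
    · exact (hs.deg n (by omega)).symm
  have hal00 := hconst hal
  have hbe00 := hconst hbe
  obtain ⟨α, rfl⟩ := hpoly hal
  obtain ⟨β, rfl⟩ := hpoly hbe
  have hαc : ∀ n, PowerSeries.coeff n (α : PowerSeries Ω) = α.coeff n := fun n =>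
    Polynomial.coeff_coe _ _
  have hβc : ∀ n, PowerSeries.coeff n (β : PowerSeries Ω) = β.coeff n := fun n =>
    Polynomial.coeff_coe _ _
  rw [hαc] at hal00
  rw [hβc] at hbe00
  have hα0 : α ≠ 0 := fun h1 => hal0 (by rw [h1, Polynomial.coe_zero])
  obtain ⟨Gp, hGp, rfl⟩ := mem_adn_singleton hG
  obtain ⟨bp, hbp, rfl⟩ := mem_adn_singleton hbR
  have hαb : PBd v σ σ α := fun n => by
    have h1 := (hal.hm n).ge h0 hG0 hGv
    rw [hαc] at h1
    simpa using h1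
  have hβb : PBd v σ (p ^ js * σ) β := fun n => by
    have h1 := (hbe.hm n).ge h0 hG0 hGv
    rw [hβc] at h1
    simpa using h1
  have hβb' : PBd v σ r (C (bp.eval y) * β) := by
    rcases hb with h1 | ⟨h1, h2⟩
    · rw [h1, C_0, zero_mul]
      exact PBd.zero
    · have h3 : v.Ge (r - p ^ js * σ) (bp.eval y) := fun _ => h2.ge
      exact ((PBd.C (σ := σ) h3).mul hβb).mono (by linarith)
  -- the truncated jets
  have hSn : ∀ l, PowerSeries.coeff l (Sn U n₀) = if l < n₀ then PowerSeries.coeff l U else 0 :=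
    fun l => by rw [Sn, PowerSeries.coeff_mk]
  have hUp : ∀ n, ∃ f ∈ PI N, PowerSeries.coeff n U = f.eval y := by
    intro n
    obtain ⟨f, hf, h1⟩ := mem_adn_singleton (hUR n)
    exact ⟨f, fun i => hN₀ (hf i), h1⟩
  have hhp : ∀ l, ∃ f ∈ PI N, PowerSeries.coeff l (Sn U n₀) = f.eval y := by
    intro l
    rw [hSn]
    split_ifs
    · exact hUp l
    · exact ⟨0, zero_mem _, by rw [eval_zero]⟩
  have hco := cocycle_sn fl hU hn₀ hL hUp
  have hΨy' : ∀ l : ℕ, l ≠ 0 → Ψ l y = α.coeff l := fun l hl => by rw [hΨy l hl, hαc]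
  have hΨu' : ∀ l : ℕ, l ≠ 0 → Ψ l u = (∑ i ∈ range (n₀ + 1),
      C (PowerSeries.coeff i (Sn U n₀)) * α ^ i + C (bp.eval y) * β).coeff l := by
    intro l hl
    rw [hΨu l hl, coeff_add, coeff_C_mul, hβc]
    congr 1
    have hc : PowerSeries.constantCoeff (α : PowerSeries Ω) = 0 := by
      rw [← PowerSeries.coeff_zero_eq_constantCoeff_apply, hαc, hal00]
    rw [coeff_subst_eq hc, finsetSum_coeff]
    have h1 : ∀ i, PowerSeries.coeff i (Sn U n₀) * PowerSeries.coeff l ((α : PowerSeries Ω) ^ i) =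
        (C (PowerSeries.coeff i (Sn U n₀)) * α ^ i).coeff l := by
      intro i
      rw [coeff_C_mul, ← Polynomial.coe_pow, Polynomial.coeff_coe]
    simp only [h1]
    have h2 : ∑ i ∈ range (l + 1), (C (PowerSeries.coeff i (Sn U n₀)) * α ^ i).coeff l =
        ∑ i ∈ range (l + 1 + (n₀ + 1)), (C (PowerSeries.coeff i (Sn U n₀)) * α ^ i).coeff l := by
      refine sum_subset (range_mono (by omega)) fun i _ hi => ?_
      rw [← h1, coeff_pow_lt hc (by have := mt mem_range.2 hi; omega), mul_zero]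
    have h3 : ∑ i ∈ range (n₀ + 1), (C (PowerSeries.coeff i (Sn U n₀)) * α ^ i).coeff l =
        ∑ i ∈ range (l + 1 + (n₀ + 1)), (C (PowerSeries.coeff i (Sn U n₀)) * α ^ i).coeff l := by
      refine sum_subset (range_mono (by omega)) fun i _ hi => ?_
      rw [hSn, if_neg (by have := mt mem_range.2 hi; omega), C_0, zero_mul, coeff_zero]
    rw [h2, h3]
  have fin : ∀ {I J : ℕ} {e a : ℕ → Ω} {R₀ : ℝ}, (∀ i ≤ I, ∃ F ∈ PI N, e i = F.eval y) →
      (∀ j ≤ J, ∃ F ∈ PI N, a j = F.eval y) → (∀ i ≤ I, e i ≠ 0 → v (e i) = R₀ - p ^ i * r) →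
      (∃ i ≤ I, e i ≠ 0) → (∃ μ : ℝ, 0 < μ ∧
        (∀ i ≤ I, ∀ l : ℕ, l ≠ 0 → v.Ge (R₀ - p ^ i * r - l * σ + μ) (D l (e i))) ∧
        ∀ j ≤ J, ∀ l : ℕ, l ≠ 0 → v.Ge (R₀ - p ^ j * σ - l * σ + μ) (D l (a j))) →
      (∑ i ∈ range (I + 1), C (e i) * (C (bp.eval y) * β) ^ p ^ i =
        ∑ j ∈ range (J + 1), C (a j) * α ^ p ^ j) →
      ∃ U ∈ K, ∃ R μ : ℝ, 0 < μ ∧ (∀ l : ℕ, l ≠ 0 → v.Ge (R - l * σ + μ) (Ψ l U)) ∧
        ∀ θ : Ω, IsAlgebraic N θ → U ≠ θ ∧ v (U - θ) ≤ R := by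
    intro I J e a R₀ he ha hev hne hgain hore
    obtain ⟨W, R, μ, -, hWK, hμ, h1, h2⟩ := exists_U (r := r) fl.poly fl.lim hU.tl.far hΨ hCK huK
      hcon hal00 (by rw [coeff_C_mul, hbe00, mul_zero]) hαb hβb'
      (hh := fun l => PowerSeries.coeff l (Sn U n₀)) (L := n₀)
      (by
        simp only [hSn, hU.z0]
        split_ifs <;> rfl) (fun l hl => by
        simp only [hSn]
        rw [if_neg (by omega)]) hhp hco hΨy' hΨu' he ha hev hne hgain hore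
    exact ⟨W, hWK, R, μ, hμ, h1, fun θ hθ => ⟨(h2 θ (D2P.isAlgebraic_mono hNC hθ)).1,
      (h2 θ (D2P.isAlgebraic_mono hNC hθ)).2.le⟩⟩
  rcases hb with hb0 | ⟨hb0, hbv⟩
  · refine fin (I := 0) (J := 0) (e := fun _ => 1) (a := fun _ => 0) (R₀ := r)
      (fun i _ => ⟨1, one_mem _, by rw [eval_one]⟩) (fun j _ => ⟨0, zero_mem _, by rw [eval_zero]⟩)
      (fun i hi _ => ?_) ⟨0, le_rfl, one_ne_zero⟩ ⟨1, one_pos, fun i _ l hl => ?_,
        fun j _ l hl => ?_⟩ ?_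
    · have hi0 : i = 0 := by omega
      rw [hi0, v.map_one, pow_zero, one_mul, sub_self]
    · rw [fl.hsd.one l hl]
      exact RVal.Ge.zero
    · rw [fl.hsd.zero l]
      exact RVal.Ge.zero
    · rw [hb0]
      simp
  · obtain ⟨F, A, I, J, R₀, μ, hμ, hF, hA, hore, hev, hne, hav, hFg, hAg⟩ := exists_ore h0 hN₀
      (σ := σ) (r := r) fl.jet_gt hm hpm hGp hbp hG0 hGv hb0 hbv (alp := α) (bet0 := β)
      (fun n => by rw [← hαc]; exact hal.hm n) (fun n hn => hal.add n (by rwa [hαc])) hα0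
      (fun n => by rw [← hβc]; exact hbe.hm n) (fun n hn => hbe.add n (by rwa [hβc]))
    refine fin (I := I) (J := J) (e := fun i => (F i).eval y) (a := fun j => (A j).eval y)
      (R₀ := R₀) (fun i _ => ⟨F i, PI_mono hN₀ (hF i), rfl⟩)
      (fun j _ => ⟨A j, PI_mono hN₀ (hA j), rfl⟩) (fun i _ hi => (hev i).resolve_left hi) hne
      ⟨μ, hμ, fun i hi l hl => ?_, fun j hj l hl => ?_⟩ hore
    · rw [fl.poly l _ (PI_mono hN₀ (hF i))]
      exact hFg i hi l (by omega)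
    · rw [fl.poly l _ (PI_mono hN₀ (hA j))]
      exact hAg j hj l (by omega)

/-- `near_rt₀`, in the form of the assembly. -/
theorem near_rt [IsAlgClosed Ω] (p : ℕ) [Fact p.Prime] [CharP Ω p] (h0 : Ctx0 k v)
    {N₀ N K : IntermediateField k Ω} {y u : Ω} {σ r : ℝ} {D Ψ : ℕ → Ω → Ω} {U : PowerSeries Ω}
    {κ : ℕ → ℝ} (hN : N₀ ≤ N) (hfl : SFl p v N y σ D) (hset : Set0 v (cadj v N y) D u U κ r σ)
    {L n₀ : ℕ} (hL : ∀ n : ℕ, L < n → v.Ge (r - n * σ) (PowerSeries.coeff n U))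
    (hn₀ : 2 * L < n₀) {G : Ω} {m : ℕ} (hm0 : 0 < m) (hpm : ¬ p ∣ m) (hG : G ∈ Adn N₀ {y})
    (hG0 : G ≠ 0) (hGv : v G = -(m * σ)) {js : ℕ} {b : Ω} (hb : b ∈ Adn N₀ {y})
    (hb' : b = 0 ∨ b ≠ 0 ∧ v b = r - p ^ js * σ) (hU : ∀ n, PowerSeries.coeff n U ∈ Adn N₀ {y})
    {α β : PowerSeries Ω} {Q : ℕ} (hα : Had k p G m 1 Q α) (hα0 : ∃ n, PowerSeries.coeff n α ≠ 0)
    (hβ : Had k p G m (p ^ js) Q β) (hΨ : HSd K Ψ) (hCK : cadj v N y ≤ K) (huK : u ∈ K)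
    (hcon : ∀ x ∈ N, ∀ l : ℕ, l ≠ 0 → Ψ l x = 0)
    (hjy : ∀ n, n ≠ 0 → Ψ n y = PowerSeries.coeff n α)
    (hju : ∀ n, n ≠ 0 → Ψ n u = PowerSeries.coeff n ((Sn U n₀).subst α) +
      b * PowerSeries.coeff n β) :
    ∃ W ∈ K, ∃ R μ : ℝ, 0 < μ ∧ (∀ l : ℕ, l ≠ 0 → v.Ge (R - l * σ + μ) (Ψ l W)) ∧
      ∀ θ : Ω, IsAlgebraic N θ → W ≠ θ ∧ v (W - θ) ≤ R :=
  near_rt₀ h0 hN hfl hset hU hn₀ hL hm0 hpm hG hG0 hGv hb hb' hα (by
    rintro rfl
    obtain ⟨n, hn⟩ := hα0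
    exact hn (map_zero _)) hβ hΨ hCK huK hcon hjy hju

end Pool.Agent.TWRS
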