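import Pool.Agent.Lib.TWRS.Asm0
import Pool.Agent.Lib.TWRS.WinE
import Pool.Agent.Lib.TWEX.Wd5
import Pool.Agent.Lib.TWRS.VfC
import Pool.Agent.Lib.TWRS.Top4
import Pool.Agent.Lib.TWRS.WinN

/-!
# TANK W, row (Rt): the record `Win` and null jets

`exists_win`: from the input data (finite shape of `u` in the ring, the element `G`, the hit of `z`).
-/

set_option autoImplicit false

open Polynomial Finset

namespace Pool.Agent.TWRS

open Pool.Agent.H15JM (RVal)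
open Pool.Agent.D2 (Ctx0)
open Pool.Agent.D2P (clI)
open Pool.Agent.TWM
open Pool.Agent.TWII (PG LP Nr)
open Pool.Agent.TWLM (HSd Oi Arc)
open Pool.Agent.TWN1 (ser coeff_ser Sn Set0)
open Pool.Agent.TWEX (cmp alp cmp_eq coeff_subst_eq const_alp coeff_alp coeff_pow_gt SFl Adn
  mem_adn_of_mem)

universe u

variable {k Ω : Type u} [Field k] [Field Ω] [Algebra k Ω] {v : RVal Ω}

theorem adn_le {N₀ K : IntermediateField k Ω} {S : Set Ω} (hle : N₀ ≤ K) (hS : ∀ s ∈ S, s ∈ K) :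
    ∀ x ∈ Adn N₀ S, x ∈ K := by
  intro x hx
  induction hx using Algebra.adjoin_induction with
  | mem a ha => exact hS a ha
  | algebraMap c => exact hle c.2
  | add a b _ _ ha hb => exact add_mem ha hb
  | mul a b _ _ ha hb => exact mul_mem ha hb

/-- The input of the windows. -/
structure RtIn (p : ℕ) (v : RVal Ω) (N L : IntermediateField k Ω) (x y : Ω) (σ : ℝ)
    (D : ℕ → Ω → Ω) (u : Ω) (r : ℝ) (z : Ω) (s ν : ℝ) (a : Ω) (U : PowerSeries Ω) (κ : ℕ → ℝ)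
    (L₁ : ℕ) (G : Ω) (m : ℕ) (f : Polynomial Ω) : Prop where
  xN : x ∈ N
  x0 : x ≠ 0
  xv : v x ≠ 0
  cN : Cld v N
  fl : SFl p v N y σ D
  den : ∀ a ∈ cadj v N y, ∀ b : ℝ, ∃ g ∈ Adn (IntermediateField.adjoin k {x}) {y}, v.Ge b (a - g)
  set0 : Set0 v (cadj v N y) D u U κ r σ
  uR : ∀ n, PowerSeries.coeff n U ∈ Adn (IntermediateField.adjoin k {x}) {y}
  fin : ∀ n : ℕ, L₁ < n → v.Ge (r - n * σ) (PowerSeries.coeff n U)
  tz : TL v (cadj v (cadj v N y) u) z s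
  eq : L = cadj v (cadj v (cadj v N y) u) z
  m0 : 0 < m
  pm : ¬ p ∣ m
  gR : G ∈ Adn (IntermediateField.adjoin k {x}) {y}
  g0 : G ≠ 0
  gv : v G = -(m * σ)
  mdv : ∀ n : ℕ, ∀ x ∈ cadj v N y, x ≠ 0 → v x = n * σ → m ∣ n
  pf : f ∈ PI (cadj v (cadj v N y) u)
  lim : LP p v L ν (f.eval z)
  hit : ∃ l : ℕ, p ∣ l ∧ l ≠ 0 ∧ ¬ PG p v L (ν - l * s) ((taylor z f).coeff l)
  mem : a ∈ L
  la : LP p v L ν a

/-- **The windows**: the record `Win` and null jets. -/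
theorem exists_win [IsAlgClosed k] [IsAlgClosed Ω] (p : ℕ) [hp : Fact p.Prime] [CharP Ω p]
    (hΩ : CompleteV v) (h0 : Ctx0 k v) {N L : IntermediateField k Ω} {x y u z a G : Ω}
    {σ r s ν : ℝ} {D : ℕ → Ω → Ω} {U : PowerSeries Ω} {κ : ℕ → ℝ} {L₁ m : ℕ} {f : Polynomial Ω}
    (h : RtIn p v N L x y σ D u r z s ν a U κ L₁ G m f) :
    ∃ (Θ : ℕ → Ω → Ω) (T₀ : Finset ℕ) (c₀ : ℕ → Ω),
      Win p v (IntermediateField.adjoin k {x}) N L x y u z σ D Θ T₀ c₀ ∧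
      ∀ n : ℕ, n ≠ 0 → PG p v L (ν - n * σ) (Θ n a) := by
  classical
  have hN₀ : IntermediateField.adjoin k {x} ≤ N := by
    rw [IntermediateField.adjoin_simple_le_iff]
    exact h.xN
  have hNC : N ≤ cadj v N y := le_cadj v N y
  have hyC : y ∈ cadj v N y := self_mem_cadj v N y
  have hCF : cadj v N y ≤ cadj v (cadj v N y) u := le_cadj v _ u
  have huF : u ∈ cadj v (cadj v N y) u := self_mem_cadj v _ u
  have hRC : ∀ g ∈ Adn (IntermediateField.adjoin k {x}) {y}, g ∈ cadj v N y :=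
    adn_le (hN₀.trans hNC) fun s hs => by
      rw [Set.mem_singleton_iff.1 hs]
      exact hyC
  have hRA : ∀ g ∈ Adn (IntermediateField.adjoin k {x}) {y},
      g ∈ Adn (IntermediateField.adjoin k {x}) ({y, u} : Set Ω) := fun g hg =>
    Algebra.adjoin_mono (Set.singleton_subset_iff.2 (Set.mem_insert _ _)) hg
  obtain ⟨n₀, js, b, q, P, T, c, β, Ψ, hn₀, hb, hFam, hTc, hΨC, hΨu⟩ :=
    exists_fam p hΩ h0 (TWEX.SFl.arc' h.fl) h.fl.oi h.fl.comp h.set0 h.fin h.m0 h.pm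
      (hRC G h.gR) h.g0 h.gv h.mdv
  have hbR : b ∈ Adn (IntermediateField.adjoin k {x}) {y} := by
    rcases hb with rfl | ⟨rfl, -, -⟩
    · exact zero_mem _
    · exact h.uR _
  have hDy : ∀ n : ℕ, n ≠ 0 → D n y = if n = 1 then 1 else 0 := by
    intro n hn
    split_ifs with h2
    · rw [h2, h.fl.coord_one]
    · exact h.fl.coord_two (by omega)
  have hAd : ∀ x' ∈ cadj v (cadj v N y) u, ∀ b : ℝ,
      ∃ c ∈ Adn (IntermediateField.adjoin k {x}) ({y, u} : Set Ω), v.Ge b (x' - c) := by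
    intro x' hx' b
    obtain ⟨g, hg, h1⟩ := adn_dense_step h.set0.tl h.den x' hx' b
    refine ⟨g, ?_, h1⟩
    rwa [Set.pair_comm] at hg
  have hAF : ∀ g ∈ Adn (IntermediateField.adjoin k {x}) ({y, u} : Set Ω),
      g ∈ cadj v (cadj v N y) u := by
    refine adn_le (hN₀.trans (hNC.trans hCF)) ?_
    rintro s (rfl | hs)
    · exact hCF hyC
    · rw [Set.mem_singleton_iff.1 hs]
      exact huF
  have hlim := h.lim
  have hhit := h.hit
  have ham := h.mem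
  have hla := h.la
  rw [h.eq] at hlim hhit ham hla
  obtain ⟨M, T', c', Θ, n₁, hT', hT0', harc, hΘ, hzA, hfz, hnull⟩ :=
    exists_top p hΩ h0 hFam h.pm h.tz h.pf hlim hhit hAF
      (fun c => hRA _ (mem_adn_of_mem (IntermediateField.algebraMap_mem _ c))) (hRA _ h.gR) hAd
      ham hla
  obtain ⟨T₀, c₀, Q₀, β₀, hT₀, hT₀0, hα₀, hβ₀, hΘC, hΘu⟩ :=
    rt_jets p h.m0 hCF huF (hTc M).1 (hTc M).2.1 (hTc M).2.2.2 hT' hT0' (hΨC M) (hΨu M) hΘ
  have hne : ∃ n, PowerSeries.coeff n (alp p T₀ c₀) ≠ 0 := by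
    obtain ⟨t, ht, h1⟩ := hT₀0
    refine ⟨p ^ t, ?_⟩
    rw [coeff_alp, sum_eq_single t]
    · rwa [if_pos rfl]
    · intro s _ hs
      rw [if_neg]
      intro h4
      exact hs (Nat.pow_right_injective hp.out.two_le h4).symm
    · exact fun h4 => absurd ht h4
  have hFL : cadj v (cadj v N y) u ≤ L := by
    rw [h.eq]
    exact le_cadj v _ z
  have harc' : PwArc v L σ Θ := by
    rw [h.eq]
    exact harc
  have hcon : ∀ a ∈ N, ∀ l : ℕ, l ≠ 0 → Θ l a = 0 := by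
    intro a ha l hl
    rw [hΘC l a (hNC ha), cmp_eq const_alp, sum_eq_zero]
    intro i _
    rcases eq_or_ne i 0 with rfl | hi
    · rw [pow_zero, PowerSeries.coeff_one, if_neg hl, mul_zero]
    · rw [h.fl.const ha hi, zero_mul]
  have hnear := near_rt p h0 hN₀ h.fl h.set0 h.fin hn₀ h.m0 h.pm h.gR h.g0 h.gv hbR
    (hb.imp_right fun h1 => h1.2) h.uR hα₀ hne hβ₀ harc'.toHSd (hCF.trans hFL) (hFL huF) hcon
    (fun n hn => by rw [hΘC n y hyC, cmp_y const_alp hDy hn]) hΘu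
  refine ⟨Θ, T₀, c₀, win_of_jets p h0 h.xN h.x0 h.xv h.cN h.fl h.den h.set0.tl h.tz h.eq harc'
    h.gR h.g0 h.gv h.uR hbR hT₀ hT₀0 hβ₀ hΘC hΘu hzA hfz hnear, ?_⟩
  rw [h.eq]
  exact hnull

end Pool.Agent.TWRS
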