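import Pool.Agent.Lib.TWEX.Res3
import Pool.Agent.Lib.TWEX.KArc

/-!
# TANK W, row (Rt): strict first floor, rational radius, two floors above. Definitions

* `PwArc v F σ Φ`: an overconvergent arc of `F`, of norm `≤ l σ`, pointwise strict;
* `PArc v F σ P Φ`: moreover with a margin in the orders `< P`;
* `Hm k G m w n a`: `a = lam G ^ N`, `n = w + m N` (homogeneous coefficients; `v G = - m σ`);
* `HS2 v F σ q D`: a two-index system, the second index of weight `q`;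
* `fam D α β`: the system `D` along `(α, β)`;
* `Fam`: a family of `PArc`s with uniform thresholds at the scale `q M`, and `P M / q M → ∞`.
-/

set_option autoImplicit false

open Polynomial Finset

namespace Pool.Agent.TWRS

open Pool.Agent.H15JM (RVal)
open Pool.Agent.D2 (Ctx0)
open Pool.Agent.TWM
open Pool.Agent.TWII (PG LP Nr)
open Pool.Agent.TWLM (HSd Oi Arc)

universe u

section Arcs

variable {k Ω : Type u} [Field k] [Field Ω] [Algebra k Ω]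

/-- An overconvergent arc of `F`, pointwise strict. -/
structure PwArc (v : RVal Ω) (F : IntermediateField k Ω) (σ : ℝ) (Φ : ℕ → Ω → Ω) : Prop
    extends HSd F Φ where
  pst : ∀ l : ℕ, l ≠ 0 → ∀ x ∈ F, ∀ b : ℝ, v.Ge b x → Gt v (b - l * σ) (Φ l x)
  oi : Oi v F σ Φ

/-- An overconvergent arc of `F`, pointwise strict, with a margin in the orders `< P`. -/
structure PArc (v : RVal Ω) (F : IntermediateField k Ω) (σ : ℝ) (P : ℕ) (Φ : ℕ → Ω → Ω) : Prop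
    extends PwArc v F σ Φ where
  str : ∀ l : ℕ, l ≠ 0 → l < P → ∃ η : ℝ, 0 < η ∧ ∀ x ∈ F, ∀ b : ℝ, v.Ge b x →
    v.Ge (b - l * σ + η) (Φ l x)

/-- Norm `≤ l σ`. -/
theorem PwArc.norm {v : RVal Ω} {F : IntermediateField k Ω} {σ : ℝ} {Φ : ℕ → Ω → Ω}
    (h : PwArc v F σ Φ) (l : ℕ) {x : Ω} (hx : x ∈ F) {b : ℝ} (hb : v.Ge b x) :
    v.Ge (b - l * σ) (Φ l x) := by
  by_cases hl : l = 0
  · rw [hl, h.c0 x hx]
    exact hb.mono (by simp)
  · exact (h.pst l hl x hx b hb).ge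

/-- A strict overconvergent arc is a `PArc`. -/
theorem PArc.of_arc {v : RVal Ω} {F : IntermediateField k Ω} {σ : ℝ} {Φ : ℕ → Ω → Ω}
    (h : Arc v F σ Φ) (ho : Oi v F σ Φ) (P : ℕ) : PArc v F σ P Φ where
  toHSd := h.toHSd
  pst := fun l hl x hx b hb => by
    obtain ⟨n, hn, h1⟩ := h.str l hl
    exact Gt.of_ge (h1 x hx b hb) (by linarith)
  oi := ho
  str := fun l hl _ => by
    obtain ⟨n, hn, h1⟩ := h.str l hl
    exact ⟨l * σ - n, by linarith, fun x hx b hb => (h1 x hx b hb).mono (by linarith)⟩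

/-- A two-index system, the second index of weight `q`. -/
structure HS2 (v : RVal Ω) (F : IntermediateField k Ω) (σ : ℝ) (q : ℕ) (D : ℕ → ℕ → Ω → Ω) :
    Prop where
  mem : ∀ l b : ℕ, ∀ x ∈ F, D l b x ∈ F
  c0 : ∀ x ∈ F, D 0 0 x = x
  add : ∀ l b : ℕ, ∀ x ∈ F, ∀ y ∈ F, D l b (x + y) = D l b x + D l b y
  mul : ∀ l b : ℕ, ∀ x ∈ F, ∀ y ∈ F, D l b (x * y) =
    ∑ i ∈ HasAntidiagonal.antidiagonal l, ∑ j ∈ HasAntidiagonal.antidiagonal b,
      D i.1 j.1 x * D i.2 j.2 y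
  con : ∀ l b : ℕ, l ≠ 0 ∨ b ≠ 0 → ∀ c : k, D l b (algebraMap k Ω c) = 0
  pst : ∀ l b : ℕ, l ≠ 0 ∨ b ≠ 0 → ∀ x ∈ F, ∀ t : ℝ, v.Ge t x →
    Gt v (t - (l + q * b : ℕ) * σ) (D l b x)
  oi : ∀ x ∈ F, ∀ B : ℝ, ∃ L : ℕ, ∀ l b : ℕ, L ≤ l + q * b →
    v.Ge (B - (l + q * b : ℕ) * σ) (D l b x)
  dft : ∃ δ : ℝ, 0 < δ ∧ ∀ l b l' b' : ℕ, ∀ x ∈ F, ∀ t : ℝ, v.Ge t x →
    v.Ge (t - (l + l' + q * (b + b') : ℕ) * σ + δ) (D l b (D l' b' x) -
      (((l + l').choose l * (b + b').choose b : ℕ) : Ω) * D (l + l') (b + b') x)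

end Arcs

/-- Homogeneous coefficients: `a = lam G ^ N`, `n = w + m N`. -/
def Hm (k : Type u) {Ω : Type u} [Field k] [Field Ω] [Algebra k Ω] (G : Ω) (m w n : ℕ) (a : Ω) :
    Prop :=
  a = 0 ∨ ∃ (lam : k) (N : ℕ), n = w + m * N ∧ a = algebraMap k Ω lam * G ^ N

/-- A homogeneous additive polynomial of weight `w`, of degree `≤ Q`. -/
structure Had (k : Type u) {Ω : Type u} [Field k] [Field Ω] [Algebra k Ω] (p : ℕ) (G : Ω)
    (m w Q : ℕ) (α : PowerSeries Ω) : Prop where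
  hm : ∀ n, Hm k G m w n (PowerSeries.coeff n α)
  add : ∀ n, PowerSeries.coeff n α ≠ 0 → ∃ t : ℕ, n = p ^ t
  deg : ∀ n, Q < n → PowerSeries.coeff n α = 0

/-- The system `D` along `(α, β)`. -/
noncomputable def fam {Ω : Type u} [Field Ω] (D : ℕ → ℕ → Ω → Ω) (α β : PowerSeries Ω) (n : ℕ)
    (f : Ω) : Ω :=
  ∑ l ∈ range (n + 1), ∑ b ∈ range (n + 1), D l b f * PowerSeries.coeff n (α ^ l * β ^ b)

variable {k Ω : Type u} [Field k] [Field Ω] [Algebra k Ω]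

/-- A family of arcs, uniform at the scale `q M`, with margins in the orders `< P M`. -/
structure Fam (v : RVal Ω) (F : IntermediateField k Ω) (σ : ℝ) (G : Ω) (m : ℕ) (q P : ℕ → ℕ)
    (Ψ : ℕ → ℕ → Ω → Ω) : Prop where
  mpos : 0 < m
  gmem : G ∈ F
  gne : G ≠ 0
  gval : v G = -(m * σ)
  arc : ∀ M, PArc v F σ (P M) (Ψ M)
  te : ∀ f ∈ F, ∀ B : ℝ, ∃ (S : Finset ℕ) (x : ℕ → Ω) (w : ℕ → ℕ) (L : ℕ), (∀ s ∈ S, x s ∈ F) ∧
    ∀ M n : ℕ, ∃ c : ℕ → Ω, (∀ s ∈ S, Hm k G m (w s) n (c s)) ∧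
      (L * q M ≤ n → ∀ s ∈ S, c s = 0) ∧ v.Ge (B - n * σ) (Ψ M n f - ∑ s ∈ S, c s * x s)
  dft : ∃ δ : ℝ, 0 < δ ∧ ∀ M i j : ℕ, ∀ x ∈ F, ∀ t : ℝ, v.Ge t x →
    v.Ge (t - (i + j : ℕ) * σ + δ) (Ψ M i (Ψ M j x) - (((i + j).choose i : ℕ) : Ω) * Ψ M (i + j) x)
  qpos : ∀ M, 0 < q M
  ratio : ∀ C : ℕ, ∃ M₀ : ℕ, ∀ M, M₀ ≤ M → C * q M ≤ P M

namespace Hm

variable {G : Ω} {m w n w' n' : ℕ} {a b : Ω}

theorem zero : Hm k G m w n 0 := Or.inl rfl

theorem one : Hm k G m n n (1 : Ω) :=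
  Or.inr ⟨1, 0, by rw [mul_zero, add_zero], by rw [map_one, pow_zero, mul_one]⟩

theorem add (hm : 0 < m) (ha : Hm k G m w n a) (hb : Hm k G m w n b) : Hm k G m w n (a + b) := by
  rcases ha with rfl | ⟨l, N, h1, rfl⟩
  · rwa [zero_add]
  · rcases hb with rfl | ⟨l', N', h2, rfl⟩
    · rw [add_zero]
      exact Or.inr ⟨l, N, h1, rfl⟩
    · have h3 : N = N' := Nat.eq_of_mul_eq_mul_left hm (by omega)
      subst h3
      exact Or.inr ⟨l + l', N, h1, by rw [map_add, add_mul]⟩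

theorem mul (ha : Hm k G m w n a) (hb : Hm k G m w' n' b) :
    Hm k G m (w + w') (n + n') (a * b) := by
  rcases ha with rfl | ⟨l, N, h1, rfl⟩
  · rw [zero_mul]
    exact zero
  · rcases hb with rfl | ⟨l', N', h2, rfl⟩
    · rw [mul_zero]
      exact zero
    · refine Or.inr ⟨l * l', N + N', by rw [h1, h2]; ring, ?_⟩
      rw [map_mul, pow_add]
      ring

theorem smul (ha : Hm k G m w n a) (c : k) : Hm k G m w n (algebraMap k Ω c * a) := by
  rcases ha with rfl | ⟨l, N, h1, rfl⟩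
  · rw [mul_zero]
    exact zero
  · exact Or.inr ⟨c * l, N, h1, by rw [map_mul, mul_assoc]⟩

theorem natCast_mul (ha : Hm k G m w n a) (c : ℕ) : Hm k G m w n ((c : Ω) * a) := by
  have h := ha.smul (c : k)
  rwa [map_natCast] at h

theorem sum (hm : 0 < m) {ι : Type*} (S : Finset ι) (f : ι → Ω)
    (hf : ∀ i ∈ S, Hm k G m w n (f i)) : Hm k G m w n (∑ i ∈ S, f i) := by
  classical
  induction S using Finset.induction_on with
  | empty =>
    rw [sum_empty]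
    exact zero
  | insert i S hi ih =>
    rw [sum_insert hi]
    exact (hf i (mem_insert_self i S)).add hm (ih fun j hj => hf j (mem_insert_of_mem hj))

theorem pow (ha : Hm k G m w n a) (N : ℕ) : Hm k G m (N * w) (N * n) (a ^ N) := by
  induction N with
  | zero =>
    rw [pow_zero, zero_mul, zero_mul]
    exact one
  | succ N ih =>
    rw [pow_succ, Nat.succ_mul, Nat.succ_mul]
    exact ih.mul ha

theorem mem {F : IntermediateField k Ω} (hG : G ∈ F) (ha : Hm k G m w n a) : a ∈ F := by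
  rcases ha with rfl | ⟨l, N, -, rfl⟩
  · exact F.zero_mem
  · exact mul_mem (F.algebraMap_mem l) (pow_mem hG N)

theorem le (ha : Hm k G m w n a) (ha0 : a ≠ 0) : w ≤ n := by
  rcases ha with rfl | ⟨l, N, h1, -⟩
  · exact absurd rfl ha0
  · omega

theorem val {v : RVal Ω} (h0 : Ctx0 k v) {σ : ℝ} (hG0 : G ≠ 0) (hG : v G = -(m * σ))
    (ha : Hm k G m w n a) (ha0 : a ≠ 0) : v a = w * σ - n * σ := by
  rcases ha with rfl | ⟨l, N, h1, rfl⟩
  · exact absurd rfl ha0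
  · have hl : l ≠ 0 := by
      rintro rfl
      rw [map_zero, zero_mul] at ha0
      exact ha0 rfl
    have hl' : algebraMap k Ω l ≠ 0 := (_root_.map_ne_zero _).2 hl
    rw [v.map_mul hl' (pow_ne_zero _ hG0), h0.triv l hl, v.map_pow hG0, hG, h1]
    push_cast
    ring

theorem ge {v : RVal Ω} (h0 : Ctx0 k v) {σ : ℝ} (hG0 : G ≠ 0) (hG : v G = -(m * σ))
    (ha : Hm k G m w n a) : v.Ge (w * σ - n * σ) a := fun ha0 => (ha.val h0 hG0 hG ha0).ge

end Hm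

end Pool.Agent.TWRS
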