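import Pool.Agent.Lib.TWRS.Defs
import Pool.Agent.Lib.TWRS.HsA
import Pool.Agent.Lib.TWEX.PwA

/-!
# TANK W, windows: two-index systems, 2: the system `y ↦ y + X`, `u ↦ u + h(X) + b Y` (V2)

* `exists_ext`: the extension `Θ` of the arc of `C`, `u ↦ u + h(X)`, `h` the truncated jets of `u`;
* `exists_fib`: `u ↦ u + b Y`, `C` constant;
* `margin_theta`, `margin_com`: the defects of the composition, with a uniform margin;
* `exists_hs2`: the system.
-/

set_option autoImplicit false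

open Polynomial Finset

namespace Pool.Agent.TWRS

open Pool.Agent.H15JM (RVal)
open Pool.Agent.D2 (Ctx0)
open Pool.Agent.TWM
open Pool.Agent.TWLM (HSd Oi Arc Fbr exists_fbr eval_mem_cadj)
open Pool.Agent.TWN1 (Set0)
open Pool.Agent.TWMF (Ptw ptw_of_arc)
open Pool.Agent.TWEX (Tg exists_ptw_oi exists_margin)

universe u

variable {k Ω : Type u} [Field k] [Field Ω] [Algebra k Ω] {v : RVal Ω}
  {C F : IntermediateField k Ω} {Φ Θ Ξ : ℕ → Ω → Ω} {u b x : Ω} {U : PowerSeries Ω} {κ : ℕ → ℝ}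
  {r σ τ t : ℝ} {L n₀ q : ℕ}

/-- The truncated jets. -/
noncomputable def hser (U : PowerSeries Ω) (n₀ : ℕ) : PowerSeries Ω :=
  PowerSeries.mk fun l => if l < n₀ then PowerSeries.coeff l U else 0

omit [Algebra k Ω] [Field k] in
theorem coeff_hser (l : ℕ) :
    PowerSeries.coeff l (hser U n₀) = if l < n₀ then PowerSeries.coeff l U else 0 := by
  rw [hser, PowerSeries.coeff_mk]

/-- Points of `C` near `u`: the jets of order `≤ N`. -/
theorem exists_pt (h : Set0 v C Φ u U κ r σ) (N : ℕ) : ∃ c ∈ C, ∀ n : ℕ, n ≠ 0 → n ≤ N →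
    v.Ge (r + κ n / 2 - n * σ) (PowerSeries.coeff n U - Φ n c) := by
  obtain ⟨μ, hμ, h1⟩ := exists_margin (range (N + 1)) (fun n μ => μ ≤ κ n)
    (fun n _ => ⟨κ n, h.kpos n, le_rfl⟩) (fun n _ μ μ' h1 h2 => h1.trans h2)
  obtain ⟨c, hc, h2⟩ := h.tl.lim (μ / 2) (half_pos hμ)
  refine ⟨c, hc, fun n hn hnN => (h.near n hn c hc _ h2).mono ?_⟩
  have h3 : μ ≤ κ n := h1 n (mem_range.2 (by omega))
  rw [min_eq_right]
  linarith [h.kpos n]

/-- The jets of `u` are approached by the jets of points of `C`. -/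
theorem tg_hser (h : Set0 v C Φ u U κ r σ) (hn₀ : L < n₀)
    (hL : ∀ n : ℕ, L < n → v.Ge (r - n * σ) (PowerSeries.coeff n U)) :
    Tg v C Φ u (hser U n₀) r σ := by
  intro N δ hδ
  obtain ⟨c, hc, h1⟩ := h.tl.lim δ hδ
  refine ⟨c, hc, r - δ, le_rfl, h1, fun n hn _ => ?_⟩
  have h2 := h.near n hn c hc _ h1
  have h3 : v.Ge (r - δ - n * σ) (PowerSeries.coeff n U - Φ n c) := h2.mono (by
    rcases min_cases (r - δ + κ n) (r + κ n / 2) with ⟨h3, -⟩ | ⟨h3, -⟩ <;> rw [h3] <;>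
      linarith [h.kpos n])
  rw [coeff_hser]
  split_ifs with h4
  · exact h3
  · have e : 0 - Φ n c = (PowerSeries.coeff n U - Φ n c) - PowerSeries.coeff n U := by ring
    rw [e]
    exact h3.sub ((hL n (by omega)).mono (by linarith))

/-- **The extension of the arc of `C`**, `u ↦ u + h`. -/
theorem exists_ext [IsAlgClosed Ω] (hΩ : CompleteV v) (hΦ : Arc v C σ Φ) (ho : Oi v C σ Φ)
    (h : Set0 v C Φ u U κ r σ) (hn₀ : L < n₀)
    (hL : ∀ n : ℕ, L < n → v.Ge (r - n * σ) (PowerSeries.coeff n U)) :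
    ∃ Θ : ℕ → Ω → Ω, HSd (cadj v C u) Θ ∧ Ptw v (cadj v C u) σ Θ ∧ Oi v (cadj v C u) σ Θ ∧
      (∀ n : ℕ, ∀ x ∈ C, Θ n x = Φ n x) ∧
      (∀ n : ℕ, n ≠ 0 → Θ n u = PowerSeries.coeff n (hser U n₀)) := by
  obtain ⟨Θ, h1, h2, h3, -, h4, h5⟩ := exists_ptw_oi (Z := hser U n₀) (n₀ := n₀) hΩ hΦ.toHSd
    (ptw_of_arc hΦ) ho h.tl (fun n => by
      rw [coeff_hser]
      split_ifs
      · exact le_cadj v C u (h.zmem n)
      · exact zero_mem _) (by
      rw [coeff_hser, h.z0, ite_self]) (tg_hser h hn₀ hL) (fun n hn => by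
      rw [coeff_hser, if_neg (not_lt.2 hn)])
  exact ⟨Θ, h1, h2, h3, h4, fun n hn => by rw [h5 n, if_neg hn]⟩

/-- Two Hasse-Schmidt derivations: constants. -/
theorem HSd.smul_const (h : HSd F Ξ) {c x : Ω} (hc : c ∈ F) (hx : x ∈ F)
    (h0 : ∀ j : ℕ, j ≠ 0 → Ξ j c = 0) (j : ℕ) : Ξ j (c * x) = c * Ξ j x := by
  rw [h.mul j c hc x hx, Finset.sum_eq_single (0, j)]
  · rw [h.c0 c hc]
  · intro a ha hne
    have ha' := Finset.HasAntidiagonal.mem_antidiagonal.1 ha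
    have h1 : a.1 ≠ 0 := fun h2 => hne (Prod.ext h2 (by dsimp only; omega))
    rw [h0 _ h1, zero_mul]
  · intro hne
    exact absurd (Finset.HasAntidiagonal.mem_antidiagonal.2 (by dsimp only; omega)) hne

theorem HSd.natCast_mul' (h : HSd F Ξ) {x : Ω} (hx : x ∈ F) (n j : ℕ) :
    Ξ j ((n : Ω) * x) = n * Ξ j x := by
  refine HSd.smul_const h (natCast_mem F n) hx (fun j hj => ?_) j
  have h1 := h.con j hj (n : k)
  rwa [map_natCast] at h1

/-- **The fibre**, `u ↦ u + b Y`. -/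
theorem exists_fib [IsAlgClosed Ω] (hΩ : CompleteV v) (hu : TL v C u r) (hb : b ∈ C)
    (hbv : v.Ge (r - τ) b) :
    ∃ Ξ : ℕ → Ω → Ω, HSd (cadj v C u) Ξ ∧ Ptw v (cadj v C u) τ Ξ ∧ Oi v (cadj v C u) τ Ξ ∧
      (∀ n : ℕ, n ≠ 0 → ∀ x ∈ C, Ξ n x = 0) ∧ Ξ 1 u = b ∧ (∀ n : ℕ, 1 < n → Ξ n u = 0) ∧
      ∀ i j : ℕ, ∀ x ∈ cadj v C u, Ξ i (Ξ j x) = ((i + j).choose i : Ω) * Ξ (i + j) x := by
  obtain ⟨E, hE, hEp, hEc, -⟩ := exists_fbr hΩ hu
  have hle := le_cadj v C u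
  have hbF : b ∈ cadj v C u := hle hb
  have hE0 : ∀ n : ℕ, n ≠ 0 → ∀ x ∈ C, E n x = 0 := fun n hn x hx => by
    have h1 := hEp n (Polynomial.C x) (C_mem_PI hx)
    rwa [eval_C, hasseDeriv_C _ _ (Nat.pos_of_ne_zero hn), eval_zero] at h1
  have hbp : ∀ n : ℕ, v.Ge (n * r - n * τ) (b ^ n) := fun n => by
    refine (TWM.ge_pow hbv n).mono (le_of_eq ?_)
    ring
  refine ⟨fun n x => b ^ n * E n x, ?_, ?_, ?_, ?_, ?_, ?_, ?_⟩
  · refine ⟨fun l x hx => mul_mem (pow_mem hbF l) (hE.mem l x hx), fun x hx => ?_,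
      fun l x hx y hy => ?_, fun l x hx y hy => ?_, fun l hl c => ?_⟩
    · rw [pow_zero, one_mul, hE.c0 x hx]
    · rw [hE.add l x hx y hy, mul_add]
    · rw [hE.mul l x hx y hy, mul_sum]
      refine sum_congr rfl fun a ha => ?_
      rw [← Finset.HasAntidiagonal.mem_antidiagonal.1 ha, pow_add]
      ring
    · rw [hE.con l hl c, mul_zero]
  · intro l hl x hx c hc
    have h1 := (hE.str l hl x hx c hc).mul_ge (hbp l)
    have e : c - l * r + (l * r - l * τ) = c - l * τ := by ring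
    rwa [e, mul_comm (E l x)] at h1
  · intro x hx c
    obtain ⟨N, hN⟩ := hE.oi x hx c
    refine ⟨N, fun l hl => ((hbp l).mul (hN l hl)).mono (le_of_eq ?_)⟩
    ring
  · intro n hn x hx
    change b ^ n * E n x = 0
    rw [hE0 n hn x hx, mul_zero]
  · change b ^ 1 * E 1 u = b
    have h1 := hEp 1 X (X_mem_PI (A := C))
    rw [eval_X, hasseDeriv_one', derivative_X, eval_one] at h1
    rw [h1, pow_one, mul_one]
  · intro n hn
    change b ^ n * E n u = 0
    have h1 := hEp n X (X_mem_PI (A := C))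
    rw [eval_X, hasseDeriv_X n hn, eval_zero] at h1
    rw [h1, mul_zero]
  · intro i j x hx
    change b ^ i * E i (b ^ j * E j x) =
      ((i + j).choose i : Ω) * (b ^ (i + j) * E (i + j) x)
    have h1 : E i (b ^ j * E j x) = b ^ j * E i (E j x) := by
      refine HSd.smul_const hE.toHSd (pow_mem hbF j) (hE.mem j x hx) (fun n hn => ?_) i
      exact hE0 n hn _ (pow_mem hb j)
    rw [h1, hEc i j x hx, pow_add]
    ring

/-! ### The defects -/

/-- A uniform margin for the jets of one element. -/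
theorem exists_unif (hΦ : Arc v C σ Φ) (ho : Oi v C σ Φ) {x : Ω} (hx : x ∈ C) {t : ℝ}
    (ht : v.Ge t x) : ∃ μ : ℝ, 0 < μ ∧ ∀ i : ℕ, i ≠ 0 → v.Ge (t + μ - i * σ) (Φ i x) := by
  obtain ⟨N, hN⟩ := ho x hx (t + 1)
  obtain ⟨μ, hμ, h1⟩ := exists_margin (range N)
    (fun i μ => i ≠ 0 → v.Ge (t + μ - i * σ) (Φ i x)) (fun i _ => by
      by_cases hi : i = 0
      · exact ⟨1, one_pos, fun h2 => absurd hi h2⟩
      · obtain ⟨n, hn, h2⟩ := hΦ.str i hi
        exact ⟨i * σ - n, by linarith, fun _ => (h2 x hx t ht).mono (by linarith)⟩)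
    (fun i _ μ μ' h2 h3 hi => (h3 hi).mono (by linarith))
  refine ⟨min μ 1, lt_min hμ one_pos, fun i hi => ?_⟩
  by_cases h2 : i < N
  · exact (h1 i (mem_range.2 h2) hi).mono (by linarith [min_le_left μ 1])
  · exact (hN i (not_lt.1 h2)).mono (by linarith [min_le_right μ 1])

/-- The cocycle of the truncated jets: one coefficient. -/
theorem cocyc_pt (hΦ : Arc v C σ Φ)
    (hcomp : ∀ i j : ℕ, ∀ x ∈ C, Φ i (Φ j x) = ((i + j).choose i : Ω) * Φ (i + j) x)
    (h : Set0 v C Φ u U κ r σ) (hn₀ : 2 * L < n₀)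
    (hL : ∀ n : ℕ, L < n → v.Ge (r - n * σ) (PowerSeries.coeff n U)) {i j : ℕ} (hi : i ≠ 0)
    (hj : j ≠ 0) : ∃ μ : ℝ, 0 < μ ∧ v.Ge (r + μ - i * σ - j * σ)
      (Φ i (PowerSeries.coeff j (hser U n₀)) -
        ((i + j).choose i : Ω) * PowerSeries.coeff (i + j) (hser U n₀)) := by
  have hcast : ((i + j : ℕ) : ℝ) = i + j := by push_cast; ring
  by_cases hj0 : n₀ ≤ j
  · refine ⟨1, one_pos, ?_⟩
    rw [coeff_hser, coeff_hser, if_neg (by omega), if_neg (by omega), hΦ.toHSd.zero, mul_zero,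
      sub_zero]
    exact RVal.Ge.zero
  have hj1 : j < n₀ := not_le.1 hj0
  rw [coeff_hser, if_pos hj1]
  obtain ⟨c, hc, h1⟩ := exists_pt h (i + j)
  have hUj : PowerSeries.coeff j U ∈ C := h.zmem j
  have hd : v.Ge (r + κ i - i * σ - j * σ) (Φ i (PowerSeries.coeff j U - Φ j c)) := by
    refine (h.str i hi _ (sub_mem hUj (hΦ.mem j c hc)) _ (h1 j hj (by omega))).mono ?_
    linarith [h.kpos j]
  have e1 : Φ i (PowerSeries.coeff j U) = Φ i (PowerSeries.coeff j U - Φ j c) +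
      ((i + j).choose i : Ω) * Φ (i + j) c := by
    rw [← hcomp i j c hc, hΦ.toHSd.sub i hUj (hΦ.mem j c hc), sub_add_cancel]
  by_cases hn : i + j < n₀
  · refine ⟨min (κ i) (κ (i + j) / 2), lt_min (h.kpos i) (half_pos (h.kpos _)), ?_⟩
    rw [coeff_hser, if_pos hn, e1]
    have e2 : Φ i (PowerSeries.coeff j U - Φ j c) + ((i + j).choose i : Ω) * Φ (i + j) c -
        ((i + j).choose i : Ω) * PowerSeries.coeff (i + j) U =
        Φ i (PowerSeries.coeff j U - Φ j c) -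
        ((i + j).choose i : Ω) * (PowerSeries.coeff (i + j) U - Φ (i + j) c) := by ring
    rw [e2]
    refine (hd.mono (by linarith [min_le_left (κ i) (κ (i + j) / 2)])).sub
      (((ge_natCast v _).mul (h1 (i + j) (by omega) le_rfl)).mono ?_)
    rw [hcast]
    linarith [min_le_right (κ i) (κ (i + j) / 2)]
  · rw [coeff_hser, if_neg hn, mul_zero, sub_zero]
    by_cases hjL : L < j
    · refine ⟨κ i, h.kpos i, (h.str i hi _ hUj _ (hL j hjL)).mono (by linarith)⟩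
    · have hiL : L < i := by omega
      refine ⟨min (κ i) (κ j), lt_min (h.kpos i) (h.kpos j), ?_⟩
      rw [e1]
      refine (hd.mono (by linarith [min_le_left (κ i) (κ j)])).add ?_
      have e3 : ((i + j).choose i : Ω) * Φ (i + j) c = Φ j (Φ i c) := by
        rw [hcomp j i c hc, add_comm j i, Nat.choose_symm_add]
      have h2 : v.Ge (r - i * σ) (Φ i c) := by
        have e4 : Φ i c = PowerSeries.coeff i U - (PowerSeries.coeff i U - Φ i c) := by ring
        rw [e4]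
        refine (hL i hiL).sub ((h1 i hi (by omega)).mono ?_)
        linarith [h.kpos i]
      rw [e3]
      refine (h.str j hj _ (hΦ.mem i c hc) _ h2).mono ?_
      linarith [min_le_right (κ i) (κ j)]

/-- **The cocycle of the truncated jets, with a uniform margin.** -/
theorem exists_cocyc (hΦ : Arc v C σ Φ) (ho : Oi v C σ Φ)
    (hcomp : ∀ i j : ℕ, ∀ x ∈ C, Φ i (Φ j x) = ((i + j).choose i : Ω) * Φ (i + j) x)
    (h : Set0 v C Φ u U κ r σ) (hn₀ : 2 * L < n₀)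
    (hL : ∀ n : ℕ, L < n → v.Ge (r - n * σ) (PowerSeries.coeff n U)) :
    ∃ μ : ℝ, 0 < μ ∧ ∀ i j : ℕ, i ≠ 0 → j ≠ 0 → v.Ge (r + μ - i * σ - j * σ)
      (Φ i (PowerSeries.coeff j (hser U n₀)) -
        ((i + j).choose i : Ω) * PowerSeries.coeff (i + j) (hser U n₀)) := by
  have hj : ∀ j ∈ range n₀, ∃ μ : ℝ, 0 < μ ∧ (j ≠ 0 → ∀ i : ℕ, i ≠ 0 →
      v.Ge (r + μ - i * σ - j * σ) (Φ i (PowerSeries.coeff j (hser U n₀)) -
        ((i + j).choose i : Ω) * PowerSeries.coeff (i + j) (hser U n₀))) := by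
    intro j hj
    by_cases hj0 : j = 0
    · exact ⟨1, one_pos, fun h1 => absurd hj0 h1⟩
    have hm : PowerSeries.coeff j (hser U n₀) ∈ C := by
      rw [coeff_hser]
      split_ifs
      · exact h.zmem j
      · exact C.zero_mem
    obtain ⟨N, hN⟩ := ho _ hm (r + 1 - j * σ)
    obtain ⟨μ, hμ, h1⟩ := exists_margin (range (max N n₀))
      (fun i μ => i ≠ 0 → v.Ge (r + μ - i * σ - j * σ) (Φ i (PowerSeries.coeff j (hser U n₀)) -
        ((i + j).choose i : Ω) * PowerSeries.coeff (i + j) (hser U n₀))) (fun i _ => by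
        by_cases hi : i = 0
        · exact ⟨1, one_pos, fun h2 => absurd hi h2⟩
        · obtain ⟨μ, hμ, h2⟩ := cocyc_pt hΦ hcomp h hn₀ hL hi hj0
          exact ⟨μ, hμ, fun _ => h2⟩)
      (fun i _ μ μ' h2 h3 hi => (h3 hi).mono (by linarith))
    refine ⟨min μ 1, lt_min hμ one_pos, fun _ i hi => ?_⟩
    by_cases h2 : i < max N n₀
    · exact (h1 i (mem_range.2 h2) hi).mono (by linarith [min_le_left μ 1])
    · have h3 : N ≤ i := (le_max_left _ _).trans (not_lt.1 h2)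
      have h4 : n₀ ≤ i := (le_max_right _ _).trans (not_lt.1 h2)
      rw [coeff_hser (l := i + j), if_neg (by omega), mul_zero, sub_zero]
      exact (hN i h3).mono (by linarith [min_le_right μ 1])
  obtain ⟨μ, hμ, h1⟩ := exists_margin (range n₀) _ hj
    (fun j _ μ μ' h2 h3 hj i hi => (h3 hj i hi).mono (by linarith))
  refine ⟨μ, hμ, fun i j hi hj0 => ?_⟩
  by_cases hjn : j < n₀
  · exact h1 j (mem_range.2 hjn) hj0 i hi
  · rw [coeff_hser, coeff_hser, if_neg hjn, if_neg (by omega), hΦ.toHSd.zero, mul_zero, sub_zero]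
    exact RVal.Ge.zero

end Pool.Agent.TWRS
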