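import Pool.Agent.Lib.TWRS.Defs
import Pool.Agent.Lib.TWEX.PwA

/-!
# TANK W, row (Rt), the top floor, 1: natural jets below `P`

* `SetP`: as `Set0`, for the orders `< P`; `exists_setP`: jets in a dense ring;
* `SetP.jet_ge`, `SetP.coc`, `SetP.res`: the invisible jets, the cocycle with a defect, the residues;
* `SetP.ph_str`: the margin of the extension in the orders `< P`;
* `cmp_pw`, `SetP.cmp`: change of parameter.
-/

set_option autoImplicit false

open Polynomial Finset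

namespace Pool.Agent.TWRS

open Pool.Agent.H15JM (RVal)
open Pool.Agent.LU1 (VPos)
open Pool.Agent.D2 (Ctx0)
open Pool.Agent.TWM
open Pool.Agent.TWII (PG LP Nr)
open Pool.Agent.TWLM (HSd Oi Arc)
open Pool.Agent.TWN1 (Sn ser coeff_ser Ph EV coeff_EV_point pow_ge_zero TL.deep)
open Pool.Agent.TWEX (cmp alp Dj cmp_eq const_alp coeff_alp coeff_alp_ge coeff_pow_mem coeff_pow_gt
  coeff_subst_eq alp_pow)

universe u

variable {k Ω : Type u} [Field k] [Field Ω] [Algebra k Ω] {v : RVal Ω}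
  {F : IntermediateField k Ω} {Φ : ℕ → Ω → Ω} {z : Ω} {Z : PowerSeries Ω} {κ : ℕ → ℝ}
  {s σ : ℝ} {P : ℕ}

/-- The natural jets of `z`, for the orders `< P`. -/
structure SetP (v : RVal Ω) (F : IntermediateField k Ω) (Φ : ℕ → Ω → Ω) (z : Ω)
    (Z : PowerSeries Ω) (κ : ℕ → ℝ) (s σ : ℝ) (P : ℕ) : Prop where
  arc : PwArc v F σ Φ
  tl : TL v F z s
  z0 : PowerSeries.coeff 0 Z = 0
  zmem : ∀ n, PowerSeries.coeff n Z ∈ F
  kpos : ∀ n, 0 < κ n
  str : ∀ n : ℕ, n ≠ 0 → n < P → ∀ x ∈ F, ∀ b, v.Ge b x → v.Ge (b - n * σ + κ n) (Φ n x)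
  near : ∀ n : ℕ, n ≠ 0 → n < P → ∀ c ∈ F, ∀ b, v.Ge b (z - c) →
    v.Ge (min (b + κ n) (s + κ n / 2) - n * σ) (PowerSeries.coeff n Z - Φ n c)

/-- Natural jets in a dense ring. -/
theorem exists_setP (hΦ : PArc v F σ P Φ) (hz : TL v F z s) {R : Type*} [SetLike R Ω]
    [SubringClass R Ω] {A : R} (hAF : ∀ x ∈ A, x ∈ F)
    (hAd : ∀ x ∈ F, ∀ b : ℝ, ∃ c ∈ A, v.Ge b (x - c)) :
    ∃ (Z : PowerSeries Ω) (κ : ℕ → ℝ), SetP v F Φ z Z κ s σ P ∧
      (∀ n, PowerSeries.coeff n Z ∈ A) ∧ ∀ n, P ≤ n → PowerSeries.coeff n Z = 0 := by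
  classical
  have h1 : ∀ n : ℕ, ∃ (η : ℝ) (y : Ω), 0 < η ∧ y ∈ A ∧ (n = 0 ∨ P ≤ n → y = 0) ∧
      (n ≠ 0 → n < P → (∀ x ∈ F, ∀ b, v.Ge b x → v.Ge (b - n * σ + η) (Φ n x)) ∧
        ∀ c ∈ F, ∀ b, v.Ge b (z - c) →
          v.Ge (min (b + η) (s + η / 2) - n * σ) (y - Φ n c)) := by
    intro n
    by_cases hn : n ≠ 0 ∧ n < P
    · obtain ⟨η, hη, h2⟩ := hΦ.str n hn.1 hn.2
      obtain ⟨θ, hθ, h3⟩ := hz.lim (η / 2) (half_pos hη)
      obtain ⟨y, hy, h4⟩ := hAd (Φ n θ) (hΦ.mem n θ hθ) (s + η / 2 - n * σ)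
      refine ⟨η, y, hη, hy, fun h5 => ?_, fun _ _ => ⟨h2, fun c hc b hb => ?_⟩⟩
      · rcases h5 with h5 | h5
        · exact absurd h5 hn.1
        · have := hn.2
          omega
      · have h5 : v.Ge (min (s - η / 2) b) (θ - c) := by
          have e : θ - c = (z - c) - (z - θ) := by ring
          rw [e]
          exact (hb.mono (min_le_right _ _)).sub (h3.mono (min_le_left _ _))
        have h6 := h2 _ (sub_mem hθ hc) _ h5
        rw [hΦ.sub n hθ hc] at h6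
        have e : y - Φ n c = (Φ n θ - Φ n c) - (Φ n θ - y) := by ring
        rw [e]
        refine (h6.mono ?_).sub (h4.mono ?_)
        · have h7 : min (b + η) (s + η / 2) ≤ min (s - η / 2) b + η := by
            rw [← min_add_add_right]
            refine le_min ((min_le_right _ _).trans (by linarith)) (min_le_left _ _)
          linarith
        · linarith [min_le_right (b + η) (s + η / 2)]
    · refine ⟨1, 0, one_pos, zero_mem A, fun _ => rfl, fun h2 h3 => absurd ⟨h2, h3⟩ hn⟩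
  choose κ y hκ hyA hy0 hy using h1
  refine ⟨PowerSeries.mk y, κ,
    { arc := hΦ.toPwArc
      tl := hz
      z0 := ?_
      zmem := fun n => ?_
      kpos := hκ
      str := fun n hn hnP => (hy n hn hnP).1
      near := fun n hn hnP c hc b hb => ?_ }, fun n => ?_, fun n hn => ?_⟩
  · rw [PowerSeries.coeff_mk]
    exact hy0 0 (Or.inl rfl)
  · rw [PowerSeries.coeff_mk]
    exact hAF _ (hyA n)
  · rw [PowerSeries.coeff_mk]
    exact (hy n hn hnP).2 c hc b hb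
  · rw [PowerSeries.coeff_mk]
    exact hyA n
  · rw [PowerSeries.coeff_mk]
    exact hy0 n (Or.inr hn)

namespace SetP

variable (h : SetP v F Φ z Z κ s σ P)
include h

/-- The jets of near points. -/
theorem jet {n : ℕ} (hn : n ≠ 0) (hnP : n < P) {θ : Ω} (hθ : θ ∈ F) {μ : ℝ} (hμ : 0 ≤ μ)
    (hμ' : 2 * μ ≤ κ n) (h1 : v.Ge (s - μ) (z - θ)) :
    v.Ge (s + μ - n * σ) (PowerSeries.coeff n Z - Φ n θ) := by
  refine (h.near n hn hnP θ hθ _ h1).mono ?_
  have h2 := h.kpos n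
  have : s + μ ≤ min (s - μ + κ n) (s + κ n / 2) := le_min (by linarith) (by linarith)
  linarith

/-- The invisible jets. -/
theorem jet_ge {n : ℕ} (hn : n ≠ 0) (hnP : n < P)
    (hv : ∀ ε : ℝ, 0 < ε → Nr v F s z fun θ => v.Ge (s - n * σ - ε) (Φ n θ)) :
    v.Ge (s - n * σ) (PowerSeries.coeff n Z) := by
  refine ge_of_eps fun ε hε => ?_
  obtain ⟨θ, hθ, h1, h2⟩ := ((hv ε hε).and (Nr.near (half_pos (h.kpos n)))).exists h.tl.lim
  have h3 := h.jet hn hnP hθ (half_pos (h.kpos n)).le (by linarith) h2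
  have e : PowerSeries.coeff n Z = (PowerSeries.coeff n Z - Φ n θ) + Φ n θ := by ring
  rw [e]
  have hk := h.kpos n
  exact (h3.mono (by linarith)).add h1

/-- **The cocycle**, with a defect. -/
theorem coc {δ : ℝ} (hδ : 0 < δ) (hdft : ∀ i j : ℕ, ∀ x ∈ F, ∀ t : ℝ, v.Ge t x →
      v.Ge (t - (i + j : ℕ) * σ + δ) (Φ i (Φ j x) - (((i + j).choose i : ℕ) : Ω) * Φ (i + j) x))
    {θ₀ : Ω} (hθ₀ : θ₀ ∈ F) (hzθ : v.Ge (s - δ / 2) (z - θ₀)) {L : ℕ}
    (hL₁ : ∀ i j : ℕ, L ≤ i + j → v.Ge (s + 1 - (i + j : ℕ) * σ) (Φ i (Φ j θ₀)))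
    (hL₂ : ∀ i : ℕ, L ≤ i → v.Ge (s + 1 - i * σ) (Φ i θ₀)) {l m : ℕ} (hl : l ≠ 0)
    (hLlm : L ≤ l + m) (hP : l + m < P) :
    Gt v (s - (l + m) * σ) (Φ m (PowerSeries.coeff l Z) -
      (((l + m).choose m : ℕ) : Ω) * PowerSeries.coeff (l + m) Z) := by
  obtain ⟨μ, hμ0, hμ1, hμ2, hμ3⟩ : ∃ μ : ℝ, 0 < μ ∧ 2 * μ ≤ κ l ∧ 2 * μ ≤ κ (l + m) ∧ μ ≤ δ / 2 := by
    refine ⟨min (min (κ l / 2) (κ (l + m) / 2)) (δ / 2), lt_min (lt_min ?_ ?_) ?_, ?_, ?_, ?_⟩
    · linarith [h.kpos l]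
    · linarith [h.kpos (l + m)]
    · linarith
    · have h1 := (min_le_left (min (κ l / 2) (κ (l + m) / 2)) (δ / 2)).trans (min_le_left _ _)
      linarith
    · have h1 := (min_le_left (min (κ l / 2) (κ (l + m) / 2)) (δ / 2)).trans (min_le_right _ _)
      linarith
    · exact min_le_right _ _
  obtain ⟨θ, hθ, h1⟩ := h.tl.lim μ hμ0
  have h2 := h.jet hl (by omega) hθ hμ0.le hμ1 h1
  have h3 := h.jet (n := l + m) (by omega) hP hθ hμ0.le hμ2 h1
  have h4 := h.arc.norm m (sub_mem (h.zmem l) (h.arc.mem l θ hθ)) h2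
  rw [h.arc.sub m (h.zmem l) (h.arc.mem l θ hθ)] at h4
  have h5 := (ge_natCast v ((l + m).choose m)).mul h3
  -- the defect
  have h6 : v.Ge (s - δ / 2) (θ - θ₀) := by
    have e : θ - θ₀ = (z - θ₀) - (z - θ) := by ring
    rw [e]
    exact hzθ.sub (h1.mono (by linarith))
  have h7 := hdft m l _ (sub_mem hθ hθ₀) _ h6
  have h8 := hL₁ m l (by omega)
  have h9 := (ge_natCast v ((m + l).choose m)).mul (hL₂ (m + l) (by omega))
  have hE : v.Ge (s + min (δ / 2) 1 - (l + m) * σ)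
      (Φ m (Φ l θ) - (((l + m).choose m : ℕ) : Ω) * Φ (l + m) θ) := by
    have e1 : Φ m (Φ l θ) = Φ m (Φ l (θ - θ₀)) + Φ m (Φ l θ₀) := by
      rw [h.arc.sub l hθ hθ₀, h.arc.sub m (h.arc.mem l θ hθ) (h.arc.mem l θ₀ hθ₀)]
      ring
    have e2 : Φ (m + l) θ = Φ (m + l) (θ - θ₀) + Φ (m + l) θ₀ := by
      rw [h.arc.sub (m + l) hθ hθ₀]
      ring
    have e : Φ m (Φ l θ) - (((l + m).choose m : ℕ) : Ω) * Φ (l + m) θ =
        (Φ m (Φ l (θ - θ₀)) - (((m + l).choose m : ℕ) : Ω) * Φ (m + l) (θ - θ₀)) +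
        (Φ m (Φ l θ₀) - (((m + l).choose m : ℕ) : Ω) * Φ (m + l) θ₀) := by
      rw [add_comm l m, e1, e2]
      ring
    rw [e]
    have hd1 := min_le_left (δ / 2) 1
    have hd2 := min_le_right (δ / 2) 1
    push_cast at h7 h8 h9
    refine (h7.mono ?_).add ((h8.mono ?_).sub (h9.mono ?_))
    · linarith
    · linarith
    · linarith
  have e1 : Φ m (PowerSeries.coeff l Z) -
      (((l + m).choose m : ℕ) : Ω) * PowerSeries.coeff (l + m) Z =
      (Φ m (PowerSeries.coeff l Z) - Φ m (Φ l θ)) -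
        (((l + m).choose m : ℕ) : Ω) * (PowerSeries.coeff (l + m) Z - Φ (l + m) θ) +
        (Φ m (Φ l θ) - (((l + m).choose m : ℕ) : Ω) * Φ (l + m) θ) := by ring
  rw [e1]
  have hd : 0 < min (δ / 2) 1 := lt_min (by linarith) one_pos
  push_cast at h5
  exact ((Gt.of_ge h4 (by linarith)).sub (Gt.of_ge h5 (by linarith))).add
    (Gt.of_ge hE (by linarith))

/-- **The residual constants are in the orders which are powers of `p`.** -/
theorem res {p : ℕ} [hp : Fact p.Prime] [CharP Ω p] {L : ℕ}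
    (hco : ∀ l m : ℕ, l ≠ 0 → L ≤ l + m → l + m < P → Gt v (s - (l + m) * σ)
      (Φ m (PowerSeries.coeff l Z) - (((l + m).choose m : ℕ) : Ω) * PowerSeries.coeff (l + m) Z))
    (hL : ∀ n : ℕ, L < n → n < P → v.Ge (s - n * σ) (PowerSeries.coeff n Z)) {n : ℕ}
    (hn : 2 * L < n) (hnP : n < P) (hnp : ∀ i, n ≠ p ^ i) :
    Gt v (s - n * σ) (PowerSeries.coeff n Z) := by
  obtain ⟨j, hj0, hjn, hj⟩ := TWM.exists_choose hp.out (l := n) (by omega) hnp
  obtain ⟨l, m, hlm, hlL, hm0, hch⟩ : ∃ l m : ℕ, l + m = n ∧ L < l ∧ m ≠ 0 ∧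
      ¬ p ∣ (l + m).choose m := by
    rcases le_total j (n - j) with h1 | h1
    · exact ⟨n - j, j, by omega, by omega, by omega, by rwa [Nat.sub_add_cancel hjn.le]⟩
    · refine ⟨j, n - j, by omega, by omega, by omega, ?_⟩
      rw [Nat.add_sub_cancel' hjn.le, Nat.choose_symm hjn.le]
      exact hj
  have h1 := hco l m (by omega) (by omega) (by omega)
  have h2 : Gt v (s - (l + m) * σ) (Φ m (PowerSeries.coeff l Z)) :=
    (h.arc.pst m hm0 _ (h.zmem l) _ (hL l hlL (by omega))).mono (by linarith)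
  have h3 : Gt v (s - (l + m) * σ)
      ((((l + m).choose m : ℕ) : Ω) * PowerSeries.coeff (l + m) Z) := by
    have e : (((l + m).choose m : ℕ) : Ω) * PowerSeries.coeff (l + m) Z =
        Φ m (PowerSeries.coeff l Z) - (Φ m (PowerSeries.coeff l Z) -
          (((l + m).choose m : ℕ) : Ω) * PowerSeries.coeff (l + m) Z) := by ring
    rw [e]
    exact h2.sub h1
  obtain ⟨a, ha⟩ : ∃ a : ℕ, (a : Ω) * (((l + m).choose m : ℕ) : Ω) = 1 := by
    have h4 : Nat.Coprime ((l + m).choose m) p :=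
      ((Nat.Prime.coprime_iff_not_dvd hp.out).2 hch).symm
    obtain ⟨a, -, hm⟩ := Nat.exists_mul_mod_eq_one_of_coprime h4 hp.out.one_lt
    refine ⟨a, ?_⟩
    have h5 : (((l + m).choose m * a : ℕ) : Ω) = ((1 : ℕ) : Ω) :=
      (CharP.natCast_eq_natCast' Ω p (by
        change (l + m).choose m * a % p = 1 % p
        rw [hm, Nat.mod_eq_of_lt hp.out.one_lt]))
    rw [Nat.cast_mul, Nat.cast_one, mul_comm] at h5
    exact h5
  have e : PowerSeries.coeff n Z =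
      ((((l + m).choose m : ℕ) : Ω) * PowerSeries.coeff (l + m) Z) * (a : Ω) := by
    rw [mul_right_comm, mul_comm _ (a : Ω), ha, one_mul, hlm]
  rw [e]
  have h6 := h3.mul_ge (ge_natCast v a)
  rw [add_zero] at h6
  have h7 : ((n : ℕ) : ℝ) = (l : ℝ) + m := by exact_mod_cast hlm.symm
  rwa [h7]

/-- **The margin of the extension**, in the orders `< P`. -/
theorem ph_str [IsAlgClosed Ω] {n : ℕ} (hn : n ≠ 0) (hnP : n < P) : ∃ η : ℝ, 0 < η ∧
    ∀ f ∈ PI F, ∀ b, v.Ge b (f.eval z) → v.Ge (b - n * σ + η) (Ph Φ z Z n f) := by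
  classical
  -- the margin
  have hmin : ∀ N : ℕ, ∃ η : ℝ, 0 < η ∧ ∀ m : ℕ, m ≤ N → 2 * η ≤ κ m := by
    intro N
    induction N with
    | zero =>
      refine ⟨κ 0 / 2, half_pos (h.kpos 0), fun m hm => ?_⟩
      obtain rfl : m = 0 := by omega
      linarith
    | succ N ih =>
      obtain ⟨η, hη, h1⟩ := ih
      refine ⟨min η (κ (N + 1) / 2), lt_min hη (half_pos (h.kpos _)), fun m hm => ?_⟩
      by_cases h2 : m ≤ N
      · linarith [h1 m h2, min_le_left η (κ (N + 1) / 2)]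
      · obtain rfl : m = N + 1 := by omega
        linarith [min_le_right η (κ (N + 1) / 2)]
  obtain ⟨η, hη, hκη⟩ := hmin n
  refine ⟨η, hη, fun f hf b hb => ge_of_eps fun ε hε => ?_⟩
  obtain ⟨L, hL⟩ : ∃ L, L = f.natDegree := ⟨_, rfl⟩
  obtain ⟨δ, hδ, hdeep⟩ := TL.deep h.tl ((range (L + 1)).image fun l => hasseDeriv l f) (by
    intro g hg
    obtain ⟨l, -, rfl⟩ := mem_image.1 hg
    exact hasse_mem_PI hf l)
  -- the distance
  obtain ⟨δ', hδ'⟩ : ∃ δ', δ' = min δ (min η (ε / (L + 1))) := ⟨_, rfl⟩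
  have hδ'0 : 0 < δ' := by
    rw [hδ']
    exact lt_min hδ (lt_min hη (by positivity))
  have hδ'1 : δ' ≤ δ := by
    rw [hδ']
    exact min_le_left _ _
  have hδ'2 : δ' ≤ η := by
    rw [hδ']
    exact (min_le_right _ _).trans (min_le_left _ _)
  have hδ'3 : ∀ l : ℕ, l ≤ L → (l : ℝ) * δ' ≤ ε := by
    intro l hl
    have h1 : δ' ≤ ε / (L + 1) := by
      rw [hδ']
      exact (min_le_right _ _).trans (min_le_right _ _)
    have h2 : (l : ℝ) ≤ L + 1 := by
      have : (l : ℝ) ≤ L := by exact_mod_cast hl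
      linarith
    calc (l : ℝ) * δ' ≤ (L + 1) * δ' := mul_le_mul_of_nonneg_right h2 hδ'0.le
      _ ≤ (L + 1) * (ε / (L + 1)) := mul_le_mul_of_nonneg_left h1 (by positivity)
      _ = ε := by field_simp
  obtain ⟨c, hc, hwc⟩ := h.tl.lim δ' hδ'0
  have hfl : ∀ l : ℕ, l ≤ L → v.Ge (b - l * s) ((hasseDeriv l f).eval c) := by
    intro l hl
    have h1 := (hdeep c (hwc.mono (by linarith)) (hasseDeriv l f)
      (mem_image.2 ⟨l, mem_range.2 (by omega), rfl⟩)).1 (b - l * s)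
    exact h1.1 (TWLM.poly_norm h.tl hf l hb)
  -- the powers
  have hT0 : v.Ge (s - δ') (PowerSeries.coeff 0 (PowerSeries.C z + Z - ser Φ c)) := by
    have e : PowerSeries.coeff 0 (PowerSeries.C z + Z - ser Φ c) = z - c := by
      rw [map_sub, map_add, PowerSeries.coeff_C, if_pos rfl, coeff_ser, h.z0, add_zero,
        h.arc.c0 c hc]
    rw [e]
    exact hwc
  have hT : ∀ m : ℕ, m ≠ 0 → m ≤ n → v.Ge (s + η - m * σ)
      (PowerSeries.coeff m (PowerSeries.C z + Z - ser Φ c)) := by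
    intro m hm hmn
    have e : PowerSeries.coeff m (PowerSeries.C z + Z - ser Φ c) =
        PowerSeries.coeff m Z - Φ m c := by
      rw [map_sub, map_add, PowerSeries.coeff_C, if_neg hm, coeff_ser, zero_add]
    rw [e]
    refine (h.near m hm (by omega) c hc _ hwc).mono ?_
    have h1 := hκη m hmn
    have h2 : s + η ≤ min (s - δ' + κ m) (s + κ m / 2) := le_min (by linarith) (by linarith)
    linarith
  have hpow := fun l : ℕ => pow_ge_zero (v := v) (by linarith : s - δ' ≤ s + η) hT0 hT l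
  rw [Ph, coeff_EV_point h.arc.toHSd hf hL.ge hc]
  refine RVal.Ge.sum _ _ fun l hl => RVal.Ge.sum _ _ fun i hi => ?_
  have hlL : l ≤ L := by
    have := mem_range.1 hl
    omega
  have hi' : i.1 + i.2 = n := by simpa using hi
  have hin : (n : ℝ) = i.1 + i.2 := by rw [← hi']; push_cast; ring
  obtain ⟨hp0, hp1⟩ := hpow l
  have hlε := hδ'3 l hlL
  by_cases hi1 : i.1 = 0
  · have hi2 : i.2 ≠ 0 := by omega
    rw [hi1, h.arc.c0 _ (eval_mem (hasse_mem_PI hf l) hc)]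
    refine ((hfl l hlL).mul (hp1 i.2 hi2 (by omega))).mono ?_
    rw [hin, hi1]
    push_cast
    linarith
  · have h1 := h.str i.1 hi1 (by omega) _ (eval_mem (hasse_mem_PI hf l) hc) _ (hfl l hlL)
    have h2 := hκη i.1 (by omega)
    by_cases hi2 : i.2 = 0
    · rw [hi2]
      refine (h1.mul hp0).mono ?_
      rw [hin, hi2]
      push_cast
      linarith
    · refine (h1.mul (hp1 i.2 hi2 (by omega))).mono ?_
      rw [hin]
      linarith

end SetP

end Pool.Agent.TWRS
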