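import Pool.Agent.Lib.TWRS.Top1

/-!
# TANK W, row (Rt), the top floor, 2: the window

* `cmp_pw`, `SetP.subst`: change of parameter;
* `win_gt`: the jets along `Φ ∘ α` are null in a window, if the combinations of the residues are;
* `exists_topwin`: a homogeneous additive polynomial `α` with a window of null combinations;
* `near_cmp`: the invisible jets along `Φ ∘ α`.
-/

set_option autoImplicit false

open Polynomial Finset

namespace Pool.Agent.TWRS

open Pool.Agent.H15JM (RVal)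
open Pool.Agent.LU1 (VPos)
open Pool.Agent.D2 (Ctx0)
open Pool.Agent.TWM
open Pool.Agent.TWII (PG LP Nr)
open Pool.Agent.TWLM (HSd Oi Arc)
open Pool.Agent.TWN1 (Sn ser coeff_ser)
open Pool.Agent.TWEX (cmp alp Dj cmp_eq const_alp coeff_alp coeff_alp_ge coeff_pow_mem coeff_pow_gt
  coeff_subst_eq alp_pow cmp_oi exists_comb)

universe u

variable {k Ω : Type u} [Field k] [Field Ω] [Algebra k Ω] {v : RVal Ω}
  {F : IntermediateField k Ω} {Φ : ℕ → Ω → Ω} {z : Ω} {Z : PowerSeries Ω} {κ : ℕ → ℝ}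
  {s σ : ℝ} {P : ℕ} {p : ℕ} [hp : Fact p.Prime] [CharP Ω p] {α : PowerSeries Ω}

/-- **The composed arc.** -/
theorem cmp_pw (hΦ : PwArc v F σ Φ) (hα : PowerSeries.constantCoeff α = 0)
    (hαF : ∀ n, PowerSeries.coeff n α ∈ F)
    (hαv : ∀ n : ℕ, v.Ge (σ - n * σ) (PowerSeries.coeff n α)) {D : ℕ}
    (hD : ∀ n m : ℕ, n * D < m → PowerSeries.coeff m (α ^ n) = 0) : PwArc v F σ (cmp Φ α) := by
  classical
  have hs := PowerSeries.HasSubst.of_constantCoeff_zero' hα
  refine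
    { mem := fun m f hf => ?_
      c0 := fun f hf => ?_
      add := fun m f hf g hg => ?_
      mul := fun m f hf g hg => ?_
      con := fun m hm c => ?_
      pst := fun m hm f hf b hb => ?_
      oi := cmp_oi hΦ.oi hα hαv hD }
  · rw [cmp_eq hα]
    exact sum_mem fun n _ => mul_mem (hΦ.mem n f hf) (coeff_pow_mem hαF n m)
  · rw [cmp_eq hα, sum_range_one, pow_zero, PowerSeries.coeff_one, if_pos rfl, mul_one,
      hΦ.c0 f hf]
  · rw [cmp_eq hα, cmp_eq hα, cmp_eq hα, ← sum_add_distrib]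
    exact sum_congr rfl fun n _ => by rw [hΦ.add n f hf g hg, add_mul]
  · have h1 : ser Φ (f * g) = ser Φ f * ser Φ g := by
      ext n
      rw [coeff_ser, PowerSeries.coeff_mul, hΦ.mul n f hf g hg]
      exact sum_congr rfl fun i _ => by rw [coeff_ser, coeff_ser]
    unfold TWEX.cmp
    rw [h1, PowerSeries.subst_mul hs, PowerSeries.coeff_mul]
  · rw [cmp_eq hα, sum_eq_zero]
    intro n _
    rcases eq_or_ne n 0 with rfl | hn
    · rw [pow_zero, PowerSeries.coeff_one, if_neg hm, mul_zero]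
    · rw [hΦ.con n hn, zero_mul]
  · rw [cmp_eq hα]
    refine Gt.sum _ _ fun n _ => ?_
    rcases eq_or_ne n 0 with rfl | hn0
    · rw [pow_zero, PowerSeries.coeff_one, if_neg hm, mul_zero]
      exact Gt.zero
    · exact ((hΦ.pst n hn0 f hf b hb).mul_ge (TWN1.pow_ge hαv n m)).mono (by linarith)

/-- **The natural jets along the composed arc.** -/
theorem SetP.subst (h : SetP v F Φ z Z κ s σ P) (hα : PowerSeries.constantCoeff α = 0)
    (hαF : ∀ n, PowerSeries.coeff n α ∈ F)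
    (hαv : ∀ n : ℕ, v.Ge (σ - n * σ) (PowerSeries.coeff n α)) {D : ℕ}
    (hD : ∀ n m : ℕ, n * D < m → PowerSeries.coeff m (α ^ n) = 0) :
    ∃ κ' : ℕ → ℝ, SetP v F (cmp Φ α) z (Z.subst α) κ' s σ P := by
  classical
  have h2 : ∀ m : ℕ, ∃ κ' : ℝ, 0 < κ' ∧ ∀ n ∈ range (m + 1), κ' ≤ κ n := by
    intro m
    refine ⟨(range (m + 1)).inf' ⟨0, by simp⟩ κ, ?_, fun j hj => Finset.inf'_le _ hj⟩
    rw [Finset.lt_inf'_iff]
    exact fun j _ => h.kpos j
  choose κ₁ hκ₁0 hκ₁ using h2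
  refine ⟨κ₁,
    { arc := cmp_pw h.arc hα hαF hαv hD
      tl := h.tl
      z0 := ?_
      zmem := fun m => ?_
      kpos := hκ₁0
      str := fun m hm hmP x hx b hb => ?_
      near := fun m hm hmP c hc b hb => ?_ }⟩
  · rw [coeff_subst_eq hα, sum_range_one, h.z0, zero_mul]
  · rw [coeff_subst_eq hα]
    exact sum_mem fun n _ => mul_mem (h.zmem n) (coeff_pow_mem hαF n m)
  · rw [cmp_eq hα]
    refine RVal.Ge.sum _ _ fun n hn => ?_
    rcases eq_or_ne n 0 with rfl | hn0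
    · rw [pow_zero, PowerSeries.coeff_one, if_neg hm, mul_zero]
      exact RVal.Ge.zero
    · have hn1 : n < P := by
        have := mem_range.1 hn
        omega
      exact ((h.str n hn0 hn1 x hx b hb).mul (TWN1.pow_ge hαv n m)).mono
        (by linarith [hκ₁ m n hn])
  · rw [coeff_subst_eq hα, cmp_eq hα, ← sum_sub_distrib]
    refine RVal.Ge.sum _ _ fun n hn => ?_
    rw [← sub_mul]
    rcases eq_or_ne n 0 with rfl | hn0
    · rw [pow_zero, PowerSeries.coeff_one, if_neg hm, mul_zero]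
      exact RVal.Ge.zero
    · have hn1 : n < P := by
        have := mem_range.1 hn
        omega
      have h3 := h.near n hn0 hn1 c hc b hb
      have h4 := TWN1.pow_ge hαv n m
      have h5 : κ₁ m ≤ κ n := hκ₁ m n hn
      refine (h3.mul h4).mono ?_
      have h6 : min (b + κ₁ m) (s + κ₁ m / 2) ≤ min (b + κ n) (s + κ n / 2) :=
        min_le_min (by linarith) (by linarith)
      linarith

/-- **The window**: the jets of `z` along `Φ ∘ α` are null. -/
theorem win_gt {T : Finset ℕ} {c : ℕ → Ω} {T₀ L J J' : ℕ} (hT : ∀ t ∈ T, t ≤ T₀) (hJT : T₀ ≤ J)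
    (hcv : ∀ t ∈ T, v.Ge (σ - p ^ t * σ) (c t))
    (hres : ∀ n : ℕ, 2 * L < n → (∀ i, n ≠ p ^ i) → Gt v (s - n * σ) (PowerSeries.coeff n Z))
    (hJ : ∀ j, J ≤ j → j < J' →
      Gt v (s - p ^ j * σ) (Dj p (fun j => PowerSeries.coeff (p ^ j) Z) T c j)) {m : ℕ}
    (hm1 : 2 * L * p ^ T₀ < m) (hm2 : p ^ J ≤ m) (hm3 : m < p ^ J') :
    Gt v (s - m * σ) (PowerSeries.coeff m (Z.subst (alp p T c))) := by
  classical
  have hp0 := hp.out.pos
  have hp1 := hp.out.one_lt
  rw [coeff_subst_eq const_alp]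
  set g : ℕ → Ω := fun n => PowerSeries.coeff n Z * PowerSeries.coeff m (alp p T c ^ n) with hg
  rw [← sum_filter_add_sum_filter_not (range (m + 1)) (fun n => ∃ i, n = p ^ i)]
  refine Gt.add ?_ (Gt.sum _ _ fun n hn => ?_)
  · -- the powers of `p`
    have e1 : ∑ n ∈ range (m + 1) with ∃ i, n = p ^ i, g n =
        ∑ j ∈ range (m + 1) with p ^ j ≤ m, g (p ^ j) := by
      rw [← sum_image (s := (range (m + 1)).filter fun j => p ^ j ≤ m) (g := fun j => p ^ j)
        (f := g) (fun a _ b _ hab => Nat.pow_right_injective hp1 hab)]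
      refine sum_congr ?_ fun _ _ => rfl
      ext n
      rw [mem_filter, mem_image]
      constructor
      · rintro ⟨h1, i, rfl⟩
        have h2 := mem_range.1 h1
        have h3 : i < p ^ i := Nat.lt_pow_self hp1
        exact ⟨i, mem_filter.2 ⟨mem_range.2 (by omega), by omega⟩, rfl⟩
      · rintro ⟨i, hi, rfl⟩
        obtain ⟨-, h2⟩ := mem_filter.1 hi
        exact ⟨mem_range.2 (by omega), i, rfl⟩
    change Gt v _ (∑ n ∈ range (m + 1) with ∃ i, n = p ^ i, g n)
    rw [e1]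
    have e2 : ∑ j ∈ range (m + 1) with p ^ j ≤ m, g (p ^ j) =
        ∑ t ∈ T, ∑ j ∈ range (m + 1) with p ^ j ≤ m,
          if m = p ^ (t + j) then PowerSeries.coeff (p ^ j) Z * c t ^ p ^ j else 0 := by
      rw [sum_comm]
      refine sum_congr rfl fun j _ => ?_
      rw [hg]
      beta_reduce
      rw [alp_pow, mul_sum]
      exact sum_congr rfl fun t _ => by rw [mul_ite, mul_zero]
    rw [e2]
    by_cases hmp : ∃ i, m = p ^ i
    · obtain ⟨i, rfl⟩ := hmp
      have hi : J ≤ i := (Nat.pow_le_pow_iff_right hp1).1 hm2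
      have hi' : i < J' := (Nat.pow_lt_pow_iff_right hp1).1 hm3
      have e3 : ∑ t ∈ T, (∑ j ∈ range (p ^ i + 1) with p ^ j ≤ p ^ i,
          if p ^ i = p ^ (t + j) then PowerSeries.coeff (p ^ j) Z * c t ^ p ^ j else 0) =
          Dj p (fun j => PowerSeries.coeff (p ^ j) Z) T c i := by
        rw [Dj]
        refine sum_congr rfl fun t ht => ?_
        have h1 := hT t ht
        have h3 : i < p ^ i := Nat.lt_pow_self hp1
        rw [sum_eq_single (i - t), if_pos (by rw [Nat.add_sub_cancel' (by omega)])]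
        · intro j _ hj
          refine if_neg fun h4 => hj ?_
          have := Nat.pow_right_injective hp1 h4
          omega
        · intro h4
          have h5 : i - t ∈ (range (p ^ i + 1)).filter fun j => p ^ j ≤ p ^ i :=
            mem_filter.2 ⟨mem_range.2 (by omega), Nat.pow_le_pow_right hp0 (by omega)⟩
          exact absurd h5 h4
      rw [e3]
      have h4 := hJ i hi hi'
      push_cast
      exact h4
    · rw [sum_eq_zero]
      · exact Gt.zero
      · intro t _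
        refine sum_eq_zero fun j _ => if_neg fun h1 => hmp ⟨_, h1⟩
  · obtain ⟨-, h2⟩ := mem_filter.1 hn
    by_cases h3 : n * p ^ T₀ < m
    · rw [coeff_pow_gt hT n h3, mul_zero]
      exact Gt.zero
    · have h4 : 2 * L < n := by
        by_contra h5
        have h6 : n * p ^ T₀ ≤ 2 * L * p ^ T₀ := Nat.mul_le_mul_right _ (by omega)
        omega
      have h5 := hres n h4 (fun i hi => h2 ⟨i, hi⟩)
      have h6 := TWN1.pow_ge (coeff_alp_ge (p := p) hcv) n m
      exact (h5.mul_ge h6).mono (by linarith)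

omit [CharP Ω p] in
/-- Exponents `t` with `m ∣ p ^ t - 1`. -/
theorem exists_exps {m : ℕ} (hm : 0 < m) (hpm : ¬ p ∣ m) (N : ℕ) :
    ∃ T : Finset ℕ, T.card = N ∧ ∀ t ∈ T, ∃ e : ℕ, p ^ t = 1 + m * e := by
  classical
  have hc : Nat.Coprime p m := (Nat.Prime.coprime_iff_not_dvd hp.out).2 hpm
  have hφ : 0 < Nat.totient m := Nat.totient_pos.2 hm
  refine ⟨(range N).image fun i => Nat.totient m * i, ?_, fun t ht => ?_⟩
  · rw [card_image_of_injective _ (fun a b hab => Nat.eq_of_mul_eq_mul_left hφ hab), card_range]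
  · obtain ⟨i, -, rfl⟩ := mem_image.1 ht
    have h1 : p ^ (Nat.totient m * i) ≡ 1 [MOD m] := by
      have h2 := (Nat.ModEq.pow_totient hc).pow i
      rwa [one_pow, ← pow_mul] at h2
    have h3 : 1 ≤ p ^ (Nat.totient m * i) := Nat.one_le_pow _ _ hp.out.pos
    obtain ⟨e, he⟩ := (Nat.modEq_iff_dvd' h3).1 h1.symm
    exact ⟨e, by omega⟩

/-- **A homogeneous additive polynomial with a window of null combinations.** -/
theorem exists_topwin [IsAlgClosed k] (h0 : Ctx0 k v) {G : Ω} {m : ℕ} (hG0 : G ≠ 0)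
    (hGv : v G = -(m * σ)) {T : Finset ℕ} (hT : ∀ t ∈ T, ∃ e : ℕ, p ^ t = 1 + m * e) {R : ℕ → Ω}
    {M J T₀ j₁ : ℕ} (hTM : M < T.card) (hTT : ∀ t ∈ T, t ≤ T₀)
    (hR : ∀ j, j₁ ≤ j → v.Ge (s - p ^ j * σ) (R j)) (hJ : j₁ + T₀ ≤ J) :
    ∃ c : ℕ → Ω, (∀ t ∈ T, Hm k G m 1 (p ^ t) (c t)) ∧ (∃ t ∈ T, c t ≠ 0) ∧
      ∀ j, J ≤ j → j < J + M → Gt v (s - p ^ j * σ) (Dj p R T c j) := by
  classical
  choose! e he using hT
  have hx : ∀ t ∈ T, Hm k G m 1 (p ^ t) (G ^ e t) := fun t ht =>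
    Or.inr ⟨1, e t, he t ht, by rw [map_one, one_mul]⟩
  obtain ⟨μ, ⟨t₀, ht₀, hμ0⟩, hμ⟩ := exists_comb (p := p) h0 (R := R) (x := fun t => G ^ e t) hTM hTT
    (fun t ht => by
      have h1 := (hx t ht).ge h0 hG0 hGv
      push_cast at h1
      rwa [one_mul] at h1) hR hJ
  refine ⟨fun t => algebraMap k Ω (μ t ^ p ^ t) * G ^ e t, fun t ht => (hx t ht).smul _,
    ⟨t₀, ht₀, mul_ne_zero ?_ (pow_ne_zero _ hG0)⟩, hμ⟩
  rw [Ne, _root_.map_eq_zero]
  exact pow_ne_zero _ hμ0

omit [CharP Ω p] in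
/-- **The invisible jets along `Φ ∘ α`.** -/
theorem near_cmp (hα : PowerSeries.constantCoeff α = 0)
    (hαv : ∀ n : ℕ, v.Ge (σ - n * σ) (PowerSeries.coeff n α)) {D : ℕ}
    (hD : ∀ n m : ℕ, n * D < m → PowerSeries.coeff m (α ^ n) = 0) {L : ℕ}
    (hv : ∀ l : ℕ, L < l → ∀ ε : ℝ, 0 < ε → Nr v F s z fun θ => v.Ge (s - l * σ - ε) (Φ l θ))
    {m : ℕ} (hm : L * D < m) {ε : ℝ} (hε : 0 < ε) :
    Nr v F s z fun θ => v.Ge (s - m * σ - ε) (cmp Φ α m θ) := by
  classical
  have h1 : Nr v F s z fun θ => ∀ n ∈ (range (m + 1)).filter fun n => L < n,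
      v.Ge (s - n * σ - ε) (Φ n θ) :=
    Nr.all _ fun n hn => hv n (mem_filter.1 hn).2 ε hε
  refine h1.mono fun θ _ h2 => ?_
  rw [cmp_eq hα]
  refine RVal.Ge.sum _ _ fun n hn => ?_
  by_cases hnm : n * D < m
  · rw [hD n m hnm, mul_zero]
    exact RVal.Ge.zero
  · have h3 : L < n := by
      by_contra h4
      have := Nat.mul_le_mul_right D (not_lt.1 h4)
      omega
    exact ((h2 n (mem_filter.2 ⟨hn, h3⟩)).mul (TWN1.pow_ge hαv n m)).mono (by linarith)

end Pool.Agent.TWRS
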