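import Pool.Agent.Lib.TWRS.Top2

/-!
# TANK W, row (Rt), the top floor, 3: the arc of the closure of `F(z)`

`exists_top_of`: from a family of arcs of `F`, such that the visible jets of `z` are of order
`≤ C q M`, an overconvergent arc of the closure `K` of `F(z)`, pointwise strict, `z` has finitely many
jets, and all the jets of a limit of `p`-th powers are null.
-/

set_option autoImplicit false

open Polynomial Finset

namespace Pool.Agent.TWRS

open Pool.Agent.H15JM (RVal)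
open Pool.Agent.LU1 (VPos)
open Pool.Agent.D2 (Ctx0)
open Pool.Agent.TWM
open Pool.Agent.TWII (PG LP Nr)
open Pool.Agent.TWLM (HSd Oi Arc)
open Pool.Agent.TWN1 (Sn ser coeff_ser coeff_Sn Ph)
open Pool.Agent.TWEX (cmp alp Dj cmp_eq const_alp coeff_alp coeff_alp_ge coeff_pow_mem coeff_pow_gt
  coeff_subst_eq alp_pow Tg exists_ptw_oi)

universe u

variable {k Ω : Type u} [Field k] [Field Ω] [Algebra k Ω] {v : RVal Ω}
  {F : IntermediateField k Ω} {Φ : ℕ → Ω → Ω} {z : Ω} {Z : PowerSeries Ω} {κ : ℕ → ℝ}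
  {s σ : ℝ} {P : ℕ}

/-- **The truncation.** -/
theorem SetP.trunc (h : SetP v F Φ z Z κ s σ P) {n₀ P' : ℕ} (hP : P' ≤ P)
    (hfin : ∀ n : ℕ, n₀ ≤ n → n < P' → Gt v (s - n * σ) (PowerSeries.coeff n Z)) :
    ∃ κ' : ℕ → ℝ, SetP v F Φ z (Sn Z n₀) κ' s σ P' := by
  classical
  have h1 : ∀ n : ℕ, ∃ μ : ℝ, 0 < μ ∧ (n₀ ≤ n → n < P' →
      v.Ge (s - n * σ + μ) (PowerSeries.coeff n Z)) := by
    intro n
    by_cases hn : n₀ ≤ n ∧ n < P'
    · obtain ⟨μ, hμ, h2⟩ := TWLM.exists_ge_of_gt (hfin n hn.1 hn.2)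
      exact ⟨μ, hμ, fun _ _ => h2⟩
    · exact ⟨1, one_pos, fun h2 h3 => absurd ⟨h2, h3⟩ hn⟩
  choose μ hμ0 hμ using h1
  refine ⟨fun n => min (κ n) (2 * μ n), ?_⟩
  refine
    { arc := h.arc
      tl := h.tl
      z0 := ?_
      zmem := ?_
      kpos := fun n => lt_min (h.kpos n) (by linarith [hμ0 n])
      str := fun n hn hnP x hx b hb => (h.str n hn (by omega) x hx b hb).mono (by
        linarith [min_le_left (κ n) (2 * μ n)])
      near := ?_ }
  · rw [coeff_Sn, h.z0, ite_self]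
  · intro n
    rw [coeff_Sn]
    split_ifs
    exacts [h.zmem n, F.zero_mem]
  · intro n hn hnP c hc b hb
    have h2 := h.near n hn (by omega) c hc b hb
    have h3 := min_le_left (κ n) (2 * μ n)
    have h4 := min_le_right (κ n) (2 * μ n)
    have h5 : min (b + min (κ n) (2 * μ n)) (s + min (κ n) (2 * μ n) / 2) ≤
        min (b + κ n) (s + κ n / 2) := by
      refine le_min ((min_le_left _ _).trans (by linarith)) ((min_le_right _ _).trans (by linarith))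
    rw [coeff_Sn]
    split_ifs with hlt
    · exact h2.mono (by linarith)
    · have h6 := hμ n (by omega) hnP
      have e : (0 : Ω) - Φ n c = (PowerSeries.coeff n Z - Φ n c) - PowerSeries.coeff n Z := by ring
      rw [e]
      refine (h2.mono (by linarith)).sub (h6.mono ?_)
      have h7 := min_le_right (b + min (κ n) (2 * μ n)) (s + min (κ n) (2 * μ n) / 2)
      linarith

/-- The jets of the powers of `z`. -/
theorem jet_pow {K : IntermediateField k Ω} {Θ : ℕ → Ω → Ω} (hΘ : HSd K Θ) (hz : z ∈ K) {n₂ : ℕ}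
    (h : ∀ n : ℕ, n ≠ 0 → n₂ ≤ n → Θ n z = 0) (i : ℕ) {b : ℕ} (hb : i * n₂ < b) :
    Θ b (z ^ i) = 0 := by
  induction i generalizing b with
  | zero =>
    have h1 := hΘ.con b (by omega) 1
    rw [pow_zero]
    rwa [map_one] at h1
  | succ i ih =>
    rw [pow_succ, hΘ.mul b _ (pow_mem hz i) z hz]
    refine sum_eq_zero fun x hx => ?_
    have h1 : x.1 + x.2 = b := by simpa using hx
    rw [add_mul, one_mul] at hb
    by_cases h2 : i * n₂ < x.1
    · rw [ih h2, zero_mul]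
    · rw [h x.2 (by omega) (by omega), mul_zero]

/-- **The jets of large order of a polynomial in `z`.** -/
theorem tiny {K : IntermediateField k Ω} {Θ : ℕ → Ω → Ω} (hΘ : PwArc v K σ Θ) (hFK : F ≤ K)
    (hz : z ∈ K) {n₂ : ℕ} (h : ∀ n : ℕ, n ≠ 0 → n₂ ≤ n → Θ n z = 0) {β : ℝ} (hβ : β ≤ 0)
    (hzβ : v.Ge β z) {g : Polynomial Ω} (hg : g ∈ PI F) {d : ℕ} (hd : g.natDegree ≤ d) {B : ℝ}
    {N₁ : ℕ} (hN : ∀ i n : ℕ, N₁ ≤ n → v.Ge (B - n * σ) (Θ n (g.coeff i))) {n : ℕ}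
    (hn : N₁ + d * n₂ ≤ n) : v.Ge (B + d * β - n * σ) (Θ n (g.eval z)) := by
  have hgK : ∀ i, g.coeff i ∈ K := fun i => hFK (hg i)
  rw [eval_eq_sum_range, hΘ.sum n _ _ fun i _ => mul_mem (hgK i) (pow_mem hz i)]
  refine RVal.Ge.sum _ _ fun i hi => ?_
  have hid : i ≤ d := by
    have := mem_range.1 hi
    omega
  rw [hΘ.mul n _ (hgK i) _ (pow_mem hz i)]
  refine RVal.Ge.sum _ _ fun x hx => ?_
  have h1 : x.1 + x.2 = n := by simpa using hx
  by_cases h2 : i * n₂ < x.2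
  · rw [jet_pow hΘ.toHSd hz h i h2, mul_zero]
    exact RVal.Ge.zero
  · have h3 : i * n₂ ≤ d * n₂ := Nat.mul_le_mul_right _ hid
    have h4 := hN i x.1 (by omega)
    have h5 := hΘ.norm x.2 (pow_mem hz i) (ge_pow hzβ i)
    refine (h4.mul h5).mono ?_
    have h6 : (n : ℝ) = x.1 + x.2 := by rw [← h1]; push_cast; ring
    have h7 : (i : ℝ) ≤ d := by exact_mod_cast hid
    rw [h6]
    nlinarith

/-- The coefficients of the powers are in the ring. -/
theorem coeff_pow_memA {R : Type*} [SetLike R Ω] [SubringClass R Ω] {A : R} {α : PowerSeries Ω}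
    (h : ∀ n, PowerSeries.coeff n α ∈ A) (l n : ℕ) : PowerSeries.coeff n (α ^ l) ∈ A := by
  induction l generalizing n with
  | zero =>
    rw [pow_zero, PowerSeries.coeff_one]
    split_ifs
    exacts [one_mem A, zero_mem A]
  | succ l ih =>
    rw [pow_succ, PowerSeries.coeff_mul]
    exact sum_mem fun i _ => mul_mem (ih _) (h _)

/-- Homogeneous elements are in the ring. -/
theorem Hm.memA {R : Type*} [SetLike R Ω] [SubringClass R Ω] {A : R} {G : Ω} {m w n : ℕ} {a : Ω}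
    (ha : Hm k G m w n a) (hkA : ∀ c : k, algebraMap k Ω c ∈ A) (hG : G ∈ A) : a ∈ A := by
  rcases ha with rfl | ⟨l, N, -, rfl⟩
  · exact zero_mem A
  · exact mul_mem (hkA l) (pow_mem hG N)

variable {p : ℕ} [hp : Fact p.Prime] [CharP Ω p]

/-- The jets of a limit of `p`-th powers, with a margin. -/
theorem pg_jet {K : IntermediateField k Ω} {Θ : ℕ → Ω → Ω} (hΘ : HSd K Θ) {n : ℕ} {η : ℝ}
    (hη : 0 < η) (hstr : ∀ x ∈ K, ∀ b, v.Ge b x → v.Ge (b - n * σ + η) (Θ n x)) {a : Ω} {ν : ℝ}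
    (ha : a ∈ K) (hla : LP p v K ν a) : PG p v K (ν - n * σ) (Θ n a) := by
  obtain ⟨g, hg, h1⟩ := hla (η / 2) (half_pos hη)
  have e1 : Θ n a = Θ n (g ^ p) + Θ n (a - g ^ p) := by
    rw [← hΘ.add n _ (pow_mem hg p) _ (sub_mem ha (pow_mem hg p)), add_sub_cancel]
  rw [e1]
  refine PG.add ?_ (.of_gt (Gt.of_ge (hstr _ (sub_mem ha (pow_mem hg p)) _ h1) (by linarith)))
  by_cases h4 : p ^ 1 ∣ n
  · obtain ⟨m, rfl⟩ := h4
    have h5 := hΘ.pow_mul p hg 1 m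
    rw [pow_one] at h5 ⊢
    rw [h5]
    exact .of_pow (hΘ.mem _ _ hg)
  · have h5 := hΘ.pow_zero p hg 1 n h4
    rw [pow_one] at h5
    rw [h5]
    exact .of_gt Gt.zero

/-- **The top floor.** -/
theorem exists_top_of [IsAlgClosed k] [IsAlgClosed Ω] (hΩ : CompleteV v) (h0 : Ctx0 k v)
    {ν : ℝ} {G : Ω} {m : ℕ} {q P : ℕ → ℕ} {Ψ : ℕ → ℕ → Ω → Ω} (hF : Fam v F σ G m q P Ψ)
    (hpm : ¬ p ∣ m)
    (hthr : ∀ f ∈ F, ∀ B : ℝ, ∃ L : ℕ, ∀ M n : ℕ, L * q M ≤ n → v.Ge (B - n * σ) (Ψ M n f))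
    (hthr2 : ∀ f ∈ F, ∀ B : ℝ, ∃ L : ℕ, ∀ M i j : ℕ, L * q M ≤ i + j →
      v.Ge (B - (i + j : ℕ) * σ) (Ψ M i (Ψ M j f))) (hz : TL v F z s)
    (hvis : ∃ C : ℕ, ∀ M : ℕ, C * q M ≤ P M → ∀ l : ℕ, C * q M < l → ∀ ε : ℝ, 0 < ε →
      Nr v F s z fun θ => v.Ge (s - l * σ - ε) (Ψ M l θ))
    {R : Type*} [SetLike R Ω] [SubringClass R Ω] {A : R} (hAF : ∀ x ∈ A, x ∈ F)
    (hkA : ∀ c : k, algebraMap k Ω c ∈ A) (hGA : G ∈ A)
    (hAd : ∀ x ∈ F, ∀ b : ℝ, ∃ c ∈ A, v.Ge b (x - c))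
    {a : Ω} (ha : a ∈ cadj v F z) (hla : LP p v (cadj v F z) ν a) :
    ∃ (M : ℕ) (T : Finset ℕ) (c : ℕ → Ω) (Θ : ℕ → Ω → Ω) (n₀ : ℕ),
      (∀ t ∈ T, Hm k G m 1 (p ^ t) (c t)) ∧ (∃ t ∈ T, c t ≠ 0) ∧
      PwArc v (cadj v F z) σ Θ ∧ (∀ n, ∀ x ∈ F, Θ n x = cmp (Ψ M) (alp p T c) n x) ∧
      (∀ n, n ≠ 0 → Θ n z ∈ A) ∧ (∀ n, n ≠ 0 → n₀ ≤ n → Θ n z = 0) ∧
      ∀ n : ℕ, n ≠ 0 → PG p v (cadj v F z) (ν - n * σ) (Θ n a) := by
  classical
  have hp0 := hp.out.pos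
  have hp1 := hp.out.one_lt
  -- the polynomial
  obtain ⟨g, hg, hag⟩ := hz.dense ha (ν + 1)
  obtain ⟨d, hd⟩ : ∃ d, d = g.natDegree := ⟨_, rfl⟩
  obtain ⟨T, hTc, hTe⟩ := exists_exps (p := p) hF.mpos hpm (d + 2)
  obtain ⟨T₀, hT₀⟩ : ∃ T₀, T₀ = T.sup id := ⟨_, rfl⟩
  have hTT : ∀ t ∈ T, t ≤ T₀ := fun t ht => by
    rw [hT₀]
    exact Finset.le_sup (f := id) ht
  obtain ⟨β, hβ0, hzβ⟩ : ∃ β : ℝ, β ≤ 0 ∧ v.Ge β z := by
    obtain ⟨c, hc⟩ := TWLM.exists_ge v z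
    exact ⟨min c 0, min_le_right _ _, hc.mono (min_le_left _ _)⟩
  -- the constants
  obtain ⟨δ, hδ, hdft⟩ := hF.dft
  obtain ⟨θ₀, hθ₀, hzθ⟩ := hz.lim (δ / 2) (half_pos hδ)
  obtain ⟨C, hC⟩ := hvis
  obtain ⟨L₁, hL₁⟩ := hthr θ₀ hθ₀ (s + 1)
  obtain ⟨L₂, hL₂⟩ := hthr2 θ₀ hθ₀ (s + 1)
  choose Lg hLg using fun i => hthr (g.coeff i) (hg i) (ν + 1 - d * β)
  obtain ⟨K, hKC, hK1, hK2, hKg⟩ : ∃ K : ℕ, C ≤ K ∧ L₁ ≤ K ∧ L₂ ≤ K ∧ ∀ i ≤ d, Lg i ≤ K := by
    refine ⟨C + L₁ + L₂ + ∑ i ∈ range (d + 1), Lg i, by omega, by omega, by omega, fun i hi => ?_⟩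
    have := single_le_sum (f := Lg) (s := range (d + 1)) (fun _ _ => Nat.zero_le _)
      (mem_range.2 (by omega : i < d + 1))
    omega
  obtain ⟨M, hM⟩ := hF.ratio (p * (2 * K + 1) * p ^ (T₀ + (d + 1)))
  have hM := hM M le_rfl
  have hq := hF.qpos M
  obtain ⟨L, hL⟩ : ∃ L, L = K * q M := ⟨_, rfl⟩
  -- the place of the window
  obtain ⟨j₂, hj₂, hj₂'⟩ : ∃ j₂ : ℕ, 2 * L < p ^ j₂ ∧ p ^ j₂ ≤ p * (2 * L + 1) := by
    have hex : ∃ j : ℕ, 2 * L < p ^ j := ⟨2 * L, Nat.lt_pow_self hp1⟩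
    refine ⟨Nat.find hex, Nat.find_spec hex, ?_⟩
    rcases Nat.eq_zero_or_pos (Nat.find hex) with h1 | h1
    · rw [h1, pow_zero]
      exact Nat.mul_pos hp0 (by omega)
    · have h2 := Nat.find_min hex (m := Nat.find hex - 1) (by omega)
      have h3 : p ^ Nat.find hex = p * p ^ (Nat.find hex - 1) := by
        rw [← pow_succ']
        congr 1
        omega
      rw [h3]
      exact Nat.mul_le_mul_left _ (by omega)
  obtain ⟨J, hJ⟩ : ∃ J, J = j₂ + T₀ := ⟨_, rfl⟩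
  obtain ⟨P', hP'⟩ : ∃ P', P' = p ^ (J + (d + 1)) := ⟨_, rfl⟩
  have hpJ : p ^ J = p ^ j₂ * p ^ T₀ := by rw [hJ, pow_add]
  have hJL : 2 * L * p ^ T₀ < p ^ J := by
    rw [hpJ]
    exact Nat.mul_lt_mul_of_pos_right hj₂ (pow_pos hp0 _)
  have hPP : P' ≤ P M := by
    refine le_trans ?_ hM
    have h1 : P' = p ^ j₂ * p ^ (T₀ + (d + 1)) := by
      rw [hP', hJ, ← pow_add]
      congr 1
      omega
    rw [h1]
    have h2 : p ^ j₂ ≤ p * (2 * K + 1) * q M := by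
      refine hj₂'.trans ?_
      rw [hL, mul_assoc]
      refine Nat.mul_le_mul_left _ ?_
      nlinarith
    calc p ^ j₂ * p ^ (T₀ + (d + 1)) ≤ p * (2 * K + 1) * q M * p ^ (T₀ + (d + 1)) :=
          Nat.mul_le_mul_right _ h2
      _ = p * (2 * K + 1) * p ^ (T₀ + (d + 1)) * q M := by ring
  have hdJ : (d + 1) * p ^ J ≤ P' := by
    rw [hP', pow_add, mul_comm]
    exact Nat.mul_le_mul_left _ (Nat.lt_pow_self hp1).le
  have hLP : L ≤ P M := by
    have h1 : L ≤ 2 * L * p ^ T₀ := by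
      have := Nat.le_mul_of_pos_right (2 * L) (pow_pos hp0 T₀)
      omega
    have h2 : p ^ J ≤ (d + 1) * p ^ J := Nat.le_mul_of_pos_left _ (Nat.succ_pos d)
    omega
  have hKm : ∀ {X n : ℕ}, X ≤ K → L ≤ n → X * q M ≤ n := by
    intro X n h1 h2
    have := Nat.mul_le_mul_right (q M) h1
    omega
  -- the arc
  have hΦ := hF.arc M
  have hCM : C * q M ≤ P M := hKm hKC hLP
  have hv : ∀ l : ℕ, L < l → ∀ ε : ℝ, 0 < ε →
      Nr v F s z fun θ => v.Ge (s - l * σ - ε) (Ψ M l θ) := fun l hl ε hε =>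
    hC M hCM l (lt_of_le_of_lt (hKm hKC le_rfl) hl) ε hε
  -- the natural jets
  obtain ⟨Z, κ, hZ, hZA, hZP⟩ := exists_setP hΦ hz hAF hAd
  have hZge : ∀ n : ℕ, L < n → v.Ge (s - n * σ) (PowerSeries.coeff n Z) := by
    intro n hn
    by_cases hnP : n < P M
    · exact hZ.jet_ge (by omega) hnP (hv n hn)
    · rw [hZP n (by omega)]
      exact RVal.Ge.zero
  have hco := fun (l m : ℕ) (hl : l ≠ 0) (hlm : L ≤ l + m) (hP : l + m < P M) =>
    hZ.coc hδ (fun i j x hx t ht => hdft M i j x hx t ht) hθ₀ hzθ (L := L)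
      (fun i j hij => hL₂ M i j (hKm hK2 hij)) (fun i hi => hL₁ M i (hKm hK1 hi)) hl hlm hP
  have hres : ∀ n : ℕ, 2 * L < n → (∀ i, n ≠ p ^ i) → Gt v (s - n * σ) (PowerSeries.coeff n Z) := by
    intro n hn hnp
    by_cases hnP : n < P M
    · exact hZ.res (p := p) hco (fun n hn _ => hZge n hn) hn hnP hnp
    · rw [hZP n (by omega)]
      exact Gt.zero
  -- the window
  obtain ⟨c, hcH, hc0, hcw⟩ := exists_topwin (p := p) (s := s) h0 hF.gne hF.gval hTe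
    (R := fun j => PowerSeries.coeff (p ^ j) Z) (M := d + 1) (J := J) (T₀ := T₀) (j₁ := j₂)
    (by omega) hTT (fun j hj => by
      have h1 : p ^ j₂ ≤ p ^ j := Nat.pow_le_pow_right hp0 hj
      have h2 := hZge (p ^ j) (by omega)
      push_cast at h2
      exact h2) hJ.ge
  have hcv : ∀ t ∈ T, v.Ge (σ - p ^ t * σ) (c t) := fun t ht => by
    have h1 := (hcH t ht).ge h0 hF.gne hF.gval
    push_cast at h1
    rwa [one_mul] at h1
  obtain ⟨α, hα⟩ : ∃ α, α = alp p T c := ⟨_, rfl⟩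
  have hα0 : PowerSeries.constantCoeff α = 0 := by
    rw [hα]
    exact const_alp
  have hαv : ∀ n : ℕ, v.Ge (σ - n * σ) (PowerSeries.coeff n α) := by
    rw [hα]
    exact coeff_alp_ge hcv
  have hαA : ∀ n, PowerSeries.coeff n α ∈ A := by
    intro n
    rw [hα, coeff_alp]
    refine sum_mem fun t ht => ?_
    split_ifs
    exacts [(hcH t ht).memA hkA hGA, zero_mem A]
  have hαF : ∀ n, PowerSeries.coeff n α ∈ F := fun n => hAF _ (hαA n)
  have hD : ∀ n m : ℕ, n * p ^ T₀ < m → PowerSeries.coeff m (α ^ n) = 0 := by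
    rw [hα]
    exact fun n m hnm => coeff_pow_gt hTT n hnm
  obtain ⟨κ', hZ'⟩ := hZ.subst hα0 hαF hαv hD
  have hnull : ∀ n : ℕ, p ^ J ≤ n → n < P' →
      Gt v (s - n * σ) (PowerSeries.coeff n (Z.subst α)) := by
    intro n hn hn'
    rw [hα]
    exact win_gt (J := J) (J' := J + (d + 1)) hTT (by omega) hcv hres hcw
      (by omega) hn (by rw [← hP']; exact hn')
  obtain ⟨κ'', hS⟩ := hZ'.trunc hPP hnull
  have hΦ' := hZ'.arc
  have hvis' : ∀ n : ℕ, p ^ J ≤ n → ∀ ε : ℝ, 0 < ε →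
      Nr v F s z fun θ => v.Ge (s - n * σ - ε) (TWEX.cmp (Ψ M) α n θ) := by
    intro n hn ε hε
    refine near_cmp hα0 hαv hD hv ?_ hε
    have h1 : L * p ^ T₀ ≤ 2 * L * p ^ T₀ := Nat.mul_le_mul_right _ (by omega)
    omega
  -- the extension
  have hTg : Tg v F (TWEX.cmp (Ψ M) α) z (Sn (Z.subst α) (p ^ J)) s σ := by
    intro N ε hε
    have h1 : Nr v F s z fun θ => ∀ n ∈ range (N + 1), n ≠ 0 → v.Ge (s - ε - n * σ)
        (PowerSeries.coeff n (Sn (Z.subst α) (p ^ J)) - TWEX.cmp (Ψ M) α n θ) := by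
      refine Nr.all _ fun n _ => ?_
      by_cases hn0 : n = 0
      · exact Nr.of_forall fun θ _ h1 => absurd hn0 h1
      by_cases hn : n < p ^ J
      · have hnP : n < P M := by
          have h2 : p ^ J ≤ (d + 1) * p ^ J := Nat.le_mul_of_pos_left _ (Nat.succ_pos d)
          omega
        refine (Nr.near (half_pos (hZ'.kpos n))).mono fun θ hθ h2 _ => ?_
        rw [coeff_Sn, if_pos hn]
        have h3 := hZ'.jet hn0 hnP hθ (half_pos (hZ'.kpos n)).le (by linarith) h2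
        exact h3.mono (by linarith [hZ'.kpos n])
      · refine (hvis' n (by omega) ε hε).mono fun θ _ h2 _ => ?_
        rw [coeff_Sn, if_neg hn, zero_sub]
        exact (h2.mono (by linarith)).neg
    obtain ⟨θ, hθ, h2, h3⟩ := (h1.and (Nr.near hε)).exists hz.lim
    exact ⟨θ, hθ, s - ε, le_rfl, h3, fun n hn hnN => h2 n (mem_range.2 (by omega)) hn⟩
  obtain ⟨Θ, h1, h2, h3, h4, h5, h6⟩ := exists_ptw_oi hΩ hΦ'.toHSd hΦ'.pst hΦ'.oi hz
    (fun n => le_cadj v F z (hS.zmem n)) hS.z0 hTg (n₀ := p ^ J)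
    (fun n hn => by rw [coeff_Sn, if_neg (by omega)])
  have hΘ : PwArc v (cadj v F z) σ Θ := { h1 with pst := h2, oi := h3 }
  have hΘz : ∀ n : ℕ, n ≠ 0 → p ^ J ≤ n → Θ n z = 0 := fun n hn hn' => by
    rw [h6 n, if_neg hn, coeff_Sn, if_neg (by omega)]
  refine ⟨M, T, c, Θ, p ^ J, hcH, hc0, hΘ, ?_, fun n hn => ?_, hΘz, fun n hn => ?_⟩
  · rw [← hα]
    exact h5
  · rw [h6 n, if_neg hn, coeff_Sn]
    split_ifs
    · rw [coeff_subst_eq hα0]
      exact sum_mem fun i _ => mul_mem (hZA i) (coeff_pow_memA hαA i n)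
    · exact zero_mem A
  · by_cases hnP : n < P'
    · -- the margin
      obtain ⟨η, hη, h7⟩ := hS.ph_str hn hnP
      refine pg_jet hΘ.toHSd hη (fun x hx b hb => ?_) ha hla
      obtain ⟨f, hf, h8⟩ := hz.dense hx (b + η)
      have h9 : v.Ge b (f.eval z) := by
        have e : f.eval z = x - (x - f.eval z) := by ring
        rw [e]
        exact hb.sub (h8.mono (by linarith))
      have h10 := hΘ.norm n (sub_mem hx (TWLM.eval_mem_cadj hf)) h8
      have h11 := h7 f hf b h9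
      rw [← h4 n f hf] at h11
      have e : Θ n x = Θ n (x - f.eval z) + Θ n (f.eval z) := by
        rw [hΘ.sub n hx (TWLM.eval_mem_cadj hf)]
        ring
      rw [e]
      exact (h10.mono (by linarith)).add h11
    · have h7 := tiny hΘ (le_cadj v F z) (self_mem_cadj v F z) hΘz hβ0 hzβ hg hd.ge
        (B := ν + 1 - d * β) (N₁ := L * p ^ T₀) (fun i n' hn' => by
          by_cases hi : i ≤ d
          · rw [h5 n' _ (hg i), cmp_eq hα0]
            refine RVal.Ge.sum _ _ fun l _ => ?_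
            by_cases hl : l * p ^ T₀ < n'
            · rw [hD l n' hl, mul_zero]
              exact RVal.Ge.zero
            · have h8 : L ≤ l := by
                have h9 : L * p ^ T₀ ≤ l * p ^ T₀ := by omega
                exact Nat.le_of_mul_le_mul_right h9 (pow_pos hp0 _)
              have h9 := hLg i M l (hKm (hKg i hi) h8)
              exact (h9.mul (TWN1.pow_ge hαv l n')).mono (by linarith)
          · rw [coeff_eq_zero_of_natDegree_lt (by omega), hΘ.zero]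
            exact RVal.Ge.zero) (n := n) (by
          have h8 : L * p ^ T₀ ≤ 2 * L * p ^ T₀ := Nat.mul_le_mul_right _ (by omega)
          have h9 : (d + 1) * p ^ J = d * p ^ J + p ^ J := by ring
          omega)
      have h8 := hΘ.norm n (sub_mem ha (TWLM.eval_mem_cadj hg)) hag
      have e : Θ n a = Θ n (a - g.eval z) + Θ n (g.eval z) := by
        rw [hΘ.sub n ha (TWLM.eval_mem_cadj hg)]
        ring
      rw [e]
      exact .of_gt ((Gt.of_ge h8 (by linarith)).add (Gt.of_ge h7 (by linarith)))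

end Pool.Agent.TWRS
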