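import Pool.Agent.Lib.TWN1.Base
import Pool.Agent.Lib.TWII.PropHV

/-!
# TANK W, windows: Proposition H for families

`Ψ M` Hasse-Schmidt derivations of `F` of norm `≤ l σ`, overconvergent, with thresholds linear in
`q M`. `propHS_u`: only the jets of `u` of order `≤ C q M` are visible, `C` independent of `M`.
-/

set_option autoImplicit false

open Finset

namespace Pool.Agent.TWRS

open Pool.Agent.H15JM (RVal)
open Pool.Agent.TWM (Gt Lim)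
open Pool.Agent.TWLM (HSd Oi)
open Pool.Agent.TWII
open Pool.Agent.TWN1 (PC)

universe u

variable {k Ω : Type u} [Field k] [Field Ω] [Algebra k Ω] {v : RVal Ω}
  {F : IntermediateField k Ω} {σ ρ ν : ℝ} {Ψ : ℕ → ℕ → Ω → Ω} {q P : ℕ → ℕ} {u : Ω}

/-- Uniform thresholds. -/
def Thr (v : RVal Ω) (F : IntermediateField k Ω) (σ : ℝ) (q : ℕ → ℕ) (Ψ : ℕ → ℕ → Ω → Ω) : Prop :=
  ∀ f ∈ F, ∀ B : ℝ, ∃ L : ℕ, ∀ M n : ℕ, L * q M ≤ n → v.Ge (B - n * σ) (Ψ M n f)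

/-- The gaps of the jets of `u`, uniform in `M`. -/
theorem exists_gap_u (hΨ : ∀ M, HSd F (Ψ M)) (hn : ∀ M, Wn v F σ (Ψ M)) (ho : ∀ M, Oi v F σ (Ψ M))
    (ht : Thr v F σ q Ψ) (hu : Lim v F ρ u) : ∃ g : ℕ → ℕ → ℝ, (∀ M l, 0 ≤ g M l) ∧
      (∀ M l : ℕ, ∀ ε : ℝ, 0 < ε → Nr v F ρ u fun θ => v.Ge (ρ - l * σ - g M l - ε) (Ψ M l θ)) ∧
      (∀ M l : ℕ, 0 < g M l → Nr v F ρ u fun θ =>
        Ψ M l θ ≠ 0 ∧ v (Ψ M l θ) = ρ - l * σ - g M l) ∧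
      (∀ M : ℕ, ∀ ε : ℝ, 0 < ε → ∃ L : ℕ, ∀ l, L ≤ l → g M l ≤ ε) ∧
      ∀ ε : ℝ, 0 < ε → ∃ L : ℕ, ∀ M l, L * q M ≤ l → g M l ≤ ε := by
  choose g hg0 hgb hgc hgl using fun M => exists_gap (hΨ M) (hn M) (ho M) hu
  refine ⟨g, hg0, hgb, hgc, hgl, fun ε hε => ?_⟩
  obtain ⟨θ₀, hθ₀, h1⟩ := hu ε hε
  obtain ⟨L, hL⟩ := ht θ₀ hθ₀ ρ
  refine ⟨L, fun M l hl => ?_⟩
  by_contra h2
  have h2 := not_le.1 h2
  obtain ⟨θ, hθ, ⟨h3, h4⟩, h5⟩ := ((hgc M l (by linarith)).and (Nr.near hε)).exists hu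
  have h6 : v.Ge (ρ - ε - l * σ) (Ψ M l θ) := by
    have e1 : Ψ M l θ = Ψ M l (θ - θ₀) + Ψ M l θ₀ := by
      rw [(hΨ M).sub l hθ hθ₀]
      ring
    rw [e1]
    refine (hn M l _ (sub_mem hθ hθ₀) (ρ - ε) ?_).add ((hL M l hl).mono (by linarith))
    have e2 : θ - θ₀ = (u - θ₀) - (u - θ) := by ring
    rw [e2]
    exact h1.sub h5
  have h7 := h6 h3
  linarith

variable (p : ℕ) [hp : Fact p.Prime] [CharP Ω p]

/-- The terms with a derivative of the coefficient are in `F ^ p + O(>)`, uniformly. -/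
theorem term_err_u (hΨ : ∀ M, HSd F (Ψ M)) (hn : ∀ M, Wn v F σ (Ψ M)) (ho : ∀ M, Oi v F σ (Ψ M))
    (ht : Thr v F σ q Ψ) (hq : ∀ M, 0 < q M) (hu : Lim v F ρ u) {X : Ω} (hX : X ∈ F) (j : ℕ)
    {τ : ℝ} (hd : ∃ μ : ℝ, 0 < μ ∧ ∀ M n : ℕ, n ≠ 0 → n < P M →
      ∃ w ∈ F, (j = 0 → w = 0) ∧ v.Ge (τ - n * σ + μ) (Ψ M n X - w ^ p)) :
    ∃ L : ℕ, ∀ M : ℕ, L * q M ≤ P M → ∀ l : ℕ, L * q M ≤ l → Nr v F ρ u fun θ =>
      PG p v F (τ + (p : ℝ) ^ j * ρ - l * σ) (Ψ M l (X * θ ^ p ^ j) -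
        if p ^ j ∣ l then X * (Ψ M (l / p ^ j) θ) ^ p ^ j else 0) := by
  classical
  have hp0 : 0 < p := hp.out.pos
  have hq0 : 0 < p ^ j := Nat.pow_pos hp0
  have hqr : (0 : ℝ) < (p : ℝ) ^ j := by positivity
  obtain ⟨g, hg0, hgb, -, -, hglim⟩ := exists_gap_u hΨ hn ho ht hu
  -- a bound for the values
  obtain ⟨B, hB0, hB⟩ : ∃ B : ℝ, 0 ≤ B ∧ Nr v F ρ u fun θ => v.Ge (-B) θ := by
    refine ⟨max (max (1 - ρ) (-v u)) 0, le_max_right _ _, 1, one_pos, fun θ _ h1 => ?_⟩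
    have h2 := le_max_left (max (1 - ρ) (-v u)) 0
    have e1 : θ = u - (u - θ) := by ring
    rw [e1]
    refine RVal.Ge.sub (fun _ => ?_) (h1.mono ?_)
    · linarith [le_max_right (1 - ρ) (-v u)]
    · linarith [le_max_left (1 - ρ) (-v u)]
  obtain ⟨J, hJ⟩ := ht X hX (τ + (p : ℝ) ^ j * ρ + (p : ℝ) ^ j * B + 1)
  obtain ⟨μ, hμ, hd⟩ := hd
  choose! w hwF hw0 hw using hd
  obtain ⟨L₁, hL₁⟩ := hglim (μ / (4 * (p : ℝ) ^ j)) (by positivity)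
  refine ⟨J + p ^ j * (L₁ + 1), fun M hMP l hl => ?_⟩
  have hqM := hq M
  have hN := (Nr.all (range (l + 1)) fun m _ => hgb M m (μ / (4 * (p : ℝ) ^ j))
    (by positivity)).and hB
  refine hN.mono fun θ hθ h1 => ?_
  obtain ⟨h1, h2⟩ := h1
  have h2' : ∀ m : ℕ, v.Ge (-B - m * σ) (Ψ M m θ) := fun m => hn M m θ hθ _ h2
  rw [(hΨ M).mul l X hX _ (pow_mem hθ _)]
  have h0l : ((0, l) : ℕ × ℕ) ∈ antidiagonal l := HasAntidiagonal.mem_antidiagonal.2 (zero_add l)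
  rw [← Finset.add_sum_erase _ _ h0l]
  have e2 : Ψ M 0 X * Ψ M l (θ ^ p ^ j) =
      if p ^ j ∣ l then X * (Ψ M (l / p ^ j) θ) ^ p ^ j else 0 := by
    rw [(hΨ M).c0 X hX]
    split_ifs with h3
    · obtain ⟨m, rfl⟩ := h3
      rw [(hΨ M).pow_mul p hθ, Nat.mul_div_cancel_left _ hq0]
    · rw [(hΨ M).pow_zero p hθ j l h3, mul_zero]
  rw [e2, add_sub_cancel_left]
  refine .sum _ _ fun ij hij => ?_
  obtain ⟨hne, hij'⟩ := Finset.mem_erase.1 hij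
  rw [HasAntidiagonal.mem_antidiagonal] at hij'
  obtain ⟨n, n'⟩ := ij
  simp only at hij' hne ⊢
  have hn0 : n ≠ 0 := by
    rintro rfl
    apply hne
    rw [zero_add] at hij'
    rw [hij']
  by_cases h5 : p ^ j ∣ n'
  swap
  · rw [(hΨ M).pow_zero p hθ j n' h5, mul_zero]
    exact .of_gt Gt.zero
  obtain ⟨m, rfl⟩ := h5
  rw [(hΨ M).pow_mul p hθ]
  have hlr : (l : ℝ) = n + (p : ℝ) ^ j * m := by
    rw [← hij']
    push_cast
    ring
  have hexp : (J + p ^ j * (L₁ + 1)) * q M = J * q M + p ^ j * (L₁ * q M) + p ^ j * q M := by ring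
  by_cases hnJ : n < J * q M
  · have hm : L₁ * q M ≤ m := by
      by_contra h5
      have h6 : p ^ j * m ≤ p ^ j * (L₁ * q M) := Nat.mul_le_mul_left _ (not_le.1 h5).le
      omega
    have hml : m ∈ range (l + 1) := by
      rw [mem_range]
      have : m ≤ p ^ j * m := Nat.le_mul_of_pos_left m hq0
      omega
    have h6 : v.Ge (ρ - m * σ - μ / (2 * (p : ℝ) ^ j)) (Ψ M m θ) := by
      refine (h1 m hml).mono ?_
      have h7 := hL₁ M m hm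
      have e3 : μ / (2 * (p : ℝ) ^ j) = μ / (4 * (p : ℝ) ^ j) + μ / (4 * (p : ℝ) ^ j) := by
        field_simp
        ring
      rw [e3]
      linarith
    have h7 : v.Ge ((p : ℝ) ^ j * (ρ - m * σ) - μ / 2) ((Ψ M m θ) ^ p ^ j) := by
      refine (ge_pow' h6 (p ^ j)).mono (le_of_eq ?_)
      push_cast
      field_simp
    have hnP : n < P M := by omega
    have e4 : Ψ M n X * (Ψ M m θ) ^ p ^ j =
        (Ψ M n X - w M n ^ p) * (Ψ M m θ) ^ p ^ j + w M n ^ p * (Ψ M m θ) ^ p ^ j := by ring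
    rw [e4]
    refine PG.add (.of_gt ?_) ?_
    · refine Gt.of_ge ((hw M n hn0 hnP).mul h7) ?_
      rw [hlr]
      linarith
    · rcases Nat.eq_zero_or_pos j with hj0 | hj0
      · rw [hw0 M n hn0 hnP hj0, zero_pow hp.out.ne_zero, zero_mul]
        exact .of_gt Gt.zero
      · have e5 : w M n ^ p * (Ψ M m θ) ^ p ^ j = (w M n * (Ψ M m θ) ^ p ^ (j - 1)) ^ p := by
          rw [_root_.mul_pow, ← pow_mul, ← pow_succ, Nat.sub_add_cancel hj0]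
        rw [e5]
        exact .of_pow (mul_mem (hwF M n hn0 hnP) (pow_mem ((hΨ M).mem _ _ hθ) _))
  · refine .of_gt (Gt.of_ge ((hJ M n (not_lt.1 hnJ)).mul (ge_pow' (h2' m) (p ^ j))) ?_)
    push_cast
    rw [hlr]
    linarith

/-- The extremal degree. -/
theorem extr {Φ : ℕ → Ω → Ω} (hΦ : HSd F Φ) (hn : Wn v F σ Φ) (ho : Oi v F σ Φ)
    (hu : Lim v F ρ u) (S : ℕ) (X : ℕ → Ω)
    (hlow : ∀ j < S, ∀ ε : ℝ, 0 < ε → ∃ w ∈ F, (j = 0 → w = 0) ∧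
      v.Ge (ν - (p : ℝ) ^ j * ρ - ε) (X j - w ^ p))
    (hind : ∀ c ∈ F, ∀ t : ℝ, PG p v F t (X S * c ^ p ^ S) →
      Gt v (t - ν + (p : ℝ) ^ S * ρ) (c ^ p ^ S)) (N : ℕ)
    (hR : ∀ l : ℕ, N ≤ l → ∀ ε : ℝ, 0 < ε → Nr v F ρ u fun θ => PG p v F (ν - l * σ - ε)
      (∑ j ∈ range (S + 1), if p ^ j ∣ l then X j * (Φ (l / p ^ j) θ) ^ p ^ j else 0)) (l : ℕ)
    (hl : N < l) (ε : ℝ) (hε : 0 < ε) : Nr v F ρ u fun θ => v.Ge (ρ - l * σ - ε) (Φ l θ) := by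
  classical
  have hp0 : 0 < p := hp.out.pos
  have hp1 : 1 < p := hp.out.one_lt
  obtain ⟨g, hg0, hgb, hgc, hglim⟩ := exists_gap hΦ hn ho hu
  by_contra hcon
  have hg₁ : 0 < g l := by
    by_contra h2
    have h3 : g l = 0 := le_antisymm (not_lt.1 h2) (hg0 l)
    apply hcon
    have := hgb l ε hε
    rwa [h3, sub_zero] at this
  obtain ⟨N₁, hN₁⟩ := hglim (g l) hg₁
  have hlS : N ≤ p ^ S * l := hl.le.trans (Nat.le_mul_of_pos_left _ (Nat.pow_pos hp0))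
  obtain ⟨m₀, hm₀, hG, hmax⟩ : ∃ m₀, N ≤ p ^ S * m₀ ∧ 0 < g m₀ ∧
      ∀ m, N ≤ p ^ S * m → g m ≤ g m₀ := by
    have hne : l ∈ (range (max l N₁ + 1)).filter fun m => N ≤ p ^ S * m :=
      mem_filter.2 ⟨mem_range.2 (Nat.lt_succ_of_le (le_max_left _ _)), hlS⟩
    obtain ⟨m₀, hm, h1⟩ := Finset.exists_max_image _ g ⟨_, hne⟩
    have h2 := h1 _ hne
    obtain ⟨-, hm⟩ := mem_filter.1 hm
    refine ⟨m₀, hm, hg₁.trans_le h2, fun m hm' => ?_⟩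
    rcases le_or_gt m (max l N₁) with h3 | h3
    · exact h1 m (mem_filter.2 ⟨mem_range.2 (Nat.lt_succ_of_le h3), hm'⟩)
    · exact (hN₁ m ((le_max_right _ _).trans h3.le)).trans h2
  have hSr : (0 : ℝ) < (p : ℝ) ^ S := by positivity
  set G : ℝ := (p : ℝ) ^ S * g m₀ with hGm
  have hG0 : 0 < G := by positivity
  set l' := p ^ S * m₀ with hl'
  -- the point
  have h1 : Nr v F ρ u fun θ => ∀ j ∈ range S, ∀ m ∈ range (l' + 1),
      v.Ge (ρ - m * σ - g m - G / (8 * (p : ℝ) ^ j)) (Φ m θ) :=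
    Nr.all _ fun j _ => Nr.all _ fun m _ => hgb m (G / (8 * (p : ℝ) ^ j)) (by positivity)
  obtain ⟨θ, hθ, ⟨h1, h2⟩, h3, h4⟩ := ((h1.and (hR l' hm₀ G hG0)).and (hgc m₀ hG)).exists hu
  -- the low terms
  have h5 : ∀ j ∈ range S, PG p v F (ν - l' * σ - G)
      (if p ^ j ∣ l' then X j * (Φ (l' / p ^ j) θ) ^ p ^ j else 0) := by
    intro j hj
    have hjS : j < S := mem_range.1 hj
    split_ifs with h6
    swap
    · exact .of_gt Gt.zero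
    obtain ⟨m, hm⟩ := h6
    have hq0 : 0 < p ^ j := Nat.pow_pos hp0
    have hqr : (0 : ℝ) < (p : ℝ) ^ j := by positivity
    have hlm : (l' : ℝ) = (p : ℝ) ^ j * m := by exact_mod_cast hm
    rw [hm, Nat.mul_div_cancel_left _ hq0]
    have hml : m ∈ range (l' + 1) := by
      rw [mem_range]
      have : m ≤ p ^ j * m := Nat.le_mul_of_pos_left m hq0
      omega
    have h7 : (p : ℝ) ^ j * g m ≤ G / 2 := by
      have h8 : g m ≤ g m₀ := by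
        refine hmax m (hm₀.trans ?_)
        rw [hm]
        exact Nat.mul_le_mul_right _ (Nat.pow_le_pow_right hp0 hjS.le)
      have h9 : (p : ℝ) ^ j * 2 ≤ (p : ℝ) ^ S := by
        have h10 : p ^ j * 2 ≤ p ^ S := by
          calc p ^ j * 2 ≤ p ^ j * p := Nat.mul_le_mul_left _ hp1
            _ = p ^ (j + 1) := (pow_succ p j).symm
            _ ≤ p ^ S := Nat.pow_le_pow_right hp0 hjS
        exact_mod_cast h10
      have h10 := hg0 m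
      rw [hGm]
      nlinarith
    have h8 : v.Ge ((p : ℝ) ^ j * (ρ - m * σ) - G / 2 - G / 8) ((Φ m θ) ^ p ^ j) := by
      refine (ge_pow' (h1 j hj m hml) (p ^ j)).mono ?_
      push_cast
      have e1 : (p : ℝ) ^ j * (ρ - m * σ - g m - G / (8 * (p : ℝ) ^ j)) =
          (p : ℝ) ^ j * (ρ - m * σ) - (p : ℝ) ^ j * g m - G / 8 := by
        field_simp
      rw [e1]
      linarith
    obtain ⟨w, hw, hw0, h9⟩ := hlow j hjS (G / 8) (by positivity)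
    have e2 : X j * (Φ m θ) ^ p ^ j =
        (X j - w ^ p) * (Φ m θ) ^ p ^ j + w ^ p * (Φ m θ) ^ p ^ j := by ring
    rw [e2]
    refine PG.add (.of_gt ?_) ?_
    · refine Gt.of_ge (h9.mul h8) ?_
      push_cast
      linarith
    · rcases Nat.eq_zero_or_pos j with hj0 | hj0
      · rw [hw0 hj0, zero_pow hp.out.ne_zero, zero_mul]
        exact .of_gt Gt.zero
      · have e5 : w ^ p * (Φ m θ) ^ p ^ j = (w * (Φ m θ) ^ p ^ (j - 1)) ^ p := by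
          rw [_root_.mul_pow, ← pow_mul, ← pow_succ, Nat.sub_add_cancel hj0]
        rw [e5]
        exact .of_pow (F.mul_mem hw (pow_mem (hΦ.mem _ _ hθ) _))
  -- the top
  have h6 : PG p v F (ν - l' * σ - G) (X S * (Φ m₀ θ) ^ p ^ S) := by
    have e1 : X S * (Φ m₀ θ) ^ p ^ S =
        (∑ j ∈ range (S + 1), if p ^ j ∣ l' then X j * (Φ (l' / p ^ j) θ) ^ p ^ j else 0) -
        ∑ j ∈ range S, if p ^ j ∣ l' then X j * (Φ (l' / p ^ j) θ) ^ p ^ j else 0 := by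
      rw [Finset.sum_range_succ, add_sub_cancel_left, hl', if_pos (dvd_mul_right _ _),
        Nat.mul_div_cancel_left _ (Nat.pow_pos hp0)]
    rw [e1]
    exact h2.sub (PG.sum _ _ h5)
  have h8 := hind _ (hΦ.mem _ _ hθ) _ h6
  have h10 := h8 (pow_ne_zero _ h3)
  rw [v.map_pow h3, h4] at h10
  have h11 : (l' : ℝ) = (p : ℝ) ^ S * m₀ := by
    rw [hl']
    push_cast
    ring
  rw [hGm, h11] at h10
  push_cast at h10
  linarith

/-- **Proposition H, one variable, families.** -/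
theorem propHS_u (hΨ : ∀ M, HSd F (Ψ M)) (hn : ∀ M, Wn v F σ (Ψ M)) (ho : ∀ M, Oi v F σ (Ψ M))
    (ht : Thr v F σ q Ψ) (hq : ∀ M, 0 < q M) (hu : Lim v F ρ u) {e a₀ : Ω} (s : ℕ) (he : e ∈ F)
    (ha₀ : a₀ ∈ F) (A : ℕ → Ω) (hA : ∀ i ≤ s, A i ∈ F) (hen : v.Ge (ν - ρ) e)
    (hA0 : ∀ i < s, LP p v F (ν - (p ^ (i + 1) : ℕ) * ρ) (A i))
    (hde : ∃ μ : ℝ, 0 < μ ∧ ∀ M n : ℕ, n ≠ 0 → n < P M → v.Ge (ν - ρ - n * σ + μ) (Ψ M n e))
    (hdA : ∀ i ≤ s, ∃ μ : ℝ, 0 < μ ∧ ∀ M n : ℕ, n ≠ 0 → n < P M →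
      PC p v F (ν - (p ^ (i + 1) : ℕ) * ρ - n * σ + μ) (Ψ M n (A i)))
    (hs : ¬ PG p v F (ν - (p ^ (s + 1) : ℕ) * ρ) (A s))
    (hB : ∀ ε : ℝ, 0 < ε → Nr v F ρ u fun θ => ∃ g ∈ F, v.Ge (ν - ε)
      (a₀ + e * θ + ∑ i ∈ range (s + 1), A i * θ ^ p ^ (i + 1) - g ^ p)) :
    ∃ C : ℕ, ∀ M : ℕ, C * q M ≤ P M → ∀ l : ℕ, C * q M < l → ∀ ε : ℝ, 0 < ε →
      Nr v F ρ u fun θ => v.Ge (ρ - l * σ - ε) (Ψ M l θ) := by
  classical
  have hp0 : 0 < p := hp.out.pos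
  set X : ℕ → Ω := fun j => if j = 0 then e else A (j - 1) with hXd
  have hX0 : X 0 = e := by rw [hXd]; exact if_pos rfl
  have hXs : ∀ j, X (j + 1) = A j := fun j => by
    rw [hXd]
    dsimp only
    rw [if_neg (Nat.succ_ne_zero j), Nat.add_sub_cancel]
  have hX : ∀ j ≤ s + 1, X j ∈ F := by
    intro j hj
    rcases j with _ | j
    · rwa [hX0]
    · rw [hXs]
      exact hA j (by omega)
  have hsum : ∀ θ : Ω, a₀ + ∑ j ∈ range (s + 1 + 1), X j * θ ^ p ^ j =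
      a₀ + e * θ + ∑ i ∈ range (s + 1), A i * θ ^ p ^ (i + 1) := by
    intro θ
    rw [Finset.sum_range_succ' _ (s + 1)]
    simp only [hXs, hX0, pow_zero, pow_one]
    rw [add_assoc, add_comm (e * θ)]
  have hT : ∀ j ≤ s + 1, ∃ L : ℕ, ∀ M : ℕ, L * q M ≤ P M → ∀ l : ℕ, L * q M ≤ l →
      Nr v F ρ u fun θ => PG p v F (ν - l * σ) (Ψ M l (X j * θ ^ p ^ j) -
        if p ^ j ∣ l then X j * (Ψ M (l / p ^ j) θ) ^ p ^ j else 0) := by
    intro j hj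
    obtain ⟨L, hL⟩ := term_err_u (P := P) p hΨ hn ho ht hq hu (hX j hj) j
      (τ := ν - (p : ℝ) ^ j * ρ) (by
      rcases j with _ | j
      · obtain ⟨μ, hμ, h1⟩ := hde
        refine ⟨μ, hμ, fun M n h2 h3 => ⟨0, F.zero_mem, fun _ => rfl, ?_⟩⟩
        rw [zero_pow hp.out.ne_zero, sub_zero, hX0]
        exact (h1 M n h2 h3).mono (by simp)
      · obtain ⟨μ, hμ, h1⟩ := hdA j (by omega)
        refine ⟨μ, hμ, fun M n h2 h3 => ?_⟩
        obtain ⟨w, hw, h4⟩ := h1 M n h2 h3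
        refine ⟨w, hw, fun h0 => absurd h0 (Nat.succ_ne_zero j), ?_⟩
        rw [hXs]
        refine h4.mono (le_of_eq ?_)
        push_cast
        ring)
    refine ⟨L, fun M hM l hl => (hL M hM l hl).mono fun θ _ h1 => h1.mono (le_of_eq ?_)⟩
    ring
  choose! Lt hLt using hT
  obtain ⟨L₀, hL₀⟩ := ht a₀ ha₀ (ν + 1)
  obtain ⟨C, hC0, hCt⟩ : ∃ C : ℕ, L₀ ≤ C ∧ ∀ j ≤ s + 1, Lt j ≤ C :=
    ⟨max L₀ ((range (s + 2)).sup Lt), le_max_left _ _, fun j hj =>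
      (Finset.le_sup (f := Lt) (mem_range.2 (Nat.lt_succ_of_le hj))).trans (le_max_right _ _)⟩
  refine ⟨C, fun M hMP l hl ε hε => extr p (ν := ν) (hΨ M) (hn M) (ho M) hu (s + 1) X ?_ ?_
    (C * q M) ?_ l hl ε hε⟩
  · intro j hj ε hε
    rcases j with _ | j
    · refine ⟨0, F.zero_mem, fun _ => rfl, ?_⟩
      rw [hX0, zero_pow hp.out.ne_zero, sub_zero]
      refine hen.mono ?_
      simp only [pow_zero, one_mul]
      linarith
    · obtain ⟨w, hw, h1⟩ := hA0 j (by omega) ε hε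
      refine ⟨w, hw, fun h0 => absurd h0 (Nat.succ_ne_zero j), ?_⟩
      rw [hXs]
      refine h1.mono (le_of_eq ?_)
      push_cast
      ring
  · intro c hc t h1
    rw [hXs] at h1
    refine (ind_of_not_pg p (Nat.succ_ne_zero s) hs hc h1).mono (le_of_eq ?_)
    push_cast
    ring
  · intro l hl ε hε
    have h1 : Nr v F ρ u fun θ => ∀ j ∈ range (s + 1 + 1),
        PG p v F (ν - l * σ) (Ψ M l (X j * θ ^ p ^ j) -
          if p ^ j ∣ l then X j * (Ψ M (l / p ^ j) θ) ^ p ^ j else 0) := by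
      refine Nr.all _ fun j hj => ?_
      have hj' : j ≤ s + 1 := Nat.lt_succ_iff.1 (mem_range.1 hj)
      have h2 : Lt j * q M ≤ C * q M := Nat.mul_le_mul_right _ (hCt j hj')
      exact hLt j hj' M (h2.trans hMP) l (h2.trans hl)
    refine ((hB (ε / 2) (half_pos hε)).and h1).mono fun θ hθ h2 => ?_
    obtain ⟨⟨w, hw, h2⟩, h3⟩ := h2
    rw [← hsum] at h2
    set B := a₀ + ∑ j ∈ range (s + 1 + 1), X j * θ ^ p ^ j with hBd
    have hm : ∀ j ∈ range (s + 1 + 1), X j * θ ^ p ^ j ∈ F := fun j hj =>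
      F.mul_mem (hX j (Nat.lt_succ_iff.1 (mem_range.1 hj))) (pow_mem hθ _)
    have hBF : B ∈ F := F.add_mem ha₀ (sum_mem hm)
    have h4 : PG p v F (ν - l * σ - ε) (Ψ M l B) := by
      have e1 : Ψ M l B = Ψ M l (B - w ^ p) + Ψ M l (w ^ p) := by
        rw [(hΨ M).sub l hBF (pow_mem hw p)]
        ring
      rw [e1]
      refine PG.add (.of_gt ?_) ?_
      · exact Gt.of_ge (hn M l _ (F.sub_mem hBF (pow_mem hw p)) _ h2) (by linarith)
      · by_cases h5 : p ^ 1 ∣ l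
        · obtain ⟨m, rfl⟩ := h5
          have := (hΨ M).pow_mul p hw 1 m
          rw [pow_one] at this ⊢
          rw [this]
          exact .of_pow ((hΨ M).mem _ _ hw)
        · have := (hΨ M).pow_zero p hw 1 l h5
          rw [pow_one] at this
          rw [this]
          exact .of_gt Gt.zero
    have h5 : Ψ M l B = Ψ M l a₀ + ∑ j ∈ range (s + 1 + 1), Ψ M l (X j * θ ^ p ^ j) := by
      rw [hBd, (hΨ M).add l _ ha₀ _ (sum_mem hm), (hΨ M).sum l _ _ hm]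
    have h6 : PG p v F (ν - l * σ - ε) (Ψ M l a₀) :=
      .of_gt (Gt.of_ge (hL₀ M l ((Nat.mul_le_mul_right _ hC0).trans hl)) (by linarith))
    have h7 : PG p v F (ν - l * σ - ε) (∑ j ∈ range (s + 1 + 1), (Ψ M l (X j * θ ^ p ^ j) -
        if p ^ j ∣ l then X j * (Ψ M (l / p ^ j) θ) ^ p ^ j else 0)) :=
      PG.sum _ _ fun j hj => (h3 j hj).mono (by linarith)
    have e2 : (∑ j ∈ range (s + 1 + 1), if p ^ j ∣ l then X j * (Ψ M (l / p ^ j) θ) ^ p ^ j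
        else 0) = Ψ M l B - Ψ M l a₀ - ∑ j ∈ range (s + 1 + 1), (Ψ M l (X j * θ ^ p ^ j) -
          if p ^ j ∣ l then X j * (Ψ M (l / p ^ j) θ) ^ p ^ j else 0) := by
      rw [h5]
      simp only [Finset.sum_sub_distrib]
      ring
    rw [e2]
    exact (h4.sub h6).sub h7

end Pool.Agent.TWRS
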