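import Pool.Agent.Lib.TWRS.Defs

/-!
# TANK W, row (Rt), V4, part A: the windows

* `hco_of_set0`: the cocycle of the jets;
* `exists_crit`: the critical residues of order `p ^ j` are multiples of the first one;
* `exists_window`: homogeneous additive polynomials which kill the residues in a window;
* `exists_beta`: the residues below the window;
* `comp_gt`: the jets `h(α) + b β` are near the jets `U(α)` below the end of the window.
-/

set_option autoImplicit false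

open Polynomial Finset

namespace Pool.Agent.TWRS

open Pool.Agent.H15JM (RVal)
open Pool.Agent.LU1 (VPos)
open Pool.Agent.D2 (Ctx0)
open Pool.Agent.TWM
open Pool.Agent.TWII (PG LP Nr)
open Pool.Agent.TWLM (HSd Oi Arc)
open Pool.Agent.TWN1 (Set0 Sn coeff_Sn)
open Pool.Agent.TWEX (cmp alp Dj exists_comb residue_pow coeff_alp alp_pow coeff_subst_eq)

universe u'

variable {k Ω : Type u'} [Field k] [Field Ω] [Algebra k Ω] {v : RVal Ω}
  {C : IntermediateField k Ω} {Φ : ℕ → Ω → Ω} {u : Ω} {U : PowerSeries Ω} {κ : ℕ → ℝ}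
  {r σ : ℝ} {p : ℕ} [hp : Fact p.Prime] [CharP Ω p] {G : Ω} {m : ℕ}

omit hp [CharP Ω p] in
/-- The cocycle of the jets. -/
theorem hco_of_set0 (hΦ : Arc v C σ Φ) (h : Set0 v C Φ u U κ r σ)
    (hcomp : ∀ i j : ℕ, ∀ x ∈ C, Φ i (Φ j x) = ((i + j).choose i : Ω) * Φ (i + j) x) (l m : ℕ)
    (hl : l ≠ 0) : Gt v (r - (l + m) * σ) (Φ m (PowerSeries.coeff l U) -
      (((l + m).choose m : ℕ) : Ω) * PowerSeries.coeff (l + m) U) := by
  have hk1 := h.kpos l
  have hk2 := h.kpos (l + m)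
  set μ := min (κ l / 2) (κ (l + m) / 2) with hμ
  have hμ1 : μ ≤ κ l / 2 := min_le_left _ _
  have hμ2 : μ ≤ κ (l + m) / 2 := min_le_right _ _
  have hμ0 : 0 < μ := lt_min (by linarith) (by linarith)
  obtain ⟨x, hx, h1⟩ := h.tl.lim μ hμ0
  have h2 := h.near l hl x hx _ h1
  have h3 := h.near (l + m) (by omega) x hx _ h1
  have h4 : v.Ge (r + μ - l * σ) (PowerSeries.coeff l U - Φ l x) := by
    refine h2.mono ?_
    have : r + μ ≤ min (r - μ + κ l) (r + κ l / 2) := le_min (by linarith) (by linarith)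
    linarith
  have h5 : v.Ge (r + μ - (l + m) * σ) (PowerSeries.coeff (l + m) U - Φ (l + m) x) := by
    refine h3.mono ?_
    have : r + μ ≤ min (r - μ + κ (l + m)) (r + κ (l + m) / 2) :=
      le_min (by linarith) (by linarith)
    push_cast
    linarith
  have h6 := TWII.Wn.of_arc hΦ m _ (sub_mem (h.zmem l) (hΦ.mem l x hx)) _ h4
  rw [hΦ.sub m (h.zmem l) (hΦ.mem l x hx), hcomp m l x hx, add_comm m l] at h6
  have h7 := (ge_natCast v ((l + m).choose m)).mul h5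
  have e1 : Φ m (PowerSeries.coeff l U) -
      (((l + m).choose m : ℕ) : Ω) * PowerSeries.coeff (l + m) U =
      (Φ m (PowerSeries.coeff l U) - ((l + m).choose m : Ω) * Φ (l + m) x) -
        (((l + m).choose m : ℕ) : Ω) * (PowerSeries.coeff (l + m) U - Φ (l + m) x) := by
    ring
  rw [e1]
  exact Gt.sub (Gt.of_ge h6 (by linarith)) (Gt.of_ge h7 (by linarith))

theorem Hm.trans {w n n' : ℕ} {a b : Ω} (ha : Hm k G m w n a) (hb : Hm k G m n n' b) :
    Hm k G m w n' (a * b) := by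
  rcases ha with rfl | ⟨l, N, h1, rfl⟩
  · rw [zero_mul]
    exact Hm.zero
  · rcases hb with rfl | ⟨l', N', h2, rfl⟩
    · rw [mul_zero]
      exact Hm.zero
    · refine Or.inr ⟨l * l', N + N', by rw [h2, h1]; ring, ?_⟩
      rw [_root_.map_mul, pow_add]
      ring

omit [CharP Ω p] in
/-- The critical residues. -/
theorem exists_crit (h0 : Ctx0 k v) (hm0 : 0 < m) (hG : G ∈ C) (hG0 : G ≠ 0)
    (hGv : v G = -(m * σ)) (hm : ∀ n : ℕ, ∀ x ∈ C, x ≠ 0 → v x = n * σ → m ∣ n) {R : ℕ → Ω}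
    (hRC : ∀ j, R j ∈ C) {j₁ : ℕ} (hR : ∀ j, j₁ ≤ j → v.Ge (r - p ^ j * σ) (R j)) :
    ∃ (js : ℕ) (b : Ω), j₁ ≤ js ∧ (b = 0 ∨ b = R js ∧ b ≠ 0 ∧ v b = r - p ^ js * σ) ∧
      ∀ j, j₁ ≤ j → ∃ a, Hm k G m (p ^ js) (p ^ j) a ∧ Gt v (r - p ^ j * σ) (R j - b * a) := by
  classical
  by_cases hex : ∃ j, j₁ ≤ j ∧ ¬ Gt v (r - p ^ j * σ) (R j)
  · obtain ⟨hj1, hj2⟩ := Nat.find_spec hex
    set js := Nat.find hex with hjs
    have hcrit : ∀ j, j₁ ≤ j → ¬ Gt v (r - p ^ j * σ) (R j) → R j ≠ 0 ∧ v (R j) = r - p ^ j * σ := by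
      intro j hj h1
      have h2 : R j ≠ 0 := fun h2 => h1 (by rw [h2]; exact Gt.zero)
      refine ⟨h2, le_antisymm (not_lt.1 fun h3 => h1 fun _ => h3) (hR j hj h2)⟩
    obtain ⟨hb0, hbv⟩ := hcrit js hj1 hj2
    refine ⟨js, R js, hj1, Or.inr ⟨rfl, hb0, hbv⟩, fun j hj => ?_⟩
    by_cases h1 : Gt v (r - p ^ j * σ) (R j)
    · exact ⟨0, Hm.zero, by rwa [mul_zero, sub_zero]⟩
    · obtain ⟨h2, h3⟩ := hcrit j hj h1
      have h4 : js ≤ j := Nat.find_min' hex ⟨hj, h1⟩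
      have h5 : p ^ js ≤ p ^ j := Nat.pow_le_pow_right hp.out.pos h4
      obtain ⟨N, hN⟩ : m ∣ p ^ j - p ^ js := by
        refine hm _ (R js / R j) (div_mem (hRC _) (hRC _)) (div_ne_zero hb0 h2) ?_
        rw [v.map_div hb0 h2, hbv, h3, Nat.cast_sub h5]
        push_cast
        ring
      have h6 : p ^ j = p ^ js + m * N := by omega
      have hGN : G ^ N ≠ 0 := pow_ne_zero _ hG0
      have h7 : R js * G ^ N ≠ 0 := mul_ne_zero hb0 hGN
      have h8 : v (R j / (R js * G ^ N)) = 0 := by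
        rw [v.map_div h2 h7, v.map_mul hb0 hGN, v.map_pow hG0, hbv, h3, hGv]
        have h9 : (p : ℝ) ^ j = p ^ js + m * N := by exact_mod_cast h6
        rw [h9]
        ring
      obtain ⟨lam, hlam, h9⟩ := h0.res _ (div_ne_zero h2 h7) h8
      refine ⟨algebraMap k Ω lam * G ^ N, Or.inr ⟨lam, N, h6, rfl⟩, ?_⟩
      have e : R j - R js * (algebraMap k Ω lam * G ^ N) =
          (R j / (R js * G ^ N) - algebraMap k Ω lam) * (R js * G ^ N) := by
        field_simp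
      rw [e]
      have h10 : Gt v 0 (R j / (R js * G ^ N) - algebraMap k Ω lam) := h9
      have h11 : v.Ge (r - p ^ j * σ) (R js * G ^ N) := by
        intro _
        rw [v.map_mul hb0 hGN, v.map_pow hG0, hbv, hGv]
        have h9 : (p : ℝ) ^ j = p ^ js + m * N := by exact_mod_cast h6
        rw [h9]
        linarith
      have h12 := h10.mul_ge h11
      rwa [zero_add] at h12
  · push Not at hex
    exact ⟨j₁, 0, le_rfl, Or.inl rfl, fun j hj => ⟨0, Hm.zero, by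
      rw [mul_zero, sub_zero]
      exact hex j hj⟩⟩

omit [CharP Ω p] in
theorem exists_len (hm0 : 0 < m) (hpm : ¬ p ∣ m) : ∃ o : ℕ, 0 < o ∧ ∀ i : ℕ, m ∣ p ^ (o * i) - 1 := by
  have h1 : Nat.Coprime p m := (Nat.Prime.coprime_iff_not_dvd hp.out).2 hpm
  have h2 := Nat.ModEq.pow_totient h1
  have h3 : m ∣ p ^ m.totient - 1 :=
    (Nat.modEq_iff_dvd' (Nat.one_le_pow _ _ hp.out.pos)).1 h2.symm
  refine ⟨m.totient, Nat.totient_pos.2 hm0, fun i => h3.trans ?_⟩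
  have h4 := Nat.sub_dvd_pow_sub_pow (p ^ m.totient) 1 i
  rwa [one_pow, ← pow_mul] at h4

/-- The windows. -/
theorem exists_window [IsAlgClosed k] (h0 : Ctx0 k v) (hm0 : 0 < m) (hpm : ¬ p ∣ m) (hG0 : G ≠ 0)
    (hGv : v G = -(m * σ)) {R : ℕ → Ω} {j₁ : ℕ} (hR : ∀ j, j₁ ≤ j → v.Ge (r - p ^ j * σ) (R j))
    (M : ℕ) : ∃ (T₀ : ℕ) (T : Finset ℕ) (c : ℕ → Ω), (∀ t ∈ T, t ≤ T₀) ∧
      (∀ t ∈ T, Hm k G m 1 (p ^ t) (c t)) ∧ (∃ t ∈ T, c t ≠ 0) ∧
      ∀ j, j₁ + T₀ ≤ j → j < j₁ + T₀ + M → Gt v (r - p ^ j * σ) (Dj p R T c j) := by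
  classical
  obtain ⟨o, ho, hom⟩ := exists_len (p := p) hm0 hpm
  set T : Finset ℕ := (range (M + 1)).image fun i => o * i with hT
  have hcard : T.card = M + 1 := by
    rw [hT, card_image_of_injective _ (fun a b hab => Nat.eq_of_mul_eq_mul_left ho hab), card_range]
  have hTle : ∀ t ∈ T, t ≤ o * M := by
    intro t ht
    obtain ⟨i, hi, rfl⟩ := mem_image.1 ht
    exact Nat.mul_le_mul_left o (Nat.lt_succ_iff.1 (mem_range.1 hi))
  have hTm : ∀ t ∈ T, p ^ t = 1 + m * ((p ^ t - 1) / m) := by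
    intro t ht
    obtain ⟨i, hi, rfl⟩ := mem_image.1 ht
    rw [Nat.mul_div_cancel' (hom i)]
    have := Nat.one_le_pow (o * i) p hp.out.pos
    omega
  set x : ℕ → Ω := fun t => G ^ ((p ^ t - 1) / m) with hx
  have hxv : ∀ t ∈ T, v.Ge (σ - p ^ t * σ) (x t) := by
    intro t ht _
    rw [hx]
    beta_reduce
    rw [v.map_pow hG0, hGv]
    have h1 : (p : ℝ) ^ t = 1 + m * ((p ^ t - 1) / m : ℕ) := by exact_mod_cast hTm t ht
    rw [h1]
    linarith
  obtain ⟨μ, ⟨t, ht, hμt⟩, h1⟩ := exists_comb (p := p) h0 (by omega : M < T.card) hTle hxv hR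
    (le_refl (j₁ + o * M))
  refine ⟨o * M, T, fun t => algebraMap k Ω (μ t ^ p ^ t) * x t, hTle, fun t ht => ?_,
    ⟨t, ht, ?_⟩, h1⟩
  · exact Or.inr ⟨μ t ^ p ^ t, (p ^ t - 1) / m, hTm t ht, rfl⟩
  · exact mul_ne_zero ((_root_.map_ne_zero _).2 (pow_ne_zero _ hμt)) (pow_ne_zero _ hG0)

omit [CharP Ω p] in
/-- The residues below the window. -/
theorem exists_beta (h0 : Ctx0 k v) (hm0 : 0 < m) (hG0 : G ≠ 0)
    (hGv : v G = -(m * σ)) {R : ℕ → Ω} {j₁ : ℕ} {q : ℕ} {b : Ω}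
    (hcr : ∀ j, j₁ ≤ j → ∃ a, Hm k G m q (p ^ j) a ∧ Gt v (r - p ^ j * σ) (R j - b * a))
    {T : Finset ℕ} {c : ℕ → Ω} (hc : ∀ t ∈ T, Hm k G m 1 (p ^ t) (c t)) :
    ∃ a : ℕ → Ω, ∀ i, Hm k G m q (p ^ i) (a i) ∧ Gt v (r - p ^ i * σ)
      ((∑ t ∈ T, if t + j₁ ≤ i then R (i - t) * c t ^ p ^ (i - t) else 0) - b * a i) := by
  classical
  choose! aR haR hRR using hcr
  refine ⟨fun i => ∑ t ∈ T, if t + j₁ ≤ i then aR (i - t) * c t ^ p ^ (i - t) else 0, fun i =>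
    ⟨?_, ?_⟩⟩
  · refine Hm.sum hm0 _ _ fun t ht => ?_
    split_ifs with h1
    · refine (haR (i - t) (by omega)).trans ?_
      have h2 := (hc t ht).pow (p ^ (i - t))
      rwa [mul_one, ← pow_add, Nat.sub_add_cancel (by omega)] at h2
    · exact Hm.zero
  · rw [mul_sum, ← sum_sub_distrib]
    refine Gt.sum _ _ fun t ht => ?_
    split_ifs with h1
    · have h2 := hRR (i - t) (by omega)
      have h3 := ge_pow ((hc t ht).ge h0 hG0 hGv) (p ^ (i - t))
      have e : R (i - t) * c t ^ p ^ (i - t) - b * (aR (i - t) * c t ^ p ^ (i - t)) =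
          (R (i - t) - b * aR (i - t)) * c t ^ p ^ (i - t) := by ring
      rw [e]
      refine (h2.mul_ge h3).mono ?_
      have e2 : (p : ℝ) ^ i = (p : ℝ) ^ (i - t) * p ^ t := by
        rw [← pow_add, Nat.sub_add_cancel (by omega)]
      rw [e2]
      push_cast
      ring_nf
      exact le_rfl
    · rw [mul_zero, sub_zero]
      exact Gt.zero

end Pool.Agent.TWRS
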