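import Pool.Agent.Lib.TWRS.VfA

/-!
# TANK W, row (Rt), V4, part B: comparison with the natural jets

* `comp_gt`: the jets `h(α) + b β` are near the jets `U(α)` below the end of the window;
* `Set0.perturb`: small changes of the jets;
* `agree_lt`: two systems of the closure of `C(u)` which agree on `C` and at `u` in the orders `< P`.
-/

set_option autoImplicit false

open Polynomial Finset

namespace Pool.Agent.TWRS

open Pool.Agent.H15JM (RVal)
open Pool.Agent.LU1 (VPos)
open Pool.Agent.D2 (Ctx0)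
open Pool.Agent.TWM
open Pool.Agent.TWII (PG LP Nr)
open Pool.Agent.TWLM (HSd Oi Arc)
open Pool.Agent.TWN1 (Set0 Sn coeff_Sn)
open Pool.Agent.TWEX (cmp alp Dj exists_comb residue_pow coeff_alp alp_pow coeff_subst_eq const_alp
  coeff_alp_ge)

universe u'

variable {k Ω : Type u'} [Field k] [Field Ω] [Algebra k Ω] {v : RVal Ω}
  {C : IntermediateField k Ω} {Φ : ℕ → Ω → Ω} {u : Ω} {U : PowerSeries Ω} {κ : ℕ → ℝ}
  {r σ : ℝ}

/-- Small changes of the jets. -/
theorem set0_perturb {Z Z' : PowerSeries Ω} (h : Set0 v C Φ u Z κ r σ)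
    (h0 : PowerSeries.coeff 0 Z' = 0) (hm : ∀ n, PowerSeries.coeff n Z' ∈ C)
    (hg : ∀ n : ℕ, n ≠ 0 → Gt v (r - n * σ) (PowerSeries.coeff n Z - PowerSeries.coeff n Z')) :
    ∃ κ' : ℕ → ℝ, Set0 v C Φ u Z' κ' r σ := by
  classical
  have h1 : ∀ n : ℕ, ∃ μ : ℝ, 0 < μ ∧ (n ≠ 0 → v.Ge (r - n * σ + μ)
      (PowerSeries.coeff n Z - PowerSeries.coeff n Z')) := by
    intro n
    by_cases hn : n = 0
    · exact ⟨1, one_pos, fun h2 => absurd hn h2⟩
    · obtain ⟨μ, hμ, h2⟩ := TWLM.exists_ge_of_gt (hg n hn)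
      exact ⟨μ, hμ, fun _ => h2⟩
  choose μ hμ0 hμ using h1
  refine ⟨fun n => min (κ n) (2 * μ n),
    { hsd := h.hsd
      oi := h.oi
      tl := h.tl
      z0 := h0
      zmem := hm
      kpos := fun n => lt_min (h.kpos n) (by linarith [hμ0 n])
      str := fun n hn x hx b hb => (h.str n hn x hx b hb).mono (by
        linarith [min_le_left (κ n) (2 * μ n)])
      near := ?_ }⟩
  intro n hn c hc b hb
  have h2 := h.near n hn c hc b hb
  have h3 := min_le_left (κ n) (2 * μ n)
  have h4 := min_le_right (κ n) (2 * μ n)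
  have h5 : min (b + min (κ n) (2 * μ n)) (r + min (κ n) (2 * μ n) / 2) ≤
      min (b + κ n) (r + κ n / 2) := by
    refine le_min ((min_le_left _ _).trans (by linarith)) ((min_le_right _ _).trans (by linarith))
  have h6 := hμ n hn
  have e : PowerSeries.coeff n Z' - Φ n c = (PowerSeries.coeff n Z - Φ n c) -
      (PowerSeries.coeff n Z - PowerSeries.coeff n Z') := by ring
  rw [e]
  refine (h2.mono (by linarith)).sub (h6.mono ?_)
  have h7 := min_le_right (b + min (κ n) (2 * μ n)) (r + min (κ n) (2 * μ n) / 2)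
  linarith

/-- Two systems which agree on `C` and at `u`. -/
theorem agree_lt [IsAlgClosed Ω] (hw : TL v C u r) {Ψ Ψ' : ℕ → Ω → Ω}
    (h1 : HSd (cadj v C u) Ψ) (h2 : HSd (cadj v C u) Ψ')
    (n1 : ∀ n : ℕ, ∀ x ∈ cadj v C u, ∀ b : ℝ, v.Ge b x → v.Ge (b - n * σ) (Ψ n x))
    (n2 : ∀ n : ℕ, ∀ x ∈ cadj v C u, ∀ b : ℝ, v.Ge b x → v.Ge (b - n * σ) (Ψ' n x)) {P : ℕ}
    (hC : ∀ n < P, ∀ x ∈ C, Ψ n x = Ψ' n x) (hu : ∀ n < P, Ψ n u = Ψ' n u) :
    ∀ n < P, ∀ x ∈ cadj v C u, Ψ n x = Ψ' n x := by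
  classical
  have hum : u ∈ cadj v C u := self_mem_cadj v C u
  have hpow : ∀ i : ℕ, ∀ n < P, Ψ n (u ^ i) = Ψ' n (u ^ i) := by
    intro i
    induction i with
    | zero =>
      intro n _
      rw [pow_zero]
      by_cases hn : n = 0
      · rw [hn, h1.c0 1 (one_mem _), h2.c0 1 (one_mem _)]
      · rw [h1.one n hn, h2.one n hn]
    | succ i ih =>
      intro n hn
      rw [pow_succ, h1.mul n _ (pow_mem hum i) _ hum, h2.mul n _ (pow_mem hum i) _ hum]
      refine sum_congr rfl fun j hj => ?_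
      have hj' : j.1 + j.2 = n := by simpa using hj
      rw [ih j.1 (by omega), hu j.2 (by omega)]
  have hpoly : ∀ n < P, ∀ f ∈ PI C, Ψ n (f.eval u) = Ψ' n (f.eval u) := by
    intro n hn f hf
    have hmem : ∀ i ∈ range (f.natDegree + 1), f.coeff i * u ^ i ∈ cadj v C u := fun i _ =>
      mul_mem (le_cadj v C u (hf i)) (pow_mem hum i)
    rw [eval_eq_sum_range, h1.sum n _ _ hmem, h2.sum n _ _ hmem]
    refine sum_congr rfl fun i _ => ?_
    rw [h1.mul n _ (le_cadj v C u (hf i)) _ (pow_mem hum i),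
      h2.mul n _ (le_cadj v C u (hf i)) _ (pow_mem hum i)]
    refine sum_congr rfl fun j hj => ?_
    have hj' : j.1 + j.2 = n := by simpa using hj
    rw [hC j.1 (by omega) _ (hf i), hpow i j.2 (by omega)]
  intro n hn x hx
  refine sub_eq_zero.1 (TWLM.eq_zero_of_ge (v := v) fun b => ?_)
  obtain ⟨f, hf, h3⟩ := hw.dense hx (b + n * σ)
  have hfm : f.eval u ∈ cadj v C u := TWLM.eval_mem_cadj hf
  have h4 := n1 n _ (sub_mem hx hfm) _ h3
  have h5 := n2 n _ (sub_mem hx hfm) _ h3
  rw [h1.sub n hx hfm] at h4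
  rw [h2.sub n hx hfm] at h5
  have e : Ψ n x - Ψ' n x = (Ψ n x - Ψ n (f.eval u)) - (Ψ' n x - Ψ' n (f.eval u)) := by
    rw [hpoly n hn f hf]
    ring
  rw [e]
  exact (h4.mono (by linarith)).sub (h5.mono (by linarith))

variable {p : ℕ} [hp : Fact p.Prime] [CharP Ω p] {m : ℕ}

omit [Algebra k Ω] in
/-- The jets `h(α) + b β` are near the jets `U(α)` below the end of the window. -/
theorem comp_gt {L j₁ T₀ M : ℕ}
    (hL : ∀ n : ℕ, 2 * L < n → v.Ge (r - n * σ) (PowerSeries.coeff n U))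
    (hres : ∀ n : ℕ, 2 * L < n → (∀ i, n ≠ p ^ i) → Gt v (r - n * σ) (PowerSeries.coeff n U))
    (hj₁ : 2 * L < p ^ j₁) {T : Finset ℕ} {c : ℕ → Ω} (hT : ∀ t ∈ T, t ≤ T₀)
    (hcv : ∀ t ∈ T, v.Ge (σ - p ^ t * σ) (c t))
    (hwin : ∀ j, j₁ + T₀ ≤ j → j < j₁ + T₀ + M → Gt v (r - p ^ j * σ)
      (Dj p (fun j => PowerSeries.coeff (p ^ j) U) T c j)) {b : Ω} {a : ℕ → Ω}
    (ha : ∀ i, Gt v (r - p ^ i * σ) ((∑ t ∈ T, if t + j₁ ≤ i then
      PowerSeries.coeff (p ^ (i - t)) U * c t ^ p ^ (i - t) else 0) - b * a i)) {n : ℕ}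
    (hn : n < p ^ (j₁ + T₀ + M)) :
    Gt v (r - n * σ) (PowerSeries.coeff n (U.subst (alp p T c)) -
      (PowerSeries.coeff n ((Sn U (p ^ j₁)).subst (alp p T c)) +
        b * PowerSeries.coeff n (alp p (range (j₁ + T₀)) a))) := by
  classical
  have hp1 := hp.out.one_lt
  have hα : PowerSeries.constantCoeff (alp p T c) = 0 := const_alp
  have hαv := coeff_alp_ge (p := p) hcv
  have hpowv : ∀ l : ℕ, v.Ge (l * σ - n * σ) (PowerSeries.coeff n (alp p T c ^ l)) := by
    intro l
    exact TWN1.pow_ge (σ := σ) hαv l n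
  -- the difference
  have e1 : PowerSeries.coeff n (U.subst (alp p T c)) -
      PowerSeries.coeff n ((Sn U (p ^ j₁)).subst (alp p T c)) =
      ∑ l ∈ range (n + 1), if l < p ^ j₁ then 0 else
        PowerSeries.coeff l U * PowerSeries.coeff n (alp p T c ^ l) := by
    rw [coeff_subst_eq hα, coeff_subst_eq hα, ← sum_sub_distrib]
    refine sum_congr rfl fun l _ => ?_
    rw [coeff_Sn]
    split_ifs <;> ring
  -- the powers of `p`
  have e2 : ∀ l : ℕ, p ^ j₁ ≤ l → (∃ j, l = p ^ j) →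
      PowerSeries.coeff l U * PowerSeries.coeff n (alp p T c ^ l) =
      ∑ t ∈ T, if n = p ^ t * l then PowerSeries.coeff l U * c t ^ l else 0 := by
    rintro l hl ⟨j, rfl⟩
    rw [alp_pow, mul_sum]
    refine sum_congr rfl fun t _ => ?_
    rw [← pow_add]
    split_ifs
    · rfl
    · rw [mul_zero]
  have e3 : PowerSeries.coeff n (U.subst (alp p T c)) -
      PowerSeries.coeff n ((Sn U (p ^ j₁)).subst (alp p T c)) =
      (∑ l ∈ range (n + 1), if l < p ^ j₁ ∨ ∃ j, l = p ^ j then 0 else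
        PowerSeries.coeff l U * PowerSeries.coeff n (alp p T c ^ l)) +
      ∑ t ∈ T, ∑ l ∈ range (n + 1), if (p ^ j₁ ≤ l ∧ ∃ j, l = p ^ j) ∧ n = p ^ t * l then
        PowerSeries.coeff l U * c t ^ l else 0 := by
    rw [e1, sum_comm, ← sum_add_distrib]
    refine sum_congr rfl fun l _ => ?_
    by_cases h1 : l < p ^ j₁
    · rw [if_pos h1, if_pos (Or.inl h1), sum_eq_zero fun t _ => if_neg (by omega), add_zero]
    · by_cases h2 : ∃ j, l = p ^ j
      · rw [if_neg h1, if_pos (Or.inr h2), zero_add, e2 l (by omega) h2]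
        refine sum_congr rfl fun t _ => ?_
        by_cases h3 : n = p ^ t * l
        · rw [if_pos h3, if_pos ⟨⟨by omega, h2⟩, h3⟩]
        · rw [if_neg h3, if_neg fun h4 => h3 h4.2]
      · rw [if_neg h1, if_neg (by tauto), sum_eq_zero fun t _ => if_neg (by tauto), add_zero]
  have h1 : Gt v (r - n * σ) (∑ l ∈ range (n + 1), if l < p ^ j₁ ∨ ∃ j, l = p ^ j then 0 else
      PowerSeries.coeff l U * PowerSeries.coeff n (alp p T c ^ l)) := by
    refine Gt.sum _ _ fun l _ => ?_
    split_ifs with h2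
    · exact Gt.zero
    · push Not at h2
      have h3 := hres l (by omega) h2.2
      exact (h3.mul_ge (hpowv l)).mono (by linarith)
  by_cases hpow : ∃ i, n = p ^ i
  · obtain ⟨i, rfl⟩ := hpow
    -- the sum over `t`
    have h2 : ∀ t ∈ T, (∑ l ∈ range (p ^ i + 1), if (p ^ j₁ ≤ l ∧ ∃ j, l = p ^ j) ∧
        p ^ i = p ^ t * l then PowerSeries.coeff l U * c t ^ l else 0) =
        if t + j₁ ≤ i then PowerSeries.coeff (p ^ (i - t)) U * c t ^ p ^ (i - t) else 0 := by
      intro t ht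
      split_ifs with h3
      · have h4 : p ^ i = p ^ t * p ^ (i - t) := by rw [← pow_add, Nat.add_sub_cancel' (by omega)]
        rw [sum_eq_single (p ^ (i - t))]
        · rw [if_pos ⟨⟨Nat.pow_le_pow_right hp.out.pos (by omega), _, rfl⟩, h4⟩]
        · intro l _ hl
          refine if_neg fun h5 => hl ?_
          exact Nat.eq_of_mul_eq_mul_left (pow_pos hp.out.pos t) (h5.2.symm.trans h4)
        · intro h5
          exact absurd (mem_range.2 (Nat.lt_succ_of_le
            (Nat.pow_le_pow_right hp.out.pos (Nat.sub_le i t)))) h5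
      · refine sum_eq_zero fun l _ => if_neg ?_
        rintro ⟨⟨h4, j, rfl⟩, h5⟩
        rw [← pow_add] at h5
        have h6 := Nat.pow_right_injective hp.out.two_le h5
        have h7 := (Nat.pow_le_pow_iff_right hp1).1 h4
        omega
    have h4 := ha i
    have h5 : PowerSeries.coeff (p ^ i) (alp p (range (j₁ + T₀)) a) =
        if i < j₁ + T₀ then a i else 0 := by
      rw [coeff_alp]
      split_ifs with h6
      · rw [sum_eq_single i]
        · rw [if_pos rfl]
        · intro t _ ht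
          exact if_neg fun h7 => ht (Nat.pow_right_injective hp.out.two_le h7).symm
        · intro h7
          exact absurd (mem_range.2 h6) h7
      · refine sum_eq_zero fun t ht => if_neg fun h7 => ?_
        have h8 := Nat.pow_right_injective hp.out.two_le h7
        have h9 := mem_range.1 ht
        exact h6 (h8 ▸ h9)
    have e4 : PowerSeries.coeff (p ^ i) (U.subst (alp p T c)) -
        (PowerSeries.coeff (p ^ i) ((Sn U (p ^ j₁)).subst (alp p T c)) +
          b * PowerSeries.coeff (p ^ i) (alp p (range (j₁ + T₀)) a)) =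
        (∑ l ∈ range (p ^ i + 1), if l < p ^ j₁ ∨ ∃ j, l = p ^ j then 0 else
          PowerSeries.coeff l U * PowerSeries.coeff (p ^ i) (alp p T c ^ l)) +
        ((∑ t ∈ T, if t + j₁ ≤ i then
          PowerSeries.coeff (p ^ (i - t)) U * c t ^ p ^ (i - t) else 0) -
          b * if i < j₁ + T₀ then a i else 0) := by
      rw [sub_add_eq_sub_sub, e3, h5, sum_congr rfl h2]
      ring
    rw [e4]
    refine h1.add ?_
    push_cast
    split_ifs with h6
    · exact h4
    · rw [mul_zero, sub_zero]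
      have h7 : i < j₁ + T₀ + M := (Nat.pow_lt_pow_iff_right hp1).1 hn
      have h8 := hwin i (by omega) h7
      rw [Dj] at h8
      have e5 : (∑ t ∈ T, if t + j₁ ≤ i then
          PowerSeries.coeff (p ^ (i - t)) U * c t ^ p ^ (i - t) else 0) =
          ∑ t ∈ T, PowerSeries.coeff (p ^ (i - t)) U * c t ^ p ^ (i - t) :=
        sum_congr rfl fun t ht => if_pos (by have := hT t ht; omega)
      rw [e5]
      exact h8
  · push Not at hpow
    have h2 : (∑ t ∈ T, ∑ l ∈ range (n + 1), if (p ^ j₁ ≤ l ∧ ∃ j, l = p ^ j) ∧ n = p ^ t * l then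
        PowerSeries.coeff l U * c t ^ l else 0) = 0 := by
      refine sum_eq_zero fun t _ => sum_eq_zero fun l _ => if_neg ?_
      rintro ⟨⟨-, j, rfl⟩, h5⟩
      rw [← pow_add] at h5
      exact hpow _ h5
    have h5 : PowerSeries.coeff n (alp p (range (j₁ + T₀)) a) = 0 := by
      rw [coeff_alp]
      exact sum_eq_zero fun t _ => if_neg (hpow t)
    rw [sub_add_eq_sub_sub, e3, h5, h2, add_zero, mul_zero, sub_zero]
    exact h1

end Pool.Agent.TWRS
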