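import Pool.Agent.Lib.TWRS.WinX
import Pool.Agent.Lib.TWRS.Defs
import Pool.Agent.Lib.TWMF.E4

/-!
# Row (Rt), the exit, 3: the exit data of the windows

`Win`: a pointwise strict arc of `K`, the closure of `k(x, y, u, z)`; `y ↦ y + ∑ c_t ε ^ (p ^ t)`, the
`c_t` are in `k(x)[y]`; `Win.exists_xb`: the exit data, all the exponents of the amounts.
-/

set_option autoImplicit false

open Polynomial Finset

namespace Pool.Agent.TWRS

open Pool.Agent.H15JM (RVal)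
open Pool.Agent.LU1 (VPos adj)
open Pool.Agent.D2 (Ctx0)
open Pool.Agent.D2P (clI mem_clI mem_adj_iff mem_adj_self)
open Pool.Agent.TWM
open Pool.Agent.TWEX
open Pool.Agent.TWLM (HSd Oi Arc)
open Pool.Agent.TWMF (XB mv)
open Pool.Agent.TW (Ctx kr)

universe u

/-- The output of the windows. -/
structure Win (p : ℕ) {k Ω : Type u} [Field k] [Field Ω] [Algebra k Ω] (v : RVal Ω)
    (N₀ N K : IntermediateField k Ω) (x y u z : Ω) (σ : ℝ) (D Ψ : ℕ → Ω → Ω) (T₀ : Finset ℕ)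
    (c : ℕ → Ω) : Prop where
  n0 : N₀ = IntermediateField.adjoin k {x}
  x0 : x ≠ 0
  xv : v x ≠ 0
  le0 : N₀ ≤ N
  cN : Cld v N
  fl : SFl p v N y σ D
  denR : ∀ a ∈ cadj v N y, ∀ b : ℝ, ∃ g ∈ Adn N₀ {y}, v.Ge b (a - g)
  cle : cadj v N y ≤ K
  cld : Cld v K
  arc : PwArc v K σ Ψ
  con : ∀ a ∈ N, ∀ l : ℕ, l ≠ 0 → Ψ l a = 0
  jy : ∀ l : ℕ, l ≠ 0 → Ψ l y = ∑ t ∈ T₀, if l = p ^ t then c t else 0
  cR : ∀ t ∈ T₀, c t ∈ Adn N₀ {y}
  cv : ∀ t ∈ T₀, v.Ge (σ - p ^ t * σ) (c t)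
  cx : ∃ t ∈ T₀, c t ≠ 0 ∧ v (c t) = σ - p ^ t * σ
  umem : u ∈ K
  zmem : z ∈ K
  ju : ∀ l : ℕ, l ≠ 0 → Ψ l u ∈ Adn N₀ {y}
  fin_u : ∃ L : ℕ, ∀ l : ℕ, L < l → Ψ l u = 0
  jz : ∀ l : ℕ, l ≠ 0 → Ψ l z ∈ Adn N₀ {y, u}
  fin_z : ∃ L : ℕ, ∀ l : ℕ, L < l → Ψ l z = 0
  den : ∀ a ∈ K, ∀ b : ℝ, ∃ g ∈ Adn N₀ {y, u, z}, v.Ge b (a - g)
  near : ∃ U ∈ K, ∃ R μ : ℝ, 0 < μ ∧ (∀ l : ℕ, l ≠ 0 → v.Ge (R - l * σ + μ) (Ψ l U)) ∧
    ∀ θ : Ω, IsAlgebraic N θ → U ≠ θ ∧ v (U - θ) ≤ R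

variable {k Ω : Type u} [Field k] [Field Ω] [Algebra k Ω] {v : RVal Ω}

/-- A nearly constant element may be replaced by a near element with finitely many jets. -/
theorem near_ring' {K : IntermediateField k Ω} {Ψ : ℕ → Ω → Ω} {σ : ℝ} (hΨ : HSd K Ψ)
    (hnorm : ∀ l : ℕ, ∀ x ∈ K, ∀ b : ℝ, v.Ge b x → v.Ge (b - l * σ) (Ψ l x)) {U U' : Ω}
    (hUK : U ∈ K) (hUK' : U' ∈ K) {R μ : ℝ} (hμ : 0 < μ)
    (hU : ∀ l : ℕ, l ≠ 0 → v.Ge (R - l * σ + μ) (Ψ l U)) (h1 : v.Ge (R + 1) (U - U')) {M : ℕ}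
    (hM : ∀ l : ℕ, M < l → Ψ l U' = 0) :
    ∃ lam' : ℝ, 0 < lam' ∧ ∀ l : ℕ, l ≠ 0 → v.Ge (R - l * (σ - lam')) (Ψ l U') := by
  have hM0 : (0 : ℝ) < M + 1 := by positivity
  refine ⟨min μ 1 / (M + 1), div_pos (lt_min hμ one_pos) hM0, fun l hl => ?_⟩
  by_cases hlM : M < l
  · rw [hM l hlM]
    exact RVal.Ge.zero
  · have h2 : Ψ l U' = Ψ l U - Ψ l (U - U') := by
      rw [← hΨ.sub l hUK (sub_mem hUK hUK')]
      congr 1
      ring
    have h3 : (l : ℝ) ≤ M + 1 := by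
      have : (l : ℝ) ≤ M := by exact_mod_cast not_lt.1 hlM
      linarith
    have h4 : (l : ℝ) * (min μ 1 / (M + 1)) ≤ min μ 1 := by
      rw [mul_div_assoc', div_le_iff₀ hM0, mul_comm]
      exact mul_le_mul_of_nonneg_left h3 (lt_min hμ one_pos).le
    rw [h2]
    refine ((hU l hl).mono ?_).sub ((hnorm l _ (sub_mem hUK hUK') _ h1).mono ?_)
    · linarith [min_le_left μ 1]
    · linarith [min_le_right μ 1]

section win

variable {p : ℕ} {N₀ N K : IntermediateField k Ω} {x y u z : Ω} {σ : ℝ} {D Ψ : ℕ → Ω → Ω}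
  {T₀ : Finset ℕ} {c : ℕ → Ω} (h : Win p v N₀ N K x y u z σ D Ψ T₀ c)
include h

theorem Win.xN₀ : x ∈ N₀ := by
  rw [h.n0]
  exact IntermediateField.mem_adjoin_simple_self k x

theorem Win.nle : N ≤ K := (le_cadj v N y).trans h.cle

theorem Win.xmem : x ∈ K := h.nle (h.le0 h.xN₀)

theorem Win.ymem : y ∈ K := h.cle (self_mem_cadj v N y)

theorem Win.tmem (i : Fin 4) : (![x, y, u, z] : Fin 4 → Ω) i ∈ K := by
  fin_cases i
  · exact h.xmem
  · exact h.ymem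
  · exact h.umem
  · exact h.zmem

/-- Finitely many jets. -/
theorem Win.fin : ∃ M : ℕ, ∀ i l, M < l → Ψ l ((![x, y, u, z] : Fin 4 → Ω) i) = 0 := by
  obtain ⟨M₁, h1⟩ := h.fin_u
  obtain ⟨M₂, h2⟩ := h.fin_z
  refine ⟨M₁ + M₂ + ∑ t ∈ T₀, p ^ t, fun i l hl => ?_⟩
  fin_cases i
  · exact h.con x (h.le0 h.xN₀) l (by omega)
  · change Ψ l y = 0
    rw [h.jy l (by omega)]
    refine sum_eq_zero fun t ht => if_neg ?_
    have h3 : p ^ t ≤ ∑ t ∈ T₀, p ^ t :=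
      single_le_sum (f := fun t => p ^ t) (fun _ _ => Nat.zero_le _) ht
    omega
  · exact h1 l (by omega)
  · exact h2 l (by omega)

/-- **Amounts.** -/
theorem Win.amt [IsAlgClosed Ω] [hp : Fact p.Prime] [CharP Ω p] (h0 : Ctx0 k v)
    (hcv : CompleteV v) {H : Fin 4 → Polynomial Ω}
    (hH : ∀ i l, (H i).coeff l = Ψ l ((![x, y, u, z] : Fin 4 → Ω) i)) (e : ℕ) (Λ : ℝ) :
    ∃ σ₀ : ℝ, σ₀ < σ ∧ ∀ a b : ℝ, σ₀ ≤ a → a < b → b ≤ σ →
      ∃ P Q : MvPolynomial (Fin 4) k, ∃ d : Ω,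
        MvPolynomial.aeval (![x, y, u, z] : Fin 4 → Ω) P ≠ 0 ∧
        MvPolynomial.aeval (![x, y, u, z] : Fin 4 → Ω) Q ≠ 0 ∧
        d = (MvPolynomial.aeval (![x, y, u, z] : Fin 4 → Ω) P /
          MvPolynomial.aeval (![x, y, u, z] : Fin 4 → Ω) Q) ^ p ^ e ∧ a < v d ∧ v d < b ∧
        v.Ge Λ (d - (MvPolynomial.aeval (mv H d) P / MvPolynomial.aeval (mv H d) Q) ^ p ^ e) := by
  classical
  obtain ⟨T, hT⟩ : ∃ T : Fin 4 → Ω, T = ![x, y, u, z] := ⟨_, rfl⟩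
  have hTK : ∀ i, T i ∈ K := by
    rw [hT]
    exact h.tmem
  rw [← hT] at hH ⊢
  have hT0 : T 0 = x := by rw [hT]; rfl
  have hT1 : T 1 = y := by rw [hT]; rfl
  have hT2 : T 2 = u := by rw [hT]; rfl
  have hT3 : T 3 = z := by rw [hT]; rfl
  have hNK := h.nle
  obtain ⟨U, hUK, R, μ, hμ, hUΨ, hfar⟩ := h.near
  obtain ⟨U', hU'm, hUU'⟩ := h.den U hUK (R + 1)
  obtain ⟨F, hF⟩ := exists_lift_adn (T := T) (S := {y, u, z}) (by
    rintro a (rfl | ha)
    · exact ⟨1, hT1⟩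
    · rcases ha with rfl | ha
      · exact ⟨2, hT2⟩
      · rw [Set.mem_singleton_iff.1 ha]
        exact ⟨3, hT3⟩) hU'm
  have hcon : ∀ a ∈ N₀, ∀ l : ℕ, l ≠ 0 → Ψ l a = 0 := fun a ha l hl => h.con a (h.le0 ha) l hl
  have hco := coeff_aeval_H h.arc.toHSd (h.le0.trans hNK) hcon hTK hH F
  rw [hF] at hco
  obtain ⟨lam', hlam', hU'Ψ⟩ := near_ring' h.arc.toHSd (fun l x hx b hb => h.arc.norm l hx hb)
    hUK hco.1 hμ hUΨ hUU' (M := (MvPolynomial.aeval H F).natDegree) (fun l hl => by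
      rw [← hco.2]
      exact coeff_eq_zero_of_natDegree_lt hl)
  have hfar' : ∀ θ : Ω, IsAlgebraic N θ → U' ≠ θ ∧ v (U' - θ) ≤ R := by
    intro θ hθ
    obtain ⟨h1, h2⟩ := hfar θ hθ
    have h3 : Gt v (v (U - θ)) ((U - θ) - (U' - θ)) := by
      rw [show (U - θ) - (U' - θ) = U - U' by ring]
      exact Gt.of_ge hUU' (by linarith)
    obtain ⟨h4, h5⟩ := Gt.val_eq (sub_ne_zero.2 h1) h3
    exact ⟨sub_ne_zero.1 h4, by rw [h5]; exact h2⟩
  have hcN₀ : clI v N₀ ≤ N := clI_le h.cN h.le0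
  have hle : cadj v (clI v N₀) U' ≤ clI v (adj N₀ U') :=
    cadj_le (cld_clI v _) (clI_mono (mem_adj_self N₀ U').2) (le_clI _ (mem_adj_self N₀ U').1)
  have hdense : ∀ a b : ℝ, a < b → ∃ c ∈ adj N₀ U', c ≠ 0 ∧ a < v c ∧ v c < b := by
    intro a b hab
    obtain ⟨c, hc, hc0, h1, h2⟩ := dense_values h0 hcv (cld_clI v N₀)
      (le_cadj v (clI v N₀) U') (le_clI _ h.xN₀) h.x0 h.xv (self_mem_cadj v _ U')
      (fun h3 => (hfar' U' (D2P.isAlgebraic_mono hcN₀ h3)).1 rfl) hab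
    obtain ⟨c', hc', h3⟩ := mem_clI.1 (hle hc) (v c + 1)
    obtain ⟨h4, h5⟩ := Gt.val_eq hc0 (Gt.of_ge h3 (by linarith))
    exact ⟨c', hc', h4, by rw [h5]; exact h1, by rw [h5]; exact h2⟩
  refine amt_of_near h.arc.toHSd h.n0 (h.le0.trans hNK) hcon hT0 hTK hH (F := F) (R := R) hlam'
    (by rw [hF]; exact hU'Ψ) (fun θ hθ => ?_) (by rw [hF]; exact hdense) e Λ
  rw [hF]
  exact hfar' θ (D2P.isAlgebraic_mono h.le0 hθ)

/-- **Crossing.** -/
theorem Win.cross [hp : Fact p.Prime] [CharP Ω p] {H : Fin 4 → Polynomial Ω}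
    (hH : ∀ i l, (H i).coeff l = Ψ l ((![x, y, u, z] : Fin 4 → Ω) i))
    {ρ : ℝ} (hρ : ρ < σ) : ∃ (P : MvPolynomial (Fin 4) k) (l : ℕ), l ≠ 0 ∧
      (MvPolynomial.aeval H P).coeff l ≠ 0 ∧
      Gt v (v ((MvPolynomial.aeval H P).coeff l) + l * ρ) ((MvPolynomial.aeval H P).coeff 0) := by
  obtain ⟨t, ht, hc0, hcv⟩ := h.cx
  refine cross_of_near h.arc.toHSd (fun l x hx b hb => h.arc.norm l hx hb) h.n0
    (h.le0.trans h.nle) (fun a ha l hl => h.con a (h.le0 ha) l hl) h.ymem (T := ![x, y, u, z])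
    (i₀ := 0) (i₁ := 1) rfl rfl h.tmem hH (t := t) (c := c t) ?_ hc0 hcv h.nle
    (fun a ha l hl => h.con a ha l hl) h.fl.lim
    (fun n hn b => h.denR n (le_cadj v N y hn) b) hρ
  rw [h.jy _ (pow_pos hp.out.pos t).ne', sum_eq_single t]
  · rw [if_pos rfl]
  · intro s _ hs
    rw [if_neg]
    intro h1
    exact hs (Nat.pow_right_injective hp.out.two_le h1).symm
  · exact fun h1 => absurd ht h1

/-- **Back.** -/
theorem Win.back [hp : Fact p.Prime] [CharP Ω p] {H : Fin 4 → Polynomial Ω}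
    (hH : ∀ i l, (H i).coeff l = Ψ l ((![x, y, u, z] : Fin 4 → Ω) i)) (Λ : ℝ) :
    ∃ σ₂ : ℝ, σ₂ < σ ∧ ∃ Λ' : ℝ, ∀ d : Ω, ∀ d' ∈ kr k (mv H d), v.Ge σ₂ d → v.Ge Λ' (d - d') →
      ∃ s : Fin 4 → Ω, (∀ i, s i ∈ kr k (mv H d)) ∧
        ∀ i, v.Ge Λ ((![x, y, u, z] : Fin 4 → Ω) i - s i) := by
  classical
  have hp1 : 1 ≤ p := hp.out.one_le
  obtain ⟨M, hM⟩ := h.fin
  -- the moved coordinates
  have hmv : ∀ (d : Ω) (i : Fin 4), mv H d i = (![x, y, u, z] : Fin 4 → Ω) i +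
      ∑ l ∈ range M, Ψ (l + 1) ((![x, y, u, z] : Fin 4 → Ω) i) * d ^ (l + 1) := by
    intro d i
    have h1 : (H i).natDegree < M + 1 := by
      refine Nat.lt_succ_of_le (natDegree_le_iff_coeff_eq_zero.2 fun l hl => ?_)
      rw [hH]
      exact hM i l hl
    unfold mv
    rw [eval_eq_sum_range' h1, sum_range_succ', hH, h.arc.c0 _ (h.tmem i), pow_zero, mul_one,
      add_comm]
    congr 1
    exact sum_congr rfl fun l _ => by rw [hH]
  -- the polynomials of `u`, `z`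
  have hAu : ∀ l : ℕ, l ≠ 0 → ∃ F : MvPolynomial (Fin 1) N₀,
      Ψ l u = MvPolynomial.aeval (![y] : Fin 1 → Ω) F := by
    intro l hl
    obtain ⟨F, hF⟩ := exists_lift_adn (T := (![y] : Fin 1 → Ω)) (S := {y}) (by
      intro a ha
      exact ⟨0, (Set.mem_singleton_iff.1 ha).symm⟩) (h.ju l hl)
    exact ⟨F, hF.symm⟩
  have hAz : ∀ l : ℕ, l ≠ 0 → ∃ F : MvPolynomial (Fin 2) N₀,
      Ψ l z = MvPolynomial.aeval (![y, u] : Fin 2 → Ω) F := by
    intro l hl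
    obtain ⟨F, hF⟩ := exists_lift_adn (T := (![y, u] : Fin 2 → Ω)) (S := {y, u}) (by
      rintro a (rfl | ha)
      · exact ⟨0, rfl⟩
      · exact ⟨1, (Set.mem_singleton_iff.1 ha).symm⟩) (h.jz l hl)
    exact ⟨F, hF.symm⟩
  obtain ⟨Bz, hBz⟩ := back_step (v := v) hAz M (σ - 1) Λ
  obtain ⟨Bu, hBu⟩ := back_step (v := v) hAu M (σ - 1) (max Λ Bz)
  -- the polynomials of `y`
  have hcy : ∀ t : ℕ, ∃ f : Polynomial Ω, t ∈ T₀ → f ∈ PI N₀ ∧ c t = f.eval y := by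
    intro t
    by_cases ht : t ∈ T₀
    · obtain ⟨f, hf, h1⟩ := mem_adn_singleton (h.cR t ht)
      exact ⟨f, fun _ => ⟨hf, h1⟩⟩
    · exact ⟨0, fun h1 => absurd h1 ht⟩
  choose f hf using hcy
  obtain ⟨n, hn⟩ : ∃ n : ℕ, ∀ t ∈ T₀, (f t).natDegree ≤ n :=
    ⟨∑ t ∈ T₀, (f t).natDegree, fun t ht =>
      single_le_sum (f := fun t => (f t).natDegree) (fun _ _ => Nat.zero_le _) ht⟩
  obtain ⟨tm, htm⟩ : ∃ tm : ℕ, ∀ t ∈ T₀, t ≤ tm :=
    ⟨∑ t ∈ T₀, t, fun t ht => single_le_sum (f := fun t => t) (fun _ _ => Nat.zero_le _) ht⟩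
  -- the margin
  obtain ⟨μ, hμ, hjet⟩ : ∃ μ : ℝ, 0 < μ ∧ ∀ t ∈ T₀, ∀ l : ℕ, l ≠ 0 →
      v.Ge (σ - p ^ t * σ - l * σ + μ) ((hasseDeriv l (f t)).eval y) := by
    obtain ⟨μ, hμ, h1⟩ := exists_margin (T₀ ×ˢ (Icc 1 n))
      (fun (a : ℕ × ℕ) η => v.Ge (σ - p ^ a.1 * σ - a.2 * σ + η)
        ((hasseDeriv a.2 (f a.1)).eval y))
      (fun a ha => by
        obtain ⟨h2, h3⟩ := mem_product.1 ha
        obtain ⟨h4, h5⟩ := mem_Icc.1 h3
        obtain ⟨η, hη, h6⟩ := h.fl.str a.2 (by omega)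
        have hfN : f a.1 ∈ PI N := fun i => h.le0 ((hf a.1 h2).1 i)
        refine ⟨η, hη, ?_⟩
        rw [← h.fl.poly a.2 _ hfN]
        refine h6 _ (TWLM.eval_mem_cadj hfN) _ ?_
        rw [← (hf a.1 h2).2]
        exact h.cv a.1 h2)
      (fun a _ η η' h1 h2 => h2.mono (by linarith))
    refine ⟨μ, hμ, fun t ht l hl => ?_⟩
    by_cases hln : l ≤ n
    · exact h1 (t, l) (mem_product.2 ⟨ht, mem_Icc.2 ⟨by omega, hln⟩⟩)
    · rw [hasseDeriv_eq_zero_of_lt_natDegree _ _ (lt_of_le_of_lt (hn t ht) (not_le.1 hln)),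
        eval_zero]
      exact RVal.Ge.zero
  obtain ⟨Λy, hΛy⟩ : ∃ Λy : ℝ, Λy = max (max σ Λ) (max Bu Bz) := ⟨_, rfl⟩
  obtain ⟨β, hβ0, hβ1, hβ⟩ : ∃ β : ℝ, 0 < β ∧ β ≤ 1 ∧ ((n : ℝ) + 1) * (p ^ tm * β) ≤ μ / 2 := by
    have h2 : (0 : ℝ) < (n + 1) * p ^ tm := by
      have : (0 : ℝ) < p := by exact_mod_cast hp.out.pos
      positivity
    refine ⟨min 1 (μ / 2 / ((n + 1) * p ^ tm)), lt_min one_pos (by positivity),
      min_le_left _ _, ?_⟩
    rw [← mul_assoc]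
    refine (mul_le_mul_of_nonneg_left (min_le_right _ _) h2.le).trans ?_
    rw [mul_div_cancel₀ _ h2.ne']
  refine ⟨σ - β, by linarith, max (σ + (Λy - σ)) (max Bu Bz), fun d d' hd' hd hdd => ?_⟩
  obtain ⟨E, hE⟩ : ∃ E : IntermediateField k Ω, E = kr k (mv H d) := ⟨_, rfl⟩
  rw [← hE] at hd'
  have hmE : ∀ i, mv H d i ∈ E := fun i => by
    rw [hE]
    exact IntermediateField.subset_adjoin k _ ⟨i, rfl⟩
  have hm0 : mv H d 0 = x := by
    rw [hmv]
    change x + ∑ l ∈ range M, Ψ (l + 1) x * d ^ (l + 1) = x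
    rw [sum_eq_zero fun l _ => by
      rw [h.con x (h.le0 h.xN₀) (l + 1) (Nat.succ_ne_zero l), zero_mul], add_zero]
  have hxE : x ∈ E := hm0 ▸ hmE 0
  have hN₀E : N₀ ≤ E := by
    rw [h.n0, IntermediateField.adjoin_simple_le_iff]
    exact hxE
  have hd1 : v.Ge (σ - 1) d := hd.mono (by linarith)
  -- `y`
  have hyy : mv H d 1 = y + ∑ t ∈ T₀, (f t).eval y * d ^ p ^ t := by
    rw [hmv]
    change y + ∑ l ∈ range M, Ψ (l + 1) y * d ^ (l + 1) = _
    congr 1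
    have h1 : ∀ l ∈ range M, Ψ (l + 1) y * d ^ (l + 1) =
        ∑ t ∈ T₀, if l + 1 = p ^ t then c t * d ^ (l + 1) else 0 := by
      intro l _
      rw [h.jy _ (Nat.succ_ne_zero l), sum_mul]
      refine sum_congr rfl fun t _ => ?_
      split_ifs
      · rfl
      · rw [zero_mul]
    rw [sum_congr rfl h1, sum_comm]
    refine sum_congr rfl fun t ht => ?_
    have hpt : 0 < p ^ t := pow_pos hp.out.pos t
    by_cases htM : p ^ t - 1 < M
    · rw [sum_eq_single (p ^ t - 1)]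
      · rw [if_pos (by omega), ← (hf t ht).2]
        congr 2
        omega
      · intro l _ hl
        rw [if_neg (by omega)]
      · intro h2
        exact absurd (mem_range.2 htM) h2
    · have hct : c t = 0 := by
        have h2 := hM 1 (p ^ t) (by omega)
        change Ψ (p ^ t) y = 0 at h2
        rw [h.jy _ hpt.ne', sum_eq_single t] at h2
        · rwa [if_pos rfl] at h2
        · intro s _ hs
          rw [if_neg]
          intro h3
          exact hs (Nat.pow_right_injective hp.out.two_le h3).symm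
        · exact fun h3 => absurd ht h3
      rw [← (hf t ht).2, hct, zero_mul]
      refine sum_eq_zero fun l _ => ?_
      split_ifs <;> simp
  obtain ⟨Y, hY, hYy⟩ := back_iter hp1 hN₀E (hmE 1) hd' (fun t ht => (hf t ht).1) hn htm hμ
    hβ0.le hβ (fun t ht => by
      rw [← (hf t ht).2]
      exact h.cv t ht) hjet (Λ := Λy) (by
        rw [hΛy]
        exact (le_max_left _ _).trans (le_max_left _ _)) hd (hdd.mono (le_max_left _ _)) hyy
  have hyY : v.Ge Λy (y - Y) := by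
    have e : y - Y = -(Y - y) := by ring
    rw [e]
    exact hYy.neg
  -- `u`
  obtain ⟨su, hsu, hsu'⟩ := hBu E ![Y] d d' u (mv H d 2) hN₀E (fun i => by
      fin_cases i
      exact hY) hd' (hmE 2) (fun i => by
      fin_cases i
      exact hyY.mono (by
        rw [hΛy]
        exact (le_max_left _ _).trans (le_max_right _ _))) hd1
      (hdd.mono ((le_max_left _ _).trans (le_max_right _ _))) (hmv d 2)
  -- `z`
  obtain ⟨sz, hsz, hsz'⟩ := hBz E ![Y, su] d d' z (mv H d 3) hN₀E (fun i => by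
      fin_cases i
      · exact hY
      · exact hsu) hd' (hmE 3) (fun i => by
      fin_cases i
      · exact hyY.mono (by
          rw [hΛy]
          exact (le_max_right _ _).trans (le_max_right _ _))
      · exact hsu'.mono (le_max_right _ _)) hd1
      (hdd.mono ((le_max_right _ _).trans (le_max_right _ _))) (hmv d 3)
  refine ⟨![x, Y, su, sz], fun i => ?_, fun i => ?_⟩
  · rw [← hE]
    fin_cases i
    · exact hxE
    · exact hY
    · exact hsu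
    · exact hsz
  · fin_cases i
    · change v.Ge Λ (x - x)
      rw [sub_self]
      exact RVal.Ge.zero
    · exact hyY.mono (by
        rw [hΛy]
        exact (le_max_right _ _).trans (le_max_left _ _))
    · exact hsu'.mono (le_max_left _ _)
    · exact hsz'

/-- **The exit data**, amounts `p ^ e`-th powers. -/
theorem Win.exists_xb [IsAlgClosed Ω] [hp : Fact p.Prime] [CharP Ω p] (h0 : Ctx0 k v)
    (hcv : CompleteV v) (hind : AlgebraicIndependent k (![x, y, u, z] : Fin 4 → Ω)) :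
    ∃ H : Fin 4 → Polynomial Ω, (∀ i l, (H i).coeff l = Ψ l ((![x, y, u, z] : Fin 4 → Ω) i)) ∧
      ∀ e : ℕ, XB k (p ^ e) v (![x, y, u, z] : Fin 4 → Ω) H σ := by
  classical
  obtain ⟨M, hM⟩ := h.fin
  set H : Fin 4 → Polynomial Ω := fun i =>
    ∑ l ∈ range (M + 1), monomial l (Ψ l ((![x, y, u, z] : Fin 4 → Ω) i)) with hHd
  have hH : ∀ i l, (H i).coeff l = Ψ l ((![x, y, u, z] : Fin 4 → Ω) i) := by
    intro i l
    rw [hHd]
    simp only [finsetSum_coeff, coeff_monomial]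
    rw [sum_ite_eq' (range (M + 1)) l]
    split_ifs with hl
    · rfl
    · exact (hM i l (by simpa using hl)).symm
  have hTk : ∀ i, (![x, y, u, z] : Fin 4 → Ω) i ∈ kr k (![x, y, u, z] : Fin 4 → Ω) := fun i =>
    IntermediateField.subset_adjoin k _ ⟨i, rfl⟩
  have hN₀k : N₀ ≤ kr k (![x, y, u, z] : Fin 4 → Ω) := by
    rw [h.n0, IntermediateField.adjoin_simple_le_iff]
    exact hTk 0
  have hadn : ∀ (S : Set Ω), (∀ a ∈ S, a ∈ kr k (![x, y, u, z] : Fin 4 → Ω)) →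
      ∀ a ∈ Adn N₀ S, a ∈ kr k (![x, y, u, z] : Fin 4 → Ω) := by
    intro S hS a ha
    induction ha using Algebra.adjoin_induction with
    | mem a ha => exact hS a ha
    | algebraMap c => exact hN₀k c.2
    | add a b _ _ ha hb => exact add_mem ha hb
    | mul a b _ _ ha hb => exact mul_mem ha hb
  refine ⟨H, hH, fun e => ?_⟩
  refine
    { ind := hind
      c0 := fun i => by rw [hH, h.arc.c0 _ (h.tmem i)]
      mem := fun i l => ?_
      str := fun P hP l hl => ?_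
      amt := fun Λ => ?_
      cross := ⟨σ - 1, by linarith, fun ρ _ hρ => h.cross hH hρ⟩
      back := fun Λ => ?_ }
  · rw [hH]
    by_cases hl : l = 0
    · rw [hl, h.arc.c0 _ (h.tmem i)]
      exact hTk i
    · fin_cases i
      · change Ψ l x ∈ _
        rw [h.con x (h.le0 h.xN₀) l hl]
        exact zero_mem _
      · change Ψ l y ∈ _
        rw [h.jy l hl]
        refine sum_mem fun t ht => ?_
        split_ifs
        · exact hadn {y} (fun a ha => by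
            rw [Set.mem_singleton_iff.1 ha]
            exact hTk 1) _ (h.cR t ht)
        · exact zero_mem _
      · exact hadn {y} (fun a ha => by
            rw [Set.mem_singleton_iff.1 ha]
            exact hTk 1) _ (h.ju l hl)
      · refine hadn {y, u} ?_ _ (h.jz l hl)
        rintro a (rfl | ha)
        · exact hTk 1
        · rw [Set.mem_singleton_iff.1 ha]
          exact hTk 2
  · have h1 := coeff_aeval_H (N := (⊥ : IntermediateField k Ω)) h.arc.toHSd bot_le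
      (fun a ha l hl => by
        obtain ⟨c, rfl⟩ := IntermediateField.mem_bot.1 ha
        exact h.arc.con l hl c) h.tmem hH
      (MvPolynomial.map (algebraMap k (⊥ : IntermediateField k Ω)) P)
    rw [MvPolynomial.aeval_map_algebraMap, MvPolynomial.aeval_map_algebraMap] at h1
    rw [h1.2]
    exact h.arc.pst l hl _ h1.1 _ (v.ge_self _)
  · obtain ⟨σ₀, h1, h2⟩ := h.amt h0 hcv hH e Λ
    refine ⟨σ₀, h1, fun a b ha hab hb => ?_⟩
    obtain ⟨P, Q, d, hP, hQ, h3, h4, h5, h6⟩ := h2 a b ha hab hb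
    have hae : ∀ (T' : Fin 4 → Ω) (P : MvPolynomial (Fin 4) k),
        MvPolynomial.aeval T' P ∈ kr k T' := fun T' P => by
      induction P using MvPolynomial.induction_on with
      | C a =>
        rw [MvPolynomial.aeval_C]
        exact IntermediateField.algebraMap_mem _ _
      | add P Q hP hQ =>
        rw [map_add]
        exact add_mem hP hQ
      | mul_X P i hP =>
        rw [map_mul, MvPolynomial.aeval_X]
        exact mul_mem hP (IntermediateField.subset_adjoin k _ ⟨i, rfl⟩)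
    subst h3
    exact ⟨_, div_mem (hae _ P) (hae _ Q), _, pow_mem (div_mem (hae _ P) (hae _ Q)) (p ^ e),
      div_ne_zero hP hQ, h4, h5, h6⟩
  · obtain ⟨σ₂, h1, Λ', h2⟩ := h.back hH Λ
    exact ⟨σ₂, h1, Λ', fun d _ d' hd' h3 h4 => h2 d d' hd' h3 h4⟩

end win

end Pool.Agent.TWRS
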