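import Pool.Agent.Lib.TWEX.Near0
import Pool.Agent.Lib.TWEX.Straight
import Pool.Agent.Lib.TWEX.XdA

/-!
# TANK W, windows (first floor strict, `σ` rational), the exit: a nearly constant element

`y → y + α(X)`, `u → u + h(α(X)) + β(X)`.  If `∑ e_i β ^ (p ^ i) = ∑ a_j α ^ (p ^ j)` (Ore), the element
`U = (∑ e_i' (u + h(n' - y)) ^ (p ^ i) + ∑ a_j' (n' - y) ^ (p ^ j)) ^ q`, `n' ^ q ∈ N`, is moved with a
gain in every order.
-/

set_option autoImplicit false

open Polynomial Finset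

namespace Pool.Agent.TWRS

open Pool.Agent.H15JM (RVal)
open Pool.Agent.LU1 (VPos adj)
open Pool.Agent.D2 (Ctx0)
open Pool.Agent.D2P (clI mem_clI mem_adj_iff mem_adj_self)
open Pool.Agent.TWM
open Pool.Agent.TWEX
open Pool.Agent.TWLM (HSd Oi Arc)
open Pool.Agent.TWN1 (ser coeff_ser ahom ahom_apply hasse_map)

universe u'

/-- `v (P_n) ≥ ρ - n σ`. -/
def PBd {Ω : Type u'} [Field Ω] (v : RVal Ω) (σ ρ : ℝ) (P : Polynomial Ω) : Prop :=
  ∀ n : ℕ, v.Ge (ρ - n * σ) (P.coeff n)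

namespace PBd

variable {Ω : Type u'} [Field Ω] {v : RVal Ω} {σ ρ ρ' : ℝ} {P Q : Polynomial Ω}

theorem mono (h : PBd v σ ρ P) (hρ : ρ' ≤ ρ) : PBd v σ ρ' P := fun n => (h n).mono (by linarith)

theorem zero : PBd v σ ρ (0 : Polynomial Ω) := fun n => by
  rw [coeff_zero]
  exact RVal.Ge.zero

theorem add (h : PBd v σ ρ P) (h' : PBd v σ ρ Q) : PBd v σ ρ (P + Q) := fun n => by
  rw [coeff_add]
  exact (h n).add (h' n)

theorem sub (h : PBd v σ ρ P) (h' : PBd v σ ρ Q) : PBd v σ ρ (P - Q) := fun n => by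
  rw [coeff_sub]
  exact (h n).sub (h' n)

theorem sum {ι : Type*} (S : Finset ι) (P : ι → Polynomial Ω) (h : ∀ i ∈ S, PBd v σ ρ (P i)) :
    PBd v σ ρ (∑ i ∈ S, P i) := fun n => by
  rw [finsetSum_coeff]
  exact RVal.Ge.sum _ _ fun i hi => h i hi n

theorem mul (h : PBd v σ ρ P) (h' : PBd v σ ρ' Q) : PBd v σ (ρ + ρ') (P * Q) := fun n => by
  rw [coeff_mul]
  refine RVal.Ge.sum _ _ fun i hi => ((h i.1).mul (h' i.2)).mono ?_
  have h1 : i.1 + i.2 = n := HasAntidiagonal.mem_antidiagonal.1 hi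
  rw [← h1]
  push_cast
  linarith

theorem C {c : Ω} (h : v.Ge ρ c) : PBd v σ ρ (Polynomial.C c) := fun n => by
  rw [coeff_C]
  split_ifs with hn
  · rw [hn]
    simpa using h
  · exact RVal.Ge.zero

theorem one : PBd v σ 0 (1 : Polynomial Ω) := by
  rw [← Polynomial.C_1]
  exact PBd.C fun _ => by rw [v.map_one]

theorem pow (h : PBd v σ ρ P) (n : ℕ) : PBd v σ (n * ρ) (P ^ n) := by
  induction n with
  | zero =>
    rw [pow_zero]
    exact one.mono (by simp)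
  | succ n ih =>
    rw [pow_succ]
    exact (ih.mul h).mono (by push_cast; linarith)

theorem comp (h : PBd v σ ρ P) (h' : PBd v σ σ Q) : PBd v σ ρ (P.comp Q) := by
  rw [Polynomial.comp, eval₂_eq_sum_range]
  refine sum _ _ fun i _ => ((PBd.C (σ := σ) (h i)).mul (h'.pow i)).mono ?_
  linarith

end PBd

section poly

variable {Ω : Type u'} [Field Ω]

/-- Taylor. -/
theorem comp_add_sum (H A S : Polynomial Ω) {L : ℕ} (hL : H.natDegree ≤ L) :
    H.comp (A + S) = ∑ l ∈ range (L + 1), (hasseDeriv l H).comp A * S ^ l := by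
  have h1 := taylor_eval (A : Polynomial Ω) (H.map (C : Ω →+* Polynomial Ω)) S
  rw [add_comm A S]
  have h2 : (H.map (C : Ω →+* Polynomial Ω)).eval (S + A) = H.comp (S + A) := eval_map _ _
  rw [← h2, ← h1, eval_eq_sum_range' (n := L + 1)]
  · refine sum_congr rfl fun l _ => ?_
    rw [taylor_coeff, hasse_map]
    congr 1
    exact eval_map _ _
  · rw [natDegree_taylor]
    exact Nat.lt_succ_of_le (natDegree_map_le.trans hL)

/-- The moved coordinate. -/
theorem moved_eq {L : ℕ} {f : ℕ → Polynomial Ω} {α β : Polynomial Ω} {y u η : Ω} {H : Polynomial Ω}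
    (hH : H = ∑ l ∈ range L, monomial (l + 1) ((f (l + 1)).eval y)) :
    C u + H.comp α + β + ∑ l ∈ range L, (f (l + 1)).comp (C y + α) * (C η - α) ^ (l + 1) =
      C (u + H.eval η) + β + ∑ l ∈ range L,
        (taylor y (f (l + 1)) - hasseDeriv (l + 1) H).comp α * (C η - α) ^ (l + 1) := by
  have hdeg : H.natDegree ≤ L := by
    rw [hH]
    refine natDegree_sum_le_of_forall_le _ _ fun l hl => (natDegree_monomial_le _).trans ?_
    have := mem_range.1 hl
    omega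
  have h1 := comp_add_sum H α (C η - α) hdeg
  rw [sum_range_succ', hasseDeriv_zero, pow_zero, mul_one, add_sub_cancel, comp_C] at h1
  have h2 : ∀ l, (taylor y (f (l + 1))).comp α = (f (l + 1)).comp (C y + α) := by
    intro l
    rw [taylor_apply, comp_assoc, add_comp, X_comp, C_comp, add_comm α]
  simp only [sub_comp, sub_mul, sum_sub_distrib, h2]
  rw [C_add, h1]
  simp only [LinearMap.id_coe, id_eq]
  ring

end poly

section gain

variable {Ω : Type u'} [Field Ω] {v : RVal Ω} {σ r : ℝ}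

/-- The defect of the moved coordinate. -/
theorem err_bd {L : ℕ} {f : ℕ → Polynomial Ω} {H α : Polynomial Ω} {y η : Ω} {τ δ : ℝ}
    (hα : PBd v σ σ α) (hη : v.Ge (σ - τ) η) (hτ : 0 ≤ τ) (hL : L * τ ≤ δ / 2)
    (hd : ∀ l < L, PBd v σ (r - (l + 1 : ℕ) * σ + δ)
      (taylor y (f (l + 1)) - hasseDeriv (l + 1) H)) :
    PBd v σ (r + δ / 2) (∑ l ∈ range L,
      (taylor y (f (l + 1)) - hasseDeriv (l + 1) H).comp α * (C η - α) ^ (l + 1)) := by
  refine PBd.sum _ _ fun l hl => ?_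
  have hl := mem_range.1 hl
  have h1 : PBd v σ (σ - τ) (C η - α) := (PBd.C hη).sub (hα.mono (by linarith))
  refine (((hd l hl).comp hα).mul (h1.pow (l + 1))).mono ?_
  have h2 : ((l + 1 : ℕ) : ℝ) ≤ L := by exact_mod_cast hl
  have h3 := mul_le_mul_of_nonneg_right h2 hτ
  nlinarith

variable {p : ℕ} [hp : Fact p.Prime] [CharP Ω p]

/-- **The motion of the root.** -/
theorem root_bd {I J : ℕ} {e e' a a' : ℕ → Ω} {α β err : Polynomial Ω} {w₀ η : Ω} {R₀ μ δ : ℝ}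
    (hδ : 0 < δ) (hα : PBd v σ σ α) (hβ : PBd v σ r β) (herr : PBd v σ (r + δ) err)
    (he' : ∀ i ≤ I, v.Ge (R₀ - p ^ i * r) (e' i))
    (hee : ∀ i ≤ I, v.Ge (R₀ - p ^ i * r + μ) (e' i - e i))
    (haa : ∀ j ≤ J, v.Ge (R₀ - p ^ j * σ + μ) (a' j - a j))
    (hore : ∑ i ∈ range (I + 1), C (e i) * β ^ p ^ i = ∑ j ∈ range (J + 1), C (a j) * α ^ p ^ j) :
    PBd v σ (R₀ + min μ δ) (∑ i ∈ range (I + 1), C (e' i) * (C w₀ + β + err) ^ p ^ i +
      ∑ j ∈ range (J + 1), C (a' j) * (C η - α) ^ p ^ j -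
      C (∑ i ∈ range (I + 1), e' i * w₀ ^ p ^ i + ∑ j ∈ range (J + 1), a' j * η ^ p ^ j)) := by
  have e1 : ∑ i ∈ range (I + 1), C (e' i) * (C w₀ + β + err) ^ p ^ i +
      ∑ j ∈ range (J + 1), C (a' j) * (C η - α) ^ p ^ j -
      C (∑ i ∈ range (I + 1), e' i * w₀ ^ p ^ i + ∑ j ∈ range (J + 1), a' j * η ^ p ^ j) =
      ∑ i ∈ range (I + 1), C (e' i - e i) * β ^ p ^ i +
      ∑ i ∈ range (I + 1), C (e' i) * err ^ p ^ i -
      ∑ j ∈ range (J + 1), C (a' j - a j) * α ^ p ^ j := by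
    simp only [add_pow_char_pow, sub_pow_char_pow, C_add, C_sub, map_sum, C_mul, C_pow, mul_add,
      mul_sub, sub_mul, sum_add_distrib, sum_sub_distrib]
    rw [hore]
    ring
  rw [e1]
  have hp1 : ∀ i : ℕ, (1 : ℝ) ≤ (p : ℝ) ^ i := fun i =>
    one_le_pow₀ (by exact_mod_cast hp.out.one_lt.le)
  refine PBd.sub (PBd.add (PBd.sum _ _ fun i hi => ?_) (PBd.sum _ _ fun i hi => ?_))
    (PBd.sum _ _ fun j hj => ?_)
  · refine ((PBd.C (hee i (by have := mem_range.1 hi; omega))).mul (hβ.pow (p ^ i))).mono ?_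
    push_cast
    linarith [min_le_left μ δ]
  · refine ((PBd.C (he' i (by have := mem_range.1 hi; omega))).mul (herr.pow (p ^ i))).mono ?_
    push_cast
    have h1 := mul_le_mul_of_nonneg_right (hp1 i) hδ.le
    linarith [min_le_right μ δ]
  · refine ((PBd.C (haa j (by have := mem_range.1 hj; omega))).mul (hα.pow (p ^ j))).mono ?_
    push_cast
    linarith [min_le_left μ δ]

omit hp [CharP Ω p] in
/-- The value of an additive polynomial whose Newton polygon is a segment. -/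
theorem val_addp [Fact p.Prime] {I : ℕ} {e : ℕ → Ω} {R₀ : ℝ}
    (hev : ∀ i ≤ I, e i ≠ 0 → v (e i) = R₀ - p ^ i * r) (hne : ∃ i ≤ I, e i ≠ 0) {x : Ω}
    (hx : x ≠ 0) (hxr : v x < r) : ∑ i ∈ range (I + 1), e i * x ^ p ^ i ≠ 0 ∧
      v (∑ i ∈ range (I + 1), e i * x ^ p ^ i) < R₀ := by
  classical
  have hp2 : (1 : ℝ) < p := by exact_mod_cast (Fact.out : p.Prime).one_lt
  obtain ⟨i₁, hi₁, hmax⟩ := ((range (I + 1)).filter fun i => e i ≠ 0).exists_max_image id (by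
    obtain ⟨i, hi, h0⟩ := hne
    exact ⟨i, mem_filter.2 ⟨mem_range.2 (by omega), h0⟩⟩)
  obtain ⟨hi₁r, hi₁0⟩ := mem_filter.1 hi₁
  have hval : ∀ i ≤ I, e i ≠ 0 → v (e i * x ^ p ^ i) = R₀ - p ^ i * (r - v x) := by
    intro i hi h0
    rw [v.map_mul h0 (pow_ne_zero _ hx), v.map_pow hx, hev i hi h0]
    push_cast
    ring
  have hI : i₁ ≤ I := by have := mem_range.1 hi₁r; omega
  have ht0 : e i₁ * x ^ p ^ i₁ ≠ 0 := mul_ne_zero hi₁0 (pow_ne_zero _ hx)
  have h1 : Gt v (v (e i₁ * x ^ p ^ i₁)) (e i₁ * x ^ p ^ i₁ -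
      ∑ i ∈ range (I + 1), e i * x ^ p ^ i) := by
    rw [← add_sum_erase _ _ hi₁r, sub_add_cancel_left]
    refine Gt.neg (Gt.sum _ _ fun i hi => ?_)
    obtain ⟨hne', hi⟩ := mem_erase.1 hi
    intro h0
    have h2 : e i ≠ 0 := left_ne_zero_of_mul h0
    have h3 : i ≤ I := by have := mem_range.1 hi; omega
    rw [hval i h3 h2, hval i₁ hI hi₁0]
    have h4 : i < i₁ := lt_of_le_of_ne (hmax i (mem_filter.2 ⟨hi, h2⟩)) hne'
    have h5 : (p : ℝ) ^ i < p ^ i₁ := pow_lt_pow_right₀ hp2 h4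
    nlinarith
  obtain ⟨h2, h3⟩ := Gt.val_eq ht0 h1
  refine ⟨h2, ?_⟩
  rw [h3, hval i₁ hI hi₁0]
  have h4 : (0 : ℝ) < (p : ℝ) ^ i₁ := by positivity
  nlinarith

omit hp [CharP Ω p] in
/-- Roots of near elements. -/
theorem ge_of_pow {x : Ω} {q : ℕ} (hq : 0 < q) {b : ℝ} (h : v.Ge (q * b) (x ^ q)) : v.Ge b x := by
  intro hx
  have h1 := h (pow_ne_zero _ hx)
  rw [v.map_pow hx] at h1
  exact le_of_mul_le_mul_left h1 (by exact_mod_cast hq)

omit hp [CharP Ω p] in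
/-- Near constancy, evaluated. -/
theorem near_eval {F : Polynomial Ω} {y η : Ω} {M : ℕ} {ρ μ τ : ℝ} (hM : F.natDegree ≤ M)
    (hη : v.Ge (σ - τ) η) (hτ : 0 ≤ τ) (hMτ : M * τ ≤ μ / 2)
    (hF : ∀ l : ℕ, l ≠ 0 → v.Ge (ρ - l * σ + μ) ((hasseDeriv l F).eval y)) :
    v.Ge (ρ + μ / 2) (F.eval (y + η) - F.eval y) := by
  have e : F.eval (y + η) - F.eval y =
      ∑ l ∈ range M, (hasseDeriv (l + 1) F).eval y * η ^ (l + 1) := by
    have h1 := taylor_eval y F η
    rw [add_comm y η, ← h1, eval_eq_sum_range' (n := M + 1) (by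
      rw [natDegree_taylor]
      exact Nat.lt_succ_of_le hM), sum_range_succ', taylor_coeff_zero, pow_zero, mul_one,
      add_sub_cancel_right]
    exact sum_congr rfl fun l _ => by rw [taylor_coeff]
  rw [e]
  refine RVal.Ge.sum _ _ fun l hl => ?_
  refine ((hF (l + 1) (Nat.succ_ne_zero l)).mul (ge_pow hη (l + 1))).mono ?_
  have h2 : ((l + 1 : ℕ) : ℝ) ≤ M := by exact_mod_cast mem_range.1 hl
  have h3 := mul_le_mul_of_nonneg_right h2 hτ
  nlinarith

end gain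

variable {k Ω : Type u'} [Field k] [Field Ω] [Algebra k Ω] {v : RVal Ω}

/-- The jets of the values of the polynomials over the constants. -/
theorem ser_evalp {N K : IntermediateField k Ω} {Ψ : ℕ → Ω → Ω} (hΨ : HSd K Ψ) (hNK : N ≤ K)
    (hcon : ∀ x ∈ N, ∀ l : ℕ, l ≠ 0 → Ψ l x = 0) {y : Ω} (hy : y ∈ K) {Y : Polynomial Ω}
    (hY : ser Ψ y = (Y : PowerSeries Ω)) {f : Polynomial Ω} (hf : f ∈ PI N) :
    f.eval y ∈ K ∧ ser Ψ (f.eval y) = ((f.comp Y : Polynomial Ω) : PowerSeries Ω) := by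
  have hm : ∀ i, f.coeff i * y ^ i ∈ K := fun i => mul_mem (hNK (hf i)) (pow_mem hy i)
  refine ⟨?_, ?_⟩
  · rw [eval_eq_sum_range]
    exact sum_mem fun i _ => hm i
  · rw [eval_eq_sum_range, ser_sum hΨ _ _ fun i _ => hm i, Polynomial.comp, eval₂_eq_sum_range,
      ← Polynomial.coeToPowerSeries.ringHom_apply, map_sum]
    refine sum_congr rfl fun i _ => ?_
    rw [ser_mul hΨ (hNK (hf i)) (pow_mem hy i), ser_const hΨ (hNK (hf i)) (hcon _ (hf i)),
      ser_pow hΨ hy, hY, map_mul, map_pow, Polynomial.coeToPowerSeries.ringHom_apply,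
      Polynomial.coeToPowerSeries.ringHom_apply, Polynomial.coe_C]

/-- **A nearly constant element.** -/
theorem exists_U [IsAlgClosed Ω] {p : ℕ} [hp : Fact p.Prime] [CharP Ω p]
    {N K : IntermediateField k Ω} {y u : Ω} {σ r : ℝ} {D Ψ : ℕ → Ω → Ω}
    (hD : ∀ m : ℕ, ∀ f ∈ PI N, D m (f.eval y) = (hasseDeriv m f).eval y)
    (hlim : ∀ δ : ℝ, 0 < δ → ∃ j : ℕ, ∃ n ∈ N, v.Ge (p ^ j * (σ - δ)) (y ^ p ^ j - n))
    (hfar : ∀ ξ : Ω, IsAlgebraic (cadj v N y) ξ → u ≠ ξ ∧ v (u - ξ) < r)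
    (hΨ : HSd K Ψ) (hCK : cadj v N y ≤ K) (huK : u ∈ K)
    (hcon : ∀ x ∈ N, ∀ l : ℕ, l ≠ 0 → Ψ l x = 0)
    {α β : Polynomial Ω} (hα0 : α.coeff 0 = 0) (hβ0 : β.coeff 0 = 0) (hα : PBd v σ σ α)
    (hβ : PBd v σ r β) {hh : ℕ → Ω} {L : ℕ} (hh0 : hh 0 = 0) (hhL : ∀ l, L < l → hh l = 0)
    (hhp : ∀ l, ∃ f ∈ PI N, hh l = f.eval y)
    (hco : ∃ δ : ℝ, 0 < δ ∧ ∀ l m : ℕ, l ≠ 0 → l ≤ L → m ≠ 0 → v.Ge (r - (l + m) * σ + δ)
      (D m (hh l) - (((l + m).choose m : ℕ) : Ω) * hh (l + m)))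
    (hΨy : ∀ l : ℕ, l ≠ 0 → Ψ l y = α.coeff l)
    (hΨu : ∀ l : ℕ, l ≠ 0 → Ψ l u = (∑ i ∈ range (L + 1), C (hh i) * α ^ i + β).coeff l)
    {I J : ℕ} {e a : ℕ → Ω} {R₀ : ℝ} (he : ∀ i ≤ I, ∃ F ∈ PI N, e i = F.eval y)
    (ha : ∀ j ≤ J, ∃ F ∈ PI N, a j = F.eval y)
    (hev : ∀ i ≤ I, e i ≠ 0 → v (e i) = R₀ - p ^ i * r) (hne : ∃ i ≤ I, e i ≠ 0)
    (hgain : ∃ μ : ℝ, 0 < μ ∧
      (∀ i ≤ I, ∀ l : ℕ, l ≠ 0 → v.Ge (R₀ - p ^ i * r - l * σ + μ) (D l (e i))) ∧
      ∀ j ≤ J, ∀ l : ℕ, l ≠ 0 → v.Ge (R₀ - p ^ j * σ - l * σ + μ) (D l (a j)))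
    (hore : ∑ i ∈ range (I + 1), C (e i) * β ^ p ^ i = ∑ j ∈ range (J + 1), C (a j) * α ^ p ^ j) :
    ∃ (U : Ω) (R μ : ℝ), U ∈ Adn N {y, u} ∧ U ∈ K ∧ 0 < μ ∧
      (∀ l : ℕ, l ≠ 0 → v.Ge (R - l * σ + μ) (Ψ l U)) ∧
      ∀ θ : Ω, IsAlgebraic (cadj v N y) θ → U ≠ θ ∧ v (U - θ) < R := by
  classical
  obtain ⟨μ, hμ, heg, hag⟩ := hgain
  obtain ⟨δ, hδ, hco⟩ := hco
  have hNC : N ≤ cadj v N y := le_cadj v N y
  have hyC : y ∈ cadj v N y := self_mem_cadj v N y
  have hNK : N ≤ K := hNC.trans hCK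
  have hyK : y ∈ K := hCK hyC
  -- the polynomials
  choose f hf hfe using hhp
  have hex : ∀ (I : ℕ) (e : ℕ → Ω), (∀ i ≤ I, ∃ F ∈ PI N, e i = F.eval y) →
      ∃ F : ℕ → Polynomial Ω, ∀ i ≤ I, F i ∈ PI N ∧ e i = (F i).eval y ∧ (e i = 0 → F i = 0) := by
    intro I e he
    choose! F hF hFe using he
    refine ⟨fun i => if e i = 0 then 0 else F i, fun i hi => ?_⟩
    by_cases h0 : e i = 0
    · simp only [if_pos h0]
      exact ⟨zero_mem _, by rw [eval_zero, h0], fun _ => trivial⟩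
    · simp only [if_neg h0]
      exact ⟨hF i hi, hFe i hi, fun h1 => absurd h1 h0⟩
  obtain ⟨F, hF⟩ := hex I e he
  obtain ⟨A, hA⟩ := hex J a ha
  obtain ⟨M, hMF, hMA⟩ : ∃ M : ℕ, (∀ i ≤ I, (F i).natDegree ≤ M) ∧ ∀ j ≤ J, (A j).natDegree ≤ M := by
    refine ⟨∑ i ∈ range (I + 1), (F i).natDegree + ∑ j ∈ range (J + 1), (A j).natDegree,
      fun i hi => ?_, fun j hj => ?_⟩
    · exact (single_le_sum (f := fun i => (F i).natDegree) (fun _ _ => Nat.zero_le _)
        (mem_range.2 (by omega))).trans (Nat.le_add_right _ _)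
    · exact (single_le_sum (f := fun j => (A j).natDegree) (fun _ _ => Nat.zero_le _)
        (mem_range.2 (by omega))).trans (Nat.le_add_left _ _)
  -- the constant near `y`
  obtain ⟨τ, hτ, hMτ, hLτ⟩ : ∃ τ : ℝ, 0 < τ ∧ M * τ ≤ μ / 2 ∧ L * τ ≤ δ / 2 := by
    refine ⟨min (μ / 2 / (M + 1)) (δ / 2 / (L + 1)), lt_min (by positivity) (by positivity), ?_, ?_⟩
    · refine (mul_le_mul_of_nonneg_left (min_le_left _ _) (Nat.cast_nonneg M)).trans ?_
      rw [mul_div_assoc', div_le_iff₀ (by positivity)]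
      nlinarith
    · refine (mul_le_mul_of_nonneg_left (min_le_right _ _) (Nat.cast_nonneg L)).trans ?_
      rw [mul_div_assoc', div_le_iff₀ (by positivity)]
      nlinarith
  obtain ⟨s, n, hn, hyn⟩ := hlim τ hτ
  have hq0 : 0 < p ^ s := pow_pos hp.out.pos s
  obtain ⟨n', hn'⟩ := IsAlgClosed.exists_pow_nat_eq n hq0
  obtain ⟨η, hηd⟩ : ∃ η, η = n' - y := ⟨_, rfl⟩
  have hη : v.Ge (σ - τ) η := by
    refine ge_of_pow hq0 ?_
    rw [hηd, sub_pow_char_pow, hn']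
    push_cast
    exact ge_sub_comm hyn
  have hyη : y + η = n' := by rw [hηd]; ring
  -- the constant coefficients
  have hee : ∀ i ≤ I, v.Ge (R₀ - p ^ i * r + μ / 2) ((F i).eval n' - e i) := by
    intro i hi
    obtain ⟨h1, h2, -⟩ := hF i hi
    rw [h2, ← hyη]
    refine near_eval (hMF i hi) hη hτ.le hMτ fun l hl => ?_
    have h3 := heg i hi l hl
    rw [h2, hD l _ h1] at h3
    exact h3
  have haa : ∀ j ≤ J, v.Ge (R₀ - p ^ j * σ + μ / 2) ((A j).eval n' - a j) := by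
    intro j hj
    obtain ⟨h1, h2, -⟩ := hA j hj
    rw [h2, ← hyη]
    refine near_eval (hMA j hj) hη hτ.le hMτ fun l hl => ?_
    have h3 := hag j hj l hl
    rw [h2, hD l _ h1] at h3
    exact h3
  have hev' : ∀ i ≤ I, (F i).eval n' ≠ 0 → v ((F i).eval n') = R₀ - p ^ i * r := by
    intro i hi h0
    obtain ⟨-, -, h3⟩ := hF i hi
    have h4 : e i ≠ 0 := fun h5 => h0 (by rw [h3 h5, eval_zero])
    have h5 : Gt v (v (e i)) (e i - (F i).eval n') := by
      rw [hev i hi h4]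
      exact Gt.of_ge (ge_sub_comm (hee i hi)) (by linarith)
    rw [(Gt.val_eq h4 h5).2, hev i hi h4]
  have hne' : ∃ i ≤ I, (F i).eval n' ≠ 0 := by
    obtain ⟨i, hi, h4⟩ := hne
    refine ⟨i, hi, ?_⟩
    have h5 : Gt v (v (e i)) (e i - (F i).eval n') := by
      rw [hev i hi h4]
      exact Gt.of_ge (ge_sub_comm (hee i hi)) (by linarith)
    exact (Gt.val_eq h4 h5).1
  have heb : ∀ i ≤ I, v.Ge (R₀ - p ^ i * r) ((F i).eval n') := fun i hi h0 => (hev' i hi h0).ge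
  -- the polynomials of the moved element
  obtain ⟨H, hH⟩ : ∃ H : Polynomial Ω, H = ∑ l ∈ range L, monomial (l + 1) ((f (l + 1)).eval y) :=
    ⟨_, rfl⟩
  have hHc : ∀ m, H.coeff m = hh m := by
    intro m
    rw [hH, finsetSum_coeff]
    simp only [coeff_monomial]
    rcases Nat.eq_zero_or_pos m with rfl | hm
    · rw [hh0]
      exact sum_eq_zero fun l _ => if_neg (by omega)
    · obtain ⟨m, rfl⟩ : ∃ m', m = m' + 1 := ⟨m - 1, by omega⟩
      simp only [Nat.add_right_cancel_iff]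
      rw [sum_ite_eq']
      split_ifs with h1
      · exact (hfe _).symm
      · rw [hhL _ (by have := mt mem_range.2 h1; omega)]
  have hHα : ∑ i ∈ range (L + 1), C (hh i) * α ^ i = H.comp α := by
    rw [Polynomial.comp, eval₂_eq_sum_range' C (n := L + 1)]
    · exact sum_congr rfl fun i _ => by rw [hHc]
    · refine Nat.lt_succ_of_le (natDegree_le_iff_coeff_eq_zero.2 fun m hm => ?_)
      rw [hHc, hhL m hm]
  rw [hHα] at hΨu
  obtain ⟨err, herr⟩ : ∃ err : Polynomial Ω, err = ∑ l ∈ range L,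
    (taylor y (f (l + 1)) - hasseDeriv (l + 1) H).comp α * (C η - α) ^ (l + 1) := ⟨_, rfl⟩
  have herrb : PBd v σ (r + δ / 2) err := by
    rw [herr]
    refine err_bd hα hη hτ.le hLτ fun l hl m => ?_
    rw [coeff_sub, taylor_coeff, hasseDeriv_coeff, hHc]
    rcases Nat.eq_zero_or_pos m with rfl | hm
    · rw [hasseDeriv_zero, zero_add, Nat.choose_self, Nat.cast_one, one_mul, LinearMap.id_apply,
        hfe, sub_self]
      exact RVal.Ge.zero
    · have h1 := hco (l + 1) m (by omega) (by omega) (by omega)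
      rw [hfe (l + 1), hD m _ (hf _)] at h1
      have h2 : (m + (l + 1)).choose (l + 1) = (l + 1 + m).choose m := by
        rw [add_comm m (l + 1), Nat.choose_symm_add]
      rw [h2, add_comm m (l + 1)]
      refine h1.mono (le_of_eq ?_)
      push_cast
      ring
  have hmov := moved_eq (β := β) (u := u) (η := η) (α := α) hH
  rw [← herr] at hmov
  obtain ⟨w₀, hw₀⟩ : ∃ w₀, w₀ = u + H.eval η := ⟨_, rfl⟩
  rw [← hw₀] at hmov
  obtain ⟨V, hV⟩ : ∃ V : Polynomial Ω, V = ∑ i ∈ range (I + 1), C ((F i).eval n') *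
      (C w₀ + β + err) ^ p ^ i + ∑ j ∈ range (J + 1), C ((A j).eval n') * (C η - α) ^ p ^ j :=
    ⟨_, rfl⟩
  obtain ⟨V₀, hV₀⟩ : ∃ V₀ : Ω, V₀ = ∑ i ∈ range (I + 1), (F i).eval n' * w₀ ^ p ^ i +
      ∑ j ∈ range (J + 1), (A j).eval n' * η ^ p ^ j := ⟨_, rfl⟩
  have hroot := root_bd (w₀ := w₀) (η := η) (half_pos hδ) hα hβ herrb heb hee haa hore
  rw [← hV, ← hV₀] at hroot
  obtain ⟨κ, hκd⟩ : ∃ κ, κ = min (μ / 2) (δ / 2) := ⟨_, rfl⟩
  rw [← hκd] at hroot
  have hκ : 0 < κ := by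
    rw [hκd]
    exact lt_min (half_pos hμ) (half_pos hδ)
  -- the powers
  have hpowN : ∀ G ∈ PI N, (G.eval n') ^ p ^ s ∈ N := by
    intro G hG
    rw [eval_eq_sum_range, sum_pow_char_pow]
    refine sum_mem fun i _ => ?_
    rw [_root_.mul_pow, ← pow_mul, mul_comm i, pow_mul, hn']
    exact mul_mem (pow_mem (hG i) _) (pow_mem hn _)
  have hwq : w₀ ^ p ^ s = u ^ p ^ s + ∑ l ∈ range L, (hh (l + 1)) ^ p ^ s *
      (n - y ^ p ^ s) ^ (l + 1) := by
    rw [hw₀, add_pow_char_pow, hH, eval_finsetSum, sum_pow_char_pow]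
    congr 1
    refine sum_congr rfl fun l _ => ?_
    rw [eval_monomial, _root_.mul_pow, ← pow_mul, mul_comm (l + 1), pow_mul, hηd,
      sub_pow_char_pow, hn', hfe]
  have hηq : η ^ p ^ s = n - y ^ p ^ s := by rw [hηd, sub_pow_char_pow, hn']
  have hVq : V₀ ^ p ^ s = ∑ i ∈ range (I + 1), ((F i).eval n') ^ p ^ s * (w₀ ^ p ^ s) ^ p ^ i +
      ∑ j ∈ range (J + 1), ((A j).eval n') ^ p ^ s * (η ^ p ^ s) ^ p ^ j := by
    rw [hV₀, add_pow_char_pow, sum_pow_char_pow, sum_pow_char_pow]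
    congr 1 <;> refine sum_congr rfl fun i _ => ?_ <;>
      rw [_root_.mul_pow, ← pow_mul, ← pow_mul, mul_comm (p ^ i)]
  -- the memberships
  have hhK : ∀ l, hh l ∈ K := fun l => by
    rw [hfe]
    exact (ser_evalp hΨ hNK hcon hyK (Y := C y + α) (by
      ext l
      rw [coeff_ser, Polynomial.coeff_coe, coeff_add, coeff_C]
      split_ifs with hl
      · rw [hl, hΨ.c0 _ hyK, hα0, add_zero]
      · rw [zero_add, hΨy l hl]) (hf l)).1
  have hηqK : η ^ p ^ s ∈ K := by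
    rw [hηq]
    exact sub_mem (hNK hn) (pow_mem hyK _)
  have hwqK : w₀ ^ p ^ s ∈ K := by
    rw [hwq, ← hηq]
    exact add_mem (pow_mem huK _) (sum_mem fun l _ => mul_mem (pow_mem (hhK _) _) (pow_mem hηqK _))
  have hUK : V₀ ^ p ^ s ∈ K := by
    rw [hVq]
    exact add_mem (sum_mem fun i hi => mul_mem (hNK (hpowN _ (hF i (by
      have := mem_range.1 hi; omega)).1)) (pow_mem hwqK _)) (sum_mem fun j hj => mul_mem
        (hNK (hpowN _ (hA j (by have := mem_range.1 hj; omega)).1)) (pow_mem hηqK _))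
  have hUA : V₀ ^ p ^ s ∈ Adn N {y, u} := by
    have hyA : y ∈ Adn N {y, u} := Algebra.subset_adjoin (Set.mem_insert _ _)
    have huA : u ∈ Adn N {y, u} :=
      Algebra.subset_adjoin (Set.mem_insert_of_mem _ (Set.mem_singleton u))
    have h1 : η ^ p ^ s ∈ Adn N {y, u} := by
      rw [hηq]
      exact sub_mem (mem_adn_of_mem hn) (pow_mem hyA _)
    have h2 : w₀ ^ p ^ s ∈ Adn N {y, u} := by
      rw [hwq, ← hηq]
      refine add_mem (pow_mem huA _) (sum_mem fun l _ => mul_mem (pow_mem ?_ _) (pow_mem h1 _))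
      rw [hfe]
      exact eval_mem_adn (Set.mem_insert _ _) fun i => mem_adn_of_mem (hf _ i)
    rw [hVq]
    exact add_mem (sum_mem fun i hi => mul_mem (mem_adn_of_mem (hpowN _ (hF i (by
      have := mem_range.1 hi; omega)).1)) (pow_mem h2 _)) (sum_mem fun j hj => mul_mem
        (mem_adn_of_mem (hpowN _ (hA j (by have := mem_range.1 hj; omega)).1)) (pow_mem h1 _))
  -- the jets
  have hserY : ser Ψ y = ((C y + α : Polynomial Ω) : PowerSeries Ω) := by
    ext l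
    rw [coeff_ser, Polynomial.coeff_coe, coeff_add, coeff_C]
    split_ifs with hl
    · rw [hl, hΨ.c0 _ hyK, hα0, add_zero]
    · rw [zero_add, hΨy l hl]
  have hserU : ser Ψ u = ((C u + H.comp α + β : Polynomial Ω) : PowerSeries Ω) := by
    ext l
    rw [coeff_ser, Polynomial.coeff_coe, add_assoc, coeff_add, coeff_C]
    split_ifs with hl
    · have h1 : (H.comp α).coeff 0 = 0 := by
        rw [coeff_zero_eq_eval_zero, eval_comp, ← coeff_zero_eq_eval_zero, hα0,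
          ← coeff_zero_eq_eval_zero, hHc, hh0]
      rw [hl, hΨ.c0 _ huK, coeff_add, h1, hβ0, add_zero, add_zero]
    · rw [zero_add, hΨu l hl]
  have hserη : ser Ψ (η ^ p ^ s) = (((C η - α) ^ p ^ s : Polynomial Ω) : PowerSeries Ω) := by
    rw [hηq, ser_sub hΨ (hNK hn) (pow_mem hyK _), ser_const hΨ (hNK hn) (hcon n hn),
      ser_pow hΨ hyK, hserY, ← Polynomial.coe_C, ← Polynomial.coe_pow, ← Polynomial.coe_sub]
    congr 1
    rw [sub_pow_char_pow, add_pow_char_pow, ← C_pow, ← C_pow, hηq, C_sub]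
    ring
  have hserw : ser Ψ (w₀ ^ p ^ s) = (((C w₀ + β + err) ^ p ^ s : Polynomial Ω) : PowerSeries Ω) := by
    have h1 : ∀ l, ser Ψ (hh l) = (((f l).comp (C y + α) : Polynomial Ω) : PowerSeries Ω) :=
      fun l => by
        rw [hfe]
        exact (ser_evalp hΨ hNK hcon hyK hserY (hf l)).2
    rw [hwq, ← hηq, ser_add hΨ (pow_mem huK _) (sum_mem fun l _ => mul_mem (pow_mem (hhK _) _)
      (pow_mem hηqK _)), ser_pow hΨ huK, ser_sum hΨ _ _ fun l _ => mul_mem (pow_mem (hhK _) _)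
      (pow_mem hηqK _), hserU, ← hmov, add_pow_char_pow (C u + H.comp α + β), sum_pow_char_pow,
      ← Polynomial.coe_pow, Polynomial.coe_add]
    congr 1
    rw [← Polynomial.coeToPowerSeries.ringHom_apply, map_sum]
    refine sum_congr rfl fun l _ => ?_
    rw [ser_mul hΨ (pow_mem (hhK _) _) (pow_mem hηqK _), ser_pow hΨ (hhK _), ser_pow hΨ hηqK,
      h1, hserη, ← Polynomial.coe_pow, ← Polynomial.coe_pow, ← Polynomial.coe_mul,
      Polynomial.coeToPowerSeries.ringHom_apply, _root_.mul_pow, ← pow_mul, ← pow_mul,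
      mul_comm (l + 1)]
  have hserV : ser Ψ (V₀ ^ p ^ s) = ((V : Polynomial Ω) : PowerSeries Ω) ^ p ^ s := by
    have hm1 : ∀ i ∈ range (I + 1), ((F i).eval n') ^ p ^ s ∈ N := fun i hi =>
      hpowN _ (hF i (by have := mem_range.1 hi; omega)).1
    have hm2 : ∀ j ∈ range (J + 1), ((A j).eval n') ^ p ^ s ∈ N := fun j hj =>
      hpowN _ (hA j (by have := mem_range.1 hj; omega)).1
    rw [hVq, ser_add hΨ (sum_mem fun i hi => mul_mem (hNK (hm1 i hi)) (pow_mem hwqK _))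
      (sum_mem fun j hj => mul_mem (hNK (hm2 j hj)) (pow_mem hηqK _)),
      ser_sum hΨ _ _ fun i hi => mul_mem (hNK (hm1 i hi)) (pow_mem hwqK _),
      ser_sum hΨ _ _ fun j hj => mul_mem (hNK (hm2 j hj)) (pow_mem hηqK _),
      ← Polynomial.coe_pow, hV, add_pow_char_pow (∑ i ∈ range (I + 1), _), sum_pow_char_pow,
      sum_pow_char_pow, Polynomial.coe_add]
    congr 1
    · rw [← Polynomial.coeToPowerSeries.ringHom_apply, map_sum]
      refine sum_congr rfl fun i hi => ?_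
      rw [ser_mul hΨ (hNK (hm1 i hi)) (pow_mem hwqK _), ser_pow hΨ hwqK, hserw,
        ser_const hΨ (hNK (hm1 i hi)) (hcon _ (hm1 i hi)), ← Polynomial.coe_C,
        ← Polynomial.coe_pow, ← Polynomial.coe_mul, Polynomial.coeToPowerSeries.ringHom_apply,
        _root_.mul_pow, C_pow, ← pow_mul, ← pow_mul, mul_comm (p ^ i)]
    · rw [← Polynomial.coeToPowerSeries.ringHom_apply, map_sum]
      refine sum_congr rfl fun j hj => ?_
      rw [ser_mul hΨ (hNK (hm2 j hj)) (pow_mem hηqK _), ser_pow hΨ hηqK, hserη,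
        ser_const hΨ (hNK (hm2 j hj)) (hcon _ (hm2 j hj)), ← Polynomial.coe_C,
        ← Polynomial.coe_pow, ← Polynomial.coe_mul, Polynomial.coeToPowerSeries.ringHom_apply,
        _root_.mul_pow, C_pow, ← pow_mul, ← pow_mul, mul_comm (p ^ j)]
  refine ⟨V₀ ^ p ^ s, p ^ s * R₀, κ, hUA, hUK, hκ, fun l hl => ?_, fun θ hθ => ?_⟩
  · -- jets
    have e4 : Ψ l (V₀ ^ p ^ s) = PowerSeries.coeff l (ser Ψ (V₀ ^ p ^ s)) := (coeff_ser _ _ _).symm
    rw [e4, hserV]
    by_cases hdvd : p ^ s ∣ l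
    · obtain ⟨m, rfl⟩ := hdvd
      have hm : m ≠ 0 := by
        rintro rfl
        exact hl (mul_zero _)
      rw [TWLM.coeff_ps_pow_pow, Polynomial.coeff_coe]
      have h1 := hroot m
      rw [coeff_sub, coeff_C, if_neg hm, sub_zero] at h1
      refine (ge_pow h1 (p ^ s)).mono ?_
      push_cast
      have h2 : (1 : ℝ) ≤ (p : ℝ) ^ s := one_le_pow₀ (by exact_mod_cast hp.out.one_lt.le)
      nlinarith
    · rw [TWLM.coeff_ps_pow_zero p _ _ _ hdvd]
      exact RVal.Ge.zero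
  · -- far
    obtain ⟨θ₁, hθ₁⟩ := IsAlgClosed.exists_pow_nat_eq θ hq0
    have hCa : ∀ x : Ω, x ∈ cadj v N y → x ∈ algc (cadj v N y) := fun x hx => le_algc _ hx
    have hn'a : n' ∈ algc (cadj v N y) := by
      rw [mem_algc]
      exact IsAlgebraic.of_pow hq0 (by
        rw [hn']
        exact mem_algc.1 (hCa n (hNC hn)))
    have hθ₁a : θ₁ ∈ algc (cadj v N y) := by
      rw [mem_algc]
      refine IsAlgebraic.of_pow hq0 ?_
      rw [hθ₁]
      exact hθ
    have hηa : η ∈ algc (cadj v N y) := by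
      rw [hηd]
      exact sub_mem hn'a (hCa _ hyC)
    have hevN : ∀ G ∈ PI N, ∀ x ∈ algc (cadj v N y), G.eval x ∈ algc (cadj v N y) := by
      intro G hG x hx
      rw [eval_eq_sum_range]
      exact sum_mem fun i _ => mul_mem (hCa _ (hNC (hG i))) (pow_mem hx i)
    have hHa : H.eval η ∈ algc (cadj v N y) := by
      rw [eval_eq_sum_range]
      refine sum_mem fun i _ => mul_mem ?_ (pow_mem hηa i)
      rw [hHc, hfe]
      exact hevN _ (hf i) _ (hCa _ hyC)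
    obtain ⟨c, hc⟩ : ∃ c, c = θ₁ - ∑ j ∈ range (J + 1), (A j).eval n' * η ^ p ^ j := ⟨_, rfl⟩
    have hca : c ∈ algc (cadj v N y) := by
      rw [hc]
      exact sub_mem hθ₁a (sum_mem fun j hj => mul_mem (hevN _ (hA j (by
        have := mem_range.1 hj; omega)).1 _ hn'a) (pow_mem hηa _))
    -- the root
    obtain ⟨G, hG⟩ : ∃ G : Polynomial Ω, G = ∑ i ∈ range (I + 1), C ((F i).eval n') * X ^ p ^ i -
      C c := ⟨_, rfl⟩
    have hGe : ∀ x, G.eval x = ∑ i ∈ range (I + 1), (F i).eval n' * x ^ p ^ i - c := by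
      intro x
      rw [hG, eval_sub, eval_finsetSum, eval_C]
      congr 1
      exact sum_congr rfl fun i _ => by rw [eval_mul, eval_C, eval_pow, eval_X]
    have hGc : ∀ n, n ≠ 0 → G.coeff n = ∑ i ∈ range (I + 1),
        if n = p ^ i then (F i).eval n' else 0 := by
      intro n hn0
      rw [hG, coeff_sub, coeff_C, if_neg hn0, sub_zero, finsetSum_coeff]
      exact sum_congr rfl fun i _ => by rw [coeff_C_mul, coeff_X_pow, mul_ite, mul_one, mul_zero]
    have hGco : ∀ n, G.coeff n ∈ algc (cadj v N y) := by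
      intro n
      by_cases hn0 : n = 0
      · rw [hn0, coeff_zero_eq_eval_zero, hGe]
        refine sub_mem (sum_mem fun i hi => mul_mem (hevN _ (hF i (by
          have := mem_range.1 hi; omega)).1 _ hn'a) (pow_mem (zero_mem _) _)) hca
      · rw [hGc n hn0]
        refine sum_mem fun i hi => ?_
        split_ifs
        · exact hevN _ (hF i (by have := mem_range.1 hi; omega)).1 _ hn'a
        · exact zero_mem _
    have hGdeg : G.degree ≠ 0 := by
      obtain ⟨i, hi, h0⟩ := hne'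
      intro h1
      have h2 : G.coeff (p ^ i) = 0 := coeff_eq_zero_of_degree_lt (by
        rw [h1]
        exact_mod_cast pow_pos hp.out.pos i)
      rw [hGc _ (pow_pos hp.out.pos i).ne', sum_eq_single i] at h2
      · rw [if_pos rfl] at h2
        exact h0 h2
      · intro i' _ hne
        rw [if_neg]
        intro h3
        exact hne (Nat.pow_right_injective hp.out.two_le h3.symm)
      · intro h3
        exact absurd (mem_range.2 (by omega)) h3
    obtain ⟨ξ, hξ⟩ := IsAlgClosed.exists_root G hGdeg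
    have hG0 : G ≠ 0 := by
      rintro rfl
      obtain ⟨i, hi, h0⟩ := hne'
      have h2 := hGc (p ^ i) (pow_pos hp.out.pos i).ne'
      rw [coeff_zero, sum_eq_single i] at h2
      · rw [if_pos rfl] at h2
        exact h0 h2.symm
      · intro i' _ hne
        rw [if_neg]
        intro h3
        exact hne (Nat.pow_right_injective hp.out.two_le h3.symm)
      · intro h3
        exact absurd (mem_range.2 (by omega)) h3
    have hξa : ξ ∈ algc (cadj v N y) :=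
      mem_algc.2 (isAlgebraic_of_algc (isAlgebraic_root (A := algc (cadj v N y)) hGco hG0 hξ))
    have hx : ∑ i ∈ range (I + 1), (F i).eval n' * ξ ^ p ^ i = c := by
      have h1 : G.eval ξ = 0 := hξ
      rw [hGe, sub_eq_zero] at h1
      exact h1
    have hVθ : V₀ - θ₁ = ∑ i ∈ range (I + 1), (F i).eval n' * (w₀ - ξ) ^ p ^ i := by
      simp only [sub_pow_char_pow, mul_sub, sum_sub_distrib]
      rw [hx, hc, hV₀]
      ring
    have hfar' := hfar (ξ - H.eval η) (mem_algc.1 (sub_mem hξa hHa))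
    have e2 : w₀ - ξ = u - (ξ - H.eval η) := by
      rw [hw₀]
      ring
    have hwξ0 : w₀ - ξ ≠ 0 := by
      rw [e2]
      exact sub_ne_zero.2 hfar'.1
    have hwξv : v (w₀ - ξ) < r := by
      rw [e2]
      exact hfar'.2
    obtain ⟨h1, h2⟩ := val_addp hev' hne' hwξ0 hwξv
    rw [← hVθ] at h1 h2
    have e3 : V₀ ^ p ^ s - θ = (V₀ - θ₁) ^ p ^ s := by rw [sub_pow_char_pow, hθ₁]
    refine ⟨fun h3 => ?_, ?_⟩
    · rw [h3, sub_self] at e3
      exact pow_ne_zero _ h1 e3.symm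
    · rw [e3, v.map_pow h1]
      push_cast
      exact mul_lt_mul_of_pos_left h2 (pow_pos (by exact_mod_cast hp.out.pos) s)

end Pool.Agent.TWRS
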