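import Pool.Agent.Lib.TWEX.Wi3

/-!
# TANK W, windows (first floor strict, `σ` rational), the exit, 1: back

`mv_cont`: continuity of polynomials, uniform on balls; `back_step`: one triangular coordinate;
`back_iter`: `y` from `y' = y + ∑ c_t(y) d ^ (p ^ t)`, by iteration.
-/

set_option autoImplicit false

open Polynomial Finset

namespace Pool.Agent.TWRS

open Pool.Agent.H15JM (RVal)
open Pool.Agent.LU1 (VPos adj)
open Pool.Agent.D2 (Ctx0)
open Pool.Agent.D2P (clI mem_clI mem_adj_iff mem_adj_self)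
open Pool.Agent.TWM
open Pool.Agent.TWEX
open Pool.Agent.TWII (PG LP)
open Pool.Agent.TWLM (HSd Oi Arc)
open Pool.Agent.TWN1 (Set0)
open Pool.Agent.TWMF (XD XW ED Tri mv)
open Pool.Agent.TW (Ctx kr)

universe u'

section cont

variable {Ω : Type u'} [Field Ω] {v : RVal Ω} {ι R : Type*} [CommRing R] [Algebra R Ω]

/-- Polynomials are bounded on balls. -/
theorem mv_bound (F : MvPolynomial ι R) (B₀ : ℝ) :
    ∃ C : ℝ, ∀ t : ι → Ω, (∀ i, v.Ge B₀ (t i)) → v.Ge C (MvPolynomial.aeval t F) := by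
  induction F using MvPolynomial.induction_on with
  | C a =>
    refine ⟨v (algebraMap R Ω a), fun t _ => ?_⟩
    rw [MvPolynomial.aeval_C]
    exact v.ge_self _
  | add F G hF hG =>
    obtain ⟨C₁, h1⟩ := hF
    obtain ⟨C₂, h2⟩ := hG
    refine ⟨min C₁ C₂, fun t ht => ?_⟩
    rw [map_add]
    exact ((h1 t ht).mono (min_le_left _ _)).add ((h2 t ht).mono (min_le_right _ _))
  | mul_X F i hF =>
    obtain ⟨C₁, h1⟩ := hF
    refine ⟨C₁ + B₀, fun t ht => ?_⟩
    rw [map_mul, MvPolynomial.aeval_X]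
    exact (h1 t ht).mul (ht i)

/-- Polynomials are uniformly continuous on balls. -/
theorem mv_cont (F : MvPolynomial ι R) (B₀ Λ : ℝ) :
    ∃ B : ℝ, B₀ ≤ B ∧ ∀ t t' : ι → Ω, (∀ i, v.Ge B₀ (t i)) → (∀ i, v.Ge B (t i - t' i)) →
      v.Ge Λ (MvPolynomial.aeval t F - MvPolynomial.aeval t' F) := by
  induction F using MvPolynomial.induction_on generalizing Λ with
  | C a =>
    refine ⟨B₀, le_rfl, fun t t' _ _ => ?_⟩
    rw [MvPolynomial.aeval_C, MvPolynomial.aeval_C, sub_self]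
    exact RVal.Ge.zero
  | add F G hF hG =>
    obtain ⟨B₁, h0, h1⟩ := hF Λ
    obtain ⟨B₂, -, h2⟩ := hG Λ
    refine ⟨max B₁ B₂, h0.trans (le_max_left _ _), fun t t' ht ht' => ?_⟩
    rw [map_add, map_add, add_sub_add_comm]
    exact (h1 t t' ht fun i => (ht' i).mono (le_max_left _ _)).add
      (h2 t t' ht fun i => (ht' i).mono (le_max_right _ _))
  | mul_X F i hF =>
    obtain ⟨B₁, h0, h1⟩ := hF (Λ - B₀)
    obtain ⟨C₁, h2⟩ := mv_bound (v := v) F B₀
    refine ⟨max B₁ (Λ - C₁), h0.trans (le_max_left _ _), fun t t' ht ht' => ?_⟩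
    have ht2 : ∀ i, v.Ge B₀ (t' i) := fun i => by
      have e : t' i = t i - (t i - t' i) := by ring
      rw [e]
      exact (ht i).sub ((ht' i).mono (h0.trans (le_max_left _ _)))
    rw [map_mul, map_mul, MvPolynomial.aeval_X, MvPolynomial.aeval_X]
    have e : MvPolynomial.aeval t F * t i - MvPolynomial.aeval t' F * t' i =
        (MvPolynomial.aeval t F - MvPolynomial.aeval t' F) * t i +
          MvPolynomial.aeval t' F * (t i - t' i) := by ring
    rw [e]
    refine (((h1 t t' ht fun i => (ht' i).mono (le_max_left _ _)).mul (ht i)).mono ?_).add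
      (((h2 t' ht2).mul ((ht' i).mono (le_max_right _ _))).mono ?_) <;> linarith

end cont

variable {k Ω : Type u'} [Field k] [Field Ω] [Algebra k Ω] {v : RVal Ω}

/-- **One triangular coordinate.** -/
theorem back_step {N₀ : IntermediateField k Ω} {m : ℕ} {t : Fin m → Ω} {A : ℕ → Ω}
    (hA : ∀ l : ℕ, l ≠ 0 → ∃ F : MvPolynomial (Fin m) N₀, A l = MvPolynomial.aeval t F) (n : ℕ)
    (B₀ Λ : ℝ) : ∃ B : ℝ, ∀ (M : IntermediateField k Ω) (t' : Fin m → Ω) (d d' w w' : Ω),
      N₀ ≤ M → (∀ i, t' i ∈ M) → d' ∈ M → w' ∈ M → (∀ i, v.Ge B (t i - t' i)) → v.Ge B₀ d →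
      v.Ge B (d - d') → w' = w + ∑ l ∈ range n, A (l + 1) * d ^ (l + 1) →
      ∃ s ∈ M, v.Ge Λ (w - s) := by
  classical
  choose F hF using fun l : ℕ => hA (l + 1) (Nat.succ_ne_zero l)
  obtain ⟨B₁, hB₁⟩ : ∃ B₁ : ℝ, ∀ i, v.Ge B₁ (t i) := by
    by_cases hm : (univ : Finset (Fin m)).Nonempty
    · obtain ⟨i₀, -, h1⟩ := univ.exists_min_image (fun i => v (t i)) hm
      exact ⟨v (t i₀), fun i _ => h1 i (mem_univ i)⟩
    · exact ⟨0, fun i => absurd ⟨i, mem_univ i⟩ hm⟩
  obtain ⟨G, hG⟩ : ∃ G : MvPolynomial (Option (Fin m)) N₀, G = ∑ l ∈ range n,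
    MvPolynomial.rename some (F l) * MvPolynomial.X none ^ (l + 1) := ⟨_, rfl⟩
  have hGe : ∀ (t : Fin m → Ω) (d : Ω), MvPolynomial.aeval (fun o : Option (Fin m) => o.elim d t) G =
      ∑ l ∈ range n, MvPolynomial.aeval t (F l) * d ^ (l + 1) := by
    intro t d
    rw [hG, map_sum]
    refine sum_congr rfl fun l _ => ?_
    rw [map_mul, map_pow, MvPolynomial.aeval_X, MvPolynomial.aeval_rename]
    rfl
  obtain ⟨B, -, hB⟩ := mv_cont (v := v) G (min B₀ B₁) Λ
  refine ⟨B, fun M t' d d' w w' hNM ht' hd' hw' ht hd hdd hww => ?_⟩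
  refine ⟨w' - MvPolynomial.aeval (fun o : Option (Fin m) => o.elim d' t') G, sub_mem hw' ?_, ?_⟩
  · rw [hGe]
    refine sum_mem fun l _ => mul_mem ?_ (pow_mem hd' _)
    have : ∀ P : MvPolynomial (Fin m) N₀, MvPolynomial.aeval t' P ∈ M := by
      intro P
      induction P using MvPolynomial.induction_on with
      | C a =>
        rw [MvPolynomial.aeval_C]
        exact hNM a.2
      | add P Q hP hQ =>
        rw [map_add]
        exact add_mem hP hQ
      | mul_X P i hP =>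
        rw [map_mul, MvPolynomial.aeval_X]
        exact mul_mem hP (ht' i)
    exact this _
  · have e : w - (w' - MvPolynomial.aeval (fun o : Option (Fin m) => o.elim d' t') G) =
        -(MvPolynomial.aeval (fun o : Option (Fin m) => o.elim d t) G -
          MvPolynomial.aeval (fun o : Option (Fin m) => o.elim d' t') G) := by
      rw [hww, hGe t d]
      have : ∑ l ∈ range n, A (l + 1) * d ^ (l + 1) =
          ∑ l ∈ range n, MvPolynomial.aeval t (F l) * d ^ (l + 1) :=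
        sum_congr rfl fun l _ => by rw [hF]
      rw [this]
      ring
    rw [e]
    refine (hB _ _ (fun o => ?_) fun o => ?_).neg
    · cases o with
      | none => exact hd.mono (min_le_left _ _)
      | some i => exact (hB₁ i).mono (min_le_right _ _)
    · cases o with
      | none => exact hdd
      | some i => exact ht i

/-- **Iteration.** -/
theorem back_iter {p : ℕ} (hp1 : 1 ≤ p) {M N₀ : IntermediateField k Ω} (hNM : N₀ ≤ M)
    {y y' d d' : Ω} (hy' : y' ∈ M) (hd' : d' ∈ M) {T₀ : Finset ℕ} {f : ℕ → Polynomial Ω}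
    (hf : ∀ t ∈ T₀, f t ∈ PI N₀) {n tm : ℕ} (hn : ∀ t ∈ T₀, (f t).natDegree ≤ n)
    (htm : ∀ t ∈ T₀, t ≤ tm) {σ μ β Λ : ℝ} (hμ : 0 < μ) (hβ : 0 ≤ β)
    (hb : (n + 1) * (p ^ tm * β) ≤ μ / 2) (hc : ∀ t ∈ T₀, v.Ge (σ - p ^ t * σ) ((f t).eval y))
    (hjet : ∀ t ∈ T₀, ∀ l : ℕ, l ≠ 0 →
      v.Ge (σ - p ^ t * σ - l * σ + μ) ((hasseDeriv l (f t)).eval y))
    (hΛ : σ ≤ Λ) (hd : v.Ge (σ - β) d) (hdd : v.Ge (σ + (Λ - σ)) (d - d')) [CharP Ω p]
    [Fact p.Prime] (hyy : y' = y + ∑ t ∈ T₀, (f t).eval y * d ^ p ^ t) :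
    ∃ Y ∈ M, v.Ge Λ (Y - y) := by
  classical
  have hpt : ∀ t : ℕ, (1 : ℝ) ≤ (p : ℝ) ^ t := fun t => one_le_pow₀ (by exact_mod_cast hp1)
  have hptm : ∀ t ∈ T₀, (p : ℝ) ^ t * β ≤ p ^ tm * β := fun t ht =>
    mul_le_mul_of_nonneg_right (pow_le_pow_right₀ (by exact_mod_cast hp1) (htm t ht)) hβ
  obtain ⟨B₁, hB₁⟩ : ∃ B₁ : ℝ, B₁ = p ^ tm * β := ⟨_, rfl⟩
  have hB₁0 : 0 ≤ B₁ := by rw [hB₁]; positivity
  rw [← hB₁] at hb hptm
  have hdg' : v.Ge (σ - β) d' := by
    have e : d' = d - (d - d') := by ring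
    rw [e]
    exact hd.sub (hdd.mono (by linarith))
  -- one step
  have step : ∀ (a : ℝ) (Y : Ω), Y ∈ M → σ - B₁ ≤ a → v.Ge a (Y - y) →
      ∃ Y' ∈ M, v.Ge (min (a + μ / 2) Λ) (Y' - y) := by
    intro a Y hY ha hYy
    refine ⟨y' - ∑ t ∈ T₀, (f t).eval Y * d' ^ p ^ t, sub_mem hy' (sum_mem fun t ht =>
      mul_mem ?_ (pow_mem hd' _)), ?_⟩
    · rw [eval_eq_sum_range]
      exact sum_mem fun i _ => mul_mem (hNM (hf t ht i)) (pow_mem hY i)
    have e : y' - ∑ t ∈ T₀, (f t).eval Y * d' ^ p ^ t - y =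
        ∑ t ∈ T₀, ((f t).eval y * (d - d') ^ p ^ t -
          ((f t).eval Y - (f t).eval y) * d' ^ p ^ t) := by
      rw [hyy, ← sub_eq_zero]
      have e2 : ∀ t ∈ T₀, (f t).eval y * (d - d') ^ p ^ t -
          ((f t).eval Y - (f t).eval y) * d' ^ p ^ t =
          (f t).eval y * d ^ p ^ t - (f t).eval Y * d' ^ p ^ t := by
        intro t _
        rw [sub_pow_char_pow]
        ring
      rw [sum_congr rfl e2, sum_sub_distrib]
      ring
    rw [e]
    refine RVal.Ge.sum _ _ fun t ht => RVal.Ge.sub ?_ ?_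
    · have h1 := (hc t ht).mul (TWM.ge_pow hdd (p ^ t))
      refine h1.mono ((min_le_right _ _).trans ?_)
      push_cast
      have h2 := hpt t
      nlinarith
    · -- Taylor
      have e3 : (f t).eval Y - (f t).eval y =
          ∑ l ∈ range n, (hasseDeriv (l + 1) (f t)).eval y * (Y - y) ^ (l + 1) := by
        have h1 : (f t).eval Y = ((taylor y (f t)).eval (Y - y)) := by
          rw [taylor_eval]
          congr 1
          ring
        have h2 : (taylor y (f t)).natDegree < n + 1 := by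
          rw [natDegree_taylor]
          exact Nat.lt_succ_of_le (hn t ht)
        rw [h1, eval_eq_sum_range' h2, sum_range_succ', taylor_coeff_zero, pow_zero, mul_one,
          add_sub_cancel_right]
        exact sum_congr rfl fun l _ => by rw [taylor_coeff]
      rw [e3, sum_mul]
      refine RVal.Ge.sum _ _ fun l hl => ?_
      have h1 := ((hjet t ht (l + 1) (Nat.succ_ne_zero l)).mul (TWM.ge_pow hYy (l + 1))).mul
        (TWM.ge_pow hdg' (p ^ t))
      refine h1.mono ((min_le_left _ _).trans ?_)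
      push_cast
      have h2 : (l : ℝ) + 1 ≤ n := by exact_mod_cast mem_range.1 hl
      have h3 := hptm t ht
      have h4 : (0 : ℝ) ≤ l := Nat.cast_nonneg l
      have h5 : (l : ℝ) * (σ - B₁) ≤ l * a := mul_le_mul_of_nonneg_left ha h4
      have h6 : (l : ℝ) * B₁ ≤ n * B₁ := mul_le_mul_of_nonneg_right (by linarith) hB₁0
      nlinarith
  -- the start
  have h0 : v.Ge (σ - B₁) (y' - y) := by
    have e : y' - y = ∑ t ∈ T₀, (f t).eval y * d ^ p ^ t := by
      rw [hyy]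
      ring
    rw [e]
    refine RVal.Ge.sum _ _ fun t ht => ((hc t ht).mul (TWM.ge_pow hd (p ^ t))).mono ?_
    push_cast
    have h3 := hptm t ht
    nlinarith
  have key : ∀ j : ℕ, ∃ Y ∈ M, v.Ge (min (σ - B₁ + j * (μ / 2)) Λ) (Y - y) := by
    intro j
    induction j with
    | zero => exact ⟨y', hy', h0.mono ((min_le_left _ _).trans (by simp))⟩
    | succ j ih =>
      obtain ⟨Y, hY, h1⟩ := ih
      have h2 : (0 : ℝ) ≤ j * (μ / 2) := by positivity
      obtain ⟨Y', hY', h3⟩ := step _ Y hY (le_min (by linarith) (by linarith)) h1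
      refine ⟨Y', hY', h3.mono ?_⟩
      push_cast
      refine le_min ?_ (min_le_right _ _)
      rcases le_total (σ - B₁ + j * (μ / 2)) Λ with h4 | h4
      · rw [min_eq_left h4]
        exact (min_le_left _ _).trans (by linarith)
      · rw [min_eq_right h4]
        exact (min_le_right _ _).trans (by linarith)
  obtain ⟨j, hj⟩ := exists_nat_ge ((Λ - (σ - B₁)) / (μ / 2))
  obtain ⟨Y, hY, h1⟩ := key j
  refine ⟨Y, hY, h1.mono (le_min ?_ le_rfl)⟩
  rw [div_le_iff₀ (half_pos hμ)] at hj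
  linarith

end Pool.Agent.TWRS
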